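import Pool.Agent.Z6.G1

open MvPolynomial Pool.Agent.MP_dd1803_nt Pool.Agent.ZPA Pool.Agent.ZL2

namespace Pool.Agent.Z6

variable {m : ℕ} {A B C : Polynomial ℂ} {c d : Fin m → ℂ}

/-- The fibre of the pencil over `y0`. -/
def Fb (A B C : Polynomial ℂ) (c d : Fin m → ℂ) (y0 : Fin m → ℂˣ) : Set (Fin 2 ⊕ Fin m → ℂˣ) :=
  {x | x ∈ TP A B C c d ∧ ∀ i, x (Sum.inr i) = y0 i}

theorem g6_par (hm : 0 < m) (hc : ∀ i, c i ≠ 0) {y : Fin m → ℂˣ} {t t' : ℂ} (h : ∀ i, (y i : ℂ) = c i * (t - d i))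
    (h' : ∀ i, (y i : ℂ) = c i * (t' - d i)) : t = t' := by
  have h1 := h ⟨0, hm⟩
  rw [h' ⟨0, hm⟩] at h1
  have h2 := mul_left_cancel₀ (hc _) h1
  linear_combination -h2

theorem g6_ne {y : Fin m → ℂˣ} {t : ℂ} (h : ∀ i, (y i : ℂ) = c i * (t - d i)) : ∀ i, t ≠ d i := by
  intro i hi
  have h1 := h i
  rw [hi, sub_self, mul_zero] at h1
  exact (y i).ne_zero h1

theorem g6_mem (hm : 0 < m) (hc : ∀ i, c i ≠ 0) {y0 : Fin m → ℂˣ} {t0 : ℂ} (ht0 : ∀ i, (y0 i : ℂ) = c i * (t0 - d i))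
    (x : Fin 2 ⊕ Fin m → ℂˣ) : x ∈ Fb A B C c d y0 ↔ (∀ i, x (Sum.inr i) = y0 i) ∧
      A.eval t0 * (x (Sum.inl 0) : ℂ) + B.eval t0 * (x (Sum.inl 1) : ℂ) = C.eval t0 := by
  constructor
  · rintro ⟨⟨t, ht, h⟩, hy⟩
    have e : t = t0 := g6_par (y := y0) hm hc (fun i => by rw [← hy i]; exact ht i) ht0
    rw [e] at h
    exact ⟨hy, h⟩
  · rintro ⟨hy, h⟩
    exact ⟨⟨t0, fun i => by rw [hy i]; exact ht0 i, h⟩, hy⟩

/-- If all coordinates are affine functions of the coordinate `e` on `Z`, a closed irreducible `X ⊆ Z` which is not all of `Z` is a point. -/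
theorem g6_line {κ : Type} [Fintype κ] {X Z : Set (κ → ℂˣ)} (hX : Irr X) (hXZ : X ⊆ Z) (htd : 1 ≤ td ℂ X) (e : κ) (α β : κ → ℂ)
    (h : ∀ x ∈ Z, ∀ j, (x j : ℂ) = α j + β j * (x e : ℂ)) : X = Z := by
  classical
  refine Set.Subset.antisymm hXZ ?_
  intro z hz
  by_contra hzX
  obtain ⟨x1, hx1⟩ := hX.nonempty
  obtain ⟨S, hS⟩ := hX.closed
  have hz1 : z ∉ {x : κ → ℂˣ | ∀ p ∈ S, MvPolynomial.eval (fun i => (x i : ℂ)) p = 0} := by
    rw [← hS]; exact hzX
  have hz2 : ∃ p ∈ S, MvPolynomial.eval (fun i => (z i : ℂ)) p ≠ 0 := by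
    by_contra hcon
    push Not at hcon
    exact hz1 hcon
  obtain ⟨p, hp, hpz⟩ := hz2
  let P : Polynomial ℂ := aeval (fun j => Polynomial.C (α j) + Polynomial.C (β j) * Polynomial.X) p
  have hP : ∀ x ∈ Z, P.eval (x e : ℂ) = MvPolynomial.eval (fun i => (x i : ℂ)) p := by
    intro x hx
    have h1 : P.eval (x e : ℂ) = Polynomial.aeval (x e : ℂ) P := by
      rw [Polynomial.coe_aeval_eq_eval]
    rw [h1]
    simp only [P]
    rw [MvPolynomial.comp_aeval_apply, ← Pool.Agent.MP_dd1803_nt.aeval_eq_eval]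
    congr 1
    congr 1
    funext j
    rw [co_apply, h x hx j]
    simp
  have hP0 : P ≠ 0 := by
    intro h0
    apply hpz
    rw [← hP z hz, h0, Polynomial.eval_zero]
  have hfin : {t : ℂ | ∃ y ∈ X, (y e : ℂ) = t}.Finite := by
    refine (Polynomial.finite_setOfPred_isRoot hP0).subset ?_
    rintro _ ⟨y, hy, rfl⟩
    show P.eval (y e : ℂ) = 0
    rw [hP y (hXZ hy)]
    rw [hS] at hy
    exact hy p hp
  have hconst := ZL2.const_of_finite hX.pirr e hfin x1 hx1
  have hXs : X = {x1} := by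
    refine Set.Subset.antisymm (fun x hx => ?_) (Set.singleton_subset_iff.2 hx1)
    rw [Set.mem_singleton_iff]
    funext j
    apply Units.ext
    rw [h x (hXZ hx) j, h x1 (hXZ hx1) j, hconst x hx]
  rw [hXs, ZL2.td_singleton'] at htd
  omega

/-- Row Z6-G6a. A one dimensional irreducible subset of the pencil on which the `y`-part is constant is a fibre: the fibre over `y0` (parameter `t0`) is given by one equation `A(t0) x_0 + B(t0) x_1 = C(t0)` with coefficients not all zero (`hcop`), it is irreducible of dimension one (a line or a coset; if nonempty). -/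
theorem eq_Fb (hm : 0 < m) (hcop : ∀ t, (∀ i, t ≠ d i) → ¬ (A.eval t = 0 ∧ B.eval t = 0 ∧ C.eval t = 0))
    (hc : ∀ i, c i ≠ 0) {X : Set (Fin 2 ⊕ Fin m → ℂˣ)} (hX : Irr X) (hXV : X ⊆ TP A B C c d) (htd : 1 ≤ td ℂ X)
    {y0 : Fin m → ℂˣ} (hy : ∀ x ∈ X, ∀ i, x (Sum.inr i) = y0 i) : X = Fb A B C c d y0 := by
  classical
  obtain ⟨x1, hx1⟩ := hX.nonempty
  obtain ⟨t0, ht, h1⟩ := hXV hx1
  have ht0 : ∀ i, (y0 i : ℂ) = c i * (t0 - d i) := fun i => by rw [← hy x1 hx1 i]; exact ht i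
  have hXF : X ⊆ Fb A B C c d y0 := fun x hx => ⟨hXV hx, hy x hx⟩
  have hABC := hcop t0 (g6_ne ht0)
  by_cases hB : B.eval t0 = 0
  · have hA : A.eval t0 ≠ 0 := by
      intro hA
      apply hABC
      rw [hA, hB, zero_mul, zero_mul, add_zero] at h1
      exact ⟨hA, hB, h1.symm⟩
    refine g6_line hX hXF htd (Sum.inl 1)
      (Sum.elim (fun i => if i = 0 then (A.eval t0)⁻¹ * C.eval t0 else 0) (fun i => (y0 i : ℂ)))
      (Sum.elim (fun i => if i = 0 then 0 else 1) (fun _ => 0)) ?_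
    intro x hx j
    obtain ⟨h2, h3⟩ := (g6_mem hm hc ht0 x).1 hx
    rcases j with j | j
    · fin_cases j
      · simp only [Sum.elim_inl, Fin.zero_eta, if_true, zero_mul, add_zero]
        rw [hB, zero_mul, add_zero] at h3
        rw [← h3]
        field_simp
      · simp
    · simp [h2 j]
  · refine g6_line hX hXF htd (Sum.inl 0)
      (Sum.elim (fun i => if i = 0 then 0 else (B.eval t0)⁻¹ * C.eval t0) (fun i => (y0 i : ℂ)))
      (Sum.elim (fun i => if i = 0 then 1 else - ((B.eval t0)⁻¹ * A.eval t0)) (fun _ => 0)) ?_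
    intro x hx j
    obtain ⟨h2, h3⟩ := (g6_mem hm hc ht0 x).1 hx
    rcases j with j | j
    · fin_cases j
      · simp
      · simp only [Sum.elim_inl, Fin.mk_one, one_ne_zero, if_false]
        rw [← h3]
        field_simp
        ring
    · simp [h2 j]

/-- Row Z6-G6b. The special fibres: finitely many `y0`. -/
theorem finite_special (hm : 0 < m) (hA : A ≠ 0) (hB : B ≠ 0) (hC : C ≠ 0) (hc : ∀ i, c i ≠ 0) :
    {y : Fin m → ℂˣ | ∃ t : ℂ, (∀ i, (y i : ℂ) = c i * (t - d i)) ∧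
      (A.eval t = 0 ∨ B.eval t = 0 ∨ C.eval t = 0)}.Finite := by
  have hfin : {t : ℂ | A.eval t = 0 ∨ B.eval t = 0 ∨ C.eval t = 0}.Finite := by
    have h1 := ((Polynomial.finite_setOfPred_isRoot hA).union
      ((Polynomial.finite_setOfPred_isRoot hB).union (Polynomial.finite_setOfPred_isRoot hC)))
    refine h1.subset ?_
    intro t ht
    exact ht
  refine Set.Finite.of_injOn (f := fun y : Fin m → ℂˣ => (y ⟨0, hm⟩ : ℂ) / c ⟨0, hm⟩ + d ⟨0, hm⟩) ?_ ?_ hfin
  · rintro y ⟨t, ht, h⟩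
    have h1 : (y ⟨0, hm⟩ : ℂ) / c ⟨0, hm⟩ + d ⟨0, hm⟩ = t := by
      rw [ht ⟨0, hm⟩]
      have := hc ⟨0, hm⟩
      field_simp
      ring
    have h2 : A.eval ((y ⟨0, hm⟩ : ℂ) / c ⟨0, hm⟩ + d ⟨0, hm⟩) = 0 ∨
        B.eval ((y ⟨0, hm⟩ : ℂ) / c ⟨0, hm⟩ + d ⟨0, hm⟩) = 0 ∨
        C.eval ((y ⟨0, hm⟩ : ℂ) / c ⟨0, hm⟩ + d ⟨0, hm⟩) = 0 := by
      rw [h1]
      exact h
    exact h2
  · rintro y ⟨t, ht, _⟩ y' ⟨t', ht', _⟩ hyy
    have h1 : ∀ (y : Fin m → ℂˣ) (t : ℂ), (∀ i, (y i : ℂ) = c i * (t - d i)) →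
        (y ⟨0, hm⟩ : ℂ) / c ⟨0, hm⟩ + d ⟨0, hm⟩ = t := by
      intro y t ht
      rw [ht ⟨0, hm⟩]
      have := hc ⟨0, hm⟩
      field_simp
      ring
    have h2 : t = t' := by
      rw [← h1 y t ht, ← h1 y' t' ht']
      exact hyy
    funext i
    apply Units.ext
    rw [ht i, ht' i, h2]

/-- Row Z6-G6c. On a line `a x_0 + b x_1 = 1` no nontrivial monomial in `x_0, x_1` is constant up to torsion, so the relations of a nonspecial fibre are those of `y0`. -/
theorem rk_Fb (hm : 0 < m) (hc : ∀ i, c i ≠ 0) {y0 : Fin m → ℂˣ} {t0 : ℂ} (ht0 : ∀ i, (y0 i : ℂ) = c i * (t0 - d i))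
    (hA : A.eval t0 ≠ 0) (hB : B.eval t0 ≠ 0) (hC : C.eval t0 ≠ 0) :
    rk (Fb A B C c d y0) ≤ rk ({y0} : Set (Fin m → ℂˣ)) := by
  classical
  have h0 : ∀ n ∈ Lam (Fb A B C c d y0), n (Sum.inl 0) = 0 ∧ n (Sum.inl 1) = 0 ∧
      (fun i => n (Sum.inr i)) ∈ Lam ({y0} : Set (Fin m → ℂˣ)) := by
    intro n hn
    obtain ⟨N, hN, hn⟩ := hn
    have hN' : (N : ℤ) ≠ 0 := by exact_mod_cast hN.ne'
    have hpt : ∀ s : ℂ, s ≠ 0 → C.eval t0 - A.eval t0 * s ≠ 0 → ∃ x ∈ Fb A B C c d y0, (x (Sum.inl 0) : ℂ) = s ∧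
        (x (Sum.inl 1) : ℂ) = (B.eval t0)⁻¹ * (C.eval t0 - A.eval t0 * s) := by
      intro s hs hs1
      refine ⟨Sum.elim (fun i => if i = 0 then Units.mk0 s hs
        else Units.mk0 ((B.eval t0)⁻¹ * (C.eval t0 - A.eval t0 * s)) (mul_ne_zero (inv_ne_zero hB) hs1)) y0, ?_, ?_, ?_⟩
      · rw [g6_mem hm hc ht0]
        refine ⟨fun i => rfl, ?_⟩
        simp only [Sum.elim_inl, if_true, one_ne_zero, if_false, Units.val_mk0]
        field_simp
        ring
      · simp
      · simp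
    have key : ∀ x ∈ Fb A B C c d y0, ((x (Sum.inl 0) : ℂ) ^ ((N : ℤ) * n (Sum.inl 0)) *
        (x (Sum.inl 1) : ℂ) ^ ((N : ℤ) * n (Sum.inl 1))) * ∏ i, (y0 i : ℂ) ^ ((N : ℤ) * n (Sum.inr i)) = 1 := by
      intro x hx
      have h1 := congrArg Units.val (hn x hx)
      obtain ⟨h2, -⟩ := (g6_mem hm hc ht0 x).1 hx
      unfold ch at h1
      rw [Fintype.prod_sum_type, Fin.prod_univ_two] at h1
      simp only [h2] at h1
      push_cast at h1
      rw [mul_pow, mul_pow, ← Finset.prod_pow] at h1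
      refine Eq.trans ?_ h1
      simp_rw [mul_comm (N : ℤ), zpow_mul, zpow_natCast]
    have hC0 : (∏ i, (y0 i : ℂ) ^ ((N : ℤ) * n (Sum.inr i))) ≠ 0 :=
      Finset.prod_ne_zero_iff.2 fun i _ => zpow_ne_zero _ (y0 i).ne_zero
    have hx : n (Sum.inl 0) = 0 ∧ n (Sum.inl 1) = 0 := by
      by_contra hcon
      rw [not_and_or] at hcon
      have hfin := ZL2.fin_sol (div_ne_zero hA hC) (div_ne_zero hB hC) (n := (N : ℤ) * n (Sum.inl 0))
        (n' := (N : ℤ) * n (Sum.inl 1))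
        (by
          rcases hcon with h | h
          · exact Or.inl (mul_ne_zero hN' h)
          · exact Or.inr (mul_ne_zero hN' h)) (∏ i, (y0 i : ℂ) ^ ((N : ℤ) * n (Sum.inr i)))⁻¹
          (inv_ne_zero hC0)
      have hinf : ({0, (A.eval t0)⁻¹ * C.eval t0} : Set ℂ)ᶜ.Infinite := Set.Finite.infinite_compl (Set.toFinite _)
      apply hinf
      refine hfin.subset ?_
      intro s hs
      simp only [Set.mem_compl_iff, Set.mem_insert_iff, Set.mem_singleton_iff, not_or] at hs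
      obtain ⟨hs0, hs1⟩ := hs
      have hs2 : C.eval t0 - A.eval t0 * s ≠ 0 := by
        intro h
        apply hs1
        field_simp
        linear_combination -h
      obtain ⟨x, hx, e0, e1⟩ := hpt s hs0 hs2
      refine ⟨hs0, (x (Sum.inl 1) : ℂ), (x (Sum.inl 1)).ne_zero, ?_, ?_⟩
      · rw [e1]
        field_simp
        ring
      · rw [← e0]
        exact eq_inv_of_mul_eq_one_left (key x hx)
    refine ⟨hx.1, hx.2, N, hN, ?_⟩
    intro y hy
    rw [Set.mem_singleton_iff] at hy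
    subst hy
    obtain ⟨s, hs0, hs2⟩ : ∃ s : ℂ, s ≠ 0 ∧ C.eval t0 - A.eval t0 * s ≠ 0 := by
      have hinf : ({0, (A.eval t0)⁻¹ * C.eval t0} : Set ℂ)ᶜ.Infinite := Set.Finite.infinite_compl (Set.toFinite _)
      obtain ⟨s, hs⟩ := hinf.nonempty
      simp only [Set.mem_compl_iff, Set.mem_insert_iff, Set.mem_singleton_iff, not_or] at hs
      refine ⟨s, hs.1, fun h => hs.2 ?_⟩
      field_simp
      linear_combination -h
    obtain ⟨x, hx1, -, -⟩ := hpt s hs0 hs2
    have h1 := key x hx1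
    rw [hx.1, hx.2, mul_zero, zpow_zero, zpow_zero, one_mul, one_mul] at h1
    apply Units.ext
    unfold ch
    push_cast
    rw [← Finset.prod_pow]
    refine Eq.trans ?_ h1
    simp_rw [mul_comm (N : ℤ), zpow_mul, zpow_natCast]
  let f : Lam (Fb A B C c d y0) →ₗ[ℤ] Lam ({y0} : Set (Fin m → ℂˣ)) :=
    ((LinearMap.funLeft ℤ ℤ (Sum.inr : Fin m → Fin 2 ⊕ Fin m)).comp (Lam (Fb A B C c d y0)).subtype).codRestrict _
      (fun n => (h0 n.1 n.2).2.2)
  have hf : Function.Injective f := by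
    rw [injective_iff_map_eq_zero]
    rintro ⟨n, hn⟩ hfn
    apply Subtype.ext
    funext j
    rcases j with j | j
    · fin_cases j
      · exact (h0 n hn).1
      · exact (h0 n hn).2.1
    · have h1 := congrArg Subtype.val hfn
      exact congrFun h1 j
  exact LinearMap.finrank_le_finrank_of_injective hf

/-- Row Z6-G6d. Sets which are cosets: compare `ZL2.coset_point` and `Z5.coset_point_TL`. `X` is a translate of a subtorus by algebraic constants. The `y`-part is constant on `X` (as before, `2 ≤ m`: on a coset `y_0` and `y_1` are constants or nonconstant characters times constants, and `c_0 y_1 - c_1 y_0` is a nonzero constant). If `X` is a point, it is algebraic.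
Otherwise `1 ≤ td X`, `X = Fb y0` by `eq_Fb` and, as a line `a x_0 + b x_1 = 1` with `a, b ≠ 0` is not a coset, `t0` is special. -/
theorem coset_TP (hm : 2 ≤ m) (hcop : ∀ t, (∀ i, t ≠ d i) → ¬ (A.eval t = 0 ∧ B.eval t = 0 ∧ C.eval t = 0))
    (hc : ∀ i, c i ≠ 0) (hd : Function.Injective d) {X : Set (Fin 2 ⊕ Fin m → ℂˣ)} (hX : Irr X)
    (hXV : X ⊆ TP A B C c d) (h : m + 2 ≤ td ℂ X + ar X) :
    (∃ P, X = {P} ∧ ∀ i, IsAlgebraic ℚ (P i : ℂ)) ∨
      ∃ (y0 : Fin m → ℂˣ) (t : ℂ), (∀ i, (y0 i : ℂ) = c i * (t - d i)) ∧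
        (A.eval t = 0 ∨ B.eval t = 0 ∨ C.eval t = 0) ∧ X = Fb A B C c d y0 := by
  classical
  have hm0 : 0 < m := by omega
  obtain ⟨x0, hx0⟩ := hX.nonempty
  obtain ⟨t0, ht, h1⟩ := hXV hx0
  have hcard : Fintype.card (Fin 2 ⊕ Fin m) = m + 2 := by simp [add_comm]
  obtain ⟨i0, hi0⟩ : ∃ i : Fin m, i = ⟨0, hm0⟩ := ⟨_, rfl⟩
  obtain ⟨i1, hi1⟩ : ∃ i : Fin m, i = ⟨1, hm⟩ := ⟨_, rfl⟩
  have hi01 : i0 ≠ i1 := by
    rw [hi0, hi1]
    simp
  have hd01 : d i1 - d i0 ≠ 0 := sub_ne_zero.2 fun e => hi01 (hd e).symm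
  have hy : ∀ x ∈ X, ∀ i, x (Sum.inr i) = x0 (Sum.inr i) := by
    intro x hx
    have h2 := Z5.g1_const hX (by rw [hcard]; exact h) ![Sum.inr i0, Sum.inr i1]
      (by intro u v huv; fin_cases u <;> fin_cases v <;> simp_all)
      (α := (c i0 * (d i1 - d i0))⁻¹) (β := -(c i1 * (d i1 - d i0))⁻¹)
      (inv_ne_zero (mul_ne_zero (hc i0) hd01)) (neg_ne_zero.2 (inv_ne_zero (mul_ne_zero (hc i1) hd01)))
      (fun x hx => by
        obtain ⟨t, ht, -⟩ := hXV hx
        show (c i0 * (d i1 - d i0))⁻¹ * (x (Sum.inr i0) : ℂ) + -(c i1 * (d i1 - d i0))⁻¹ * (x (Sum.inr i1) : ℂ) = 1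
        rw [ht i0, ht i1]
        have h3 := hc i0
        have h4 := hc i1
        field_simp
        ring) x hx x0 hx0
    have h2' : x (Sum.inr i0) = x0 (Sum.inr i0) := h2
    obtain ⟨t, htx, -⟩ := hXV hx
    have h3 : t = t0 := by
      have h4 := htx i0
      rw [h2', ht i0] at h4
      have h5 := mul_left_cancel₀ (hc i0) h4
      linear_combination -h5
    intro i
    apply Units.ext
    rw [htx i, ht i, h3]
  by_cases htd0 : td ℂ X = 0
  · left
    have hXs : X = {x0} := by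
      refine (eq_of_td_le (irr_singleton x0) hX (Set.singleton_subset_iff.2 hx0) ?_).symm
      rw [htd0]
      exact Nat.zero_le _
    refine ⟨x0, hXs, fun j => ?_⟩
    have hfull : Fintype.card (Fin 2 ⊕ Fin m) ≤ ar X := by omega
    obtain ⟨n, hn, hmem⟩ : ∃ n : ℤ, n ≠ 0 ∧ n • (Pi.single j 1 : Fin 2 ⊕ Fin m → ℤ) ∈ Alat X := by
      by_contra hcon
      push Not at hcon
      have h1 := finrank_lt_of_mem (R := ℤ) (Alat X) ⊤ le_top (Pi.single j 1) trivial hcon
      rw [finrank_top, Module.finrank_fintype_fun_eq_card] at h1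
      unfold ar at hfull
      omega
    obtain ⟨c', hc', hcx⟩ := hmem
    have h1 := hcx x0 hx0
    rw [ch_zsmul, ch_single, zpow_one] at h1
    rw [mem_acl_empty] at hc'
    rw [← h1] at hc'
    have h2 : IsAlgebraic ℚ ((x0 j : ℂ) ^ n.natAbs) := by
      rw [Units.val_zpow_eq_zpow_val] at hc'
      rcases Int.natAbs_eq n with h3 | h3
      · rw [h3, zpow_natCast] at hc'
        exact hc'
      · rw [h3, zpow_neg, zpow_natCast] at hc'
        exact (IsAlgebraic.inv_iff).1 hc'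
    exact IsAlgebraic.of_pow (Int.natAbs_pos.2 hn) h2
  · right
    have htd : 1 ≤ td ℂ X := Nat.one_le_iff_ne_zero.2 htd0
    refine ⟨fun i => x0 (Sum.inr i), t0, ht, ?_, eq_Fb hm0 hcop hc hX hXV htd hy⟩
    by_contra hcon
    push Not at hcon
    obtain ⟨hA, hB, hC⟩ := hcon
    have hl : ∀ x ∈ X, A.eval t0 * (x (Sum.inl 0) : ℂ) + B.eval t0 * (x (Sum.inl 1) : ℂ) = C.eval t0 := by
      intro x hx
      exact ((g6_mem (y0 := fun i => x0 (Sum.inr i)) hm0 hc ht x).1 ⟨hXV hx, hy x hx⟩).2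
    have hXs : X = {x0} := by
      refine Set.Subset.antisymm (fun x hx => ?_) (Set.singleton_subset_iff.2 hx0)
      rw [Set.mem_singleton_iff]
      have h2 := Z5.g1_const hX (by rw [hcard]; exact h) ![Sum.inl 0, Sum.inl 1]
        (by intro u v huv; fin_cases u <;> fin_cases v <;> simp_all)
        (div_ne_zero hA hC) (div_ne_zero hB hC)
        (fun x hx => by
          show A.eval t0 / C.eval t0 * (x (Sum.inl 0) : ℂ) + B.eval t0 / C.eval t0 * (x (Sum.inl 1) : ℂ) = 1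
          have h3 := hl x hx
          field_simp
          exact h3) x hx x0 hx0
      have h2' : x (Sum.inl 0) = x0 (Sum.inl 0) := h2
      funext j
      rcases j with j | j
      · fin_cases j
        · exact h2'
        · apply Units.ext
          show (x (Sum.inl 1) : ℂ) = (x0 (Sum.inl 1) : ℂ)
          have e1 := hl x hx
          have e2 := hl x0 hx0
          rw [h2'] at e1
          exact mul_left_cancel₀ hB (by linear_combination e1 - e2)
      · exact hy x hx j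
    apply htd0
    rw [hXs, ZL2.td_singleton']

/-- Row Z6-G6e. If the `y`-part is not constant on `X`, then no nontrivial monomial in the `y_i` is constant on `X` (`∏ (c_i (t - d_i))^(k_i)`, `k ≠ 0`, takes every value finitely often, and the parameter `t` is a polynomial function on `X`, constant if it takes finitely many values on the irreducible `X`), so the projection of `Alat X` to the
first two exponents is injective. -/
theorem ar_le_two (hm : 0 < m) (hc : ∀ i, c i ≠ 0) (hd : Function.Injective d) {X : Set (Fin 2 ⊕ Fin m → ℂˣ)} (hX : Irr X)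
    (hXV : X ⊆ TP A B C c d) (hy : ¬ ∃ y0 : Fin m → ℂˣ, ∀ x ∈ X, ∀ i, x (Sum.inr i) = y0 i) : ar X ≤ 2 := by
  classical
  obtain ⟨i0, hi0⟩ : ∃ i : Fin m, i = ⟨0, hm⟩ := ⟨_, rfl⟩
  obtain ⟨x0, hx0⟩ := hX.nonempty
  let f : Alat X →ₗ[ℤ] (Fin 2 → ℤ) :=
    (LinearMap.funLeft ℤ ℤ (Sum.inl : Fin 2 → Fin 2 ⊕ Fin m)).comp (Alat X).subtype
  have hf : Function.Injective f := by
    rw [injective_iff_map_eq_zero]
    rintro ⟨n, hn⟩ hfn
    have hl : ∀ j, n (Sum.inl j) = 0 := fun j => congrFun hfn j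
    obtain ⟨g, _, hg⟩ := hn
    by_contra hne
    have hr : ∃ j, n (Sum.inr j) ≠ 0 := by
      by_contra hcon
      push Not at hcon
      apply hne
      apply Subtype.ext
      funext j
      rcases j with j | j
      · exact hl j
      · exact hcon j
    obtain ⟨j, hj⟩ := hr
    apply hy
    have hg' : ∀ x ∈ X, ∏ i, (x (Sum.inr i) : ℂ) ^ n (Sum.inr i) = (g : ℂ) := by
      intro x hx
      have h1 := congrArg Units.val (hg x hx)
      unfold ch at h1
      rw [Fintype.prod_sum_type] at h1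
      simp only [hl, zpow_zero, Finset.prod_const_one, one_mul] at h1
      push_cast at h1
      exact h1
    let P : Polynomial ℂ := ∏ i, (Polynomial.C (c i) * (Polynomial.X - Polynomial.C (d i))) ^ (n (Sum.inr i)).toNat
    let Q : Polynomial ℂ := ∏ i, (Polynomial.C (c i) * (Polynomial.X - Polynomial.C (d i))) ^ (-n (Sum.inr i)).toNat
    have hP : ∀ t, P.eval t = ∏ i, (c i * (t - d i)) ^ (n (Sum.inr i)).toNat := by
      intro t
      simp only [P, Polynomial.eval_prod, Polynomial.eval_pow, Polynomial.eval_mul, Polynomial.eval_C,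
        Polynomial.eval_sub, Polynomial.eval_X]
    have hQ : ∀ t, Q.eval t = ∏ i, (c i * (t - d i)) ^ (-n (Sum.inr i)).toNat := by
      intro t
      simp only [Q, Polynomial.eval_prod, Polynomial.eval_pow, Polynomial.eval_mul, Polynomial.eval_C,
        Polynomial.eval_sub, Polynomial.eval_X]
    have hne0 : P - Polynomial.C (g : ℂ) * Q ≠ 0 := by
      intro h0
      have h1 : P.eval (d j) = (g : ℂ) * Q.eval (d j) := by
        have h2 := congrArg (Polynomial.eval (d j)) h0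
        simp only [Polynomial.eval_sub, Polynomial.eval_mul, Polynomial.eval_C, Polynomial.eval_zero] at h2
        exact sub_eq_zero.1 h2
      rw [hP, hQ] at h1
      have hz : ∀ k : Fin m → ℕ, k j = 0 → ∏ i, (c i * (d j - d i)) ^ k i ≠ 0 := by
        intro k hk
        rw [Finset.prod_ne_zero_iff]
        intro i _
        by_cases hij : i = j
        · subst hij
          rw [hk, pow_zero]
          exact one_ne_zero
        · exact pow_ne_zero _ (mul_ne_zero (hc i) (sub_ne_zero.2 fun e => hij (hd e).symm))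
      have hz0 : ∀ k : Fin m → ℕ, k j ≠ 0 → ∏ i, (c i * (d j - d i)) ^ k i = 0 := by
        intro k hk
        refine Finset.prod_eq_zero (Finset.mem_univ j) ?_
        rw [sub_self, mul_zero, zero_pow hk]
      rcases lt_or_gt_of_ne hj with hj' | hj'
      · rw [hz0 (fun i => (-n (Sum.inr i)).toNat) (by show (-n (Sum.inr j)).toNat ≠ 0; omega), mul_zero] at h1
        exact hz (fun i => (n (Sum.inr i)).toNat) (by show (n (Sum.inr j)).toNat = 0; omega) h1
      · rw [hz0 (fun i => (n (Sum.inr i)).toNat) (by show (n (Sum.inr j)).toNat ≠ 0; omega)] at h1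
        exact mul_ne_zero g.ne_zero (hz (fun i => (-n (Sum.inr i)).toNat)
          (by show (-n (Sum.inr j)).toNat = 0; omega)) h1.symm
    have hfin : {z : ℂ | ∃ x ∈ X, (x (Sum.inr i0) : ℂ) = z}.Finite := by
      refine ((Polynomial.finite_setOfPred_isRoot hne0).image (fun t => c i0 * (t - d i0))).subset ?_
      rintro _ ⟨x, hx, rfl⟩
      obtain ⟨t, ht, -⟩ := hXV hx
      refine ⟨t, ?_, (ht i0).symm⟩
      show (P - Polynomial.C (g : ℂ) * Q).eval t = 0
      rw [Polynomial.eval_sub, Polynomial.eval_mul, Polynomial.eval_C, hP, hQ, sub_eq_zero, ← hg' x hx,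
        ← Finset.prod_mul_distrib]
      refine Finset.prod_congr rfl fun i _ => ?_
      have h3 : (x (Sum.inr i) : ℂ) ≠ 0 := (x (Sum.inr i)).ne_zero
      rw [← ht i, ← zpow_natCast, ← zpow_natCast, ← zpow_add₀ h3]
      congr 1
      omega
    have hconst := ZL2.const_of_finite hX.pirr (Sum.inr i0) hfin x0 hx0
    refine ⟨fun i => x0 (Sum.inr i), fun x hx i => ?_⟩
    obtain ⟨t, ht, -⟩ := hXV hx
    obtain ⟨t0, ht0, -⟩ := hXV hx0
    have h3 : t = t0 := by
      have h4 := ht i0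
      rw [hconst x hx, ht0 i0] at h4
      have h5 := mul_left_cancel₀ (hc i0) h4
      linear_combination -h5
    apply Units.ext
    show (x (Sum.inr i) : ℂ) = (x0 (Sum.inr i) : ℂ)
    rw [ht i, ht0 i, h3]
  have h1 := LinearMap.finrank_le_finrank_of_injective hf
  rw [Module.finrank_fintype_fun_eq_card, Fintype.card_fin] at h1
  exact h1

end Pool.Agent.Z6

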