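import Pool.Agent.Z6.G4
import Pool.Agent.Z6.G6

open MvPolynomial Pool.Agent.MP_dd1803_nt Pool.Agent.ZPA Pool.Agent.ZL2

namespace Pool.Agent.Z6

variable {m : ℕ} {A B C : Polynomial ℂ} {c d : Fin m → ℂ}

/-- Lift of a polynomial with algebraic coefficients. -/
theorem g5_lift {P : Polynomial ℂ} (hP : ∀ k, IsAlgebraic ℚ (P.coeff k)) :
    ∃ Q : Polynomial (acl (∅ : Set ℂ)), Q.map (algebraMap (acl (∅ : Set ℂ)) ℂ) = P := by
  have h1 : P ∈ Polynomial.lifts (algebraMap (acl (∅ : Set ℂ)) ℂ) := by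
    rw [Polynomial.lifts_iff_coeff_lifts]
    intro n
    exact ⟨⟨P.coeff n, mem_acl_empty.2 (hP n)⟩, rfl⟩
  rw [Polynomial.mem_lifts] at h1
  exact h1

theorem g5_aeval {κ : Type} (x : κ → ℂˣ) (Q : Polynomial (acl (∅ : Set ℂ)))
    (τ : MvPolynomial κ (acl (∅ : Set ℂ))) :
    aeval (co x) (Polynomial.aeval τ Q) =
      (Q.map (algebraMap (acl (∅ : Set ℂ)) ℂ)).eval (aeval (co x) τ) := by
  rw [Polynomial.eval_map_algebraMap]
  exact (Polynomial.aeval_algHom_apply (aeval (co x)) τ Q).symm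

theorem g5_iff (hm : 0 < m) (hc : ∀ i, c i ≠ 0) (x : Fin 2 ⊕ Fin m → ℂˣ) :
    x ∈ TP A B C c d ↔ (∀ i, c ⟨0, hm⟩ * (x (Sum.inr i) : ℂ) - c i * (x (Sum.inr ⟨0, hm⟩) : ℂ) -
      c ⟨0, hm⟩ * c i * (d ⟨0, hm⟩ - d i) = 0) ∧
      A.eval ((c ⟨0, hm⟩)⁻¹ * (x (Sum.inr ⟨0, hm⟩) : ℂ) + d ⟨0, hm⟩) * (x (Sum.inl 0) : ℂ) +
      B.eval ((c ⟨0, hm⟩)⁻¹ * (x (Sum.inr ⟨0, hm⟩) : ℂ) + d ⟨0, hm⟩) * (x (Sum.inl 1) : ℂ) -
      C.eval ((c ⟨0, hm⟩)⁻¹ * (x (Sum.inr ⟨0, hm⟩) : ℂ) + d ⟨0, hm⟩) = 0 := by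
  have h0 := hc ⟨0, hm⟩
  constructor
  · rintro ⟨t, ht, h⟩
    have e : (c ⟨0, hm⟩)⁻¹ * (x (Sum.inr ⟨0, hm⟩) : ℂ) + d ⟨0, hm⟩ = t := by
      rw [ht]
      field_simp
      ring
    refine ⟨fun i => ?_, ?_⟩
    · rw [ht i, ht ⟨0, hm⟩]
      ring
    · rw [e, h, sub_self]
  · rintro ⟨h1, h2⟩
    refine ⟨(c ⟨0, hm⟩)⁻¹ * (x (Sum.inr ⟨0, hm⟩) : ℂ) + d ⟨0, hm⟩, fun i => ?_, sub_eq_zero.1 h2⟩
    have h3 := h1 i
    apply mul_left_cancel₀ h0
    field_simp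
    linear_combination h3

/-- A nonempty irreducible set defined over the algebraic numbers has an algebraic point. -/
theorem g5_algpt {κ : Type} [Fintype κ] {X : Set (κ → ℂˣ)} (hX : Irr X)
    (hcl : cl (acl (∅ : Set ℂ)) X = X) : ∃ w ∈ X, ∀ i, IsAlgebraic ℚ (w i : ℂ) := by
  classical
  have hac : IsAlgClosed (acl (∅ : Set ℂ)) := isAlgClosed_acl _
  have hpr : (vI (acl (∅ : Set ℂ)) X).IsPrime := vI_isPrime hX.pirr
  have h1 := vI_zl (F := acl (∅ : Set ℂ)) (k := acl (∅ : Set ℂ)) (vI (acl (∅ : Set ℂ)) X)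
    (fun i => X_not_mem_vI hX.nonempty i)
  obtain ⟨z, hz⟩ : (zl (F := acl (∅ : Set ℂ)) (acl (∅ : Set ℂ))
      (vI (acl (∅ : Set ℂ)) X : Set (MvPolynomial κ (acl (∅ : Set ℂ))))).Nonempty := by
    by_contra hne
    rw [Set.not_nonempty_iff_eq_empty] at hne
    rw [hne] at h1
    apply hpr.ne_top
    rw [← h1, Ideal.eq_top_iff_one, mem_vI]
    intro x hx
    exact absurd hx (Set.notMem_empty x)
  refine ⟨fun i => Units.map (algebraMap (acl (∅ : Set ℂ)) ℂ : acl (∅ : Set ℂ) →* ℂ) (z i), ?_, fun i => ?_⟩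
  · rw [← hcl]
    intro p hp
    have h2 := hz p hp
    have h3 : (co fun i => Units.map (algebraMap (acl (∅ : Set ℂ)) ℂ : acl (∅ : Set ℂ) →* ℂ) (z i)) =
        fun i => algebraMap (acl (∅ : Set ℂ)) ℂ (co z i) := by
      funext i
      rfl
    have h4 : aeval (fun i => algebraMap (acl (∅ : Set ℂ)) ℂ (co z i)) p =
        algebraMap (acl (∅ : Set ℂ)) ℂ (aeval (co z) p) :=
      MvPolynomial.aeval_algebraMap_apply ℂ (co z) p
    rw [h3, h4, h2, map_zero]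
  · exact mem_acl_empty.1 ((z i : acl (∅ : Set ℂ))).2

/-- Row Z6-G5a. A pencil with algebraic coefficients is defined over the algebraic numbers (zero set of polynomials with coefficients in `acl ∅`; see the equations in `zclosed_TP` and lemmas on `cl` of zero sets, `zl`, in `MP_dd1803_nt`). -/
theorem cl_TP (hm : 0 < m) (hAa : ∀ k, IsAlgebraic ℚ (A.coeff k)) (hBa : ∀ k, IsAlgebraic ℚ (B.coeff k))
    (hCa : ∀ k, IsAlgebraic ℚ (C.coeff k)) (hc : ∀ i, c i ≠ 0) (hca : ∀ i, IsAlgebraic ℚ (c i))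
    (hda : ∀ i, IsAlgebraic ℚ (d i)) : cl (acl (∅ : Set ℂ)) (TP A B C c d) = TP A B C c d := by
  classical
  obtain ⟨A', hA'⟩ := g5_lift hAa
  obtain ⟨B', hB'⟩ := g5_lift hBa
  obtain ⟨C', hC'⟩ := g5_lift hCa
  obtain ⟨c', hc'⟩ : ∃ c' : Fin m → acl (∅ : Set ℂ), ∀ i, algebraMap (acl (∅ : Set ℂ)) ℂ (c' i) = c i :=
    ⟨fun i => ⟨c i, mem_acl_empty.2 (hca i)⟩, fun i => rfl⟩
  obtain ⟨d', hd'⟩ : ∃ d' : Fin m → acl (∅ : Set ℂ), ∀ i, algebraMap (acl (∅ : Set ℂ)) ℂ (d' i) = d i :=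
    ⟨fun i => ⟨d i, mem_acl_empty.2 (hda i)⟩, fun i => rfl⟩
  obtain ⟨τ, hτ⟩ : ∃ τ : MvPolynomial (Fin 2 ⊕ Fin m) (acl (∅ : Set ℂ)),
      τ = MvPolynomial.C ((c' ⟨0, hm⟩)⁻¹) * X (Sum.inr ⟨0, hm⟩) + MvPolynomial.C (d' ⟨0, hm⟩) := ⟨_, rfl⟩
  have hτe : ∀ x : Fin 2 ⊕ Fin m → ℂˣ, aeval (co x) τ = (c ⟨0, hm⟩)⁻¹ * (x (Sum.inr ⟨0, hm⟩) : ℂ) + d ⟨0, hm⟩ := by
    intro x
    rw [hτ, map_add, map_mul, aeval_C, aeval_C, aeval_X, map_inv₀, hc', hd']
    rfl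
  have key : TP A B C c d = zl (acl (∅ : Set ℂ)) (insert
      (Polynomial.aeval τ A' * X (Sum.inl 0) + Polynomial.aeval τ B' * X (Sum.inl 1) - Polynomial.aeval τ C')
      (Set.range fun i : Fin m => MvPolynomial.C (c' ⟨0, hm⟩) * X (Sum.inr i) -
        MvPolynomial.C (c' i) * X (Sum.inr ⟨0, hm⟩) -
        MvPolynomial.C (c' ⟨0, hm⟩ * c' i * (d' ⟨0, hm⟩ - d' i)))) := by
    ext x
    rw [g5_iff hm hc, mem_zl]
    have e1 : aeval (co x) (Polynomial.aeval τ A' * X (Sum.inl 0) + Polynomial.aeval τ B' * X (Sum.inl 1) -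
        Polynomial.aeval τ C') = A.eval ((c ⟨0, hm⟩)⁻¹ * (x (Sum.inr ⟨0, hm⟩) : ℂ) + d ⟨0, hm⟩) * (x (Sum.inl 0) : ℂ) +
      B.eval ((c ⟨0, hm⟩)⁻¹ * (x (Sum.inr ⟨0, hm⟩) : ℂ) + d ⟨0, hm⟩) * (x (Sum.inl 1) : ℂ) -
      C.eval ((c ⟨0, hm⟩)⁻¹ * (x (Sum.inr ⟨0, hm⟩) : ℂ) + d ⟨0, hm⟩) := by
      rw [map_sub, map_add, map_mul, map_mul, aeval_X, aeval_X, g5_aeval, g5_aeval, g5_aeval, hA', hB', hC', hτe]
      rfl
    have e2 : ∀ i, aeval (co x) (MvPolynomial.C (c' ⟨0, hm⟩) * X (Sum.inr i) -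
        MvPolynomial.C (c' i) * X (Sum.inr ⟨0, hm⟩) -
        MvPolynomial.C (c' ⟨0, hm⟩ * c' i * (d' ⟨0, hm⟩ - d' i)) : MvPolynomial (Fin 2 ⊕ Fin m) (acl (∅ : Set ℂ))) =
        c ⟨0, hm⟩ * (x (Sum.inr i) : ℂ) - c i * (x (Sum.inr ⟨0, hm⟩) : ℂ) -
      c ⟨0, hm⟩ * c i * (d ⟨0, hm⟩ - d i) := by
      intro i
      rw [map_sub, map_sub, map_mul, map_mul, aeval_X, aeval_X, aeval_C, aeval_C, aeval_C, map_mul, map_mul,
        map_sub, hc', hc', hd', hd']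
      rfl
    constructor
    · rintro ⟨h1, h2⟩ p hp
      rcases hp with rfl | ⟨i, rfl⟩
      · rw [e1, h2]
      · show aeval (co x) _ = 0
        rw [e2, h1]
    · intro h
      refine ⟨fun i => ?_, ?_⟩
      · rw [← e2]
        exact h _ (Set.mem_insert_of_mem _ ⟨i, rfl⟩)
      · rw [← e1]
        exact h _ (Set.mem_insert _ _)
  rw [key, cl_zl]

/-- Row Z6-G5b. The case of algebraic coefficients. `maximal_atypical_iff` with `d = 2` (`dm_TP`), `Fintype.card = m + 2`: `X ∈ MaxE (m + 2 - 2)`, i.e. `X` is maximal among the irreducible subsets of `V = TP A B C c d` with `3 ≤ cd X`. Let `X` be such a set; it is defined over `acl ∅` (`MaxE.closed` with `cl_TP`). `td X ≤ 2`.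
`td X = 2`: `X = V` (`eq_of_td_le`, `td_TP`, `irr_TP`), `cd V = 2`: impossible (`rk_TP`). `td X = 0`: `X = {P}`, `P` is algebraic (as `cl (acl ∅) {P} = {P}`), and by maximality every irreducible `Y ⊆ V` with `P ∈ Y`, `3 ≤ cd Y` is `{P}`: `P` is in the finite set `finite_pts`. `td X = 1` and the `y`-part is constant `= y0` on `X`: `X = Fb y0` (`eq_Fb`), `y0` is algebraic (defined over `acl ∅`);
either special, finitely many (`finite_special`), or `2 ≤ rk X ≤ rk {y0}` (`rk_Fb`): finitely many (`finite_rk2`). `td X = 1` and the `y`-part not constant: `ar X ≤ 2 ≤ rk X ≤ rk X + 1` (`ar_le_two`), so `X` is in the finite set `MaxP (acl ∅) (fun Z => ar Z ≤ rk Z + 1) m V` (`maxP_all` as in `ZL2.core3`; `X` is maximal in a larger family; `cl (acl ∅) X = X`). -/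
theorem zp_alg (hm : 2 ≤ m) (hA : A ≠ 0) (hB : B ≠ 0) (hC : C ≠ 0)
    (hcop : ∀ t, (∀ i, t ≠ d i) → ¬ (A.eval t = 0 ∧ B.eval t = 0 ∧ C.eval t = 0)) (hc : ∀ i, c i ≠ 0)
    (hd : Function.Injective d) (hH : HH c d)
    (hAa : ∀ k, IsAlgebraic ℚ (A.coeff k)) (hBa : ∀ k, IsAlgebraic ℚ (B.coeff k)) (hCa : ∀ k, IsAlgebraic ℚ (C.coeff k))
    (hca : ∀ i, IsAlgebraic ℚ (c i)) (hda : ∀ i, IsAlgebraic ℚ (d i)) :
    {X | Maximal (Atypical (TP A B C c d)) X}.Finite := by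
  classical
  have hm0 : 0 < m := by omega
  have hcard : Fintype.card (Fin 2 ⊕ Fin m) = m + 2 := by simp [add_comm]
  have hV : ZClosed (TP A B C c d) := zclosed_TP hm0 hc
  have hcl : cl (acl (∅ : Set ℂ)) (TP A B C c d) = TP A B C c d := cl_TP hm0 hAa hBa hCa hc hca hda
  have hac : IsAlgClosed (acl (∅ : Set ℂ)) := isAlgClosed_acl _
  have hfin := maxP_all (F := ℂ) (κ := Fin 2 ⊕ Fin m) (fun Z => ar Z ≤ rk Z + 1)
    (fun V hV e => maxP_base 1 (fun s' hs' => by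
      interval_cases s'
      · exact ndk_zero
      · exact Pool.Agent.ZPB.ndk_one) V hV e) hV m
  have hpts := finite_pts hm hA hB hC hcop hc hd hH
  have hsp := finite_special (d := d) hm0 hA hB hC hc
  have hr2 := finite_rk2 hm hc hca hd hda hH
  have hcdZ : ∀ Z : Set (Fin 2 ⊕ Fin m → ℂˣ), cd Z = rk Z + td ℂ Z := fun Z => rfl
  refine (((hfin.union (hpts.image fun P => ({P} : Set (Fin 2 ⊕ Fin m → ℂˣ)))).union
    (hsp.image (Fb A B C c d))).union (hr2.image (Fb A B C c d))).subset ?_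
  intro X hX
  have hX' : Maximal (Atypical (TP A B C c d)) X := hX
  have hdm : dm (TP A B C c d) = ((2 : ℕ) : WithBot ℕ∞) := dm_TP hm0 hc hA hB hC hcop
  rw [maximal_atypical_iff hV hdm (by omega) X] at hX'
  have hXi := MaxE.irr hX'
  have hXV := MaxE.subset hX'
  have hlt := MaxE.lt hX'
  have hcdX : 3 ≤ cd X := by omega
  have hclX : cl (acl (∅ : Set ℂ)) X = X := MaxE.closed hX' hcl
  have hirr := irr_TP hm0 hc hA hB hC hcop
  have htdV := td_TP hm0 hc hA hB hC hcop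
  have htd2 : td ℂ X ≤ 2 := by
    have h1 := td_mono (k := ℂ) hXi.pirr hirr.pirr hXV
    omega
  have hcd1 := hcdZ X
  obtain ⟨w, hwX, hwa⟩ := g5_algpt hXi hclX
  by_cases h2 : td ℂ X = 2
  · exfalso
    have h3 : X = TP A B C c d := eq_of_td_le hXi hirr hXV (by omega)
    have h4 := rk_TP hm0 hc hd hA hB hC hcop
    rw [h3, htdV, h4] at hcd1
    rw [h3] at hcdX
    omega
  by_cases h0 : td ℂ X = 0
  · left; left; right
    have h3 : ({w} : Set (Fin 2 ⊕ Fin m → ℂˣ)) = X := eq_of_td_le (irr_singleton w) hXi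
      (Set.singleton_subset_iff.2 hwX) (by omega)
    refine ⟨w, ⟨hXV hwX, hwa, ?_, ?_⟩, h3⟩
    · rw [h3]
      omega
    · intro Y hY hYV hcdY hwY
      have h4 : X = Y := MaxE.eq hX' hY hYV (by omega) (by
        rw [← h3]
        exact Set.singleton_subset_iff.2 hwY)
      rw [← h4]
      exact h0
  have h1 : td ℂ X = 1 := by omega
  by_cases hy : ∃ y0 : Fin m → ℂˣ, ∀ x ∈ X, ∀ i, x (Sum.inr i) = y0 i
  · obtain ⟨y0, hy0⟩ := hy
    have hXF := eq_Fb hm0 hcop hc hXi hXV (by omega) hy0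
    obtain ⟨t, ht, _⟩ := hXV hwX
    have ht' : ∀ i, (y0 i : ℂ) = c i * (t - d i) := fun i => by rw [← hy0 w hwX i]; exact ht i
    by_cases hs : A.eval t = 0 ∨ B.eval t = 0 ∨ C.eval t = 0
    · left; right
      exact ⟨y0, ⟨t, ht', hs⟩, hXF.symm⟩
    · right
      push Not at hs
      have h5 := rk_Fb hm0 hc ht' hs.1 hs.2.1 hs.2.2
      rw [← hXF] at h5
      exact ⟨y0, ⟨⟨t, ht'⟩, fun i => by rw [← hy0 w hwX i]; exact hwa _, by omega⟩, hXF.symm⟩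
  · left; left; left
    have har := ar_le_two hm0 hc hd hXi hXV hy
    obtain ⟨Y, hY, hXY⟩ := exists_maxP (k0 := acl (∅ : Set ℂ)) (P := fun Z => ar Z ≤ rk Z + 1) (e := m)
      hXi hXV (by omega) (by
        show ar (cl (acl (∅ : Set ℂ)) X) ≤ rk (cl (acl (∅ : Set ℂ)) X) + 1
        rw [hclX]
        omega)
    have h3 := MaxP.lt hY
    rw [MaxE.eq hX' (MaxP.irr hY) (MaxP.subset hY) (by omega) hXY]
    exact hY

/-- Row Z6-G5c. The case `m = 3` over the complex numbers. Let `X` be maximal among the irreducible subsets of `V` with `3 ≤ cd X`. If `ar X ≤ rk X + 1`: `X ∈ MaxP (acl ∅) (fun Z => ar Z ≤ rk Z + 1) 3 V` (finite; `Alat_cl`, `rk_cl` for the closure over `acl ∅`). Otherwise `5 ≤ td X + ar X`: `coset_TP`: a special fibre (finitely many) or an algebraic point `P` with `3 ≤ rk {P}`;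
by maximality it is in the set `finite_pts`. -/
theorem zp_three {A B C : Polynomial ℂ} {c d : Fin 3 → ℂ} (hA : A ≠ 0) (hB : B ≠ 0) (hC : C ≠ 0)
    (hcop : ∀ t, (∀ i, t ≠ d i) → ¬ (A.eval t = 0 ∧ B.eval t = 0 ∧ C.eval t = 0)) (hc : ∀ i, c i ≠ 0)
    (hd : Function.Injective d) (hH : HH c d) :
    {X | Maximal (Atypical (TP A B C c d)) X}.Finite := by
  classical
  have hcard : Fintype.card (Fin 2 ⊕ Fin 3) = 5 := by simp
  have hV : ZClosed (TP A B C c d) := zclosed_TP (by norm_num) hc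
  have hfin := maxP_all (F := ℂ) (κ := Fin 2 ⊕ Fin 3) (fun Z => ar Z ≤ rk Z + 1)
    (fun V hV e => maxP_base 1 (fun s' hs' => by
      interval_cases s'
      · exact ndk_zero
      · exact Pool.Agent.ZPB.ndk_one) V hV e) hV 3
  have hpts := finite_pts (by norm_num) hA hB hC hcop hc hd hH
  have hsp := finite_special (d := d) (by norm_num) hA hB hC hc
  have hcdZ : ∀ Z : Set (Fin 2 ⊕ Fin 3 → ℂˣ), cd Z = rk Z + td ℂ Z := fun Z => rfl
  refine ((hfin.union (hpts.image fun P => ({P} : Set (Fin 2 ⊕ Fin 3 → ℂˣ)))).union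
    (hsp.image (Fb A B C c d))).subset ?_
  intro X hX
  have hX' : Maximal (Atypical (TP A B C c d)) X := hX
  have hdm : dm (TP A B C c d) = ((2 : ℕ) : WithBot ℕ∞) := dm_TP (by norm_num) hc hA hB hC hcop
  rw [maximal_atypical_iff hV hdm (by omega) X] at hX'
  have hXi := MaxE.irr hX'
  have hXV := MaxE.subset hX'
  have hlt := MaxE.lt hX'
  have hcdX : 3 ≤ cd X := by omega
  have hcd1 := hcdZ X
  by_cases har : ar X ≤ rk X + 1
  · left; left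
    obtain ⟨Y, hY, hXY⟩ := exists_maxP (k0 := acl (∅ : Set ℂ)) (P := fun Z => ar Z ≤ rk Z + 1) (e := 3)
      hXi hXV (by omega) (by
        show ar (cl (acl (∅ : Set ℂ)) X) ≤ rk (cl (acl (∅ : Set ℂ)) X) + 1
        unfold ar at *
        rw [Alat_cl, rk_cl]
        exact har)
    have h3 := MaxP.lt hY
    rw [MaxE.eq hX' (MaxP.irr hY) (MaxP.subset hY) (by omega) hXY]
    exact hY
  · rcases coset_TP (by norm_num) hcop hc hd hXi hXV (by omega) with ⟨P, hP, hPa⟩ | ⟨y0, t, ht, hs, hXF⟩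
    · left; right
      have hPX : P ∈ X := by rw [hP]; rfl
      have htd0 : td ℂ X = 0 := by rw [hP, td_singleton']
      refine ⟨P, ⟨hXV hPX, hPa, ?_, ?_⟩, hP.symm⟩
      · rw [← hP]
        omega
      · intro Y hY hYV hcdY hPY
        have h4 : X = Y := MaxE.eq hX' hY hYV (by omega) (by
          rw [hP]
          exact Set.singleton_subset_iff.2 hPY)
        rw [← h4]
        exact htd0
    · right
      exact ⟨y0, ⟨t, ht, hs⟩, hXF.symm⟩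

end Pool.Agent.Z6
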