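import Pool.Agent.Z6.Defs
import Pool.Agent.Z5.A2

namespace Pool.Agent.Z6

open Pool.Agent.ZL2 Filter Topology
open Pool.Agent.Z5 (fr Gen ev2)

variable {m : ℕ} {c d : Fin m → ℂ}

theorem a2_pos (hc : ∀ i, c i ≠ 0) {t : ℂ} {i : Fin m} (ht : t ≠ d i) : 0 < ‖c i * (t - d i)‖ :=
  norm_pos_iff.2 (mul_ne_zero (hc i) (sub_ne_zero.2 ht))

theorem a2_KA_eq (hc : ∀ i, c i ≠ 0) (A : ℝ) :
    KA c d A = ⋂ i, {t : ℂ | Real.exp (-A) ≤ ‖c i * (t - d i)‖ ∧ ‖c i * (t - d i)‖ ≤ Real.exp A} := by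
  ext t
  simp only [KA, Set.mem_ofPred_eq, Set.mem_iInter]
  constructor
  · rintro ⟨h1, h2⟩ i
    have hp := a2_pos hc (h1 i)
    have h3 := abs_le.1 (h2 i)
    exact ⟨(Real.le_log_iff_exp_le hp).1 h3.1, (Real.log_le_iff_le_exp hp).1 h3.2⟩
  · intro h
    have hp : ∀ i, 0 < ‖c i * (t - d i)‖ := fun i => (Real.exp_pos _).trans_le (h i).1
    refine ⟨fun i hi => ?_, fun i => abs_le.2 ⟨(Real.le_log_iff_exp_le (hp i)).2 (h i).1,
      (Real.log_le_iff_le_exp (hp i)).2 (h i).2⟩⟩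
    have := hp i
    rw [hi, sub_self, mul_zero, norm_zero] at this
    exact lt_irrefl _ this

/-- Row Z6-A2b. `KA` is compact (as `Z5.KA_compact`). -/
theorem KA_compact (hm : 0 < m) (hc : ∀ i, c i ≠ 0) (A : ℝ) : IsCompact (KA c d A) := by
  rw [a2_KA_eq hc]
  refine Metric.isCompact_of_isClosed_isBounded ?_ ?_
  · refine isClosed_iInter fun i => ?_
    have hi : Continuous (fun t : ℂ => ‖c i * (t - d i)‖) := by fun_prop
    exact (isClosed_le continuous_const hi).inter (isClosed_le hi continuous_const)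
  · refine (Metric.isBounded_closedBall (x := d ⟨0, hm⟩) (r := Real.exp A / ‖c ⟨0, hm⟩‖)).subset fun t ht => ?_
    have h0 := (Set.mem_iInter.1 ht ⟨0, hm⟩).2
    rw [Metric.mem_closedBall, dist_eq_norm, le_div_iff₀ (norm_pos_iff.2 (hc ⟨0, hm⟩)), mul_comm, ← norm_mul]
    exact h0

/-- Row Z6-A2c. `LY c d · i` is continuous at `t ≠ d i`. -/
theorem continuousAt_LY (hc : ∀ i, c i ≠ 0) {t : ℂ} {i : Fin m} (ht : t ≠ d i) :
    ContinuousAt (fun t => LY c d t i) t := by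
  unfold LY
  exact ContinuousAt.log (by fun_prop) (a2_pos hc ht).ne'

/-- Row Z6-A2d. As `Z5.KA_tail`. -/
theorem KA_tail {ι : Type} [Fintype ι] [Nonempty ι] (t : ι → ℂ) (ht : ∀ σ i, t σ ≠ d i) (B : ℝ)
    (hB : ∀ i, ∑ σ, |LY c d (t σ) i| ≤ B * Fintype.card ι) {A : ℝ} (hA : 0 < A) :
    fr (fun σ => t σ ∉ KA c d A) ≤ m * (B / A) := by
  have h1 : fr (fun σ => t σ ∉ KA c d A) ≤
      fr (fun σ => ∃ i ∈ (Finset.univ : Finset (Fin m)), A < |LY c d (t σ) i|) := by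
    refine Pool.Agent.Z5.fr_mono fun σ hσ => ?_
    by_contra hcon
    refine hσ ⟨ht σ, fun i => ?_⟩
    by_contra hi
    exact hcon ⟨i, Finset.mem_univ i, not_le.1 hi⟩
  refine h1.trans ((Pool.Agent.Z5.fr_exists _ _).trans ?_)
  refine (Finset.sum_le_sum fun i _ =>
    Pool.Agent.Z5.fr_markov (fun σ => LY c d (t σ) i) B A hA (hB i)).trans ?_
  rw [Finset.sum_const, Finset.card_univ, Fintype.card_fin, nsmul_eq_mul]

theorem a2_dt_sub (u v w : Fin m → ℝ) {A : ℝ} (hw : ∀ i, |w i| ≤ A) :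
    |dt u w| ≤ |dt v w| + A * ∑ i, |v i - u i| := by
  have h1 : dt u w = dt v w - ∑ i, (v i - u i) * w i := by
    unfold dt
    rw [← Finset.sum_sub_distrib]
    exact Finset.sum_congr rfl fun i _ => by ring
  have h2 : |∑ i, (v i - u i) * w i| ≤ A * ∑ i, |v i - u i| := by
    refine (Finset.abs_sum_le_sum_abs _ _).trans ?_
    rw [Finset.mul_sum]
    refine Finset.sum_le_sum fun i _ => ?_
    rw [abs_mul, mul_comm]
    exact mul_le_mul_of_nonneg_right (hw i) (abs_nonneg _)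
  rw [h1]
  exact (abs_sub _ _).trans (by linarith)

theorem a2_tend {U : Filter ℕ} {un : ℕ → Fin m → ℝ} {u : Fin m → ℝ} (hu : Tendsto un U (𝓝 u)) :
    Tendsto (fun n => ∑ i, |un n i - u i|) U (𝓝 0) := by
  have h : Tendsto (fun n => ∑ i, |un n i - u i|) U (𝓝 (∑ i : Fin m, |u i - u i|)) :=
    tendsto_finsetSum _ fun i _ => (((tendsto_pi_nhds.1 hu) i).sub tendsto_const_nhds).abs
  simpa using h

/-- Row Z6-A2e. As `Z5.tube`. -/
theorem tube {U : Filter ℕ} (hm : 0 < m) (hc : ∀ i, c i ≠ 0) (A : ℝ) {un vn : ℕ → Fin m → ℝ} {u v : Fin m → ℝ} {ε : ℕ → ℝ}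
    (hu : Tendsto un U (𝓝 u)) (hv : Tendsto vn U (𝓝 v)) (hε : Tendsto ε U (𝓝 0)) {O : Set ℂ} (hO : IsOpen O)
    (h : ∀ t ∈ KA c d A, dt u (LY c d t) = 0 → dt v (LY c d t) = 0 → t ∈ O) :
    ∀ᶠ n in U, ∀ t ∈ KA c d A, |dt (un n) (LY c d t)| ≤ ε n → |dt (vn n) (LY c d t)| ≤ ε n → t ∈ O := by
  rcases (KA c d A \ O).eq_empty_or_nonempty with hem | hne
  · exact Eventually.of_forall fun n t ht _ _ => Set.sdiff_eq_empty.1 hem ht
  have hK : IsCompact (KA c d A \ O) := (KA_compact hm hc A).diff hO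
  have hdt : ∀ w : Fin m → ℝ, ∀ t ∈ KA c d A, ContinuousAt (fun t => dt w (LY c d t)) t := by
    intro w t ht
    unfold dt
    exact tendsto_finsetSum _ fun i _ => (continuousAt_LY hc (ht.1 i)).const_mul (w i)
  have hcont : ContinuousOn (fun t => |dt u (LY c d t)| + |dt v (LY c d t)|) (KA c d A \ O) := fun t ht =>
    ((hdt u t ht.1).abs.add (hdt v t ht.1).abs).continuousWithinAt
  obtain ⟨t0, ht0, hmin⟩ := hK.exists_isMinOn hne hcont
  have hpos : 0 < |dt u (LY c d t0)| + |dt v (LY c d t0)| := by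
    by_contra hcon
    have h1 := abs_nonneg (dt u (LY c d t0))
    have h2 := abs_nonneg (dt v (LY c d t0))
    exact ht0.2 (h t0 ht0.1 (abs_eq_zero.1 (by linarith)) (abs_eq_zero.1 (by linarith)))
  have hlim : Tendsto (fun n => A * (∑ i, |un n i - u i|) + A * (∑ i, |vn n i - v i|) + 2 * ε n) U (𝓝 0) := by
    simpa using (((a2_tend hu).const_mul A).add ((a2_tend hv).const_mul A)).add (hε.const_mul 2)
  filter_upwards [hlim.eventually (gt_mem_nhds hpos)] with n hn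
  intro t ht hut hvt
  by_contra htO
  have h1 : |dt u (LY c d t0)| + |dt v (LY c d t0)| ≤ |dt u (LY c d t)| + |dt v (LY c d t)| :=
    hmin ⟨ht, htO⟩
  have h2 := a2_dt_sub u (un n) (LY c d t) ht.2
  have h3 := a2_dt_sub v (vn n) (LY c d t) ht.2
  linarith

end Pool.Agent.Z6
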