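import Pool.Agent.Z6.A2

namespace Pool.Agent.Z6

open Pool.Agent.ZL2 Filter Topology
open Pool.Agent.Z5 (fr Gen ev2)

variable {m : ℕ}

theorem a3_cont : Continuous fun p : (Fin m → ℝ) × (Fin m → ℝ) => dt p.1 p.2 := by
  unfold dt
  fun_prop

theorem a3_tendsto {α : Type} {F : Filter α} {u v : α → Fin m → ℝ} {u' v' : Fin m → ℝ}
    (hu : Tendsto u F (𝓝 u')) (hv : Tendsto v F (𝓝 v')) :
    Tendsto (fun n => dt (u n) (v n)) F (𝓝 (dt u' v')) :=
  (a3_cont.tendsto (u', v')).comp (hu.prodMk_nhds hv)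

theorem a3_sq (v : Fin m → ℝ) (i : Fin m) : v i * v i ≤ dt v v :=
  Finset.single_le_sum (f := fun i => v i * v i) (fun j _ => mul_self_nonneg (v j)) (Finset.mem_univ i)

/-- Unit vectors converge along an ultrafilter. -/
theorem a3_lim (U : Ultrafilter ℕ) (v : ℕ → Fin m → ℝ) (h : ∀ n, dt (v n) (v n) = 1) :
    ∃ v' : Fin m → ℝ, Tendsto v (U : Filter ℕ) (𝓝 v') ∧ dt v' v' = 1 := by
  have hK : IsCompact (Set.pi Set.univ fun _ : Fin m => Set.Icc (-1 : ℝ) 1) :=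
    isCompact_univ_pi fun _ => isCompact_Icc
  have hm : ∀ n, v n ∈ Set.pi Set.univ fun _ : Fin m => Set.Icc (-1 : ℝ) 1 := by
    intro n i _
    have h2 : v n i * v n i ≤ 1 := (a3_sq (v n) i).trans (h n).le
    exact abs_le.1 (abs_le_of_sq_le_sq (by nlinarith) (by norm_num))
  obtain ⟨v', -, hv'⟩ := hK.ultrafilter_le_nhds (U.map v) (by
    rw [Ultrafilter.coe_map, le_principal_iff, mem_map]
    exact Filter.univ_mem' hm)
  have ht : Tendsto v (U : Filter ℕ) (𝓝 v') := by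
    rw [Ultrafilter.coe_map] at hv'
    exact hv'
  refine ⟨v', ht, ?_⟩
  have h1 := a3_tendsto ht ht
  simp only [h] at h1
  exact (tendsto_nhds_unique h1 tendsto_const_nhds)

theorem a3_comb (u v w : Fin m → ℝ) (s t : ℝ) : dt w (s • u + t • v) = s * dt w u + t * dt w v := by
  unfold dt
  rw [Finset.mul_sum, Finset.mul_sum, ← Finset.sum_add_distrib]
  refine Finset.sum_congr rfl fun i _ => ?_
  simp only [Pi.add_apply, Pi.smul_apply, smul_eq_mul]
  ring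

theorem a3_comm (u v : Fin m → ℝ) : dt u v = dt v u := by
  unfold dt
  exact Finset.sum_congr rfl fun i _ => mul_comm _ _

theorem a3_zero (u : Fin m → ℝ) : dt u 0 = 0 := by
  unfold dt
  simp

theorem a3_indep {u v : Fin m → ℝ} (hu : dt u u = 1) (hv : dt v v = 1) (h : dt u v = 0) :
    LinearIndependent ℝ ![u, v] := by
  rw [LinearIndependent.pair_iff]
  intro s t hst
  have h1 := a3_comb u v u s t
  have h2 := a3_comb u v v s t
  rw [hst, a3_zero, hu, h] at h1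
  rw [hst, a3_zero, hv, a3_comm v u, h] at h2
  constructor <;> linarith

/-- Row Z6-A3. As `Z5.lemI`, with `Fin m` in place of `Fin 3` (the index `j` of `en n j` is still in `Fin 3`). -/
theorem lemI (hm : 0 < m) (U : Ultrafilter ℕ) {ι : ℕ → Type} [∀ n, Fintype (ι n)] [∀ n, Nonempty (ι n)] {κ B : ℝ}
    {c d : Fin m → ℂ} (hc : ∀ i, c i ≠ 0) (hH : HH c d) (t : ∀ n, ι n → ℂ)
    (hG : Gen (k := 1) (U : Filter ℕ) κ (fun n σ _ => t n σ)) (ht : ∀ n σ i, t n σ ≠ d i)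
    (hB : ∀ n i, ∑ σ, |LY c d (t n σ) i| ≤ B * Fintype.card (ι n))
    (cn : ℕ → Fin m → ℝ) (en : ℕ → Fin 3 → Fin m → ℝ) (h1 : ∀ n, dt (cn n) (cn n) = 1)
    (h2 : ∀ n j, dt (en n j) (en n j) = 1) (h3 : ∀ n j, dt (cn n) (en n j) = 0) (ε : ℕ → ℝ)
    (hε : Tendsto ε (U : Filter ℕ) (𝓝 0))
    (hS : ∀ᶠ n in (U : Filter ℕ), 1 / 2 ≤ fr (fun σ : ι n => ∃ j, |dt (cn n) (LY c d (t n σ))| ≤ ε n ∧
      |dt (en n j) (LY c d (t n σ))| ≤ ε n)) : False := by
  obtain ⟨c', hc', hcc⟩ := a3_lim U cn h1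
  have he : ∀ j : Fin 3, ∃ e' : Fin m → ℝ, Tendsto (fun n => en n j) (U : Filter ℕ) (𝓝 e') ∧
      dt e' e' = 1 := fun j => a3_lim U (fun n => en n j) fun n => h2 n j
  choose e' he' hee using he
  have hce : ∀ j, dt c' (e' j) = 0 := by
    intro j
    have h := a3_tendsto hc' (he' j)
    simp only [h3] at h
    exact tendsto_nhds_unique h tendsto_const_nhds
  have hfin : ∀ j, {s : ℂ | (∀ i, s ≠ d i) ∧ dt c' (LY c d s) = 0 ∧
      dt (e' j) (LY c d s) = 0}.Finite := fun j => hH c' (e' j) (a3_indep hcc (hee j) (hce j))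
  have hZ : (⋃ j, {s : ℂ | (∀ i, s ≠ d i) ∧ dt c' (LY c d s) = 0 ∧
      dt (e' j) (LY c d s) = 0}).Finite := Set.finite_iUnion hfin
  set F : Finset ℂ := hZ.toFinset with hF
  -- the compact set
  set A : ℝ := max (8 * (m * B)) 1 with hA
  have hA0 : 0 < A := lt_of_lt_of_le one_pos (le_max_right _ _)
  have hBA : m * (B / A) ≤ 1 / 8 := by
    rw [← mul_div_assoc, div_le_iff₀ hA0]
    have := le_max_left (8 * (m * B)) 1
    rw [← hA] at this
    linarith
  have htail : ∀ n, fr (fun σ : ι n => t n σ ∉ KA c d A) ≤ 1 / 8 := fun n =>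
    (KA_tail (t n) (ht n) B (hB n) hA0).trans hBA
  -- the balls
  set θ : ℝ := 1 / (8 * ((F.card : ℝ) + 1)) with hθ
  have hθ0 : 0 < θ := by positivity
  choose δ hδ0 hδ using fun z : ℂ => Z5.noatom hG z hθ0
  set O : Set ℂ := ⋃ z ∈ F, Metric.ball z (δ z) with hO
  have hOo : IsOpen O := isOpen_biUnion fun z _ => Metric.isOpen_ball
  have hballs : ∀ᶠ n in (U : Filter ℕ), fr (fun σ : ι n => ∃ z ∈ F, ‖t n σ - z‖ < δ z) ≤ 1 / 8 := by
    have h4 : ∀ᶠ n in (U : Filter ℕ), ∀ z ∈ F, fr (fun σ : ι n => ‖t n σ - z‖ < δ z) ≤ θ := by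
      rw [Filter.eventually_all_finset]
      intro z _
      exact hδ z
    filter_upwards [h4] with n hn
    refine (Z5.fr_exists F fun z σ => ‖t n σ - z‖ < δ z).trans ?_
    refine (Finset.sum_le_sum hn).trans ?_
    rw [Finset.sum_const, nsmul_eq_mul, hθ, mul_one_div, div_le_div_iff₀ (by positivity)
      (by norm_num)]
    linarith
  have htube : ∀ᶠ n in (U : Filter ℕ), ∀ j, ∀ s ∈ KA c d A, |dt (cn n) (LY c d s)| ≤ ε n →
      |dt (en n j) (LY c d s)| ≤ ε n → s ∈ O := by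
    rw [Filter.eventually_all]
    intro j
    refine tube hm hc A hc' (he' j) hε hOo ?_
    intro s hs q1 q2
    have hs' : s ∈ F := by
      rw [hF, Set.Finite.mem_toFinset]
      exact Set.mem_iUnion.2 ⟨j, hs.1, q1, q2⟩
    rw [hO]
    exact Set.mem_biUnion hs' (Metric.mem_ball_self (hδ0 s))
  obtain ⟨n, q1, q2, q3⟩ := ((hS.and (hballs.and htube))).exists
  have h5 : fr (fun σ : ι n => ∃ j, |dt (cn n) (LY c d (t n σ))| ≤ ε n ∧
      |dt (en n j) (LY c d (t n σ))| ≤ ε n) ≤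
      fr (fun σ : ι n => t n σ ∉ KA c d A) + fr (fun σ : ι n => ∃ z ∈ F, ‖t n σ - z‖ < δ z) := by
    refine le_trans (Z5.fr_mono ?_) (Z5.fr_or _ _)
    rintro σ ⟨j, r1, r2⟩
    by_cases hK : t n σ ∈ KA c d A
    · right
      have h6 := q3 j _ hK r1 r2
      rw [hO, Set.mem_iUnion₂] at h6
      obtain ⟨z, hz, hb⟩ := h6
      exact ⟨z, hz, by rwa [Metric.mem_ball, dist_eq_norm] at hb⟩
    · exact Or.inl hK
  have h7 := htail n
  linarith

end Pool.Agent.Z6
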