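import Pool.Agent.Z6.A3
import Pool.Agent.Z5.A4

namespace Pool.Agent.Z6

open Pool.Agent.ZL2 Filter Topology
open Pool.Agent.Z5 (fr Gen ev2)

variable {m : ℕ}

theorem a4_smul (a : ℝ) (w y : Fin m → ℝ) : dt (fun i => a * w i) y = a * dt w y := by
  unfold dt
  rw [Finset.mul_sum]
  exact Finset.sum_congr rfl fun i _ => mul_assoc _ _ _

theorem a4_smul' (a : ℝ) (w y : Fin m → ℝ) : dt y (fun i => a * w i) = a * dt y w := by
  rw [a3_comm, a4_smul, a3_comm]

theorem a4_sub (v w y : Fin m → ℝ) : dt (fun i => v i - w i) y = dt v y - dt w y := by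
  unfold dt
  rw [← Finset.sum_sub_distrib]
  exact Finset.sum_congr rfl fun i _ => sub_mul _ _ _

theorem a4_norm {u w : Fin m → ℝ} (hw : dt w u = 0) (h : 0 < dt w w) :
    ∃ e : Fin m → ℝ, dt e e = 1 ∧ dt u e = 0 ∧ ∀ y, dt w y = Real.sqrt (dt w w) * dt e y := by
  have hs : 0 < Real.sqrt (dt w w) := Real.sqrt_pos.2 h
  have hss : Real.sqrt (dt w w) * Real.sqrt (dt w w) = dt w w := Real.mul_self_sqrt h.le
  refine ⟨fun i => (Real.sqrt (dt w w))⁻¹ * w i, ?_, ?_, fun y => ?_⟩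
  · rw [a4_smul, a4_smul', ← mul_assoc, ← mul_inv, hss, inv_mul_cancel₀ h.ne']
  · rw [a4_smul', a3_comm u w, hw, mul_zero]
  · rw [a4_smul, ← mul_assoc, mul_inv_cancel₀ hs.ne', one_mul]

theorem a4_orth (hm : 2 ≤ m) {u : Fin m → ℝ} (hu : dt u u = 1) : ∃ e : Fin m → ℝ, dt e e = 1 ∧ dt u e = 0 := by
  classical
  obtain ⟨i, hi⟩ : ∃ i, u i ≠ 0 := by
    by_contra hcon
    push Not at hcon
    have : dt u u = 0 := by
      unfold dt
      exact Finset.sum_eq_zero fun i _ => by rw [hcon i, mul_zero]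
    rw [this] at hu
    exact zero_ne_one hu
  obtain ⟨j, hj⟩ : ∃ j : Fin m, j ≠ i := by
    have : Nontrivial (Fin m) := Fin.nontrivial_iff_two_le.2 hm
    exact exists_ne i
  set w : Fin m → ℝ := Pi.single i (-u j) + Pi.single j (u i) with hw
  have hwj : w j = u i := by
    rw [hw, Pi.add_apply, Pi.single_eq_of_ne hj, Pi.single_eq_same, zero_add]
  have h1 : dt w u = 0 := by
    unfold dt
    rw [hw]
    simp only [Pi.add_apply, add_mul, Finset.sum_add_distrib, Pi.single_apply, ite_mul, zero_mul,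
      Finset.sum_ite_eq', Finset.mem_univ, if_true]
    ring
  have h2 : 0 < dt w w := by
    refine lt_of_lt_of_le ?_ (a3_sq w j)
    rw [hwj]
    exact mul_self_pos.2 hi
  obtain ⟨e, h3, h4, -⟩ := a4_norm h1 h2
  exact ⟨e, h3, h4⟩

theorem a4_sq (w : Fin m → ℝ) (i : Fin m) : |w i| ≤ Real.sqrt (dt w w) := by
  apply Real.abs_le_sqrt
  rw [sq]
  exact a3_sq w i

theorem a4_unit (hm : 2 ≤ m) {u w : Fin m → ℝ} (hu : dt u u = 1) (hw : dt w u = 0) :
    ∃ e : Fin m → ℝ, dt e e = 1 ∧ dt u e = 0 ∧ ∀ y, dt w y = Real.sqrt (dt w w) * dt e y := by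
  by_cases h : 0 < dt w w
  · exact a4_norm hw h
  · obtain ⟨e, h1, h2⟩ := a4_orth hm hu
    refine ⟨e, h1, h2, fun y => ?_⟩
    have hs : Real.sqrt (dt w w) = 0 := Real.sqrt_eq_zero_of_nonpos (not_lt.1 h)
    have hw0 : ∀ i, w i = 0 := fun i => abs_nonpos_iff.1 ((a4_sq w i).trans hs.le)
    rw [hs, zero_mul]
    unfold dt
    exact Finset.sum_eq_zero fun i _ => by rw [hw0 i, zero_mul]

theorem a4_orth_rw {a b : ℂ → ℂ} {c d : Fin m → ℂ} {U : Ultrafilter ℕ} (S : Sq a b c d U) (n : ℕ) (j : Fin 3) :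
    dt (rw3 (S.M n) j) (S.u n) = 0 := by
  match j with
  | 0 => exact S.hM n 1
  | 1 => exact S.hM n 0
  | 2 =>
    show dt (fun i => S.M n 0 i - S.M n 1 i) (S.u n) = 0
    rw [a4_sub, S.hM n 0, S.hM n 1, sub_zero]

theorem a4_core (hm : 2 ≤ m) {a b : ℂ → ℂ} {c d : Fin m → ℂ} {U : Ultrafilter ℕ} (S : Sq a b c d U) (hc : ∀ i, c i ≠ 0) (hH : HH c d)
    (φ : Fin 3 → Fin 3) {K : ℝ} (hK : 0 ≤ K)
    (hr : ∀ j, ∀ A : ℝ, ∀ᶠ n in (U : Filter ℕ),
      A < Real.sqrt (dt (rw3 (S.M n) (φ j)) (rw3 (S.M n) (φ j))))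
    (hP : ∀ᶠ n in (U : Filter ℕ), 1 / 2 ≤ fr (fun σ : S.ι n => ∃ j,
      |dt (rw3 (S.M n) (φ j)) (LY c d (S.t n σ))| ≤ K)) : False := by
  choose e he1 he2 he3 using fun n j => a4_unit hm (S.hu n) (a4_orth_rw S n j)
  have hlim : Tendsto (fun n => ∑ j, K / Real.sqrt (dt (rw3 (S.M n) (φ j)) (rw3 (S.M n) (φ j))))
      (U : Filter ℕ) (𝓝 0) := by
    have h1 : Tendsto (fun n => ∑ j, K / Real.sqrt (dt (rw3 (S.M n) (φ j)) (rw3 (S.M n) (φ j))))
        (U : Filter ℕ) (𝓝 (∑ _j : Fin 3, (0 : ℝ))) := by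
      refine tendsto_finsetSum _ fun j _ => ?_
      refine Tendsto.const_div_atTop ?_ K
      rw [tendsto_atTop]
      exact fun A => (hr j A).mono fun n hn => hn.le
    rwa [Finset.sum_const_zero] at h1
  refine lemI (by omega) U hc hH S.t S.gen S.ht S.hB S.u (fun n j => e n (φ j)) S.hu (fun n j => he1 n (φ j))
    (fun n j => he2 n (φ j)) _ hlim ?_
  have hpos : ∀ᶠ n in (U : Filter ℕ), ∀ j,
      0 < Real.sqrt (dt (rw3 (S.M n) (φ j)) (rw3 (S.M n) (φ j))) := by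
    rw [Filter.eventually_all]
    exact fun j => hr j 0
  filter_upwards [hP, hpos] with n h1 h2
  refine h1.trans (Z5.fr_mono fun σ => ?_)
  rintro ⟨j, hj⟩
  have hnn : ∀ i, 0 ≤ K / Real.sqrt (dt (rw3 (S.M n) (φ i)) (rw3 (S.M n) (φ i))) := fun i =>
    div_nonneg hK (h2 i).le
  refine ⟨j, ?_, ?_⟩
  · rw [S.r0 n σ, abs_zero]
    exact Finset.sum_nonneg fun i _ => hnn i
  · rw [he3 n (φ j), abs_mul, abs_of_pos (h2 j)] at hj
    have h3 : |dt (e n (φ j)) (LY c d (S.t n σ))| ≤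
        K / Real.sqrt (dt (rw3 (S.M n) (φ j)) (rw3 (S.M n) (φ j))) := by
      rw [le_div_iff₀ (h2 j), mul_comm]
      exact hj
    exact h3.trans (Finset.single_le_sum
      (f := fun i => K / Real.sqrt (dt (rw3 (S.M n) (φ i)) (rw3 (S.M n) (φ i))))
      (fun i _ => hnn i) (Finset.mem_univ j))

/-- Row Z6-A4. As `Z5.bddM`; `Z5.tripod` can be used. The new point: `log ‖a‖`, `log ‖b‖` are replaced by `log ‖a (t n σ)‖`, `log ‖b (t n σ)‖`, which have bounded mean values (`S.hab`): by `fr_markov` all but a proportion `≤ 1/4` of the `σ` satisfy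
`|log ‖a (t n σ)‖| + |log ‖b (t n σ)‖| ≤ 4 B + 1`. For these the old argument works (`3/4 ≥ 1/2`; in case 2 use `fr_markov` for both, `1/8 + 1/8`). For the unit vectors orthogonal to `u n` one needs `2 ≤ m`. -/
theorem bddM (hm : 2 ≤ m) {a b : ℂ → ℂ} {c d : Fin m → ℂ} {U : Ultrafilter ℕ} (S : Sq a b c d U) (hc : ∀ i, c i ≠ 0) (hH : HH c d)
    (hbig : ∀ A : ℝ, ∃ C : ℝ, ∀ n, (∃ j, ∑ i, |rw3 (S.M n) j i| ≤ A) →
      ∑ σ, (|Real.log ‖S.X n σ‖| + |Real.log ‖1 - S.X n σ‖|) ≤ C * Fintype.card (S.ι n)) :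
    ∃ A, S.Bdd A := by
  classical
  by_contra hno
  have hlog2 : 0 ≤ Real.log 2 := Real.log_nonneg (by norm_num)
  -- the coefficients
  set B1 : ℝ := |S.B| + 1 with hB1
  have hB10 : 0 < B1 := by positivity
  have hab : ∀ n, ∑ σ, |(|Real.log ‖a (S.t n σ)‖| + |Real.log ‖b (S.t n σ)‖|)| ≤ B1 * Fintype.card (S.ι n) := by
    intro n
    have hcard : (0 : ℝ) ≤ Fintype.card (S.ι n) := Nat.cast_nonneg _
    have h1 : ∀ σ, |(|Real.log ‖a (S.t n σ)‖| + |Real.log ‖b (S.t n σ)‖|)| =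
        |Real.log ‖a (S.t n σ)‖| + |Real.log ‖b (S.t n σ)‖| := fun σ => abs_of_nonneg (by positivity)
    rw [Finset.sum_congr rfl fun σ _ => h1 σ]
    refine (S.hab n).trans (mul_le_mul_of_nonneg_right ?_ hcard)
    rw [hB1]
    linarith [le_abs_self S.B]
  -- one of the rows 0, 1 of rw3 is unbounded
  have hunb : ∃ j1 : Fin 3, (j1 = 0 ∨ j1 = 1) ∧ ∀ A : ℝ, ∀ᶠ n in (U : Filter ℕ),
      A < Real.sqrt (dt (rw3 (S.M n) j1) (rw3 (S.M n) j1)) := by
    by_contra hcon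
    have hcon2 : ∀ j1 : Fin 3, (j1 = 0 ∨ j1 = 1) → ∃ A : ℝ, ∀ᶠ n in (U : Filter ℕ),
        Real.sqrt (dt (rw3 (S.M n) j1) (rw3 (S.M n) j1)) ≤ A := by
      intro j1 hj
      by_contra h2
      refine hcon ⟨j1, hj, fun A => ?_⟩
      by_contra h3
      refine h2 ⟨A, ?_⟩
      rw [← Ultrafilter.eventually_not] at h3
      exact h3.mono fun n hn => not_lt.1 hn
    obtain ⟨A0, h0⟩ := hcon2 0 (Or.inl rfl)
    obtain ⟨A1, h1⟩ := hcon2 1 (Or.inr rfl)
    refine hno ⟨max A0 A1, ?_⟩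
    filter_upwards [h0, h1] with n q0 q1
    intro j i
    match j with
    | 0 => exact ((a4_sq (rw3 (S.M n) 1) i).trans q1).trans (le_max_right _ _)
    | 1 => exact ((a4_sq (rw3 (S.M n) 0) i).trans q0).trans (le_max_left _ _)
  by_cases hall : ∀ j : Fin 3, ∀ A : ℝ, ∀ᶠ n in (U : Filter ℕ),
      A < Real.sqrt (dt (rw3 (S.M n) j) (rw3 (S.M n) j))
  · refine a4_core hm S hc hH id (K := Real.log 2 + 4 * B1) (by positivity)
      hall (Filter.Eventually.of_forall fun n => ?_)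
    have m1 := Z5.fr_markov (fun σ : S.ι n => |Real.log ‖a (S.t n σ)‖| + |Real.log ‖b (S.t n σ)‖|) B1 (4 * B1)
      (by positivity) (hab n)
    have m2 : B1 / (4 * B1) = 1 / 4 := by
      field_simp
    rw [m2] at m1
    have m3 : fr (fun _ : S.ι n => True) ≤
        fr (fun σ : S.ι n => ∃ j, |dt (rw3 (S.M n) (id j)) (LY c d (S.t n σ))| ≤ Real.log 2 + 4 * B1) +
        fr (fun σ : S.ι n => 4 * B1 < |(|Real.log ‖a (S.t n σ)‖| + |Real.log ‖b (S.t n σ)‖|)|) := by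
      refine le_trans (Z5.fr_mono fun σ _ => ?_) (Z5.fr_or _ _)
      rcases lt_or_ge (4 * B1) |(|Real.log ‖a (S.t n σ)‖| + |Real.log ‖b (S.t n σ)‖|)| with hg | hg
      · exact Or.inr hg
      left
      rw [abs_of_nonneg (by positivity)] at hg
      have r1 := S.r1 n σ
      have r2 := S.r2 n σ
      have la := abs_le.1 (le_refl |Real.log ‖a (S.t n σ)‖|)
      have lb := abs_le.1 (le_refl |Real.log ‖b (S.t n σ)‖|)
      have ha0 := abs_nonneg (Real.log ‖a (S.t n σ)‖)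
      have hb0 := abs_nonneg (Real.log ‖b (S.t n σ)‖)
      rcases Z5.tripod (S.hX0 n σ) (S.hX1 n σ) with h | h | h
      · refine ⟨0, ?_⟩
        show |dt (S.M n 1) (LY c d (S.t n σ))| ≤ _
        have h' := abs_le.1 h
        rw [abs_le]
        constructor <;> linarith
      · refine ⟨1, ?_⟩
        show |dt (S.M n 0) (LY c d (S.t n σ))| ≤ _
        have h' := abs_le.1 h
        rw [abs_le]
        constructor <;> linarith
      · refine ⟨2, ?_⟩
        show |dt (fun i => S.M n 0 i - S.M n 1 i) (LY c d (S.t n σ))| ≤ _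
        have h' := abs_le.1 h
        rw [a4_sub, abs_le]
        constructor <;> linarith
    rw [Z5.fr_true] at m3
    linarith
  · -- case 2
    have hb2 : ∃ j0 : Fin 3, ∃ A : ℝ, ∀ᶠ n in (U : Filter ℕ),
        Real.sqrt (dt (rw3 (S.M n) j0) (rw3 (S.M n) j0)) ≤ A := by
      by_contra h2
      refine hall fun j A => ?_
      by_contra h3
      refine h2 ⟨j, A, ?_⟩
      rw [← Ultrafilter.eventually_not] at h3
      exact h3.mono fun n hn => not_lt.1 hn
    obtain ⟨j0, A0, hA0⟩ := hb2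
    obtain ⟨j1, hj1, hj1r⟩ := hunb
    obtain ⟨C, hC⟩ := hbig (m * A0)
    set B' : ℝ := |C| + B1 with hB'
    have hB'0 : 0 < B' := by positivity
    refine a4_core hm S hc hH (fun _ => j1) (K := 2 * B') (by positivity) (fun _ => hj1r) ?_
    filter_upwards [hA0] with n hn
    have h5 : ∑ i, |rw3 (S.M n) j0 i| ≤ m * A0 := by
      have h6 : ∀ i, |rw3 (S.M n) j0 i| ≤ A0 := fun i => (a4_sq _ i).trans hn
      refine (Finset.sum_le_card_nsmul _ _ _ fun i _ => h6 i).trans ?_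
      rw [Finset.card_univ, Fintype.card_fin, nsmul_eq_mul]
    have h6 := hC n ⟨j0, h5⟩
    have h7 : ∀ σ, |dt (rw3 (S.M n) j1) (LY c d (S.t n σ))| ≤
        |Real.log ‖S.X n σ‖| + |Real.log ‖1 - S.X n σ‖| +
          (|Real.log ‖a (S.t n σ)‖| + |Real.log ‖b (S.t n σ)‖|) := by
      intro σ
      have r1 := S.r1 n σ
      have r2 := S.r2 n σ
      have la := abs_le.1 (le_refl |Real.log ‖a (S.t n σ)‖|)
      have lb := abs_le.1 (le_refl |Real.log ‖b (S.t n σ)‖|)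
      have la0 := abs_nonneg (Real.log ‖a (S.t n σ)‖)
      have lb0 := abs_nonneg (Real.log ‖b (S.t n σ)‖)
      have lx := abs_le.1 (le_refl |Real.log ‖S.X n σ‖|)
      have ly := abs_le.1 (le_refl |Real.log ‖1 - S.X n σ‖|)
      have lx0 := abs_nonneg (Real.log ‖S.X n σ‖)
      have ly0 := abs_nonneg (Real.log ‖1 - S.X n σ‖)
      rcases hj1 with rfl | rfl
      · show |dt (S.M n 1) (LY c d (S.t n σ))| ≤ _
        rw [abs_le]
        constructor <;> linarith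
      · show |dt (S.M n 0) (LY c d (S.t n σ))| ≤ _
        rw [abs_le]
        constructor <;> linarith
    have hcard : (0 : ℝ) ≤ Fintype.card (S.ι n) := Nat.cast_nonneg _
    have h8 : ∑ σ, |dt (rw3 (S.M n) j1) (LY c d (S.t n σ))| ≤ B' * Fintype.card (S.ι n) := by
      refine (Finset.sum_le_sum fun σ _ => h7 σ).trans ?_
      rw [Finset.sum_add_distrib]
      have h9 : C * Fintype.card (S.ι n) ≤ |C| * Fintype.card (S.ι n) :=
        mul_le_mul_of_nonneg_right (le_abs_self C) hcard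
      have h10 : ∑ σ, (|Real.log ‖a (S.t n σ)‖| + |Real.log ‖b (S.t n σ)‖|) ≤ B1 * Fintype.card (S.ι n) := by
        refine (S.hab n).trans (mul_le_mul_of_nonneg_right ?_ hcard)
        rw [hB1]
        linarith [le_abs_self S.B]
      rw [hB', add_mul]
      linarith
    have h9 := Z5.fr_markov (fun σ => dt (rw3 (S.M n) j1) (LY c d (S.t n σ))) B' (2 * B')
      (by positivity) h8
    have h10 : B' / (2 * B') = 1 / 2 := by
      field_simp
    rw [h10] at h9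
    have h11 : fr (fun _ : S.ι n => True) ≤
        fr (fun σ : S.ι n => ∃ _j : Fin 3, |dt (rw3 (S.M n) j1) (LY c d (S.t n σ))| ≤ 2 * B') +
        fr (fun σ : S.ι n => 2 * B' < |dt (rw3 (S.M n) j1) (LY c d (S.t n σ))|) := by
      refine le_trans (Z5.fr_mono fun σ _ => ?_) (Z5.fr_or _ _)
      rcases le_or_gt |dt (rw3 (S.M n) j1) (LY c d (S.t n σ))| (2 * B') with h | h
      · exact Or.inl ⟨0, h⟩
      · exact Or.inr h
    rw [Z5.fr_true] at h11
    linarith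

end Pool.Agent.Z6
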