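import Pool.Agent.Z6.Defs
import Pool.Agent.Z5.B2

namespace Pool.Agent.Z6

open Pool.Agent.ZL2 Filter Topology
open Pool.Agent.Z5 (fr Gen ev2)

variable {m : ℕ}

/-- Row Z6-B2a. As `Z5.exists_log`. -/
theorem exists_log {c d : Fin m → ℂ} (hc : ∀ i, c i ≠ 0) {t0 : ℂ} (ht0 : ∀ i, t0 ≠ d i) :
    ∃ ρ : ℝ, 0 < ρ ∧ ∃ ℓ : Fin m → ℂ → ℂ, ∀ i, ∀ t ∈ Metric.ball t0 ρ, t ≠ d i ∧
      HasDerivAt (ℓ i) (1 / (t - d i)) t ∧ (ℓ i t).re = LY c d t i ∧ Complex.exp (ℓ i t) = c i * (t - d i) := by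
  obtain ⟨ρ, hρ, hle⟩ : ∃ ρ : ℝ, 0 < ρ ∧ ∀ i, ρ ≤ ‖t0 - d i‖ := by
    have h1 : ∀ᶠ ρ in 𝓝[>] (0 : ℝ), ∀ i, ρ ≤ ‖t0 - d i‖ := by
      rw [Filter.eventually_all]
      intro i
      have h2 : (0 : ℝ) < ‖t0 - d i‖ := norm_pos_iff.mpr (sub_ne_zero.mpr (ht0 i))
      exact (Ioo_mem_nhdsGT h2 |> fun h => Filter.mem_of_superset h fun x hx => hx.2.le)
    obtain ⟨ρ, h2, h3⟩ := (h1.and self_mem_nhdsWithin).exists
    exact ⟨ρ, h3, h2⟩
  refine ⟨ρ, hρ, fun i t => Complex.log ((t - d i) / (t0 - d i)) + Complex.log (c i * (t0 - d i)), ?_⟩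
  intro i t ht
  have h0 : t0 - d i ≠ 0 := sub_ne_zero.mpr (ht0 i)
  have hn : ‖t - t0‖ < ‖t0 - d i‖ := by
    have h1 : dist t t0 < ρ := ht
    rw [dist_eq_norm] at h1
    exact h1.trans_le (hle i)
  have hw : (t - d i) / (t0 - d i) = 1 + (t - t0) / (t0 - d i) := by
    field_simp
    ring
  have hs : (t - d i) / (t0 - d i) ∈ Complex.slitPlane := by
    rw [hw]
    refine Complex.mem_slitPlane_of_norm_lt_one ?_
    rw [norm_div, div_lt_one (norm_pos_iff.mpr h0)]
    exact hn
  have hne : (t - d i) / (t0 - d i) ≠ 0 := Complex.slitPlane_ne_zero hs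
  have htd : t - d i ≠ 0 := fun h => hne (by rw [h, zero_div])
  have hexp : Complex.exp (Complex.log ((t - d i) / (t0 - d i)) + Complex.log (c i * (t0 - d i)))
      = c i * (t - d i) := by
    rw [Complex.exp_add, Complex.exp_log hne, Complex.exp_log (mul_ne_zero (hc i) h0)]
    field_simp
  refine ⟨sub_ne_zero.mp htd, ?_, ?_, hexp⟩
  · have h1 : HasDerivAt (fun s : ℂ => (s - d i) / (t0 - d i)) (1 / (t0 - d i)) t :=
      ((hasDerivAt_id t).sub_const (d i)).div_const (t0 - d i)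
    have h2 := (h1.clog hs).add_const (Complex.log (c i * (t0 - d i)))
    have h3 : 1 / (t0 - d i) / ((t - d i) / (t0 - d i)) = 1 / (t - d i) := by
      field_simp
    rw [h3] at h2
    exact h2
  · show (Complex.log ((t - d i) / (t0 - d i)) + Complex.log (c i * (t0 - d i))).re = Real.log ‖c i * (t - d i)‖
    rw [← hexp, Complex.norm_exp, Real.log_exp]

/-- Row Z6-B2b. A branch of the logarithm of a rational function near a point which is neither zero nor pole. -/
theorem exists_log_rf {A C : Polynomial ℂ} {t0 : ℂ} (h : rf A C t0 ≠ 0) :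
    ∃ ρ : ℝ, 0 < ρ ∧ ∃ ℓ : ℂ → ℂ, ∀ t ∈ Metric.ball t0 ρ, A.eval t ≠ 0 ∧ C.eval t ≠ 0 ∧
      HasDerivAt ℓ ((Polynomial.derivative A).eval t / A.eval t - (Polynomial.derivative C).eval t / C.eval t) t ∧
      (ℓ t).re = Real.log ‖rf A C t‖ ∧ Complex.exp (ℓ t) = rf A C t := by
  have hA0 : A.eval t0 ≠ 0 := fun h0 => h (by show A.eval t0 / C.eval t0 = 0; rw [h0, zero_div])
  have hC0 : C.eval t0 ≠ 0 := fun h0 => h (by show A.eval t0 / C.eval t0 = 0; rw [h0, div_zero])
  have hcA : ContinuousAt (fun t => A.eval t) t0 := A.continuous.continuousAt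
  have hcC : ContinuousAt (fun t => C.eval t) t0 := C.continuous.continuousAt
  have hcr : ContinuousAt (fun t => rf A C t / rf A C t0) t0 := (hcA.div hcC hC0).div_const _
  have hs : ∀ᶠ t in 𝓝 t0, rf A C t / rf A C t0 ∈ Complex.slitPlane := by
    refine hcr.eventually (Complex.isOpen_slitPlane.mem_nhds ?_)
    show rf A C t0 / rf A C t0 ∈ Complex.slitPlane
    rw [div_self h]
    exact Complex.one_mem_slitPlane
  obtain ⟨ρ, hρ, hball⟩ := Metric.eventually_nhds_iff_ball.mp
    ((hcA.eventually_ne hA0).and ((hcC.eventually_ne hC0).and hs))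
  refine ⟨ρ, hρ, fun t => Complex.log (rf A C t / rf A C t0) + Complex.log (rf A C t0), fun t ht => ?_⟩
  obtain ⟨h1, h2, h3⟩ := hball t ht
  have hne : rf A C t / rf A C t0 ≠ 0 := Complex.slitPlane_ne_zero h3
  have hexp : Complex.exp (Complex.log (rf A C t / rf A C t0) + Complex.log (rf A C t0)) = rf A C t := by
    rw [Complex.exp_add, Complex.exp_log hne, Complex.exp_log h, div_mul_cancel₀ _ h]
  refine ⟨h1, h2, ?_, ?_, hexp⟩
  · have g1 : HasDerivAt (fun t => rf A C t) (((Polynomial.derivative A).eval t * C.eval t -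
        A.eval t * (Polynomial.derivative C).eval t) / C.eval t ^ 2) t :=
      (A.hasDerivAt t).div (C.hasDerivAt t) h2
    have g2 := ((g1.div_const (rf A C t0)).clog h3).add_const (Complex.log (rf A C t0))
    have g3 : ((Polynomial.derivative A).eval t * C.eval t - A.eval t * (Polynomial.derivative C).eval t) /
        C.eval t ^ 2 / rf A C t0 / (rf A C t / rf A C t0) =
        (Polynomial.derivative A).eval t / A.eval t - (Polynomial.derivative C).eval t / C.eval t := by
      have g4 : rf A C t = A.eval t / C.eval t := rfl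
      rw [g4]
      field_simp
    rw [g3] at g2
    exact g2
  · show (Complex.log (rf A C t / rf A C t0) + Complex.log (rf A C t0)).re = Real.log ‖rf A C t‖
    rw [← hexp, Complex.norm_exp, Real.log_exp, hexp]

/-- Row Z6-B2c. As `Z5.crit_finite`. -/
theorem crit_finite {d : Fin m → ℂ} (hd : Function.Injective d) {u : Fin m → ℝ} (hu : u ≠ 0) :
    {t : ℂ | (∀ i, t ≠ d i) ∧ ∑ i, (u i : ℂ) / (t - d i) = 0}.Finite := by
  classical
  set P : Polynomial ℂ := ∑ i, Polynomial.C (u i : ℂ) * ∏ j ∈ Finset.univ.erase i,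
    (Polynomial.X - Polynomial.C (d j)) with hP
  have hev : ∀ t, P.eval t = ∑ i, (u i : ℂ) * ∏ j ∈ Finset.univ.erase i, (t - d j) := by
    intro t
    simp [hP, Polynomial.eval_finsetSum, Polynomial.eval_prod]
  have hP0 : P ≠ 0 := by
    obtain ⟨k, hk⟩ := Function.ne_iff.mp hu
    intro h
    have h1 := hev (d k)
    rw [h, Polynomial.eval_zero, Finset.sum_eq_single k] at h1
    · have h2 : ∏ j ∈ Finset.univ.erase k, (d k - d j) ≠ 0 := by
        refine Finset.prod_ne_zero_iff.mpr fun j hj => sub_ne_zero.mpr fun h => ?_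
        exact (Finset.ne_of_mem_erase hj) (hd h).symm
      have h3 : (u k : ℂ) ≠ 0 := by exact_mod_cast hk
      exact (mul_ne_zero h3 h2) h1.symm
    · intro i _ hik
      have : ∏ j ∈ Finset.univ.erase i, (d k - d j) = 0 :=
        Finset.prod_eq_zero (Finset.mem_erase.mpr ⟨hik.symm, Finset.mem_univ k⟩) (sub_self _)
      rw [this, mul_zero]
    · intro h; exact absurd (Finset.mem_univ k) h
  refine (P.roots.toFinset.finite_toSet).subset ?_
  rintro t ⟨ht, hs⟩
  rw [Finset.mem_coe, Multiset.mem_toFinset, Polynomial.mem_roots hP0, Polynomial.IsRoot.def, hev]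
  have h4 : ∀ i, (u i : ℂ) * ∏ j ∈ Finset.univ.erase i, (t - d j) =
      ((u i : ℂ) / (t - d i)) * ∏ j, (t - d j) := by
    intro i
    have hi : t - d i ≠ 0 := sub_ne_zero.mpr (ht i)
    rw [← Finset.mul_prod_erase Finset.univ (fun j => t - d j) (Finset.mem_univ i)]
    field_simp
  rw [Finset.sum_congr rfl (fun i _ => h4 i), ← Finset.sum_mul, hs, zero_mul]

/-- Row Z6-B2d. The exceptional points of the coefficients: `rf A C` vanishes or has a pole (value zero by convention) at finitely many points only. -/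
theorem rf_finite {A C : Polynomial ℂ} (hA : A ≠ 0) (hC : C ≠ 0) : {t : ℂ | rf A C t = 0}.Finite := by
  classical
  refine ((A.roots.toFinset ∪ C.roots.toFinset).finite_toSet).subset ?_
  intro t ht
  have h : A.eval t / C.eval t = 0 := ht
  rw [Finset.mem_coe, Finset.mem_union, Multiset.mem_toFinset, Multiset.mem_toFinset, Polynomial.mem_roots hA,
    Polynomial.mem_roots hC, Polynomial.IsRoot.def, Polynomial.IsRoot.def]
  exact div_eq_zero_iff.1 h

end Pool.Agent.Z6
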