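import Pool.Agent.Z6.A2
import Pool.Agent.Z6.B3
import Pool.Agent.Z5.B4

namespace Pool.Agent.Z6

open Pool.Agent.ZL2 Filter Topology
open Pool.Agent.Z5 (fr Gen ev2)

variable {m : ℕ}

theorem b4_dt_cont : Continuous fun p : (Fin m → ℝ) × (Fin m → ℝ) => dt p.1 p.2 := by
  unfold dt
  fun_prop

/-- The conditions on a point `(x, t)` for given `u, M`. -/
def b4P (a b : ℂ → ℂ) (c d : Fin m → ℂ) (u : Fin m → ℝ) (M : Fin 2 → Fin m → ℝ) (x t : ℂ) : Prop :=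
  dt u (LY c d t) = 0 ∧ ‖x‖ = Real.exp (dt (M 0) (LY c d t)) * ‖a t‖ ∧
    ‖1 - x‖ = Real.exp (dt (M 1) (LY c d t)) * ‖b t‖

theorem b4_of_log {x a : ℂ} {s : ℝ} (hx : x ≠ 0) (ha : a ≠ 0) :
    Real.log ‖x‖ = s + Real.log ‖a‖ ↔ ‖x‖ = Real.exp s * ‖a‖ := by
  have hx' : 0 < ‖x‖ := norm_pos_iff.2 hx
  have ha' : 0 < ‖a‖ := norm_pos_iff.2 ha
  constructor
  · intro h
    rw [← Real.exp_log hx', h, Real.exp_add, Real.exp_log ha']
  · intro h
    rw [h, Real.log_mul (Real.exp_pos _).ne' ha'.ne', Real.log_exp]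

/-- Closedness along the ultrafilter. -/
theorem b4_closed {a b : ℂ → ℂ} {c d : Fin m → ℂ} (hc : ∀ i, c i ≠ 0) {U : Ultrafilter ℕ} {u : ℕ → Fin m → ℝ}
    {M : ℕ → Fin 2 → Fin m → ℝ} {x t : ℕ → ℂ} {u' : Fin m → ℝ} {M' : Fin 2 → Fin m → ℝ} {x' t' : ℂ}
    (hu : Tendsto u (U : Filter ℕ) (𝓝 u')) (hM : Tendsto M (U : Filter ℕ) (𝓝 M'))
    (hx : Tendsto x (U : Filter ℕ) (𝓝 x')) (ht : Tendsto t (U : Filter ℕ) (𝓝 t')) (ht' : ∀ i, t' ≠ d i)
    (hac : ContinuousAt a t') (hbc : ContinuousAt b t')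
    (h : ∀ᶠ n in (U : Filter ℕ), b4P a b c d (u n) (M n) (x n) (t n)) : b4P a b c d u' M' x' t' := by
  have hL : Tendsto (fun n => LY c d (t n)) (U : Filter ℕ) (𝓝 (LY c d t')) := by
    rw [tendsto_pi_nhds]
    intro i
    exact (continuousAt_LY hc (ht' i)).tendsto.comp ht
  have hd : ∀ {v : ℕ → Fin m → ℝ} {v' : Fin m → ℝ}, Tendsto v (U : Filter ℕ) (𝓝 v') →
      Tendsto (fun n => dt (v n) (LY c d (t n))) (U : Filter ℕ) (𝓝 (dt v' (LY c d t'))) := by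
    intro v v' hv
    exact (b4_dt_cont.tendsto (v', LY c d t')).comp (hv.prodMk_nhds hL)
  have hMj : ∀ j, Tendsto (fun n => M n j) (U : Filter ℕ) (𝓝 (M' j)) := fun j =>
    (tendsto_pi_nhds.1 hM) j
  refine ⟨?_, ?_, ?_⟩
  · refine tendsto_nhds_unique (hd hu) ?_
    refine Tendsto.congr' ?_ tendsto_const_nhds
    filter_upwards [h] with n hn
    exact hn.1.symm
  · refine tendsto_nhds_unique hx.norm ?_
    refine Tendsto.congr' ?_ (((Real.continuous_exp.tendsto _).comp (hd (hMj 0))).mul (hac.tendsto.comp ht).norm)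
    filter_upwards [h] with n hn
    exact hn.2.1.symm
  · refine tendsto_nhds_unique (tendsto_const_nhds.sub hx).norm ?_
    refine Tendsto.congr' ?_ (((Real.continuous_exp.tendsto _).comp (hd (hMj 1))).mul (hbc.tendsto.comp ht).norm)
    filter_upwards [h] with n hn
    exact hn.2.2.symm

theorem b4_dt_le {v w : Fin m → ℝ} {A B : ℝ} (hv : ∀ i, |v i| ≤ A) (hw : ∀ i, |w i| ≤ B) (hA : 0 ≤ A) :
    dt v w ≤ m * (A * B) := by
  unfold dt
  calc ∑ i, v i * w i ≤ ∑ _i : Fin m, A * B := by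
        refine Finset.sum_le_sum fun i _ => ?_
        calc v i * w i ≤ |v i * w i| := le_abs_self _
          _ = |v i| * |w i| := abs_mul _ _
          _ ≤ A * B := mul_le_mul (hv i) (hw i) (abs_nonneg _) hA
    _ = m * (A * B) := by simp

theorem b4_rf_cont {A C : Polynomial ℂ} {t : ℂ} (h : rf A C t ≠ 0) : ContinuousAt (rf A C) t := by
  have h1 : C.eval t ≠ 0 := by
    intro h2
    apply h
    rw [rf, h2, div_zero]
  exact (A.continuous.continuousAt).div (C.continuous.continuousAt) h1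

/-- Row Z6-B4. As `Z5.core1`. The finitely many zeros of `rf A C`, `rf B C` (`rf_finite`) are added to the critical points (balls with small `fr` by `Z5.noatom`). -/
theorem core1 (hm : 0 < m) {A B C : Polynomial ℂ} (hA0 : A ≠ 0) (hB0 : B ≠ 0) (hC0 : C ≠ 0) {c d : Fin m → ℂ} {U : Ultrafilter ℕ}
    (S : Sq (rf A C) (rf B C) c d U) (hc : ∀ i, c i ≠ 0) (hd : Function.Injective d) {A1 : ℝ} (hA : S.Bdd A1) {κ' : ℝ}
    (hG : Gen (k := 2) (U : Filter ℕ) κ' (fun n σ => ![S.X n σ, S.t n σ])) : False := by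
  classical
  -- the limits
  obtain ⟨u', hu'm, hu'⟩ := Z5.b4_lim U S.u (Metric.closedBall 0 1) (isCompact_closedBall _ _) (by
    refine Eventually.of_forall fun n => ?_
    rw [mem_closedBall_zero_iff, pi_norm_le_iff_of_nonneg zero_le_one]
    intro i
    have h := S.hu n
    unfold dt at h
    have h1 : S.u n i * S.u n i ≤ ∑ j, S.u n j * S.u n j :=
      Finset.single_le_sum (f := fun j => S.u n j * S.u n j) (fun j _ => mul_self_nonneg _) (Finset.mem_univ i)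
    rw [h] at h1
    rw [Real.norm_eq_abs]
    exact abs_le_one_iff_mul_self_le_one.2 h1)
  have hdu : dt u' u' = 1 := by
    have h1 : Tendsto (fun n => dt (S.u n) (S.u n)) (U : Filter ℕ) (𝓝 (dt u' u')) :=
      (b4_dt_cont.tendsto (u', u')).comp (hu'.prodMk_nhds hu')
    have h2 : Tendsto (fun n => dt (S.u n) (S.u n)) (U : Filter ℕ) (𝓝 1) := by
      simp only [S.hu]
      exact tendsto_const_nhds
    exact tendsto_nhds_unique h1 h2
  have hu'0 : u' ≠ 0 := by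
    rintro rfl
    simp [dt] at hdu
  obtain ⟨M', hM'm, hM'⟩ := Z5.b4_lim U S.M (Metric.closedBall 0 |A1|) (isCompact_closedBall _ _) (by
    filter_upwards [hA] with n hn
    rw [mem_closedBall_zero_iff, pi_norm_le_iff_of_nonneg (abs_nonneg _)]
    intro j
    rw [pi_norm_le_iff_of_nonneg (abs_nonneg _)]
    intro i
    rw [Real.norm_eq_abs]
    exact (hn j i).trans (le_abs_self _))
  -- the compact set
  have hm0 : (0 : ℝ) < m := by exact_mod_cast hm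
  obtain ⟨A2, hA2, hA2B⟩ : ∃ A2 : ℝ, 0 < A2 ∧ m * (S.B / A2) ≤ 1 / 4 := by
    refine ⟨4 * m * (|S.B| + 1), by positivity, ?_⟩
    have h1 : (0 : ℝ) < 4 * m * (|S.B| + 1) := by positivity
    rw [← mul_div_assoc, div_le_iff₀ h1]
    have h2 := le_abs_self S.B
    have h3 := abs_nonneg S.B
    nlinarith [mul_le_mul_of_nonneg_left h2 hm0.le]
  have hKc : IsCompact {t | t ∈ KA c d A2 ∧ dt u' (LY c d t) = 0} := by
    have h1 : IsClosed {t | t ∈ KA c d A2 ∧ dt u' (LY c d t) = 0} := by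
      have h2 : ContinuousOn (fun t => dt u' (LY c d t)) (KA c d A2) := by
        intro t ht
        refine ContinuousAt.continuousWithinAt ?_
        have h3 : ContinuousAt (fun t => LY c d t) t := by
          rw [continuousAt_pi]
          exact fun i => continuousAt_LY hc (ht.1 i)
        exact (b4_dt_cont.continuousAt).comp (continuousAt_const.prodMk h3)
      exact h2.preimage_isClosed_of_isClosed (KA_compact hm hc A2).isClosed isClosed_singleton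
    exact (KA_compact hm hc A2).of_isClosed_subset h1 fun t ht => ht.1
  -- critical points
  have hcf := ((crit_finite hd hu'0).union (rf_finite hA0 hC0)).union (rf_finite hB0 hC0)
  obtain ⟨Z, hZ⟩ : ∃ Z : Finset ℂ, Z = hcf.toFinset := ⟨_, rfl⟩
  have hZm : ∀ t, t ∈ Z ↔ ((((∀ i, t ≠ d i) ∧ ∑ i, (u' i : ℂ) / (t - d i) = 0) ∨ rf A C t = 0) ∨
      rf B C t = 0) := by
    intro t
    rw [hZ, Set.Finite.mem_toFinset]
    rfl
  have hZa : ∀ t, t ∉ Z → rf A C t ≠ 0 := fun t h h1 => h ((hZm t).2 (Or.inl (Or.inr h1)))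
  have hZb : ∀ t, t ∉ Z → rf B C t ≠ 0 := fun t h h1 => h ((hZm t).2 (Or.inr h1))
  have hθ : (0 : ℝ) < 1 / (4 * (Z.card + 1)) := by positivity
  have hcb := fun w : ℂ => Z5.noatom S.gen w hθ
  choose δ hδ hδ2 using hcb
  -- noncritical points
  have hnc : ∀ t0 : ℂ, t0 ∈ {t | t ∈ KA c d A2 ∧ dt u' (LY c d t) = 0} → t0 ∉ Z →
      ∃ (ρ A3 : ℝ) (R Q : ℂ → ℂ), 0 < ρ ∧ 1 ≤ A3 ∧ DifferentiableOn ℂ R (Metric.ball t0 ρ) ∧
      DifferentiableOn ℂ Q (Metric.ball t0 ρ) ∧ (∀ t ∈ Metric.ball t0 ρ, ‖R t‖ ≤ A3 ∧ ‖Q t‖ ≤ A3 ∧ ‖t‖ ≤ A3) ∧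
      ∀ x t : ℂ, t ∈ Metric.ball t0 ρ → dt u' (LY c d t) = 0 → x ≠ 0 → x ≠ 1 →
        Real.log ‖x‖ = dt (M' 0) (LY c d t) + Real.log ‖rf A C t‖ →
        Real.log ‖1 - x‖ = dt (M' 1) (LY c d t) + Real.log ‖rf B C t‖ → x ^ 2 = 2 * R t * x - Q t ∧ ‖x‖ ≤ A3 := by
    intro t0 ht0 hz
    refine exists_RQ hc ht0.1.1 (hZa t0 hz) (hZb t0 hz) ht0.2 ?_ M'
    intro h
    exact hz ((hZm t0).2 (Or.inl (Or.inl ⟨ht0.1.1, h⟩)))
  -- radii
  have hrad : ∀ t0 : ℂ, ∃ ρ : ℝ, 0 < ρ ∧ (t0 ∈ {t | t ∈ KA c d A2 ∧ dt u' (LY c d t) = 0} → t0 ∉ Z →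
      ∀ D : ℝ, ∃ (L : ℕ) (f : (Fin 2 → Fin (L + 1)) → ℤ), 1 ≤ L ∧ f ≠ 0 ∧ (∀ α, |f α| ≤ 2 ^ L) ∧
        ∀ x t : ℂ, ‖t - t0‖ ≤ ρ → rf A C t ≠ 0 → rf B C t ≠ 0 → b4P (rf A C) (rf B C) c d u' M' x t →
          ‖ev f ![x, t]‖ < Real.exp (-(D * L))) := by
    intro t0
    by_cases h : t0 ∈ {t | t ∈ KA c d A2 ∧ dt u' (LY c d t) = 0} ∧ t0 ∉ Z
    · obtain ⟨ρ, A3, R, Q, hρ, hA3, hR, hQ, hbd, hmain⟩ := hnc t0 h.1 h.2
      refine ⟨ρ / 2, by positivity, fun _ _ D => ?_⟩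
      obtain ⟨L, f, hL, hf0, hf1, hf2⟩ := Z5.arc_small t0 ρ A3 hρ hA3 R Q hR hQ (fun t ht => (hbd t ht).1)
        (fun t ht => (hbd t ht).2.1) (fun t ht => (hbd t ht).2.2) D
      refine ⟨L, f, hL, hf0, hf1, fun x t ht ha hb hP => ?_⟩
      have hx0 : x ≠ 0 := by
        rintro rfl
        have := hP.2.1
        rw [norm_zero] at this
        have h0 : 0 < Real.exp (dt (M' 0) (LY c d t)) * ‖rf A C t‖ := mul_pos (Real.exp_pos _) (norm_pos_iff.2 ha)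
        linarith
      have hx1 : 1 - x ≠ 0 := by
        intro h1
        have := hP.2.2
        rw [h1, norm_zero] at this
        have h0 : 0 < Real.exp (dt (M' 1) (LY c d t)) * ‖rf B C t‖ := mul_pos (Real.exp_pos _) (norm_pos_iff.2 hb)
        linarith
      have htb : t ∈ Metric.ball t0 ρ := by
        rw [Metric.mem_ball, dist_eq_norm]
        linarith
      obtain ⟨e1, e2⟩ := hmain x t htb hP.1 hx0 (fun e => hx1 (by rw [e, sub_self]))
        ((b4_of_log hx0 ha).2 hP.2.1) ((b4_of_log hx1 hb).2 hP.2.2)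
      exact hf2 x t ht e1 e2
    · exact ⟨1, one_pos, fun h1 h2 => absurd ⟨h1, h2⟩ h⟩
  choose ρ hρ hρ2 using hrad
  -- finite subcover
  obtain ⟨T, hTs, hTc⟩ := hKc.elim_nhds_subcover
    (fun t0 => if t0 ∈ Z then Metric.ball t0 (δ t0) else Metric.ball t0 (ρ t0)) (by
      intro t0 _
      split_ifs
      · exact Metric.ball_mem_nhds t0 (hδ t0)
      · exact Metric.ball_mem_nhds t0 (hρ t0))
  obtain ⟨D, hD, hDκ⟩ : ∃ D : ℝ, 0 < D ∧ T.card * (κ' / D) ≤ 1 / 8 := by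
    refine ⟨8 * (T.card + 1) * (|κ'| + 1), by positivity, ?_⟩
    have h1 : (0 : ℝ) < 8 * (T.card + 1) * (|κ'| + 1) := by positivity
    rw [← mul_div_assoc, div_le_iff₀ h1]
    have h2 := le_abs_self κ'
    have h3 := abs_nonneg κ'
    have h4 : (0 : ℝ) ≤ T.card := Nat.cast_nonneg _
    nlinarith [mul_nonneg h4 h3, mul_le_mul_of_nonneg_left h2 h4]
  have hpoly : ∀ t0 : ℂ, ∃ (L : ℕ) (f : (Fin 2 → Fin (L + 1)) → ℤ), t0 ∈ T → t0 ∉ Z → 1 ≤ L ∧ f ≠ 0 ∧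
      (∀ α, |f α| ≤ 2 ^ L) ∧
      ∀ x t : ℂ, ‖t - t0‖ ≤ ρ t0 → rf A C t ≠ 0 → rf B C t ≠ 0 → b4P (rf A C) (rf B C) c d u' M' x t →
        ‖ev f ![x, t]‖ < Real.exp (-(D * L)) := by
    intro t0
    by_cases h : t0 ∈ T ∧ t0 ∉ Z
    · obtain ⟨L, f, h1⟩ := hρ2 t0 (hTs t0 h.1) h.2 D
      exact ⟨L, f, fun _ _ => h1⟩
    · exact ⟨0, 0, fun h1 h2 => absurd ⟨h1, h2⟩ h⟩
  choose L f hf using hpoly
  -- the open set
  have hevc : ∀ t0, Continuous fun p : ℂ × ℂ => ev (f t0) ![p.1, p.2] := by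
    intro t0
    unfold ev
    refine continuous_finsetSum _ fun α _ => ?_
    refine continuous_const.mul ?_
    refine continuous_finsetProd _ fun j _ => ?_
    refine Continuous.pow ?_ _
    fin_cases j
    · exact continuous_fst
    · exact continuous_snd
  obtain ⟨O, hO⟩ : ∃ O : Set (ℂ × ℂ), O = {p | (∃ t0 ∈ Z, ‖p.2 - t0‖ < δ t0) ∨
      ∃ t0 ∈ T, t0 ∉ Z ∧ ‖ev (f t0) ![p.1, p.2]‖ < Real.exp (-(D * L t0))} := ⟨_, rfl⟩
  have hOo : IsOpen O := by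
    have e : O = (⋃ t0 ∈ Z, {p : ℂ × ℂ | ‖p.2 - t0‖ < δ t0}) ∪
        ⋃ t0 ∈ T, ⋃ (_ : t0 ∉ Z), {p : ℂ × ℂ | ‖ev (f t0) ![p.1, p.2]‖ < Real.exp (-(D * L t0))} := by
      rw [hO]
      ext p
      simp only [Set.mem_ofPred_eq, Set.mem_union, Set.mem_iUnion, exists_prop]
    rw [e]
    refine IsOpen.union ?_ ?_
    · refine isOpen_biUnion fun t0 _ => ?_
      exact isOpen_lt (continuous_snd.sub continuous_const).norm continuous_const
    · refine isOpen_biUnion fun t0 _ => isOpen_iUnion fun _ => ?_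
      exact isOpen_lt (hevc t0).norm continuous_const
  have hOK : ∀ x t : ℂ, t ∈ KA c d A2 → rf A C t ≠ 0 → rf B C t ≠ 0 →
      b4P (rf A C) (rf B C) c d u' M' x t → (x, t) ∈ O := by
    intro x t ht ha hb hP
    have h1 := hTc (show t ∈ {t | t ∈ KA c d A2 ∧ dt u' (LY c d t) = 0} from ⟨ht, hP.1⟩)
    rw [Set.mem_iUnion₂] at h1
    obtain ⟨t0, ht0, h2⟩ := h1
    rw [hO]
    by_cases hz : t0 ∈ Z
    · rw [if_pos hz, Metric.mem_ball, dist_eq_norm] at h2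
      exact Or.inl ⟨t0, hz, h2⟩
    · rw [if_neg hz, Metric.mem_ball, dist_eq_norm] at h2
      exact Or.inr ⟨t0, ht0, hz, (hf t0 ht0 hz).2.2.2 x t h2.le ha hb hP⟩
  -- eventually everything is in `O`
  have hPn : ∀ n σ, b4P (rf A C) (rf B C) c d (S.u n) (S.M n) (S.X n σ) (S.t n σ) := fun n σ =>
    ⟨S.r0 n σ, (b4_of_log (S.hX0 n σ) (S.ha n σ)).1 (S.r1 n σ),
      (b4_of_log (sub_ne_zero.2 (S.hX1 n σ).symm) (S.hb n σ)).1 (S.r2 n σ)⟩
  have hev : ∀ᶠ n in (U : Filter ℕ), ∀ σ, S.t n σ ∈ KA c d A2 → (S.X n σ, S.t n σ) ∈ O := by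
    by_contra hcon
    rw [Ultrafilter.eventually_not.symm] at hcon
    have hch : ∀ n, ∃ σ : S.ι n, (¬ ∀ σ, S.t n σ ∈ KA c d A2 → (S.X n σ, S.t n σ) ∈ O) →
        S.t n σ ∈ KA c d A2 ∧ (S.X n σ, S.t n σ) ∉ O := by
      intro n
      by_cases h : ∀ σ, S.t n σ ∈ KA c d A2 → (S.X n σ, S.t n σ) ∈ O
      · exact ⟨Classical.arbitrary _, fun h' => absurd h h'⟩
      · push Not at h
        obtain ⟨σ, h1⟩ := h
        exact ⟨σ, fun _ => h1⟩
    choose σ hσ using hch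
    have hg : ∀ᶠ n in (U : Filter ℕ), S.t n (σ n) ∈ KA c d A2 ∧ (S.X n (σ n), S.t n (σ n)) ∉ O := by
      filter_upwards [hcon] with n hn
      exact hσ n hn
    obtain ⟨t', ht'm, ht'⟩ := Z5.b4_lim U (fun n => S.t n (σ n)) (KA c d A2) (KA_compact hm hc A2) (hg.mono fun n hn => hn.1)
    have hz' : t' ∉ Z := by
      intro hz
      have h4 : ∀ᶠ n in (U : Filter ℕ), ‖S.t n (σ n) - t'‖ < δ t' := by
        have h5 : Tendsto (fun n => ‖S.t n (σ n) - t'‖) (U : Filter ℕ) (𝓝 ‖t' - t'‖) :=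
          (ht'.sub_const t').norm
        rw [sub_self, norm_zero] at h5
        exact h5.eventually (gt_mem_nhds (hδ t'))
      obtain ⟨n, h5, h6⟩ := (hg.and h4).exists
      apply h5.2
      rw [hO]
      exact Or.inl ⟨t', hz, h6⟩
    have hca := b4_rf_cont (hZa t' hz')
    have hcb := b4_rf_cont (hZb t' hz')
    have hbdd : ∀ᶠ n in (U : Filter ℕ), ‖rf A C (S.t n (σ n))‖ ≤ ‖rf A C t'‖ + 1 :=
      ((hca.tendsto.comp ht').norm).eventually (ge_mem_nhds (by linarith))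
    obtain ⟨x', -, hx'⟩ := Z5.b4_lim U (fun n => S.X n (σ n))
      (Metric.closedBall 0 (Real.exp (m * (|A1| * A2)) * (‖rf A C t'‖ + 1))) (isCompact_closedBall _ _) (by
        filter_upwards [hg, hA, hbdd] with n hn hAn hbn
        rw [mem_closedBall_zero_iff, (hPn n (σ n)).2.1]
        refine mul_le_mul (Real.exp_le_exp.2 ?_) hbn (norm_nonneg _) (Real.exp_pos _).le
        exact b4_dt_le (fun i => (hAn 0 i).trans (le_abs_self _)) (fun i => hn.1.2 i) (abs_nonneg _))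
    have hP' := b4_closed hc hu' hM' hx' ht' ht'm.1 hca hcb (Eventually.of_forall fun n => hPn n (σ n))
    have hin := hOK x' t' ht'm (hZa t' hz') (hZb t' hz') hP'
    have h3 : ∀ᶠ n in (U : Filter ℕ), (S.X n (σ n), S.t n (σ n)) ∈ O :=
      (hx'.prodMk_nhds ht').eventually (hOo.mem_nhds hin)
    obtain ⟨n, h4, h5⟩ := (hg.and h3).exists
    exact h4.2 h5
  -- the generic bounds
  have hb1 : ∀ᶠ n in (U : Filter ℕ), ∀ t0 ∈ Z, fr (fun σ : S.ι n => ‖S.t n σ - t0‖ < δ t0) ≤ 1 / (4 * (Z.card + 1)) := by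
    rw [Filter.eventually_all_finset]
    intro t0 _
    exact hδ2 t0
  have hb2 : ∀ᶠ n in (U : Filter ℕ), ∀ t0 ∈ T, t0 ∉ Z →
      D * fr (fun σ : S.ι n => ‖ev (f t0) ![S.X n σ, S.t n σ]‖ ≤ Real.exp (-(D * L t0))) ≤ κ' := by
    rw [Filter.eventually_all_finset]
    intro t0 ht0
    by_cases hz : t0 ∈ Z
    · exact Eventually.of_forall fun n h => absurd hz h
    · obtain ⟨h1, h2, h3, -⟩ := hf t0 ht0 hz
      filter_upwards [hG (L t0) (f t0) h1 h2 h3 D hD] with n hn _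
      exact hn
  obtain ⟨n, h1, h2, h3⟩ := (hev.and (hb1.and hb2)).exists
  have key : (1 : ℝ) ≤ fr (fun σ : S.ι n => S.t n σ ∉ KA c d A2) +
      (fr (fun σ : S.ι n => ∃ t0 ∈ Z, ‖S.t n σ - t0‖ < δ t0) +
        fr (fun σ : S.ι n => ∃ t0 ∈ T.filter (· ∉ Z), ‖ev (f t0) ![S.X n σ, S.t n σ]‖ ≤ Real.exp (-(D * L t0)))) := by
    rw [← Z5.fr_true (ι := S.ι n)]
    refine (Z5.fr_mono (Q := fun σ => S.t n σ ∉ KA c d A2 ∨ ((∃ t0 ∈ Z, ‖S.t n σ - t0‖ < δ t0) ∨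
      (∃ t0 ∈ T.filter (· ∉ Z), ‖ev (f t0) ![S.X n σ, S.t n σ]‖ ≤ Real.exp (-(D * L t0))))) ?_).trans
      ((Z5.fr_or _ _).trans (add_le_add le_rfl (Z5.fr_or _ _)))
    intro σ _
    by_cases ht : S.t n σ ∈ KA c d A2
    · right
      have h4 := h1 σ ht
      rw [hO] at h4
      rcases h4 with ⟨t0, e1, e2⟩ | ⟨t0, e1, e2, e3⟩
      · exact Or.inl ⟨t0, e1, e2⟩
      · exact Or.inr ⟨t0, Finset.mem_filter.2 ⟨e1, e2⟩, le_of_lt e3⟩
    · exact Or.inl ht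
  have k1 := KA_tail (S.t n) (S.ht n) S.B (S.hB n) hA2
  have k2 : fr (fun σ : S.ι n => ∃ t0 ∈ Z, ‖S.t n σ - t0‖ < δ t0) ≤ 1 / 4 := by
    refine (Z5.fr_exists _ _).trans ?_
    calc ∑ t0 ∈ Z, fr (fun σ : S.ι n => ‖S.t n σ - t0‖ < δ t0)
        ≤ ∑ _t0 ∈ Z, (1 : ℝ) / (4 * (Z.card + 1)) := Finset.sum_le_sum fun t0 h => h2 t0 h
      _ = Z.card * (1 / (4 * ((Z.card : ℝ) + 1))) := by rw [Finset.sum_const, nsmul_eq_mul]
      _ ≤ 1 / 4 := by
          rw [mul_one_div, div_le_div_iff₀ (by positivity) (by norm_num)]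
          linarith
  have k3 : fr (fun σ : S.ι n => ∃ t0 ∈ T.filter (· ∉ Z), ‖ev (f t0) ![S.X n σ, S.t n σ]‖ ≤ Real.exp (-(D * L t0))) ≤ 1 / 8 := by
    refine (Z5.fr_exists _ _).trans ?_
    have hκ0 : ∀ t0 ∈ T.filter (· ∉ Z), 0 ≤ κ' := fun t0 h =>
      (mul_nonneg hD.le (Z5.fr_nonneg _)).trans (h3 t0 (Finset.mem_filter.1 h).1 (Finset.mem_filter.1 h).2)
    calc ∑ t0 ∈ T.filter (· ∉ Z), fr (fun σ : S.ι n => ‖ev (f t0) ![S.X n σ, S.t n σ]‖ ≤ Real.exp (-(D * L t0)))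
        ≤ ∑ _t0 ∈ T.filter (· ∉ Z), κ' / D := by
          refine Finset.sum_le_sum fun t0 h => ?_
          rw [le_div_iff₀ hD, mul_comm]
          exact h3 t0 (Finset.mem_filter.1 h).1 (Finset.mem_filter.1 h).2
      _ = (T.filter (· ∉ Z)).card * (κ' / D) := by rw [Finset.sum_const, nsmul_eq_mul]
      _ ≤ 1 / 8 := by
          rcases (T.filter (· ∉ Z)).eq_empty_or_nonempty with h | ⟨t0, h⟩
          · rw [h]; simp
          · refine le_trans (mul_le_mul_of_nonneg_right ?_ (div_nonneg (hκ0 t0 h) hD.le)) hDκ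
            exact_mod_cast Finset.card_le_card (Finset.filter_subset _ _)
  linarith

end Pool.Agent.Z6
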