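import Pool.Agent.Z6.A2
import Pool.Agent.Z5.C3

namespace Pool.Agent.Z6

open Pool.Agent.ZL2 Filter Topology
open Pool.Agent.Z5 (fr Gen ev2)

variable {m : ℕ}

/-- The limit principle at a point of `Sup`. -/
theorem c3_key {a b : ℂ → ℂ} {c d : Fin m → ℂ} {U : Ultrafilter ℕ} (S : Sq a b c d U) {q : ℂ × ℂ} (hq : q ∈ S.Sup)
    {Φ : ℕ × (ℂ × ℂ) → ℝ} {l : ℝ} (hΦ : Tendsto Φ ((U : Filter ℕ) ×ˢ 𝓝 q) (𝓝 l)) {O : Set (ℂ × ℂ)} (hO : O ∈ 𝓝 q)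
    (h0 : ∀ᶠ n in (U : Filter ℕ), ∀ σ, (S.X n σ, S.t n σ) ∈ O → Φ (n, (S.X n σ, S.t n σ)) ≤ 0) : l ≤ 0 := by
  by_contra hl
  have h1 := hΦ.eventually (lt_mem_nhds (not_le.1 hl))
  rw [Filter.eventually_prod_iff] at h1
  obtain ⟨pa, hpa, pb, hpb, hab⟩ := h1
  obtain ⟨n, ⟨q1, q2⟩, ⟨σ, q3⟩⟩ := ((hpa.and h0).and (hq (O ∩ {x | pb x}) (Filter.inter_mem hO hpb))).exists
  exact absurd (hab q1 q3.2) (not_lt.2 (q2 σ q3.1))

theorem c3_LY {c d : Fin m → ℂ} {U : Ultrafilter ℕ} (hc : ∀ i, c i ≠ 0) {q : ℂ × ℂ}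
    (hqd : ∀ i, q.2 ≠ d i) :
    Tendsto (fun p : ℕ × (ℂ × ℂ) => LY c d p.2.2) ((U : Filter ℕ) ×ˢ 𝓝 q) (𝓝 (LY c d q.2)) := by
  have h1 : Tendsto (fun z => LY c d z) (𝓝 q.2) (𝓝 (LY c d q.2)) :=
    tendsto_pi_nhds.2 fun i => continuousAt_LY hc (hqd i)
  exact h1.comp ((continuous_snd.tendsto q).comp tendsto_snd)

theorem c3_dt {α : Type} {F : Filter α} {u v : α → Fin m → ℝ} {u' v' : Fin m → ℝ}
    (hu : Tendsto u F (𝓝 u')) (hv : Tendsto v F (𝓝 v')) :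
    Tendsto (fun n => dt (u n) (v n)) F (𝓝 (dt u' v')) := by
  unfold dt
  exact tendsto_finsetSum _ fun i _ => (tendsto_pi_nhds.1 hu i).mul (tendsto_pi_nhds.1 hv i)

theorem c3_u {a b : ℂ → ℂ} {c d : Fin m → ℂ} {U : Ultrafilter ℕ} (S : Sq a b c d U) (hc : ∀ i, c i ≠ 0)
    {u' : Fin m → ℝ} (hu' : Tendsto S.u (U : Filter ℕ) (𝓝 u')) {q : ℂ × ℂ} (hq : q ∈ S.Sup)
    (hqd : ∀ i, q.2 ≠ d i) : dt u' (LY c d q.2) = 0 := by
  have h1 : Tendsto (fun p : ℕ × (ℂ × ℂ) => |dt (S.u p.1) (LY c d p.2.2)|) ((U : Filter ℕ) ×ˢ 𝓝 q)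
      (𝓝 |dt u' (LY c d q.2)|) := (c3_dt (hu'.comp tendsto_fst) (c3_LY hc hqd)).abs
  have h2 := c3_key S hq h1 Filter.univ_mem (Filter.Eventually.of_forall fun n σ _ => by
    show |dt (S.u n) (LY c d (S.t n σ))| ≤ 0
    rw [S.r0 n σ, abs_zero])
  exact abs_nonpos_iff.1 h2

theorem c3_rf_cont {A C : Polynomial ℂ} {t : ℂ} (h : rf A C t ≠ 0) : ContinuousAt (rf A C) t := by
  have hC : C.eval t ≠ 0 := by
    intro h0
    exact h (by unfold rf; rw [h0, div_zero])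
  unfold rf
  exact A.continuous.continuousAt.div C.continuous.continuousAt hC

theorem c3_rf {U : Ultrafilter ℕ} {A C : Polynomial ℂ} {q : ℂ × ℂ} (h : rf A C q.2 ≠ 0) :
    Tendsto (fun p : ℕ × (ℂ × ℂ) => Real.log ‖rf A C p.2.2‖) ((U : Filter ℕ) ×ˢ 𝓝 q)
      (𝓝 (Real.log ‖rf A C q.2‖)) := by
  have h1 : ContinuousAt (fun x : ℂ => Real.log ‖rf A C x‖) q.2 :=
    ContinuousAt.log (c3_rf_cont h).norm (norm_ne_zero_iff.2 h)
  exact Tendsto.comp h1 ((continuous_snd.tendsto q).comp tendsto_snd)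

/-- Row Z6-C3b. As `Z5.star` (`Z5.ratio` can be used). -/
theorem star {a b : ℂ → ℂ} {c d : Fin m → ℂ} {U : Ultrafilter ℕ} (S : Sq a b c d U) (hc : ∀ i, c i ≠ 0)
    {u' : Fin m → ℝ} {M' : Fin 2 → Fin m → ℝ} {ε : ℕ → ℝ} (hε0 : ∀ᶠ n in (U : Filter ℕ), 0 < ε n)
    (hε : Tendsto ε (U : Filter ℕ) (𝓝 0)) {u1 : Fin m → ℝ} {M1 : Fin 2 → Fin m → ℝ}
    (h1 : Tendsto (fun n => (ε n)⁻¹ • (S.u n - u')) (U : Filter ℕ) (𝓝 u1))
    (h2 : Tendsto (fun n => (ε n)⁻¹ • (S.M n - M')) (U : Filter ℕ) (𝓝 M1)) {q : ℂ × ℂ} (hq : q ∈ S.Sup)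
    (hqd : ∀ i, q.2 ≠ d i) {f g : ℂ → ℂ} {f' g' : ℂ} (hf : HasStrictDerivAt f f' q.2)
    (hg : HasStrictDerivAt g g' q.2) (hf' : f' ≠ 0) (hfr : ∀ᶠ t in 𝓝 q.2, (f t).re = dt u' (LY c d t))
    (j : Fin 2) {O : Set (ℂ × ℂ)} (hO : O ∈ 𝓝 q)
    (hgr : ∀ᶠ n in (U : Filter ℕ), ∀ σ, (S.X n σ, S.t n σ) ∈ O →
      (g (S.t n σ)).re = dt (S.M n j) (LY c d (S.t n σ)) - dt (M' j) (LY c d (S.t n σ)))
    (hz : ∀ᶠ t in 𝓝 q.2, (f t).re = 0 → (g t).re = 0) :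
    dt (M1 j) (LY c d q.2) = - (g' / f').re * dt u1 (LY c d q.2) := by
  have hu' : Tendsto S.u (U : Filter ℕ) (𝓝 u') := by
    have e1 : Tendsto (fun n => u' + ε n • ((ε n)⁻¹ • (S.u n - u'))) (U : Filter ℕ) (𝓝 (u' + (0 : ℝ) • u1)) :=
      tendsto_const_nhds.add (hε.smul h1)
    rw [zero_smul, add_zero] at e1
    refine e1.congr' ?_
    filter_upwards [hε0] with n hn
    rw [smul_smul, mul_inv_cancel₀ hn.ne', one_smul, add_sub_cancel]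
  have hf0 : (f q.2).re = 0 := by
    rw [hfr.self_of_nhds]
    exact c3_u S hc hu' hq hqd
  have hMj : Tendsto (fun n => ((ε n)⁻¹ • (S.M n - M')) j) (U : Filter ℕ) (𝓝 (M1 j)) :=
    tendsto_pi_nhds.1 h2 j
  have key : ∀ δ : ℝ, 0 < δ → |dt (M1 j) (LY c d q.2) + (g' / f').re * dt u1 (LY c d q.2)| ≤
      δ * |dt u1 (LY c d q.2)| := by
    intro δ hδ
    have hL := c3_LY (U := U) hc hqd
    have hD1 := c3_dt (hMj.comp tendsto_fst) hL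
    have hD2 := c3_dt (h1.comp tendsto_fst) hL
    have hD := ((hD1.add (hD2.const_mul ((g' / f').re))).abs).sub ((hD2.abs).const_mul δ)
    have hra := Pool.Agent.Z5.ratio hf hg hf' hf0 hz hδ
    have hO2 : {p : ℂ × ℂ | |(g p.2).re - (g' / f').re * (f p.2).re| ≤ δ * |(f p.2).re| ∧
        (f p.2).re = dt u' (LY c d p.2)} ∈ 𝓝 q := (continuous_snd.tendsto q).eventually (hra.and hfr)
    have hkey := c3_key S hq hD (Filter.inter_mem hO hO2) (by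
      filter_upwards [hε0, hgr] with n hn hg1
      rintro σ ⟨q1, q2, q3⟩
      have q4 := hg1 σ q1
      have q5 := S.r0 n σ
      simp only [Function.comp_apply]
      simp only at q2 q3
      set y := LY c d (S.t n σ) with hy
      have q6 : dt ((ε n)⁻¹ • (S.u n - u')) y = - ((ε n)⁻¹ * (f (S.t n σ)).re) := by
        rw [q3]
        have : dt ((ε n)⁻¹ • (S.u n - u')) y = (ε n)⁻¹ * (dt (S.u n) y - dt u' y) := by
          simp only [dt, Pi.smul_apply, Pi.sub_apply, smul_eq_mul, Finset.mul_sum, ← Finset.sum_sub_distrib]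
          exact Finset.sum_congr rfl fun i _ => by ring
        rw [this, q5]; ring
      have q7 : dt (((ε n)⁻¹ • (S.M n - M')) j) y = (ε n)⁻¹ * (g (S.t n σ)).re := by
        rw [q4]
        simp only [dt, Pi.smul_apply, Pi.sub_apply, smul_eq_mul, Finset.mul_sum, ← Finset.sum_sub_distrib]
        exact Finset.sum_congr rfl fun i _ => by ring
      rw [q6, q7]
      have hi : 0 < (ε n)⁻¹ := inv_pos.2 hn
      have q8 : (ε n)⁻¹ * (g (S.t n σ)).re + (g' / f').re * -((ε n)⁻¹ * (f (S.t n σ)).re) =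
          (ε n)⁻¹ * ((g (S.t n σ)).re - (g' / f').re * (f (S.t n σ)).re) := by ring
      rw [q8, abs_neg, abs_mul, abs_mul, abs_of_pos hi]
      have q9 := mul_le_mul_of_nonneg_left q2 hi.le
      linarith)
    linarith
  have hlim : |dt (M1 j) (LY c d q.2) + (g' / f').re * dt u1 (LY c d q.2)| ≤ 0 := by
    by_contra hcon
    have hcon := not_le.1 hcon
    have h3 := key (|dt (M1 j) (LY c d q.2) + (g' / f').re * dt u1 (LY c d q.2)| /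
      (2 * (|dt u1 (LY c d q.2)| + 1))) (by positivity)
    rw [div_mul_eq_mul_div, le_div_iff₀ (by positivity)] at h3
    nlinarith [abs_nonneg (dt u1 (LY c d q.2))]
  have h4 := abs_nonpos_iff.1 hlim
  linarith

/-- Row Z6-C3c. As `Z5.sup_rel`. -/
theorem sup_rel {A B C : Polynomial ℂ} {c d : Fin m → ℂ} {U : Ultrafilter ℕ} (S : Sq (rf A C) (rf B C) c d U)
    (hc : ∀ i, c i ≠ 0)
    {u' : Fin m → ℝ} {M' : Fin 2 → Fin m → ℝ} (hu' : Tendsto S.u (U : Filter ℕ) (𝓝 u'))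
    (hM' : Tendsto S.M (U : Filter ℕ) (𝓝 M')) {q : ℂ × ℂ} (hq : q ∈ S.Sup) (hqd : ∀ i, q.2 ≠ d i)
    (hqa : rf A C q.2 ≠ 0) (hqb : rf B C q.2 ≠ 0) (hq0 : q.1 ≠ 0) (hq1 : q.1 ≠ 1) : dt u' (LY c d q.2) = 0 ∧
      Real.log ‖q.1‖ = dt (M' 0) (LY c d q.2) + Real.log ‖rf A C q.2‖ ∧
      Real.log ‖1 - q.1‖ = dt (M' 1) (LY c d q.2) + Real.log ‖rf B C q.2‖ := by
  have hL := c3_LY (U := U) hc hqd
  have hX : Tendsto (fun p : ℕ × (ℂ × ℂ) => Real.log ‖p.2.1‖) ((U : Filter ℕ) ×ˢ 𝓝 q) (𝓝 (Real.log ‖q.1‖)) := by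
    have h1 : ContinuousAt (fun x : ℂ × ℂ => Real.log ‖x.1‖) q :=
      ContinuousAt.log (by fun_prop) (norm_ne_zero_iff.2 hq0)
    exact Tendsto.comp h1 tendsto_snd
  have hX1 : Tendsto (fun p : ℕ × (ℂ × ℂ) => Real.log ‖1 - p.2.1‖) ((U : Filter ℕ) ×ˢ 𝓝 q)
      (𝓝 (Real.log ‖1 - q.1‖)) := by
    have h1 : ContinuousAt (fun x : ℂ × ℂ => Real.log ‖1 - x.1‖) q :=
      ContinuousAt.log (by fun_prop) (norm_ne_zero_iff.2 (sub_ne_zero.2 hq1.symm))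
    exact Tendsto.comp h1 tendsto_snd
  refine ⟨c3_u S hc hu' hq hqd, ?_, ?_⟩
  · have hM0 : Tendsto (fun n => S.M n 0) (U : Filter ℕ) (𝓝 (M' 0)) := tendsto_pi_nhds.1 hM' 0
    have h1 := (hX.sub ((c3_dt (hM0.comp tendsto_fst) hL).add (c3_rf (U := U) hqa))).abs
    have h2 := c3_key S hq h1 Filter.univ_mem (Filter.Eventually.of_forall fun n σ _ => by
      simp only [Function.comp_apply]
      rw [← S.r1 n σ, sub_self, abs_zero])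
    have h3 := abs_nonpos_iff.1 h2
    linarith
  · have hM1 : Tendsto (fun n => S.M n 1) (U : Filter ℕ) (𝓝 (M' 1)) := tendsto_pi_nhds.1 hM' 1
    have h1 := (hX1.sub ((c3_dt (hM1.comp tendsto_fst) hL).add (c3_rf (U := U) hqb))).abs
    have h2 := c3_key S hq h1 Filter.univ_mem (Filter.Eventually.of_forall fun n σ _ => by
      simp only [Function.comp_apply]
      rw [← S.r2 n σ, sub_self, abs_zero])
    have h3 := abs_nonpos_iff.1 h2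
    linarith

end Pool.Agent.Z6
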