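import Pool.Agent.Z5.Defs

namespace Pool.Agent.Z6

open Pool.Agent.ZL2 Filter Topology
open Pool.Agent.Z5 (fr Gen ev2)

variable {m : ℕ}

/-- `LY c d t i = log |c_i (t - d_i)|`. -/
noncomputable def LY (c d : Fin m → ℂ) (t : ℂ) (i : Fin m) : ℝ := Real.log ‖c i * (t - d i)‖

/-- The scalar product. -/
def dt (u v : Fin m → ℝ) : ℝ := ∑ i, u i * v i

/-- Condition (H): two independent real relations between the `log |y_i|` hold at finitely many points only. -/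
def HH (c d : Fin m → ℂ) : Prop :=
  ∀ u v : Fin m → ℝ, LinearIndependent ℝ ![u, v] →
    {t : ℂ | (∀ i, t ≠ d i) ∧ dt u (LY c d t) = 0 ∧ dt v (LY c d t) = 0}.Finite

/-- The compact sets `|log |y_i|| ≤ A`. -/
def KA (c d : Fin m → ℂ) (A : ℝ) : Set ℂ := {t | (∀ i, t ≠ d i) ∧ ∀ i, |LY c d t i| ≤ A}

/-- The three rows `M_1, M_0, M_0 - M_1`. -/
def rw3 (M : Fin 2 → Fin m → ℝ) : Fin 3 → Fin m → ℝ := ![M 1, M 0, fun i => M 0 i - M 1 i]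

/-- The rational function `A / C`. -/
noncomputable def rf (A C : Polynomial ℂ) (t : ℂ) : ℂ := A.eval t / C.eval t

/-- A sequence of Galois orbits of points `(X, t)`, `x_1 = X / a(t)`, `x_2 = (1 - X) / b(t)`, `y_i = c_i (t - d_i)`,
with the relations `u · log |y| = 0`, `log |x| = M log |y|`. -/
structure Sq (a b : ℂ → ℂ) (c d : Fin m → ℂ) (U : Ultrafilter ℕ) where
  ι : ℕ → Type
  fin : ∀ n, Fintype (ι n)
  ne : ∀ n, Nonempty (ι n)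
  X : ∀ n, ι n → ℂ
  t : ∀ n, ι n → ℂ
  u : ℕ → Fin m → ℝ
  M : ℕ → Fin 2 → Fin m → ℝ
  B : ℝ
  κ : ℝ
  hX0 : ∀ n σ, X n σ ≠ 0
  hX1 : ∀ n σ, X n σ ≠ 1
  ht : ∀ n σ i, t n σ ≠ d i
  ha : ∀ n σ, a (t n σ) ≠ 0
  hb : ∀ n σ, b (t n σ) ≠ 0
  hu : ∀ n, dt (u n) (u n) = 1
  hM : ∀ n j, dt (M n j) (u n) = 0
  r0 : ∀ n σ, dt (u n) (LY c d (t n σ)) = 0
  r1 : ∀ n σ, Real.log ‖X n σ‖ = dt (M n 0) (LY c d (t n σ)) + Real.log ‖a (t n σ)‖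
  r2 : ∀ n σ, Real.log ‖1 - X n σ‖ = dt (M n 1) (LY c d (t n σ)) + Real.log ‖b (t n σ)‖
  hB : ∀ n i, ∑ σ, |LY c d (t n σ) i| ≤ B * Fintype.card (ι n)
  hab : ∀ n, ∑ σ, (|Real.log ‖a (t n σ)‖| + |Real.log ‖b (t n σ)‖|) ≤ B * Fintype.card (ι n)
  gen : Gen (k := 1) (U : Filter ℕ) κ (fun n σ _ => t n σ)

attribute [instance] Sq.fin Sq.ne

/-- `|M| ≤ A` eventually. -/
def Sq.Bdd {a b : ℂ → ℂ} {c d : Fin m → ℂ} {U : Ultrafilter ℕ} (S : Sq a b c d U) (A : ℝ) : Prop :=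
  ∀ᶠ n in (U : Filter ℕ), ∀ j i, |S.M n j i| ≤ A

/-- The limit points of the orbits. -/
def Sq.Sup {a b : ℂ → ℂ} {c d : Fin m → ℂ} {U : Ultrafilter ℕ} (S : Sq a b c d U) : Set (ℂ × ℂ) :=
  {p | ∀ O ∈ 𝓝 p, ∀ᶠ n in (U : Filter ℕ), ∃ σ, (S.X n σ, S.t n σ) ∈ O}

end Pool.Agent.Z6
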