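import Pool.Agent.Z6.K0
import Pool.Agent.Z6.A4
import Pool.Agent.Z6.B4
import Pool.Agent.Z5.E2

namespace Pool.Agent.Z6

open Pool.Agent.ZL2 Filter Topology
open Pool.Agent.Z5 (fr Gen ev2 sum_le_hh bp_ineq)

variable {F : Type} [Field F] [NumberField F] [Algebra F ℂ] {m : ℕ} {A B C : Polynomial F} {c d : Fin m → F}

/-- Row Z6-E2a. As `Z5.ArM.hh_X` (`row_bound` with `ak = S.a n`, `bk = S.b n`, `Ar.hB0`). -/
theorem ArM.hh_X (S : ArM F A B C c d) (A0 : ℝ) : ∃ C0 : ℝ, 0 ≤ C0 ∧ ∀ n, (∃ j, ∑ i, |rw3 (S.M n) j i| ≤ A0) →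
    hh (S.X n) ≤ C0 * Module.finrank ℚ (S.K n) ∧ hh (1 - S.X n) ≤ C0 * Module.finrank ℚ (S.K n) := by
  obtain ⟨C0, hC, h⟩ := row_bound (m := m) S.B0 A0
  refine ⟨C0, hC, fun n hj => ?_⟩
  obtain ⟨h1, -, h3, h4⟩ := S.hB0.2 n (S.u n) (S.hu n) (S.r0 n)
  exact h (S.K n) (S.X n) (S.a n) (S.b n) (S.y n) (S.hX0 n) (S.hX1 n) (S.a_ne n) (S.b_ne n) h3 h4 (S.y_ne n)
    h1 (S.M n) (S.r1 n) (S.r2 n) hj

/-- Row Z6-E2b. As `Z5.ArM.bdd`. -/
theorem ArM.bdd (S : ArM F A B C c d) (U : Ultrafilter ℕ) (hU : (U : Filter ℕ) ≤ cofinite) :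
    ∃ A0, (S.sq U hU).Bdd A0 := by
  refine bddM S.hm (S.sq U hU) (fun i => (map_ne_zero _).2 (S.hc i)) S.hH ?_
  intro A0
  obtain ⟨C0, hC, h⟩ := S.hh_X A0
  refine ⟨2 * (2 * C0 * (Module.finrank ℚ F : ℝ)), fun n hj => ?_⟩
  obtain ⟨h1, h2⟩ := h n hj
  have s1 := sum_le_hh (F := F) (S.hX0 n) h1
  have s2 := sum_le_hh (F := F) (sub_ne_zero.2 (S.hX1 n).symm) h2
  show ∑ σ : S.K n →ₐ[F] ℂ, (|Real.log ‖σ (S.X n)‖| + |Real.log ‖1 - σ (S.X n)‖|) ≤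
    2 * (2 * C0 * (Module.finrank ℚ F : ℝ)) * Fintype.card (S.K n →ₐ[F] ℂ)
  have e : ∀ σ : S.K n →ₐ[F] ℂ, (1 : ℂ) - σ (S.X n) = σ (1 - S.X n) := by
    intro σ
    rw [map_sub, map_one]
  simp only [e]
  rw [Finset.sum_add_distrib]
  linarith

/-- Row Z6-E2c. As `Z5.ArM.exists_eq` (the polynomials `A.map`, `B.map`, `C.map` are nonzero: `Polynomial.map_ne_zero`). -/
theorem ArM.exists_eq (S : ArM F A B C c d) (U : Ultrafilter ℕ) (hU : (U : Filter ℕ) ≤ cofinite) :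
    ∃ (L : ℕ) (f : (Fin 2 → Fin (L + 1)) → ℤ), f ≠ 0 ∧
      ∀ᶠ n in (U : Filter ℕ), ev f ![S.X n, S.t n] = 0 := by
  by_contra hcon
  obtain ⟨A0, hA0⟩ := S.bdd U hU
  obtain ⟨C0, hC, hhX⟩ := S.hh_X (m * A0)
  have hX : ∀ᶠ n in (U : Filter ℕ), hh (S.X n) ≤ C0 * Module.finrank ℚ (S.K n) := by
    filter_upwards [hA0] with n hn
    refine (hhX n ⟨0, ?_⟩).1
    calc ∑ i, |rw3 (S.M n) 0 i| ≤ ∑ _i : Fin m, A0 := Finset.sum_le_sum fun i _ => hn 1 i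
      _ = m * A0 := by simp
  have ht0 : ∀ᶠ n in (U : Filter ℕ), S.t n ≠ 0 := by
    apply hU
    rw [mem_cofinite]
    refine Set.Subsingleton.finite ?_
    intro n hn l hl
    have hn' : S.t n = 0 := by_contra fun h => hn h
    have hl' : S.t l = 0 := by_contra fun h => hl h
    apply S.inj
    show S.j n (S.t n) = S.j l (S.t l)
    rw [hn', hl', map_zero, map_zero]
  obtain ⟨B0, hB⟩ : ∃ B0 : ℝ, B0 = max C0 S.B0 := ⟨_, rfl⟩
  have hG : Gen (k := 2) (U : Filter ℕ)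
      ((Module.finrank ℚ F : ℝ) * (((2 : ℕ) : ℝ) * B0 + (((2 : ℕ) : ℝ) + 1) * Real.log 2))
      (fun n (σ : S.K n →ₐ[F] ℂ) => ![σ (S.X n), σ (S.t n)]) := by
    intro L f hL hf hfB C' hC'
    have hev : ∀ᶠ n in (U : Filter ℕ), ev f ![S.X n, S.t n] ≠ 0 := by
      have h : ∀ᶠ n in (U : Filter ℕ), ¬ (ev f ![S.X n, S.t n] = 0) :=
        Ultrafilter.eventually_not.2 fun h => hcon ⟨L, f, hf, h⟩
      exact h
    filter_upwards [hX, ht0, hev] with n h1 h2 h3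
    have hDn : (0 : ℝ) ≤ (Module.finrank ℚ (S.K n) : ℝ) := Nat.cast_nonneg _
    have key := bp_ineq (F := F) (K := S.K n) hL f hfB ![S.X n, S.t n] (by
      intro j
      fin_cases j
      · exact S.hX0 n
      · exact h2) (B := B0) (by
      intro j
      fin_cases j
      · refine h1.trans (mul_le_mul_of_nonneg_right ?_ hDn)
        rw [hB]
        exact le_max_left _ _
      · refine ((S.hB0.2 n (S.u n) (S.hu n) (S.r0 n)).2.1).trans (mul_le_mul_of_nonneg_right ?_ hDn)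
        rw [hB]
        exact le_max_right _ _) h3 hC'
    have e : ∀ σ : S.K n →ₐ[F] ℂ, (![σ (S.X n), σ (S.t n)] : Fin 2 → ℂ) =
        fun j => σ ((![S.X n, S.t n] : Fin 2 → S.K n) j) := by
      intro σ
      funext j
      fin_cases j <;> rfl
    simp only [e]
    exact key
  exact core1 (by have := S.hm; omega) ((Polynomial.map_ne_zero_iff (algebraMap F ℂ).injective).2 S.hA)
    ((Polynomial.map_ne_zero_iff (algebraMap F ℂ).injective).2 S.hB)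
    ((Polynomial.map_ne_zero_iff (algebraMap F ℂ).injective).2 S.hC) (S.sq U hU)
    (fun i => (map_ne_zero _).2 (S.hc i)) (fun i j h => S.hd ((algebraMap F ℂ).injective h)) hA0 hG

end Pool.Agent.Z6
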