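import Pool.Agent.Z6.Defs
import Pool.Agent.Z5.R1

namespace Pool.Agent.Z6

open Pool.Agent.ZL2 Filter Topology Polynomial

variable {m : ℕ}

/-- The product of all `X - d_j`. -/
noncomputable def r1_P (d : Fin m → ℂ) : Polynomial ℂ := ∏ j, (X - C (d j))

/-- The product of the `X - d_j`, `j ≠ i`. -/
noncomputable def r1_Q (d : Fin m → ℂ) (i : Fin m) : Polynomial ℂ := ∏ j ∈ Finset.univ.erase i, (X - C (d j))

/-- The numerator of `∑ μ_i / (X - d_i)`. -/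
noncomputable def r1_S (d : Fin m → ℂ) (μ : Fin m → ℂ) : Polynomial ℂ := ∑ i, C (μ i) * r1_Q d i

theorem r1_P_eq (d : Fin m → ℂ) (i : Fin m) : r1_P d = (X - C (d i)) * r1_Q d i :=
  (Finset.mul_prod_erase Finset.univ (fun j => (X - C (d j))) (Finset.mem_univ i)).symm

theorem r1_P_eval (d : Fin m → ℂ) (t : ℂ) : (r1_P d).eval t = ∏ j, (t - d j) := by
  unfold r1_P
  rw [eval_prod]
  exact Finset.prod_congr rfl fun j _ => by simp

theorem r1_P_ne {d : Fin m → ℂ} {t : ℂ} (h : ∀ i, t ≠ d i) : (r1_P d).eval t ≠ 0 := by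
  rw [r1_P_eval]
  exact Finset.prod_ne_zero_iff.2 fun i _ => sub_ne_zero.2 (h i)

theorem r1_P_ne0 (d : Fin m → ℂ) : r1_P d ≠ 0 :=
  Finset.prod_ne_zero_iff.2 fun _ _ => X_sub_C_ne_zero _

theorem r1_Q_ne {d : Fin m → ℂ} (hd : Function.Injective d) (i : Fin m) : (r1_Q d i).eval (d i) ≠ 0 := by
  unfold r1_Q
  rw [eval_prod]
  refine Finset.prod_ne_zero_iff.2 fun j hj => ?_
  rw [eval_sub, eval_X, eval_C]
  exact sub_ne_zero.2 fun h => (Finset.ne_of_mem_erase hj) (hd h).symm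

theorem r1_Q_zero (d : Fin m → ℂ) {i j : Fin m} (h : j ≠ i) : (r1_Q d j).eval (d i) = 0 := by
  unfold r1_Q
  rw [eval_prod]
  refine Finset.prod_eq_zero (Finset.mem_erase.2 ⟨Ne.symm h, Finset.mem_univ i⟩) ?_
  simp

theorem r1_S_at (d : Fin m → ℂ) (μ : Fin m → ℂ) (i : Fin m) :
    (r1_S d μ).eval (d i) = μ i * (r1_Q d i).eval (d i) := by
  unfold r1_S
  rw [eval_finsetSum, Finset.sum_eq_single i]
  · rw [eval_mul, eval_C]
  · intro j _ hj
    rw [eval_mul, r1_Q_zero d hj, mul_zero]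
  · intro h
    exact absurd (Finset.mem_univ i) h

theorem r1_S_eval {d : Fin m → ℂ} (μ : Fin m → ℂ) {t : ℂ} (h : ∀ i, t ≠ d i) :
    (r1_S d μ).eval t = (r1_P d).eval t * ∑ i, μ i / (t - d i) := by
  unfold r1_S
  rw [eval_finsetSum, Finset.mul_sum]
  refine Finset.sum_congr rfl fun i _ => ?_
  have h1 : t - d i ≠ 0 := sub_ne_zero.2 (h i)
  rw [eval_mul, eval_C, r1_P_eq d i, eval_mul, eval_sub, eval_X, eval_C]
  field_simp

theorem r1_mult {d : Fin m → ℂ} (hd : Function.Injective d) {N D : Polynomial ℂ} (hN : N ≠ 0) (hD : D ≠ 0)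
    {μ : Fin m → ℂ}
    (h : (derivative N * D - N * derivative D) * r1_P d = r1_S d μ * (N * D)) (r : ℂ) :
    ((∀ i, r ≠ d i) → N.rootMultiplicity r = D.rootMultiplicity r) ∧
      ∀ i, r = d i → μ i = (N.rootMultiplicity r : ℂ) - D.rootMultiplicity r := by
  obtain ⟨N1, hN1, hN2⟩ := exists_eq_pow_rootMultiplicity_mul_and_not_dvd N hN r
  obtain ⟨D1, hD1, hD2⟩ := exists_eq_pow_rootMultiplicity_mul_and_not_dvd D hD r
  generalize N.rootMultiplicity r = n at *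
  generalize D.rootMultiplicity r = e at *
  rw [dvd_iff_isRoot, IsRoot.def] at hN2 hD2
  have hZ : (X - C r : Polynomial ℂ) ≠ 0 := X_sub_C_ne_zero r
  have h1 := Z5.r1_der r n N1
  have h2 := Z5.r1_der r e D1
  rw [← hN1] at h1
  rw [← hD1] at h2
  have h3 : ((X - C r : Polynomial ℂ) ^ (n + e)) *
      ((((n : Polynomial ℂ) - (e : Polynomial ℂ)) * (N1 * D1) +
        (X - C r) * (derivative N1 * D1 - N1 * derivative D1)) * r1_P d) =
      ((X - C r : Polynomial ℂ) ^ (n + e)) * ((X - C r) * (r1_S d μ * (N1 * D1))) := by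
    have h4 : (X - C r) * ((derivative N * D - N * derivative D) * r1_P d) =
        (X - C r) * (r1_S d μ * (N * D)) := by rw [h]
    have h5 : (X - C r) * ((derivative N * D - N * derivative D) * r1_P d) =
        ((derivative N * (X - C r)) * D - N * (derivative D * (X - C r))) * r1_P d := by ring
    rw [h5, h1, h2] at h4
    calc _ = ((X - C r) ^ n * ((n : Polynomial ℂ) * N1 + (X - C r) * derivative N1) * ((X - C r) ^ e * D1) -
          ((X - C r) ^ n * N1) * ((X - C r) ^ e * ((e : Polynomial ℂ) * D1 + (X - C r) * derivative D1))) *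
            r1_P d := by ring
      _ = (X - C r) * (r1_S d μ * (((X - C r) ^ n * N1) * ((X - C r) ^ e * D1))) := by
          rw [← hN1, ← hD1]; exact h4
      _ = _ := by ring
  have h6 := mul_left_cancel₀ (pow_ne_zero _ hZ) h3
  refine ⟨fun hr => ?_, fun i hi => ?_⟩
  · have h7 := congrArg (eval r) h6
    simp only [eval_mul, eval_add, eval_sub, eval_X, eval_C, sub_self, zero_mul, add_zero, eval_natCast] at h7
    have h8 := mul_eq_zero.1 h7
    rcases h8 with h8 | h8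
    · rcases mul_eq_zero.1 h8 with h9 | h9
      · exact_mod_cast sub_eq_zero.1 h9
      · exact absurd h9 (mul_ne_zero hN2 hD2)
    · exact absurd h8 (r1_P_ne hr)
  · rw [r1_P_eq d i, ← hi] at h6
    have h7 : (X - C r) * ((((n : Polynomial ℂ) - (e : Polynomial ℂ)) * (N1 * D1) +
        (X - C r) * (derivative N1 * D1 - N1 * derivative D1)) * r1_Q d i) =
        (X - C r) * (r1_S d μ * (N1 * D1)) := by rw [← h6]; ring
    have h8 := congrArg (eval r) (mul_left_cancel₀ hZ h7)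
    simp only [eval_mul, eval_add, eval_sub, eval_X, eval_C, sub_self, zero_mul, add_zero, eval_natCast] at h8
    rw [hi, r1_S_at, ← hi] at h8
    have h9 : (r1_Q d i).eval r ≠ 0 := by rw [hi]; exact r1_Q_ne hd i
    have h10 : eval r N1 * eval r D1 * (r1_Q d i).eval r ≠ 0 := mul_ne_zero (mul_ne_zero hN2 hD2) h9
    have h11 : (μ i - ((n : ℂ) - e)) * (eval r N1 * eval r D1 * (r1_Q d i).eval r) = 0 := by
      linear_combination -h8
    rcases mul_eq_zero.1 h11 with h12 | h12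
    · exact sub_eq_zero.1 h12
    · exact absurd h12 h10

theorem r1_count (d : Fin m → ℂ) (n : Fin m → ℕ) {p : Polynomial ℂ} (hp : p ≠ 0) (r : ℂ) :
    (p * ∏ i, (X - C (d i)) ^ n i).roots.count r =
      p.rootMultiplicity r + ∑ i, if r = d i then n i else 0 := by
  classical
  have h0 : ∀ i, ((X - C (d i)) ^ n i : Polynomial ℂ) ≠ 0 := fun i => pow_ne_zero _ (X_sub_C_ne_zero _)
  have h1 : (p * ∏ i, (X - C (d i)) ^ n i) ≠ 0 := mul_ne_zero hp (Finset.prod_ne_zero_iff.2 fun i _ => h0 i)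
  have key : ∀ s : Finset (Fin m), (∏ i ∈ s, (X - C (d i)) ^ n i : Polynomial ℂ).roots.count r =
      ∑ i ∈ s, if r = d i then n i else 0 := by
    intro s
    induction s using Finset.induction_on with
    | empty => simp
    | insert a s ha ih =>
      rw [Finset.prod_insert ha, Finset.sum_insert ha,
        roots_mul (mul_ne_zero (h0 a) (Finset.prod_ne_zero_iff.2 fun i _ => h0 i)), Multiset.count_add, ih]
      congr 1
      simp only [roots_pow, roots_X_sub_C, Multiset.count_nsmul, Multiset.count_singleton]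
      simp
  rw [roots_mul h1, Multiset.count_add, count_roots, key]

theorem r1_ratfun {d : Fin m → ℂ} (hd : Function.Injective d) {N D : Polynomial ℂ} (hN : N ≠ 0) (hD : D ≠ 0)
    {μ : Fin m → ℂ}
    (h : (derivative N * D - N * derivative D) * r1_P d = r1_S d μ * (N * D)) :
    ∃ (k : Fin m → ℤ) (g : ℂ), g ≠ 0 ∧ (∀ i, μ i = k i) ∧
      ∀ t, (∀ i, t ≠ d i) → N.eval t = g * D.eval t * ∏ i, (t - d i) ^ k i := by
  classical
  have hm := r1_mult hd hN hD h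
  set a : Fin m → ℕ := fun i => D.rootMultiplicity (d i) with ha
  set b : Fin m → ℕ := fun i => N.rootMultiplicity (d i) with hb
  have h0 : ∀ (n : Fin m → ℕ) i, ((X - C (d i)) ^ n i : Polynomial ℂ) ≠ 0 :=
    fun n i => pow_ne_zero _ (X_sub_C_ne_zero _)
  have hW : (N * ∏ i, (X - C (d i)) ^ a i) ≠ 0 :=
    mul_ne_zero hN (Finset.prod_ne_zero_iff.2 fun i _ => h0 a i)
  have hV : (D * ∏ i, (X - C (d i)) ^ b i) ≠ 0 :=
    mul_ne_zero hD (Finset.prod_ne_zero_iff.2 fun i _ => h0 b i)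
  have hr : (N * ∏ i, (X - C (d i)) ^ a i).roots = (D * ∏ i, (X - C (d i)) ^ b i).roots := by
    refine Multiset.ext.2 fun r => ?_
    rw [r1_count d a hN, r1_count d b hD]
    by_cases hrd : ∀ i, r ≠ d i
    · rw [(hm r).1 hrd, Finset.sum_eq_zero fun i _ => if_neg (hrd i),
        Finset.sum_eq_zero fun i _ => if_neg (hrd i)]
    · push Not at hrd
      obtain ⟨i, rfl⟩ := hrd
      have h1 : ∀ n : Fin m → ℕ, (∑ j, if d i = d j then n j else 0) = n i := by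
        intro n
        rw [Finset.sum_eq_single i]
        · rw [if_pos rfl]
        · intro j _ hj
          rw [if_neg fun h => hj (hd h).symm]
        · intro h
          exact absurd (Finset.mem_univ i) h
      rw [h1, h1]
      show N.rootMultiplicity (d i) + D.rootMultiplicity (d i) = _
      rw [add_comm]
  obtain ⟨g, hg, hgW⟩ := Z5.r1_eq_of_roots hW hV hr
  refine ⟨fun i => (b i : ℤ) - a i, g, hg, fun i => ?_, fun t ht => ?_⟩
  · rw [(hm (d i)).2 i rfl]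
    push_cast
    rfl
  · have h1 := congrArg (eval t) hgW
    simp only [eval_mul, eval_prod, eval_pow, eval_sub, eval_X, eval_C] at h1
    have h2 : ∏ i, (t - d i) ^ ((b i : ℤ) - a i) = (∏ i, (t - d i) ^ b i) / ∏ i, (t - d i) ^ a i := by
      rw [← Finset.prod_div_distrib]
      refine Finset.prod_congr rfl fun i _ => ?_
      rw [zpow_sub₀ (sub_ne_zero.2 (ht i)), zpow_natCast, zpow_natCast]
    have h3 : (∏ i, (t - d i) ^ a i) ≠ 0 :=
      Finset.prod_ne_zero_iff.2 fun i _ => pow_ne_zero _ (sub_ne_zero.2 (ht i))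
    rw [h2, mul_div_assoc', eq_div_iff h3, h1]
    ring

/-- Row Z6-R1a. As `Z5.ratfun`. -/
theorem ratfun {d : Fin m → ℂ} (hd : Function.Injective d) {N D : Polynomial ℂ} (hN : N ≠ 0) (hD : D ≠ 0)
    {μ : Fin m → ℝ} {t0 : ℂ} {ρ : ℝ} (hρ : 0 < ρ)
    (h : ∀ t ∈ Metric.ball t0 ρ, (∀ i, t ≠ d i) ∧
      (derivative N).eval t * D.eval t - N.eval t * (derivative D).eval t =
        (∑ i, (μ i : ℂ) / (t - d i)) * (N.eval t * D.eval t)) :
    ∃ (k : Fin m → ℤ) (g : ℂ), g ≠ 0 ∧ (∀ i, μ i = k i) ∧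
      ∀ t, (∀ i, t ≠ d i) → N.eval t = g * D.eval t * ∏ i, (t - d i) ^ k i := by
  have h1 : (derivative N * D - N * derivative D) * r1_P d = r1_S d (fun i => (μ i : ℂ)) * (N * D) := by
    refine Z5.r1_poly_eq (t0 := t0) hρ fun t ht => ?_
    obtain ⟨h2, h3⟩ := h t ht
    rw [eval_mul, eval_sub, eval_mul, eval_mul, h3, eval_mul, r1_S_eval _ h2, eval_mul]
    ring
  obtain ⟨k, g, hg, hk, h2⟩ := r1_ratfun hd hN hD h1
  exact ⟨k, g, hg, fun i => by exact_mod_cast hk i, h2⟩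

theorem r1_cont {d : Fin m → ℂ} (k : Fin m → ℤ) (g : ℂ) {t : ℂ} (h : ∀ i, t ≠ d i) :
    ContinuousAt (fun t => g * ∏ i, (t - d i) ^ k i) t := by
  have h1 : ∀ i, ContinuousAt (fun t => (t - d i) ^ k i) t := fun i =>
    ContinuousAt.zpow₀ (continuousAt_id.sub continuousAt_const) _ (Or.inl (sub_ne_zero.2 (h i)))
  exact continuousAt_const.mul (tendsto_finsetProd _ fun i _ => h1 i)

/-- One of the two functions. -/
theorem r1_one {d : Fin m → ℂ} (hd : Function.Injective d) {μ : Fin m → ℝ} {t0 : ℂ} {ρ : ℝ} (hρ : 0 < ρ)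
    {ξ : ℂ → ℂ} (hξ : DifferentiableOn ℂ ξ (Metric.ball t0 ρ))
    (h : ∀ t ∈ Metric.ball t0 ρ, (∀ i, t ≠ d i) ∧ ξ t ≠ 0 ∧ deriv ξ t = (∑ i, (μ i : ℂ) / (t - d i)) * ξ t)
    {N D : Polynomial ℂ} (hD : D ≠ 0) (hND : ∀ t ∈ Metric.ball t0 ρ, ξ t * D.eval t = N.eval t) :
    ∃ (k : Fin m → ℤ) (g : ℂ), g ≠ 0 ∧ (∀ i, μ i = k i) ∧
      ∀ t ∈ Metric.ball t0 ρ, ξ t = g * ∏ i, (t - d i) ^ k i := by
  have hN : N ≠ 0 := by
    rintro rfl
    refine hD (Z5.r1_poly_eq (t0 := t0) hρ fun t ht => ?_)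
    have h1 := hND t ht
    rw [eval_zero] at h1
    rw [eval_zero]
    exact (mul_eq_zero.1 h1).resolve_left (h t ht).2.1
  have hder : ∀ t ∈ Metric.ball t0 ρ,
      deriv ξ t * D.eval t + ξ t * (derivative D).eval t = (derivative N).eval t := by
    intro t ht
    have h1 : HasDerivAt ξ (deriv ξ t) t :=
      (hξ.differentiableAt (Metric.isOpen_ball.mem_nhds ht)).hasDerivAt
    have h2 := h1.mul (D.hasDerivAt t)
    have h3 : (fun s => ξ s * D.eval s) =ᶠ[𝓝 t] fun s => N.eval s := by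
      filter_upwards [Metric.isOpen_ball.mem_nhds ht] with s hs using hND s hs
    have h4 : HasDerivAt (fun s => N.eval s) (deriv ξ t * D.eval t + ξ t * (derivative D).eval t) t :=
      h2.congr_of_eventuallyEq h3.symm
    exact h4.unique (N.hasDerivAt t)
  obtain ⟨k, g, hg, hk, h1⟩ := ratfun hd hN hD (μ := μ) (t0 := t0) hρ fun t ht => by
    obtain ⟨h2, -, h4⟩ := h t ht
    refine ⟨h2, ?_⟩
    rw [← hder t ht, ← hND t ht, h4]
    ring
  refine ⟨k, g, hg, hk, fun t ht => ?_⟩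
  refine tendsto_nhds_unique_of_eventuallyEq (l := 𝓝[≠] t)
    ((hξ.differentiableAt (Metric.isOpen_ball.mem_nhds ht)).continuousAt.tendsto.mono_left nhdsWithin_le_nhds)
    ((r1_cont k g (h t ht).1).tendsto.mono_left nhdsWithin_le_nhds) ?_
  filter_upwards [Z5.r1_ne_ev hD t, mem_nhdsWithin_of_mem_nhds (Metric.isOpen_ball.mem_nhds ht)] with s hs1 hs2
  have h5 := h1 s (h s hs2).1
  rw [← hND s hs2] at h5
  refine mul_right_cancel₀ hs1 ?_
  rw [h5]
  ring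

/-- `ξ E / A` solves the equation of `r1_one`. -/
theorem r1_pair {A E : Polynomial ℂ} {d : Fin m → ℂ} (hd : Function.Injective d) {μ : Fin m → ℝ} {t0 : ℂ}
    {ρ : ℝ} (hρ : 0 < ρ) {ξ : ℂ → ℂ} (hξ : DifferentiableOn ℂ ξ (Metric.ball t0 ρ))
    (h : ∀ t ∈ Metric.ball t0 ρ, (∀ i, t ≠ d i) ∧ rf A E t ≠ 0 ∧ ξ t ≠ 0 ∧
      deriv ξ t / ξ t = ∑ i, (μ i : ℂ) / (t - d i) +
        ((derivative A).eval t / A.eval t - (derivative E).eval t / E.eval t))
    {N D : Polynomial ℂ} (hD : D ≠ 0)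
    (hND : ∀ t ∈ Metric.ball t0 ρ, ξ t * E.eval t * D.eval t = A.eval t * N.eval t) :
    ∃ (k : Fin m → ℤ) (g : ℂ), g ≠ 0 ∧ (∀ i, μ i = k i) ∧
      ∀ t ∈ Metric.ball t0 ρ, ξ t = g * rf A E t * ∏ i, (t - d i) ^ k i := by
  have hA : ∀ t ∈ Metric.ball t0 ρ, A.eval t ≠ 0 ∧ E.eval t ≠ 0 := by
    intro t ht
    have h1 := (h t ht).2.1
    unfold rf at h1
    exact div_ne_zero_iff.1 h1
  have hdiff : ∀ t ∈ Metric.ball t0 ρ, HasDerivAt (fun t => ξ t * E.eval t / A.eval t)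
      (((deriv ξ t * E.eval t + ξ t * (derivative E).eval t) * A.eval t -
        ξ t * E.eval t * (derivative A).eval t) / A.eval t ^ 2) t := by
    intro t ht
    have h1 : HasDerivAt ξ (deriv ξ t) t :=
      (hξ.differentiableAt (Metric.isOpen_ball.mem_nhds ht)).hasDerivAt
    exact (h1.mul (E.hasDerivAt t)).div (A.hasDerivAt t) (hA t ht).1
  obtain ⟨k, g, hg, hk, h1⟩ := r1_one hd (μ := μ) (ξ := fun t => ξ t * E.eval t / A.eval t) hρ
    (fun t ht => (hdiff t ht).differentiableAt.differentiableWithinAt)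
    (fun t ht => by
      obtain ⟨h2, h3, h4, h5⟩ := h t ht
      obtain ⟨h6, h7⟩ := hA t ht
      refine ⟨h2, div_ne_zero (mul_ne_zero h4 h7) h6, ?_⟩
      rw [(hdiff t ht).deriv]
      rw [div_eq_iff h4] at h5
      rw [h5]
      field_simp
      ring)
    hD (N := N) (fun t ht => by
      have h2 := hND t ht
      have h3 := (hA t ht).1
      show ξ t * E.eval t / A.eval t * D.eval t = N.eval t
      rw [div_mul_eq_mul_div, div_eq_iff h3, h2, mul_comm])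
  refine ⟨k, g, hg, hk, fun t ht => ?_⟩
  have h2 : ξ t * E.eval t / A.eval t = g * ∏ i, (t - d i) ^ k i := h1 t ht
  obtain ⟨h3, h4⟩ := hA t ht
  unfold rf
  rw [div_eq_iff h3] at h2
  rw [mul_div_assoc', div_mul_eq_mul_div, eq_div_iff h4, h2]
  ring

/-- Row Z6-R1b. Let `x_0 = ξ / a`, `x_1 = (1 - ξ) / b` with `a = rf A C`, `b = rf B C`, so `A x_0 + B x_1 = C` and `x_j' = λ_j x_j`, `λ_j = ∑ μ_ji / (t - d_i)`. Differentiate: `(A' + A λ_0) x_0 + (B' + B λ_1) x_1 = C'`. The determinant `Δ = A (B' + B λ_1) - B (A' + A λ_0)` is a rational function.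
If `Δ` is not identically zero on the ball: `x_0 = (C (B' + B λ_1) - C' B) / Δ`, `x_1 = (A C' - C (A' + A λ_0)) / Δ` are rational functions (multiply by `∏ (t - d_i)`: quotients of polynomials) with `x_j'/x_j = λ_j`: `ratfun`. If `Δ = 0` identically: `B'/B + λ_1 = A'/A + λ_0`, so `B x_1 / (A x_0)` is constant `= s`, so
`A x_0 (1 + s) = C`, `1 + s ≠ 0`: `ξ = A x_0 / C` is constant, `λ_0 = C'/C - A'/A`, and similarly `λ_1 = C'/C - B'/B` (`ξ ≠ 0, 1`): `ratfun` with `N = C, D = A`, resp. `N = C, D = B`. -/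
theorem ode {A B C : Polynomial ℂ} (hA0 : A ≠ 0) (hB0 : B ≠ 0) (hC0 : C ≠ 0) {d : Fin m → ℂ}
    (hd : Function.Injective d) {μ : Fin 2 → Fin m → ℝ} {t0 : ℂ} {ρ : ℝ} (hρ : 0 < ρ)
    {ξ : ℂ → ℂ} (hξ : DifferentiableOn ℂ ξ (Metric.ball t0 ρ))
    (h : ∀ t ∈ Metric.ball t0 ρ, (∀ i, t ≠ d i) ∧ rf A C t ≠ 0 ∧ rf B C t ≠ 0 ∧ ξ t ≠ 0 ∧ ξ t ≠ 1 ∧
      deriv ξ t / ξ t = ∑ i, (μ 0 i : ℂ) / (t - d i) +
        ((derivative A).eval t / A.eval t - (derivative C).eval t / C.eval t) ∧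
      - deriv ξ t / (1 - ξ t) = ∑ i, (μ 1 i : ℂ) / (t - d i) +
        ((derivative B).eval t / B.eval t - (derivative C).eval t / C.eval t)) :
    ∃ (k : Fin 2 → Fin m → ℤ) (g : Fin 2 → ℂ), (∀ j, g j ≠ 0) ∧ (∀ j i, μ j i = k j i) ∧
      ∀ t ∈ Metric.ball t0 ρ, ξ t = g 0 * rf A C t * ∏ i, (t - d i) ^ k 0 i ∧
        1 - ξ t = g 1 * rf B C t * ∏ i, (t - d i) ^ k 1 i := by
  have hR : ∀ t ∈ Metric.ball t0 ρ, A.eval t ≠ 0 ∧ B.eval t ≠ 0 ∧ C.eval t ≠ 0 := by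
    intro t ht
    obtain ⟨-, h1, h2, -⟩ := h t ht
    unfold rf at h1 h2
    exact ⟨(div_ne_zero_iff.1 h1).1, (div_ne_zero_iff.1 h2).1, (div_ne_zero_iff.1 h1).2⟩
  have hξ1 : DifferentiableOn ℂ (fun t => 1 - ξ t) (Metric.ball t0 ρ) := (differentiableOn_const _).sub hξ
  have k0 : ∀ t ∈ Metric.ball t0 ρ, (∀ i, t ≠ d i) ∧ rf A C t ≠ 0 ∧ ξ t ≠ 0 ∧
      deriv ξ t / ξ t = ∑ i, (μ 0 i : ℂ) / (t - d i) +
        ((derivative A).eval t / A.eval t - (derivative C).eval t / C.eval t) := by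
    intro t ht
    obtain ⟨h1, h2, -, h4, -, h6, -⟩ := h t ht
    exact ⟨h1, h2, h4, h6⟩
  have k1 : ∀ t ∈ Metric.ball t0 ρ, (∀ i, t ≠ d i) ∧ rf B C t ≠ 0 ∧ (1 - ξ t) ≠ 0 ∧
      deriv (fun t => 1 - ξ t) t / (1 - ξ t) = ∑ i, (μ 1 i : ℂ) / (t - d i) +
        ((derivative B).eval t / B.eval t - (derivative C).eval t / C.eval t) := by
    intro t ht
    obtain ⟨h1, -, h3, -, h5, -, h7⟩ := h t ht
    refine ⟨h1, h3, sub_ne_zero.2 (Ne.symm h5), ?_⟩
    rw [deriv_const_sub]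
    exact h7
  set R0 : Polynomial ℂ := r1_S d (fun i => (μ 0 i : ℂ)) * (A * C) +
    r1_P d * (derivative A * C - A * derivative C) with hR0
  set R1 : Polynomial ℂ := r1_S d (fun i => (μ 1 i : ℂ)) * (B * C) +
    r1_P d * (derivative B * C - B * derivative C) with hR1
  have e0 : ∀ t ∈ Metric.ball t0 ρ, deriv ξ t * (A.eval t * C.eval t * (r1_P d).eval t) = ξ t * R0.eval t := by
    intro t ht
    obtain ⟨h1, h2, h3, h4⟩ := k0 t ht
    obtain ⟨h5, h6, h7⟩ := hR t ht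
    rw [div_eq_iff h3] at h4
    rw [h4, hR0]
    simp only [eval_add, eval_mul, eval_sub]
    rw [r1_S_eval _ h1]
    field_simp
  have e1 : ∀ t ∈ Metric.ball t0 ρ,
      - deriv ξ t * (B.eval t * C.eval t * (r1_P d).eval t) = (1 - ξ t) * R1.eval t := by
    intro t ht
    obtain ⟨h1, h2, h3, h4⟩ := k1 t ht
    obtain ⟨h5, h6, h7⟩ := hR t ht
    rw [deriv_const_sub, div_eq_iff h3] at h4
    rw [h4, hR1]
    simp only [eval_add, eval_mul, eval_sub]
    rw [r1_S_eval _ h1]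
    field_simp
  have e2 : ∀ t ∈ Metric.ball t0 ρ, ξ t * (A * R1 - B * R0).eval t = A.eval t * R1.eval t := by
    intro t ht
    have h1 := e0 t ht
    have h2 := e1 t ht
    simp only [eval_sub, eval_mul]
    linear_combination (B.eval t) * h1 + (A.eval t) * h2
  have fin : ∀ D0 N0 D1 N1 : Polynomial ℂ, D0 ≠ 0 → D1 ≠ 0 →
      (∀ t ∈ Metric.ball t0 ρ, ξ t * C.eval t * D0.eval t = A.eval t * N0.eval t) →
      (∀ t ∈ Metric.ball t0 ρ, (1 - ξ t) * C.eval t * D1.eval t = B.eval t * N1.eval t) →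
      ∃ (k : Fin 2 → Fin m → ℤ) (g : Fin 2 → ℂ), (∀ j, g j ≠ 0) ∧ (∀ j i, μ j i = k j i) ∧
      ∀ t ∈ Metric.ball t0 ρ, ξ t = g 0 * rf A C t * ∏ i, (t - d i) ^ k 0 i ∧
        1 - ξ t = g 1 * rf B C t * ∏ i, (t - d i) ^ k 1 i := by
    intro D0 N0 D1 N1 hD0 hD1 hN0 hN1
    obtain ⟨m0, g0, hg0, hm0, h0⟩ := r1_pair hd (μ := μ 0) hρ hξ k0 hD0 hN0
    obtain ⟨m1, g1, hg1, hm1, h1⟩ := r1_pair hd (μ := μ 1) hρ hξ1 k1 hD1 hN1
    refine ⟨![m0, m1], ![g0, g1], ?_, ?_, ?_⟩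
    · rw [Fin.forall_fin_two]
      exact ⟨hg0, hg1⟩
    · rw [Fin.forall_fin_two]
      exact ⟨hm0, hm1⟩
    · intro t ht
      exact ⟨h0 t ht, h1 t ht⟩
  by_cases hΔ : A * R1 - B * R0 = 0
  · have h1 : R1 = 0 := by
      have h2 : A * R1 = 0 := Z5.r1_poly_eq (t0 := t0) hρ fun t ht => by
        rw [eval_mul, ← e2 t ht, hΔ, eval_zero, mul_zero]
      exact (mul_eq_zero.1 h2).resolve_left hA0
    have h2 : ∀ t ∈ Metric.ball t0 ρ, deriv ξ t = 0 := by
      intro t ht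
      obtain ⟨h5, h6, h7⟩ := hR t ht
      have h3 := e1 t ht
      rw [h1, eval_zero, mul_zero] at h3
      exact neg_eq_zero.1 ((mul_eq_zero.1 h3).resolve_right
        (mul_ne_zero (mul_ne_zero h6 h7) (r1_P_ne (h t ht).1)))
    have hc : ∀ t ∈ Metric.ball t0 ρ, ξ t = ξ t0 := fun t ht =>
      Metric.isOpen_ball.is_const_of_deriv_eq_zero (convex_ball t0 ρ).isPreconnected hξ
        (fun s hs => h2 s hs) ht (Metric.mem_ball_self hρ)
    refine fin A (Polynomial.C (ξ t0) * C) B (Polynomial.C (1 - ξ t0) * C) hA0 hB0 ?_ ?_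
    · intro t ht
      rw [hc t ht, eval_mul, eval_C]
      ring
    · intro t ht
      rw [hc t ht, eval_mul, eval_C]
      ring
  · refine fin (A * R1 - B * R0) (C * R1) (A * R1 - B * R0) (-(C * R0)) hΔ hΔ ?_ ?_
    · intro t ht
      have h1 := e2 t ht
      rw [eval_mul]
      linear_combination (C.eval t) * h1
    · intro t ht
      have h1 := e2 t ht
      rw [eval_neg, eval_mul]
      have h2 : (1 - ξ t) * (A * R1 - B * R0).eval t = - (B.eval t * R0.eval t) := by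
        rw [sub_mul, h1]
        simp only [eval_sub, eval_mul]
        ring
      linear_combination (C.eval t) * h2

theorem r1_poly (A B E : Polynomial ℂ) (d : Fin m → ℂ) (k : Fin 2 → Fin m → ℤ) (c : Fin 3 → ℂ) :
    ∃ (Q : Polynomial ℂ) (K : ℕ), ∀ t, (∀ i, t ≠ d i) → E.eval t ≠ 0 → Q.eval t =
      E.eval t * (∏ i, (t - d i) ^ K) * (c 0 * (rf A E t * ∏ i, (t - d i) ^ k 0 i) +
        c 1 * (rf B E t * ∏ i, (t - d i) ^ k 1 i) + c 2) := by
  set K : ℕ := ∑ j, ∑ i, (k j i).natAbs with hK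
  have hK1 : ∀ j i, 0 ≤ k j i + K := by
    intro j i
    have h1 : (k j i).natAbs ≤ ∑ i, (k j i).natAbs :=
      Finset.single_le_sum (f := fun i => (k j i).natAbs) (fun _ _ => Nat.zero_le _) (Finset.mem_univ i)
    have h2 : (∑ i, (k j i).natAbs) ≤ K :=
      Finset.single_le_sum (f := fun j => ∑ i, (k j i).natAbs) (fun _ _ => Nat.zero_le _) (Finset.mem_univ j)
    omega
  have hp : ∀ j t, (∀ i, t ≠ d i) → ∏ i, (t - d i) ^ (k j i + K).toNat =
      (∏ i, (t - d i) ^ K) * ∏ i, (t - d i) ^ k j i := by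
    intro j t ht
    rw [← Finset.prod_mul_distrib]
    refine Finset.prod_congr rfl fun i _ => ?_
    rw [← zpow_natCast, Int.toNat_of_nonneg (hK1 j i), zpow_add₀ (sub_ne_zero.2 (ht i)), zpow_natCast, mul_comm]
  refine ⟨C (c 0) * A * ∏ i, (X - C (d i)) ^ (k 0 i + K).toNat + C (c 1) * B * ∏ i, (X - C (d i)) ^ (k 1 i + K).toNat +
    C (c 2) * E * ∏ i, (X - C (d i)) ^ K, K, fun t ht hE => ?_⟩
  simp only [eval_add, eval_mul, eval_C, eval_prod, eval_pow, eval_sub, eval_X]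
  rw [hp 0 t ht, hp 1 t ht]
  unfold rf
  field_simp

theorem r1_ident (A B E : Polynomial ℂ) (d : Fin m → ℂ) (k : Fin 2 → Fin m → ℤ) (c : Fin 3 → ℂ) {s : Set ℂ}
    (hs : s.Infinite)
    (h : ∀ t ∈ s, (∀ i, t ≠ d i) ∧ E.eval t ≠ 0 ∧ c 0 * (rf A E t * ∏ i, (t - d i) ^ k 0 i) +
        c 1 * (rf B E t * ∏ i, (t - d i) ^ k 1 i) + c 2 = 0) :
    ∀ t, (∀ i, t ≠ d i) → E.eval t ≠ 0 → c 0 * (rf A E t * ∏ i, (t - d i) ^ k 0 i) +
        c 1 * (rf B E t * ∏ i, (t - d i) ^ k 1 i) + c 2 = 0 := by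
  obtain ⟨Q, K, hQ⟩ := r1_poly A B E d k c
  have hQ0 : Q = 0 := by
    refine eq_of_infinite_eval_eq Q 0 (hs.mono fun t ht => ?_)
    show eval t Q = eval t 0
    rw [hQ t (h t ht).1 (h t ht).2.1, (h t ht).2.2, mul_zero, eval_zero]
  intro t ht hE
  have h1 := hQ t ht hE
  rw [hQ0, eval_zero] at h1
  exact (mul_eq_zero.1 h1.symm).resolve_left (mul_ne_zero hE
    (Finset.prod_ne_zero_iff.2 fun i _ => pow_ne_zero _ (sub_ne_zero.2 (ht i))))

theorem r1_inf (d : Fin m → ℂ) {E : Polynomial ℂ} (hE : E ≠ 0) :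
    {t : ℂ | (∃ k : ℕ, t = k) ∧ (∀ i, t ≠ d i) ∧ E.eval t ≠ 0}.Infinite := by
  have h1 : (Set.range fun k : ℕ => (k : ℂ)).Infinite := Set.infinite_range_of_injective Nat.cast_injective
  have h2 : (Set.range d ∪ {x | IsRoot E x}).Finite := (Set.finite_range d).union (finite_setOfPred_isRoot hE)
  refine (h1.sdiff h2).mono ?_
  rintro _ ⟨⟨k, rfl⟩, hk⟩
  exact ⟨⟨k, rfl⟩, fun i hi => hk (Or.inl ⟨i, hi.symm⟩), fun hi => hk (Or.inr hi)⟩

theorem r1_map {F : Type} [Field F] [Algebra F ℂ] (A E : Polynomial F) (d' : Fin m → F) (k : Fin m → ℤ) (n : ℕ) :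
    algebraMap F ℂ (A.eval (n : F) / E.eval (n : F) * ∏ i, ((n : F) - d' i) ^ k i) =
      rf (A.map (algebraMap F ℂ)) (E.map (algebraMap F ℂ)) n * ∏ i, ((n : ℂ) - algebraMap F ℂ (d' i)) ^ k i := by
  have h1 : ∀ P : Polynomial F, algebraMap F ℂ (P.eval (n : F)) = (P.map (algebraMap F ℂ)).eval (n : ℂ) := by
    intro P
    rw [eval_map, ← map_natCast (algebraMap F ℂ) n, eval₂_at_apply]
  unfold rf
  rw [map_mul, map_div₀, h1, h1, map_prod]
  congr 1
  refine Finset.prod_congr rfl fun i _ => ?_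
  rw [map_zpow₀, map_sub, map_natCast]

/-- Row Z6-R1c. As `Z5.const_mem`: the constants of `g_0 a(t) ∏ (t - d_i)^(k_0i) + g_1 b(t) ∏ (t - d_i)^(k_1i) = 1` are in `F`, unless the first term is constant (then the two functions are dependent). The identity extends to all `t` where everything is defined. -/
theorem const_mem {F : Type} [Field F] [CharZero F] [Algebra F ℂ] {A B C : Polynomial F} {d' : Fin m → F}
    {k : Fin 2 → Fin m → ℤ} {g : Fin 2 → ℂ} {t0 : ℂ} {ρ : ℝ} (hρ : 0 < ρ)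
    (h : ∀ t ∈ Metric.ball t0 ρ, (∀ i, t ≠ algebraMap F ℂ (d' i)) ∧
      rf (A.map (algebraMap F ℂ)) (C.map (algebraMap F ℂ)) t ≠ 0 ∧
      rf (B.map (algebraMap F ℂ)) (C.map (algebraMap F ℂ)) t ≠ 0 ∧
      g 0 * rf (A.map (algebraMap F ℂ)) (C.map (algebraMap F ℂ)) t * ∏ i, (t - algebraMap F ℂ (d' i)) ^ k 0 i +
      g 1 * rf (B.map (algebraMap F ℂ)) (C.map (algebraMap F ℂ)) t * ∏ i, (t - algebraMap F ℂ (d' i)) ^ k 1 i = 1)
    (hm : ¬ ∃ z, ∀ t ∈ Metric.ball t0 ρ,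
      g 0 * rf (A.map (algebraMap F ℂ)) (C.map (algebraMap F ℂ)) t * ∏ i, (t - algebraMap F ℂ (d' i)) ^ k 0 i = z) :
    ∃ g' : Fin 2 → F, ∀ j, g j = algebraMap F ℂ (g' j) := by
  classical
  set d : Fin m → ℂ := fun i => algebraMap F ℂ (d' i) with hdd
  set Ac := A.map (algebraMap F ℂ) with hAc
  set Bc := B.map (algebraMap F ℂ) with hBc
  set Cc := C.map (algebraMap F ℂ) with hCc
  have hCt : ∀ t ∈ Metric.ball t0 ρ, Cc.eval t ≠ 0 := by
    intro t ht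
    have h1 := (h t ht).2.1
    unfold rf at h1
    exact (div_ne_zero_iff.1 h1).2
  have hC0 : Cc ≠ 0 := by
    intro h1
    have h2 := hCt t0 (Metric.mem_ball_self hρ)
    rw [h1, eval_zero] at h2
    exact h2 rfl
  set f : Fin 2 → ℂ → ℂ := ![fun t => rf Ac Cc t * ∏ i, (t - d i) ^ k 0 i, fun t => rf Bc Cc t * ∏ i, (t - d i) ^ k 1 i]
    with hf
  have hf0 : ∀ t, f 0 t = rf Ac Cc t * ∏ i, (t - d i) ^ k 0 i := fun _ => rfl
  have hf1 : ∀ t, f 1 t = rf Bc Cc t * ∏ i, (t - d i) ^ k 1 i := fun _ => rfl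
  have h1 : ∀ t, (∀ i, t ≠ d i) → Cc.eval t ≠ 0 → g 0 * f 0 t + g 1 * f 1 t = 1 := by
    intro t ht hE
    have h2 := r1_ident Ac Bc Cc d k ![g 0, g 1, -1] (Z5.r1_ball_inf t0 hρ) (fun t ht => ⟨(h t ht).1, hCt t ht, by
      have h3 := (h t ht).2.2.2
      show g 0 * (rf Ac Cc t * ∏ i, (t - d i) ^ k 0 i) + g 1 * (rf Bc Cc t * ∏ i, (t - d i) ^ k 1 i) + -1 = 0
      linear_combination h3⟩) t ht hE
    have h4 : g 0 * f 0 t + g 1 * f 1 t + -1 = 0 := h2
    linear_combination h4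
  obtain ⟨k1, k2, hk1, hE1, hk2, hE2, hdet⟩ : ∃ k1 k2 : ℕ, (∀ i, (k1 : ℂ) ≠ d i) ∧ Cc.eval (k1 : ℂ) ≠ 0 ∧
      (∀ i, (k2 : ℂ) ≠ d i) ∧ Cc.eval (k2 : ℂ) ≠ 0 ∧ f 0 k1 * f 1 k2 - f 0 k2 * f 1 k1 ≠ 0 := by
    by_contra hcon
    push Not at hcon
    obtain ⟨t1, ⟨n, rfl⟩, hn, hEn⟩ := (r1_inf d hC0).nonempty
    have h2 : ∀ t, (∀ i, t ≠ d i) → Cc.eval t ≠ 0 → f 1 n * f 0 t + (-f 0 n) * f 1 t + 0 = 0 := by
      refine r1_ident Ac Bc Cc d k ![f 1 n, -f 0 n, 0] (r1_inf d hC0) ?_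
      rintro t ⟨⟨l, rfl⟩, hl, hEl⟩
      refine ⟨hl, hEl, ?_⟩
      show f 1 n * f 0 l + (-f 0 n) * f 1 l + 0 = 0
      have h3 := hcon n l hn hEn hl hEl
      linear_combination -h3
    have h3 := h1 n hn hEn
    refine hm ⟨g 0 * f 0 n, fun t ht => ?_⟩
    have h5 := h1 t (h t ht).1 (hCt t ht)
    have h6 := h2 t (h t ht).1 (hCt t ht)
    have h7 : f 0 t = f 0 n := by
      linear_combination (-(f 0 t)) * h3 + (f 0 n) * h5 + g 1 * h6
    rw [← h7, hf0]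
    ring
  have e1 := h1 k1 hk1 hE1
  have e2 := h1 k2 hk2 hE2
  set a : ℕ → F := fun n => A.eval (n : F) / C.eval (n : F) * ∏ i, ((n : F) - d' i) ^ k 0 i with ha
  set b : ℕ → F := fun n => B.eval (n : F) / C.eval (n : F) * ∏ i, ((n : F) - d' i) ^ k 1 i with hb
  have ma : ∀ n : ℕ, algebraMap F ℂ (a n) = f 0 n := fun n => r1_map A C d' (k 0) n
  have mb : ∀ n : ℕ, algebraMap F ℂ (b n) = f 1 n := fun n => r1_map B C d' (k 1) n
  refine ⟨![(b k2 - b k1) / (a k1 * b k2 - a k2 * b k1), (a k1 - a k2) / (a k1 * b k2 - a k2 * b k1)], ?_⟩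
  rw [Fin.forall_fin_two]
  constructor
  · show g 0 = algebraMap F ℂ ((b k2 - b k1) / (a k1 * b k2 - a k2 * b k1))
    simp only [map_div₀, map_sub, map_mul, ma, mb]
    rw [eq_div_iff hdet]
    linear_combination (f 1 k2) * e1 - (f 1 k1) * e2
  · show g 1 = algebraMap F ℂ ((a k1 - a k2) / (a k1 * b k2 - a k2 * b k1))
    simp only [map_div₀, map_sub, map_mul, ma, mb]
    rw [eq_div_iff hdet]
    linear_combination (f 0 k1) * e2 - (f 0 k2) * e1

/-- Row Z6-R1d. If `g a(t) ∏ (t - d_i)^(k_i)` is a constant of `F` then `g ∈ F` (evaluate the rational function identity at a suitable integer `t`). -/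
theorem const_mem2 {F : Type} [Field F] [CharZero F] [Algebra F ℂ] {A C : Polynomial F} {d' : Fin m → F}
    {k : Fin m → ℤ} {g : ℂ} {t0 : ℂ} {ρ : ℝ} (hρ : 0 < ρ) (x : F)
    (h : ∀ t ∈ Metric.ball t0 ρ, (∀ i, t ≠ algebraMap F ℂ (d' i)) ∧
      rf (A.map (algebraMap F ℂ)) (C.map (algebraMap F ℂ)) t ≠ 0 ∧
      g * rf (A.map (algebraMap F ℂ)) (C.map (algebraMap F ℂ)) t * ∏ i, (t - algebraMap F ℂ (d' i)) ^ k i =
        algebraMap F ℂ x) :
    ∃ g' : F, g = algebraMap F ℂ g' := by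
  classical
  set d : Fin m → ℂ := fun i => algebraMap F ℂ (d' i) with hdd
  set Ac := A.map (algebraMap F ℂ) with hAc
  set Cc := C.map (algebraMap F ℂ) with hCc
  have hCt : ∀ t ∈ Metric.ball t0 ρ, Ac.eval t ≠ 0 ∧ Cc.eval t ≠ 0 := by
    intro t ht
    have h1 := (h t ht).2.1
    unfold rf at h1
    exact div_ne_zero_iff.1 h1
  have hE0 : Ac * Cc ≠ 0 := by
    intro h1
    obtain ⟨h2, h3⟩ := hCt t0 (Metric.mem_ball_self hρ)
    have h4 : (Ac * Cc).eval t0 = 0 := by rw [h1, eval_zero]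
    rw [eval_mul] at h4
    exact (mul_ne_zero h2 h3) h4
  obtain ⟨t1, ⟨n, rfl⟩, hn, hEn⟩ := (r1_inf d hE0).nonempty
  rw [eval_mul] at hEn
  obtain ⟨hA1, hC1⟩ := mul_ne_zero_iff.1 hEn
  have h2 := r1_ident Ac Ac Cc d ![k, k] ![g, 0, -algebraMap F ℂ x] (Z5.r1_ball_inf t0 hρ)
    (fun t ht => ⟨(h t ht).1, (hCt t ht).2, by
      have h3 := (h t ht).2.2
      show g * (rf Ac Cc t * ∏ i, (t - d i) ^ k i) + 0 * (rf Ac Cc t * ∏ i, (t - d i) ^ k i) +
        -algebraMap F ℂ x = 0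
      linear_combination h3⟩) n hn hC1
  have h3 : g * (rf Ac Cc n * ∏ i, ((n : ℂ) - d i) ^ k i) + 0 * (rf Ac Cc n * ∏ i, ((n : ℂ) - d i) ^ k i) +
        -algebraMap F ℂ x = 0 := h2
  have h4 := r1_map A C d' k n
  have h5 : rf Ac Cc n * ∏ i, ((n : ℂ) - d i) ^ k i ≠ 0 := by
    refine mul_ne_zero (div_ne_zero hA1 hC1) (Finset.prod_ne_zero_iff.2 fun i _ => zpow_ne_zero _ ?_)
    exact sub_ne_zero.2 (hn i)
  refine ⟨x / (A.eval (n : F) / C.eval (n : F) * ∏ i, ((n : F) - d' i) ^ k i), ?_⟩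
  rw [map_div₀, h4, eq_div_iff h5]
  linear_combination h3

end Pool.Agent.Z6
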