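import Pool.Agent.Z6.K0
import Pool.Agent.Z6.R1
import Pool.Agent.Z5.E5

namespace Pool.Agent.Z6

open Pool.Agent.ZL2 Filter Topology
open Pool.Agent.Z5 (fr Gen ev2)

variable {F : Type} [Field F] [NumberField F] [Algebra F ℂ] {m : ℕ} {A B C : Polynomial F} {c d : Fin m → F}

/-- Row Z6-E5a. As `Z5.ArM.const_torsion`. -/
theorem ArM.const_torsion (S : ArM F A B C c d) {U : Filter ℕ} [U.NeBot] {g : F} (hg : g ≠ 0) {w : ℕ → Fin m → ℝ}
    (hw : Tendsto w U (𝓝 0))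
    (h : ∀ᶠ n in U, ∀ p : Pl (S.K n), lv p (algebraMap F (S.K n) g) = ∑ i, w n i * lv p (S.y n i)) :
    ∃ k : ℕ, 0 < k ∧ g ^ k = 1 := by
  by_contra hcon
  push Not at hcon
  obtain ⟨C0, hC, hl⟩ := Z5.hh_lower g hg hcon
  have hsum : Tendsto (fun n => 2 * S.B0 * ∑ i, |w n i|) U (𝓝 0) := by
    have h1 : Tendsto (fun n => ∑ i, |w n i|) U (𝓝 (∑ i : Fin m, |(0 : Fin m → ℝ) i|)) :=
      tendsto_finsetSum _ fun i _ => (tendsto_pi_nhds.1 hw i).abs
    have h2 := h1.const_mul (2 * S.B0)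
    simpa using h2
  obtain ⟨n, h1, h2⟩ := (h.and (hsum.eventually (gt_mem_nhds hC))).exists
  have hgK : algebraMap F (S.K n) g ≠ 0 := (map_ne_zero _).2 hg
  have hy := (S.hB0.2 n (S.u n) (S.hu n) (S.r0 n)).1
  have hD : (0 : ℝ) < Module.finrank ℚ (S.K n) := by exact_mod_cast Module.finrank_pos
  have h3 := hl (S.K n)
  have hFS : ∀ i ∈ (Finset.univ : Finset (Fin m)), FS (fun p : Pl (S.K n) => |w n i| * |lv p (S.y n i)|) :=
    fun i _ => ((FS_lv (S.y_ne n i)).abs).smul _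
  have h4 : hh (algebraMap F (S.K n) g) ≤ ∑ i, |w n i| * (2 * (S.B0 * Module.finrank ℚ (S.K n))) := by
    unfold hh
    refine (Sm_mono (FS_max0 hgK) (FS.sum Finset.univ hFS) (fun p => ?_)).trans ?_
    · refine max_le (Finset.sum_nonneg fun i _ => by positivity) ?_
      rw [h1 p]
      refine Finset.sum_le_sum fun i _ => ?_
      rw [← abs_mul]
      exact le_abs_self _
    · rw [Sm_sum Finset.univ hFS]
      refine Finset.sum_le_sum fun i _ => ?_
      rw [Sm_smul, Sm_abs (S.y_ne n i)]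
      exact mul_le_mul_of_nonneg_left (by linarith [hy i]) (abs_nonneg _)
  rw [← Finset.sum_mul] at h4
  have h5 : C0 * Module.finrank ℚ (S.K n) ≤ (2 * S.B0 * ∑ i, |w n i|) * Module.finrank ℚ (S.K n) := by
    refine h3.trans (h4.trans (le_of_eq ?_))
    ring
  have h6 := le_of_mul_le_mul_right h5 hD
  linarith


theorem e5_lv_prod {K : Type} [Field K] [NumberField K] (p : Pl K) {ι : Type} (s : Finset ι) (x : ι → K)
    (hx : ∀ i, x i ≠ 0) : lv p (∏ i ∈ s, x i) = ∑ i ∈ s, lv p (x i) := by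
  classical
  induction s using Finset.induction_on with
  | empty => rw [Finset.prod_empty, Finset.sum_empty, lv_one]
  | insert a s ha ih =>
    rw [Finset.prod_insert ha, Finset.sum_insert ha,
      lv_mul p (hx a) (Finset.prod_ne_zero_iff.2 fun i _ => hx i), ih]

/-- The computation for one of the two coordinates. -/
theorem e5_one (S : ArM F A B C c d) {U : Ultrafilter ℕ} {u' : Fin m → ℝ} {M' : Fin 2 → Fin m → ℝ}
    (hu' : Tendsto S.u (U : Filter ℕ) (𝓝 u')) (hM' : Tendsto S.M (U : Filter ℕ) (𝓝 M')) {κ : ℝ} (j : Fin 2)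
    {Z q : ∀ n, S.K n} (hq : ∀ n, q n ≠ 0)
    (hr : ∀ n (p : Pl (S.K n)), lv p (Z n) = ∑ i, S.M n j i * lv p (S.y n i) + lv p (q n))
    {k : Fin m → ℤ} {g' : F} (hg' : g' ≠ 0) (hk : ∀ i, M' j i + κ * u' i = k i)
    (hZ : ∀ᶠ n in (U : Filter ℕ), Z n = algebraMap F (S.K n) g' * q n *
      ∏ i, (S.t n - algebraMap F (S.K n) (d i)) ^ k i) :
    ∃ e : ℕ, 0 < e ∧ ∀ᶠ n in (U : Filter ℕ), (Z n / q n * ∏ i, S.y n i ^ (- k i)) ^ e = 1 := by
  obtain ⟨γ, hγ⟩ : ∃ γ : F, γ = g' / ∏ i, c i ^ k i := ⟨_, rfl⟩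
  have hcm : ∏ i, c i ^ k i ≠ 0 := Finset.prod_ne_zero_iff.2 fun i _ => zpow_ne_zero _ (S.hc i)
  have hγ0 : γ ≠ 0 := by rw [hγ]; exact div_ne_zero hg' hcm
  have h1 : ∀ᶠ n in (U : Filter ℕ), Z n / q n * ∏ i, S.y n i ^ (- k i) = algebraMap F (S.K n) γ := by
    filter_upwards [hZ] with n hn
    have e1 : ∏ i, S.y n i ^ (- k i) = (∏ i, (algebraMap F (S.K n) (c i)) ^ k i)⁻¹ *
        (∏ i, (S.t n - algebraMap F (S.K n) (d i)) ^ k i)⁻¹ := by
      rw [← mul_inv, ← Finset.prod_mul_distrib, ← Finset.prod_inv_distrib]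
      refine Finset.prod_congr rfl fun i _ => ?_
      rw [zpow_neg, Ar.y, mul_zpow]
    have e2 : ∏ i, (S.t n - algebraMap F (S.K n) (d i)) ^ k i ≠ 0 :=
      Finset.prod_ne_zero_iff.2 fun i _ => zpow_ne_zero _ (sub_ne_zero.2 (S.ht n i))
    have e3 : ∏ i, (algebraMap F (S.K n) (c i)) ^ k i ≠ 0 :=
      Finset.prod_ne_zero_iff.2 fun i _ => zpow_ne_zero _ ((map_ne_zero _).2 (S.hc i))
    have e4 := hq n
    rw [hn, e1, hγ, map_div₀, map_prod]
    simp only [map_zpow₀]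
    field_simp
  have h2 : ∀ᶠ n in (U : Filter ℕ), ∀ p : Pl (S.K n), lv p (algebraMap F (S.K n) γ) =
      ∑ i, (S.M n j i - M' j i + κ * (S.u n i - u' i)) * lv p (S.y n i) := by
    filter_upwards [h1, hZ] with n hn hZn
    intro p
    have z1 : Z n ≠ 0 := by
      rw [hZn]
      exact mul_ne_zero (mul_ne_zero ((map_ne_zero _).2 hg') (hq n)) (Finset.prod_ne_zero_iff.2 fun i _ =>
        zpow_ne_zero _ (sub_ne_zero.2 (S.ht n i)))
    have z2 := hq n
    have z3 : ∀ i, S.y n i ^ (- k i) ≠ 0 := fun i => zpow_ne_zero _ (S.y_ne n i)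
    rw [← hn, div_eq_mul_inv, lv_mul p (mul_ne_zero z1 (inv_ne_zero z2))
      (Finset.prod_ne_zero_iff.2 fun i _ => z3 i), lv_mul p z1 (inv_ne_zero z2), lv_inv, e5_lv_prod p _ _ z3,
      hr n p]
    have r := S.r0 n p
    have r2 : ∑ i, lv p (S.y n i ^ (- k i)) = ∑ i, (-(M' j i + κ * u' i)) * lv p (S.y n i) := by
      refine Finset.sum_congr rfl fun i _ => ?_
      rw [lv_zpow, hk i]
      push_cast
      ring
    rw [r2]
    have r3 : ∑ i, (S.M n j i - M' j i + κ * (S.u n i - u' i)) * lv p (S.y n i) =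
        ∑ i, S.M n j i * lv p (S.y n i) + ∑ i, (-(M' j i + κ * u' i)) * lv p (S.y n i) +
          κ * ∑ i, S.u n i * lv p (S.y n i) := by
      rw [Finset.mul_sum, ← Finset.sum_add_distrib, ← Finset.sum_add_distrib]
      refine Finset.sum_congr rfl fun i _ => ?_
      ring
    rw [r3, r]
    ring
  have h3 : Tendsto (fun n i => S.M n j i - M' j i + κ * (S.u n i - u' i)) (U : Filter ℕ) (𝓝 0) := by
    rw [tendsto_pi_nhds]
    intro i
    have q1 : Tendsto (fun n => S.M n j i) (U : Filter ℕ) (𝓝 (M' j i)) :=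
      tendsto_pi_nhds.1 (tendsto_pi_nhds.1 hM' j) i
    have q2 : Tendsto (fun n => S.u n i) (U : Filter ℕ) (𝓝 (u' i)) := tendsto_pi_nhds.1 hu' i
    have q3 := (q1.sub_const (M' j i)).add ((q2.sub_const (u' i)).const_mul κ)
    simpa using q3
  obtain ⟨e, he, h4⟩ := S.const_torsion hγ0 h3 h2
  refine ⟨e, he, ?_⟩
  filter_upwards [h1] with n hn
  rw [hn, ← map_pow, h4, map_one]

/-- Row Z6-E5b. As `Z5.ArM.end_beta`. `ode` gives integers `k` and constants `g` with `ξ = g_0 a(t) ∏ (t - d_i)^(k_0i)`, `1 - ξ = g_1 b(t) ∏ (t - d_i)^(k_1i)`. (1) `g j ∈ F`: if `ξ` is not constant on the ball by `const_mem`. If `ξ = z` is constant: for eventually all `n` there is `σ` with `σ (S.X n) = z`, so if `n ↦ j n (X n)` is injective we get a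
contradiction as before (finitely many conjugates over `F`); if all `S.X n = algebraMap F (S.K n) x` then `z = algebraMap F ℂ x` and `g_0, g_1 ∈ F` by `const_mem2` (for `x` and `1 - x`). (2) By injectivity of `σ`: `S.X n = g'_0 · S.a n · ∏ (S.t n - d_i)^(k_0i)` and `1 - S.X n = g'_1 · S.b n · ∏ (S.t n - d_i)^(k_1i)` in `S.K n`;
`γ_j = g'_j / ∏ (c i) ^ k_ji`. (3) as before. -/
theorem ArM.end_beta (S : ArM F A B C c d) {U : Ultrafilter ℕ} (hU : (U : Filter ℕ) ≤ cofinite)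
    (hX : Function.Injective (fun n => S.j n (S.X n)) ∨ ∃ x : F, ∀ n, S.X n = algebraMap F (S.K n) x)
    {u' : Fin m → ℝ} {M' : Fin 2 → Fin m → ℝ} (hu' : Tendsto S.u (U : Filter ℕ) (𝓝 u'))
    (hM' : Tendsto S.M (U : Filter ℕ) (𝓝 M')) {κ : Fin 2 → ℝ} {t0 : ℂ} {ρ : ℝ} {ξ : ℂ → ℂ} (hρ : 0 < ρ)
    (hξ : DifferentiableOn ℂ ξ (Metric.ball t0 ρ))
    (hode : ∀ t ∈ Metric.ball t0 ρ, (∀ i, t ≠ algebraMap F ℂ (d i)) ∧
        rf (A.map (algebraMap F ℂ)) (C.map (algebraMap F ℂ)) t ≠ 0 ∧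
        rf (B.map (algebraMap F ℂ)) (C.map (algebraMap F ℂ)) t ≠ 0 ∧ ξ t ≠ 0 ∧ ξ t ≠ 1 ∧
        deriv ξ t / ξ t = ∑ i, ((M' 0 i + κ 0 * u' i : ℝ) : ℂ) / (t - algebraMap F ℂ (d i)) +
          ((Polynomial.derivative (A.map (algebraMap F ℂ))).eval t / (A.map (algebraMap F ℂ)).eval t -
            (Polynomial.derivative (C.map (algebraMap F ℂ))).eval t / (C.map (algebraMap F ℂ)).eval t) ∧
        - deriv ξ t / (1 - ξ t) = ∑ i, ((M' 1 i + κ 1 * u' i : ℝ) : ℂ) / (t - algebraMap F ℂ (d i)) +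
          ((Polynomial.derivative (B.map (algebraMap F ℂ))).eval t / (B.map (algebraMap F ℂ)).eval t -
            (Polynomial.derivative (C.map (algebraMap F ℂ))).eval t / (C.map (algebraMap F ℂ)).eval t))
    (hs : ∀ᶠ n in (U : Filter ℕ), ∃ σ : S.K n →ₐ[F] ℂ, σ (S.t n) ∈ Metric.ball t0 ρ ∧ σ (S.X n) = ξ (σ (S.t n))) :
    ∃ (k : Fin 2 → Fin m → ℤ) (e : ℕ), 0 < e ∧ ∀ᶠ n in (U : Filter ℕ),
      (S.X n / S.a n * ∏ i, S.y n i ^ (- k 0 i)) ^ e = 1 ∧
      ((1 - S.X n) / S.b n * ∏ i, S.y n i ^ (- k 1 i)) ^ e = 1 := by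
  classical
  have hdC : Function.Injective (fun i => algebraMap F ℂ (d i)) := fun i l h =>
    S.hd ((algebraMap F ℂ).injective h)
  have mne : ∀ P : Polynomial F, P ≠ 0 → P.map (algebraMap F ℂ) ≠ 0 := fun P hP =>
    (Polynomial.map_ne_zero_iff (algebraMap F ℂ).injective).2 hP
  obtain ⟨k, g, hg0, hμ, hmg⟩ := ode (μ := fun j i => M' j i + κ j * u' i) (mne A S.hA) (mne B S.hB) (mne C S.hC)
    hdC hρ hξ hode
  -- the constants are in F
  have hgF : ∃ g' : Fin 2 → F, ∀ j, g j = algebraMap F ℂ (g' j) := by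
    by_cases hm0 : ∃ z, ∀ t ∈ Metric.ball t0 ρ,
      g 0 * rf (A.map (algebraMap F ℂ)) (C.map (algebraMap F ℂ)) t * ∏ i, (t - algebraMap F ℂ (d i)) ^ k 0 i = z
    · obtain ⟨z, hz⟩ := hm0
      have hconst : ∀ t ∈ Metric.ball t0 ρ, ξ t = z := by
        intro t ht
        rw [(hmg t ht).1, hz t ht]
      have hs2 : ∀ᶠ n in (U : Filter ℕ), ∃ σ : S.K n →ₐ[F] ℂ, σ (S.X n) = z := by
        filter_upwards [hs] with n hn
        obtain ⟨σ, h1, h2⟩ := hn
        exact ⟨σ, by rw [h2, hconst _ h1]⟩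
      rcases hX with hinj | ⟨x, hx⟩
      · exfalso
        obtain ⟨n0, σ0, h0⟩ := hs2.exists
        have hint : IsIntegral F (S.X n0) := Algebra.IsIntegral.isIntegral _
        have hP0 := minpoly.ne_zero hint
        have hroot : ∀ n, (∃ σ : S.K n →ₐ[F] ℂ, σ (S.X n) = z) →
            S.j n (S.X n) ∈ ((minpoly F (S.X n0)).rootSet ℂ) := by
          rintro n ⟨σ, hσ⟩
          rw [Polynomial.mem_rootSet]
          refine ⟨hP0, ?_⟩
          have e1 : Polynomial.aeval z (minpoly F (S.X n0)) = 0 := by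
            rw [← h0, Polynomial.aeval_algHom_apply, minpoly.aeval, map_zero]
          rw [← hσ, Polynomial.aeval_algHom_apply] at e1
          have e2 : Polynomial.aeval (S.X n) (minpoly F (S.X n0)) = 0 := by
            apply (σ : S.K n →+* ℂ).injective
            show σ _ = σ 0
            rw [e1, map_zero]
          rw [Polynomial.aeval_algHom_apply, e2, map_zero]
        have hfin : {n | ∃ σ : S.K n →ₐ[F] ℂ, σ (S.X n) = z}.Finite := by
          refine Set.Finite.of_finite_image (f := fun n => S.j n (S.X n)) ?_ hinj.injOn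
          refine (Polynomial.rootSet_finite (minpoly F (S.X n0)) ℂ).subset ?_
          rintro _ ⟨n, hn, rfl⟩
          exact hroot n hn
        have hc := hU hfin.compl_mem_cofinite
        obtain ⟨n, q1, q2⟩ := (hs2.and hc).exists
        exact q2 q1
      · obtain ⟨n, σ, hσ⟩ := hs2.exists
        rw [hx n, AlgHom.commutes] at hσ
        obtain ⟨g0, hg0'⟩ := const_mem2 (A := A) (C := C) (d' := d) (k := k 0) (g := g 0) hρ x (fun t ht => by
          obtain ⟨q1, q2, -⟩ := hode t ht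
          exact ⟨q1, q2, by rw [hz t ht, hσ]⟩)
        obtain ⟨g1, hg1'⟩ := const_mem2 (A := B) (C := C) (d' := d) (k := k 1) (g := g 1) hρ (1 - x) (fun t ht => by
          obtain ⟨q1, -, q2, -⟩ := hode t ht
          exact ⟨q1, q2, by rw [← (hmg t ht).2, hconst t ht, map_sub, map_one, hσ]⟩)
        refine ⟨![g0, g1], fun j => ?_⟩
        match j with
        | 0 => exact hg0'
        | 1 => exact hg1'
    · exact const_mem hρ (fun t ht => by
        obtain ⟨q1, q2, q3, -⟩ := hode t ht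
        exact ⟨q1, q2, q3, by rw [← (hmg t ht).1, ← (hmg t ht).2, add_sub_cancel]⟩) hm0
  obtain ⟨g', hg'⟩ := hgF
  have hg'0 : ∀ j, g' j ≠ 0 := by
    intro j h
    apply hg0 j
    rw [hg' j, h, map_zero]
  have hσmap : ∀ n (σ : S.K n →ₐ[F] ℂ) (x : F) (q : S.K n) (l : Fin m → ℤ), σ (algebraMap F (S.K n) x * q *
      ∏ i, (S.t n - algebraMap F (S.K n) (d i)) ^ l i) =
      algebraMap F ℂ x * σ q * ∏ i, (σ (S.t n) - algebraMap F ℂ (d i)) ^ l i := by
    intro n σ x q l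
    rw [map_mul, map_mul, map_prod, AlgHom.commutes]
    simp only [map_zpow₀, map_sub, AlgHom.commutes]
  have hZ0 : ∀ᶠ n in (U : Filter ℕ), S.X n = algebraMap F (S.K n) (g' 0) * S.a n *
      ∏ i, (S.t n - algebraMap F (S.K n) (d i)) ^ k 0 i := by
    filter_upwards [hs] with n hn
    obtain ⟨σ, h1, h2⟩ := hn
    apply (σ : S.K n →+* ℂ).injective
    show σ (S.X n) = σ _
    rw [hσmap, h2, (hmg _ h1).1, hg' 0, S.map_a]
  have hZ1 : ∀ᶠ n in (U : Filter ℕ), 1 - S.X n = algebraMap F (S.K n) (g' 1) * S.b n *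
      ∏ i, (S.t n - algebraMap F (S.K n) (d i)) ^ k 1 i := by
    filter_upwards [hs] with n hn
    obtain ⟨σ, h1, h2⟩ := hn
    apply (σ : S.K n →+* ℂ).injective
    show σ (1 - S.X n) = σ _
    rw [hσmap, map_sub, map_one, h2, (hmg _ h1).2, hg' 1, S.map_b]
  obtain ⟨e0, he0, H0⟩ := e5_one S hu' hM' (κ := κ 0) 0 (Z := S.X) (q := S.a) S.a_ne S.r1 (hg'0 0) (hμ 0) hZ0
  obtain ⟨e1, he1, H1⟩ := e5_one S hu' hM' (κ := κ 1) 1 (Z := fun n => 1 - S.X n) (q := S.b) S.b_ne S.r2 (hg'0 1)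
    (hμ 1) hZ1
  refine ⟨k, e0 * e1, Nat.mul_pos he0 he1, ?_⟩
  filter_upwards [H0, H1] with n q0 q1
  refine ⟨by rw [pow_mul, q0, one_pow], by rw [mul_comm e0 e1, pow_mul, q1, one_pow]⟩

end Pool.Agent.Z6
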