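import Pool.Agent.Z6.S1
import Pool.Agent.Z5.D2
import Pool.Agent.Z5.D3

namespace Pool.Agent.Z6

open Filter Topology
open Pool.Agent.Z5 (Alg Dep ev2)

/-- extension of a derivation to the fraction field -/
theorem s2_frac {A : Type} [CommRing A] [IsDomain A] [Algebra ℂ A] (δ : Derivation ℂ A A) :
    ∃ D : Derivation ℂ (FractionRing A) (FractionRing A), ∀ a : A,
      D (algebraMap A (FractionRing A) a) = algebraMap A (FractionRing A) (δ a) := by
  let L := FractionRing A
  let φ : A →+* TrivSqZeroExt L L :=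
    { toFun := fun a => TrivSqZeroExt.inl (algebraMap A L a) + TrivSqZeroExt.inr (algebraMap A L (δ a))
      map_one' := by
        rw [map_one, Derivation.map_one_eq_zero, map_zero]
        ext <;> simp
      map_zero' := by
        ext <;> simp
      map_add' := by
        intro a b
        ext
        · simp only [map_add, TrivSqZeroExt.fst_add, TrivSqZeroExt.fst_inl, TrivSqZeroExt.fst_inr]
          ring
        · simp only [map_add, TrivSqZeroExt.snd_add, TrivSqZeroExt.snd_inl, TrivSqZeroExt.snd_inr]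
          ring
      map_mul' := by
        intro a b
        ext
        · simp only [map_mul, TrivSqZeroExt.fst_add, TrivSqZeroExt.fst_inl, TrivSqZeroExt.fst_inr, TrivSqZeroExt.fst_mul]
          ring
        · simp only [Derivation.leibniz, map_add, smul_eq_mul, map_mul, TrivSqZeroExt.snd_add, TrivSqZeroExt.snd_inl,
            TrivSqZeroExt.snd_inr, TrivSqZeroExt.snd_mul, TrivSqZeroExt.fst_add, TrivSqZeroExt.fst_inl, TrivSqZeroExt.fst_inr,
            zero_add, add_zero, op_smul_eq_smul] }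
  have hφ : ∀ a, φ a = TrivSqZeroExt.inl (algebraMap A L a) + TrivSqZeroExt.inr (algebraMap A L (δ a)) := fun a => rfl
  have hu : ∀ y : nonZeroDivisors A, IsUnit (φ y) := by
    intro y
    rw [TrivSqZeroExt.isUnit_iff_isUnit_fst, hφ, TrivSqZeroExt.fst_add, TrivSqZeroExt.fst_inl, TrivSqZeroExt.fst_inr,
      add_zero]
    exact IsLocalization.map_units L y
  let Φ : L →+* TrivSqZeroExt L L := IsLocalization.lift (M := nonZeroDivisors A) hu
  have hΦ : ∀ a, Φ (algebraMap A L a) = φ a := fun a => IsLocalization.lift_eq hu a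
  have hfst : ∀ x : L, (Φ x).fst = x := by
    intro x
    have h1 : ((TrivSqZeroExt.fstHom ℂ L L : TrivSqZeroExt L L →ₐ[ℂ] L) : TrivSqZeroExt L L →+* L).comp Φ = RingHom.id L := by
      refine IsLocalization.ringHom_ext (nonZeroDivisors A) ?_
      ext a
      simp only [RingHom.comp_apply, hΦ, hφ]
      simp
    exact congrArg (fun f : L →+* L => f x) h1
  have hc : ∀ z : ℂ, Φ (algebraMap ℂ L z) = TrivSqZeroExt.inl (algebraMap ℂ L z) := by
    intro z
    rw [IsScalarTower.algebraMap_apply ℂ A L, hΦ, hφ, Derivation.map_algebraMap, map_zero, TrivSqZeroExt.inr_zero, add_zero]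
  let Dl : L →ₗ[ℂ] L :=
    { toFun := fun x => (Φ x).snd
      map_add' := fun x y => by rw [map_add, TrivSqZeroExt.snd_add]
      map_smul' := fun z x => by
        rw [Algebra.smul_def, map_mul, TrivSqZeroExt.snd_mul, hc, TrivSqZeroExt.fst_inl, TrivSqZeroExt.snd_inl,
          smul_zero, add_zero, RingHom.id_apply, smul_eq_mul, Algebra.smul_def] }
  refine ⟨Derivation.mk' Dl ?_, ?_⟩
  · intro x y
    change (Φ (x * y)).snd = x • (Φ y).snd + y • (Φ x).snd
    rw [map_mul, TrivSqZeroExt.snd_mul, hfst, hfst, op_smul_eq_smul]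
  · intro a
    change (Φ (algebraMap A L a)).snd = _
    rw [hΦ, hφ, TrivSqZeroExt.snd_add, TrivSqZeroExt.snd_inl, TrivSqZeroExt.snd_inr, zero_add]

theorem s2_const {L : Type} [Field L] [Algebra ℂ L] (D : Derivation ℂ L L) {x : L} (hx : IsAlgebraic ℂ x) : D x = 0 := by
  have h1 : (minpoly ℂ x).degree = 1 :=
    IsAlgClosed.degree_eq_one_of_irreducible ℂ (minpoly.irreducible hx.isIntegral)
  obtain ⟨z, rfl⟩ := minpoly.mem_range_of_degree_eq_one ℂ x h1
  exact D.map_algebraMap z

/-- exchange: everything algebraic over `ℂ(t)` is algebraic over `ℂ(s)` -/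
theorem s2_exchange {L : Type} [Field L] [Algebra ℂ L] {t s : L}
    (hs : ¬ IsAlgebraic ℂ s) (hst : IsAlgebraic (Algebra.adjoin ℂ ({t} : Set L)) s) {x : L}
    (hx : IsAlgebraic (Algebra.adjoin ℂ ({t} : Set L)) x) :
    IsAlgebraic (IntermediateField.adjoin ℂ ({s} : Set L)) x := by
  have hcl : ∀ (S : Set L) (y : L), y ∈ (AlgebraicIndependent.matroid ℂ L).closure S ↔
      IsAlgebraic (Algebra.adjoin ℂ S) y := by
    intro S y
    rw [AlgebraicIndependent.matroid_closure_eq]
    rfl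
  have h1 : s ∈ (AlgebraicIndependent.matroid ℂ L).closure (insert t ∅) \
      (AlgebraicIndependent.matroid ℂ L).closure ∅ := by
    refine ⟨?_, ?_⟩
    · rw [insert_empty_eq]
      exact (hcl _ _).2 hst
    · intro h
      apply hs
      have h2 := (hcl _ _).1 h
      rw [Algebra.adjoin_empty] at h2
      have h3 : Algebra.IsAlgebraic ℂ (⊥ : Subalgebra ℂ L) := by
        constructor
        rintro ⟨y, hy⟩
        obtain ⟨z, rfl⟩ := Algebra.mem_bot.1 hy
        exact isAlgebraic_algebraMap (R := ℂ) (A := (⊥ : Subalgebra ℂ L)) z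
      exact h2.restrictScalars ℂ
  have h2 := (Matroid.closure_exchange h1).1
  rw [insert_empty_eq] at h2
  have h3 : x ∈ (AlgebraicIndependent.matroid ℂ L).closure {s} := by
    refine (AlgebraicIndependent.matroid ℂ L).closure_subset_closure_of_subset_closure ?_ ((hcl _ _).2 hx)
    intro y hy
    rw [Set.mem_singleton_iff] at hy
    rw [hy]
    exact h2
  have h4 := (hcl _ _).1 h3
  let _ : Algebra (Algebra.adjoin ℂ ({s} : Set L)) (IntermediateField.adjoin ℂ ({s} : Set L)) :=
    (Subalgebra.inclusion (IntermediateField.algebra_adjoin_le_adjoin ℂ _)).toRingHom.toAlgebra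
  have : IsScalarTower (Algebra.adjoin ℂ ({s} : Set L)) (IntermediateField.adjoin ℂ ({s} : Set L)) L :=
    IsScalarTower.of_algebraMap_eq (congrFun rfl)
  exact h4.extendScalars (Subalgebra.inclusion_injective _)

/-- integral coordinates -/
theorem s2_basis {r : ℕ} (v : Fin r → ℂ) : ∃ (q : ℕ) (b : Fin q → ℂ) (n : Fin r → Fin q → ℤ), LinearIndependent ℚ b ∧
    ∀ i, v i = ∑ k, (n i k : ℂ) * b k := by
  let M := Submodule.span ℤ (Set.range v)
  have : Module.Finite ℤ M := Module.Finite.span_of_finite ℤ (Set.finite_range v)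
  let B := Module.finBasis ℤ M
  refine ⟨_, fun k => (B k : ℂ), fun i k => B.repr ⟨v i, Submodule.subset_span ⟨i, rfl⟩⟩ k, ?_, ?_⟩
  · have h1 : LinearIndependent ℤ (fun k => (B k : ℂ)) :=
      B.linearIndependent.map' M.subtype (Submodule.ker_subtype M)
    exact (LinearIndependent.iff_fractionRing ℤ ℚ).1 h1
  · intro i
    have h1 := B.sum_repr ⟨v i, Submodule.subset_span ⟨i, rfl⟩⟩
    have h2 := congrArg (fun x : M => (x : ℂ)) h1
    simp only [Submodule.coe_sum, Submodule.coe_smul, zsmul_eq_mul] at h2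
    exact h2.symm

/-- logarithmic derivative -/
noncomputable def s2_ld {L : Type} [Field L] [Algebra ℂ L] (D : Derivation ℂ L L) : Lˣ →* Multiplicative L where
  toFun u := Multiplicative.ofAdd (D (u : L) / (u : L))
  map_one' := by simp
  map_mul' u w := by
    rw [← ofAdd_add]
    congr 1
    have h1 := u.ne_zero
    have h2 := w.ne_zero
    rw [Units.val_mul, Derivation.leibniz, smul_eq_mul, smul_eq_mul]
    field_simp
    ring

theorem s2_ld_prod {L : Type} [Field L] [Algebra ℂ L] (D : Derivation ℂ L L) {r : ℕ} (x : Fin r → L) (hx : ∀ i, x i ≠ 0)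
    (n : Fin r → ℤ) : D (∏ i, x i ^ n i) / (∏ i, x i ^ n i) = ∑ i, (n i : L) * (D (x i) / x i) := by
  let u : Fin r → Lˣ := fun i => Units.mk0 (x i) (hx i)
  have h1 : ((∏ i, u i ^ n i : Lˣ) : L) = ∏ i, x i ^ n i := by
    rw [Units.coe_prod]
    refine Finset.prod_congr rfl fun i _ => ?_
    rw [Units.val_zpow_eq_zpow_val]
    rfl
  have h2 : (s2_ld D (∏ i, u i ^ n i)).toAdd = ∑ i, (n i : L) * (D (x i) / x i) := by
    rw [map_prod, toAdd_prod]
    refine Finset.sum_congr rfl fun i _ => ?_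
    rw [map_zpow, toAdd_zpow, zsmul_eq_mul]
    rfl
  rw [← h2, ← h1]
  rfl

theorem s2_alg_prod {L : Type} [Field L] [Algebra ℂ L] {t : L} {r : ℕ} (x : Fin r → L)
    (hxa : ∀ i, IsAlgebraic (Algebra.adjoin ℂ ({t} : Set L)) (x i)) (n : Fin r → ℤ) :
    IsAlgebraic (Algebra.adjoin ℂ ({t} : Set L)) (∏ i, x i ^ n i) := by
  classical
  refine Finset.prod_induction _ (fun y => IsAlgebraic (Algebra.adjoin ℂ ({t} : Set L)) y) (fun a b ha hb => ha.mul hb)
    isAlgebraic_one fun i _ => ?_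
  rcases Int.eq_nat_or_neg (n i) with ⟨m, hm | hm⟩
  · rw [hm, zpow_natCast]
    exact (hxa i).pow m
  · rw [hm, zpow_neg, zpow_natCast]
    exact ((hxa i).pow m).inv

theorem s2_field {L : Type} [Field L] [Algebra ℂ L] (D : Derivation ℂ L L) {t : L} {r : ℕ} (x : Fin r → L)
    (hx : ∀ i, x i ≠ 0) (hxa : ∀ i, IsAlgebraic (Algebra.adjoin ℂ ({t} : Set L)) (x i)) {h : L}
    (hh : IsAlgebraic (Algebra.adjoin ℂ ({t} : Set L)) h) (v : Fin r → ℂ)
    (heq : D h = ∑ i, v i • (D (x i) / x i)) : D h = 0 := by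
  obtain ⟨q, b, n, hb, hv⟩ := s2_basis v
  have hy0 : ∀ k, ∏ i, x i ^ n i k ≠ 0 := fun k => Finset.prod_ne_zero_iff.2 fun i _ => zpow_ne_zero _ (hx i)
  have heq2 : D h = ∑ k, b k • (D (∏ i, x i ^ n i k) / ∏ i, x i ^ n i k) := by
    have h1 : ∀ k, b k • (D (∏ i, x i ^ n i k) / ∏ i, x i ^ n i k) = ∑ i, b k • ((n i k : L) * (D (x i) / x i)) := by
      intro k
      rw [s2_ld_prod D x hx (fun i => n i k), Finset.smul_sum]
    rw [Finset.sum_congr rfl fun k _ => h1 k, Finset.sum_comm, heq]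
    refine Finset.sum_congr rfl fun i _ => ?_
    rw [hv i, Finset.sum_smul]
    refine Finset.sum_congr rfl fun k _ => ?_
    rw [Algebra.smul_def, Algebra.smul_def, map_mul, map_intCast]
    ring
  by_cases H : ∀ k, D (∏ i, x i ^ n i k) = 0
  · rw [heq2]
    exact Finset.sum_eq_zero fun k _ => by rw [H k, zero_div, smul_zero]
  · push Not at H
    obtain ⟨k0, hk0⟩ := H
    obtain ⟨q', rfl⟩ : ∃ q', q = q' + 1 := ⟨q - 1, by have := k0.2; omega⟩
    exfalso
    have hs : ¬ IsAlgebraic ℂ (∏ i, x i ^ n i k0) := fun h => hk0 (s2_const D h)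
    have hst := s2_alg_prod x hxa (fun i => n i k0)
    let e := Equiv.swap 0 k0
    have he0 : e 0 = k0 := Equiv.swap_apply_left 0 k0
    refine no_log D hk0 (fun k => ∏ i, x i ^ n i (e k.succ)) (fun k => hy0 _)
      (fun k => s2_exchange hs hst (s2_alg_prod x hxa (fun i => n i (e k.succ)))) (s2_exchange hs hst hh)
      (fun k => b (e k)) (hb.comp e e.injective) ?_
    rw [heq2, ← Equiv.sum_comp e, Fin.sum_univ_succ, he0]

section holo

open Pool.Agent.Z5

variable {t0 : ℂ} {ρ : ℝ}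

attribute [local instance] d1_alg d3_alg d3_tower

/-- a holomorphic extension of an element of the ring -/
noncomputable def s2_ext (f : d1_H t0 ρ) : ℂ → ℂ := Classical.choose f.2

theorem s2_ext_diff (f : d1_H t0 ρ) : DifferentiableOn ℂ (s2_ext f) (Metric.ball t0 ρ) :=
  (Classical.choose_spec f.2).1

theorem s2_ext_eq (f : d1_H t0 ρ) (x : Metric.ball t0 ρ) : s2_ext f x = d1_ev x f :=
  ((Classical.choose_spec f.2).2 x).symm

/-- the derivative -/
noncomputable def s2_der (f : d1_H t0 ρ) : d1_H t0 ρ :=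
  d1_mk (deriv (s2_ext f)) ((s2_ext_diff f).deriv Metric.isOpen_ball)

theorem s2_ev_der (x : Metric.ball t0 ρ) (f : d1_H t0 ρ) {g : ℂ → ℂ} (hg : ∀ y : Metric.ball t0 ρ, d1_ev y f = g y) :
    d1_ev x (s2_der f) = deriv g x := by
  unfold s2_der
  rw [d1_ev_mk]
  refine Filter.EventuallyEq.deriv_eq ?_
  filter_upwards [Metric.isOpen_ball.mem_nhds x.2] with y hy
  rw [s2_ext_eq f ⟨y, hy⟩, hg]

theorem s2_hd (f : d1_H t0 ρ) (x : Metric.ball t0 ρ) : DifferentiableAt ℂ (s2_ext f) x :=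
  (s2_ext_diff f).differentiableAt (Metric.isOpen_ball.mem_nhds x.2)

/-- the derivation of the ring -/
noncomputable def s2_D (t0 : ℂ) (ρ : ℝ) : Derivation ℂ (d1_H t0 ρ) (d1_H t0 ρ) :=
  Derivation.mk'
    { toFun := s2_der
      map_add' := fun f g => by
        refine d1_ext fun x => ?_
        rw [map_add, s2_ev_der x (f + g) (g := fun t => s2_ext f t + s2_ext g t) (fun y => by
          rw [map_add, s2_ext_eq, s2_ext_eq]), s2_ev_der x f (fun y => (s2_ext_eq f y).symm),
          s2_ev_der x g (fun y => (s2_ext_eq g y).symm)]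
        exact ((s2_hd f x).hasDerivAt.add (s2_hd g x).hasDerivAt).deriv
      map_smul' := fun z f => by
        refine d1_ext fun x => ?_
        rw [s2_ev_der x (z • f) (g := fun t => z * s2_ext f t) (fun y => by
          rw [Algebra.smul_def, map_mul, d3_ev_algebraMap, s2_ext_eq]), RingHom.id_apply, Algebra.smul_def, map_mul,
          d3_ev_algebraMap, s2_ev_der x f (fun y => (s2_ext_eq f y).symm)]
        exact ((s2_hd f x).hasDerivAt.const_mul z).deriv }
    (fun f g => by
      change s2_der (f * g) = f • s2_der g + g • s2_der f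
      refine d1_ext fun x => ?_
      rw [smul_eq_mul, smul_eq_mul, map_add, map_mul, map_mul,
        s2_ev_der x (f * g) (g := fun t => s2_ext f t * s2_ext g t) (fun y => by
          rw [map_mul, s2_ext_eq, s2_ext_eq]), s2_ev_der x f (fun y => (s2_ext_eq f y).symm),
          s2_ev_der x g (fun y => (s2_ext_eq g y).symm), ← s2_ext_eq, ← s2_ext_eq]
      refine ((s2_hd f x).hasDerivAt.mul (s2_hd g x).hasDerivAt).deriv.trans ?_
      ring)

theorem s2_D_mk {ψ : ℂ → ℂ} (h : DifferentiableOn ℂ ψ (Metric.ball t0 ρ)) :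
    s2_D t0 ρ (d1_mk ψ h) = d1_mk (deriv ψ) (h.deriv Metric.isOpen_ball) := by
  refine d1_ext fun x => ?_
  change d1_ev x (s2_der _) = _
  rw [s2_ev_der x (d1_mk ψ h) (g := ψ) (fun y => d1_ev_mk _ _ _), d1_ev_mk]

theorem s2_nontrivial (hρ : 0 < ρ) : Nontrivial (d1_H t0 ρ) := by
  refine ⟨⟨0, 1, fun h => ?_⟩⟩
  have h1 := congrArg (d1_ev (⟨t0, Metric.mem_ball_self hρ⟩ : Metric.ball t0 ρ)) h
  rw [map_zero, map_one] at h1
  exact zero_ne_one h1

theorem s2_alg_frac (hρ : 0 < ρ) [IsDomain (d1_H t0 ρ)] {y : d1_H t0 ρ} (hy : IsAlgebraic (Polynomial ℂ) y) :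
    IsAlgebraic (Algebra.adjoin ℂ ({algebraMap (d1_H t0 ρ) (FractionRing (d1_H t0 ρ))
      (algebraMap (Polynomial ℂ) (d1_H t0 ρ) Polynomial.X)} : Set (FractionRing (d1_H t0 ρ))))
      (algebraMap (d1_H t0 ρ) (FractionRing (d1_H t0 ρ)) y) := by
  set t := algebraMap (d1_H t0 ρ) (FractionRing (d1_H t0 ρ)) (algebraMap (Polynomial ℂ) (d1_H t0 ρ) Polynomial.X) with ht
  have h1 : IsAlgebraic (Polynomial ℂ) (algebraMap (d1_H t0 ρ) (FractionRing (d1_H t0 ρ)) y) := hy.algebraMap
  let θ : Polynomial ℂ →ₐ[ℂ] Algebra.adjoin ℂ ({t} : Set (FractionRing (d1_H t0 ρ))) :=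
    Polynomial.aeval ⟨t, Algebra.subset_adjoin (Set.mem_singleton t)⟩
  let _ : Algebra (Polynomial ℂ) (Algebra.adjoin ℂ ({t} : Set (FractionRing (d1_H t0 ρ)))) := θ.toRingHom.toAlgebra
  have hθ : ∀ p : Polynomial ℂ, ((θ p : Algebra.adjoin ℂ ({t} : Set (FractionRing (d1_H t0 ρ)))) : FractionRing (d1_H t0 ρ)) =
      algebraMap (Polynomial ℂ) (FractionRing (d1_H t0 ρ)) p := by
    intro p
    have h2 : ((Algebra.adjoin ℂ ({t} : Set (FractionRing (d1_H t0 ρ)))).val.comp θ : Polynomial ℂ →ₐ[ℂ] _) =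
        IsScalarTower.toAlgHom ℂ (Polynomial ℂ) (FractionRing (d1_H t0 ρ)) := by
      refine Polynomial.algHom_ext ?_
      rw [AlgHom.comp_apply, IsScalarTower.coe_toAlgHom']
      simp only [θ, Polynomial.aeval_X]
      rw [IsScalarTower.algebraMap_apply (Polynomial ℂ) (d1_H t0 ρ) (FractionRing (d1_H t0 ρ))]
      rfl
    exact congrArg (fun f : Polynomial ℂ →ₐ[ℂ] FractionRing (d1_H t0 ρ) => f p) h2
  have : IsScalarTower (Polynomial ℂ) (Algebra.adjoin ℂ ({t} : Set (FractionRing (d1_H t0 ρ)))) (FractionRing (d1_H t0 ρ)) :=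
    IsScalarTower.of_algebraMap_eq fun p => (hθ p).symm
  have hinj : Function.Injective (algebraMap (Polynomial ℂ) (Algebra.adjoin ℂ ({t} : Set (FractionRing (d1_H t0 ρ))))) := by
    intro p q hpq
    have h3 : algebraMap (Polynomial ℂ) (FractionRing (d1_H t0 ρ)) p = algebraMap (Polynomial ℂ) (FractionRing (d1_H t0 ρ)) q := by
      rw [← hθ, ← hθ]
      exact congrArg Subtype.val hpq
    rw [IsScalarTower.algebraMap_apply (Polynomial ℂ) (d1_H t0 ρ) (FractionRing (d1_H t0 ρ)),
      IsScalarTower.algebraMap_apply (Polynomial ℂ) (d1_H t0 ρ) (FractionRing (d1_H t0 ρ))] at h3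
    exact d3_inj hρ (IsFractionRing.injective (d1_H t0 ρ) (FractionRing (d1_H t0 ρ)) h3)
  exact h1.extendScalars hinj

end holo

section fin

open Pool.Agent.Z5

attribute [local instance] d1_alg d3_alg d3_tower

/-- Row Z6-S2. A linear combination with complex coefficients of logarithms of algebraic functions which is algebraic is constant. PROOF. Choose a basis `θ_0, ..., θ_q` of the `ℚ`-span of the `v i`, such that `v i = ∑_k n_ik θ_k` with INTEGERS `n_ik` (divide the basis vectors by a common denominator). `S_k = ∏_i (R i) ^ n_ik` is holomorphic without zeros and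
`Alg`, and `deriv h = ∑_k θ_k (S_k' / S_k)`. If all `S_k` are constant then `deriv h = 0`. Otherwise, after a permutation, `s = S_0` is not constant. Let `𝒜` be the ring of holomorphic functions on the ball (restrictions; an integral domain by the identity theorem; see how row D1 does it), `L` its fraction field with the derivation `D` extending `d/dt`
(for example `Derivation` of a localisation; or choose for `L` the field of germs of meromorphic functions at `t0`). `D s ≠ 0`; the elements `h, S_k` are algebraic over `ℂ(t)`, and `t` is algebraic over `ℂ(s)` (as `s` is nonconstant and algebraic over `ℂ(t)`, exchange), so they are algebraic over `ℂ(s)`: contradiction with `no_log`. -/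
theorem log_alg {t0 : ℂ} {ρ : ℝ} (hρ : 0 < ρ) {r : ℕ} (R : Fin r → ℂ → ℂ) (hR : ∀ i, Alg t0 ρ (R i))
    (hR0 : ∀ i, ∀ t ∈ Metric.ball t0 ρ, R i t ≠ 0) (v : Fin r → ℂ) {h : ℂ → ℂ} (hh : Alg t0 ρ h)
    (hd : ∀ t ∈ Metric.ball t0 ρ, deriv h t = ∑ i, v i * (deriv (R i) t / R i t)) :
    ∀ t ∈ Metric.ball t0 ρ, h t = h t0 := by
  have : Nontrivial (d1_H t0 ρ) := s2_nontrivial hρ
  have : IsDomain (d1_H t0 ρ) := NoZeroDivisors.to_isDomain _
  obtain ⟨D, hD⟩ := s2_frac (s2_D t0 ρ)
  have hRinv : ∀ i, DifferentiableOn ℂ (fun t => (R i t)⁻¹) (Metric.ball t0 ρ) := fun i => (hR i).1.inv (hR0 i)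
  have hmulA : ∀ i, d1_mk (R i) (hR i).1 * d1_mk _ (hRinv i) = 1 := by
    intro i
    refine d1_ext fun x => ?_
    rw [map_mul, d1_ev_mk, d1_ev_mk, map_one]
    exact mul_inv_cancel₀ (hR0 i x x.2)
  have hmul : ∀ i, algebraMap (d1_H t0 ρ) (FractionRing (d1_H t0 ρ)) (d1_mk (R i) (hR i).1) *
      algebraMap (d1_H t0 ρ) (FractionRing (d1_H t0 ρ)) (d1_mk _ (hRinv i)) = 1 := by
    intro i
    rw [← map_mul, hmulA, map_one]
  have hne : ∀ i, algebraMap (d1_H t0 ρ) (FractionRing (d1_H t0 ρ)) (d1_mk (R i) (hR i).1) ≠ 0 :=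
    fun i => left_ne_zero_of_mul_eq_one (hmul i)
  have hinv : ∀ i, algebraMap (d1_H t0 ρ) (FractionRing (d1_H t0 ρ)) (d1_mk _ (hRinv i)) =
      (algebraMap (d1_H t0 ρ) (FractionRing (d1_H t0 ρ)) (d1_mk (R i) (hR i).1))⁻¹ :=
    fun i => eq_inv_of_mul_eq_one_right (hmul i)
  have hA : d1_mk (deriv h) (hh.1.deriv Metric.isOpen_ball) = ∑ i, v i • (d1_mk (deriv (R i))
      ((hR i).1.deriv Metric.isOpen_ball) * d1_mk _ (hRinv i)) := by
    refine d1_ext fun x => ?_
    rw [map_sum, d1_ev_mk, hd x x.2]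
    refine Finset.sum_congr rfl fun i _ => ?_
    rw [Algebra.smul_def, map_mul, map_mul, d3_ev_algebraMap, d1_ev_mk, d1_ev_mk, div_eq_mul_inv]
  have heq : D (algebraMap (d1_H t0 ρ) (FractionRing (d1_H t0 ρ)) (d1_mk h hh.1)) =
      ∑ i, v i • (D (algebraMap (d1_H t0 ρ) (FractionRing (d1_H t0 ρ)) (d1_mk (R i) (hR i).1)) /
        algebraMap (d1_H t0 ρ) (FractionRing (d1_H t0 ρ)) (d1_mk (R i) (hR i).1)) := by
    rw [hD, s2_D_mk, hA, map_sum]
    refine Finset.sum_congr rfl fun i _ => ?_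
    rw [hD, s2_D_mk, div_eq_mul_inv, ← hinv, Algebra.smul_def, Algebra.smul_def, map_mul, map_mul,
      ← IsScalarTower.algebraMap_apply]
  have h0 := s2_field D (fun i => algebraMap (d1_H t0 ρ) (FractionRing (d1_H t0 ρ)) (d1_mk (R i) (hR i).1)) hne
    (fun i => s2_alg_frac hρ (d1_alg_of (hR i))) (s2_alg_frac hρ (d1_alg_of hh)) v heq
  rw [hD, s2_D_mk] at h0
  have h1 : d1_mk (deriv h) (hh.1.deriv Metric.isOpen_ball) = 0 :=
    (IsFractionRing.injective (d1_H t0 ρ) (FractionRing (d1_H t0 ρ))) (by rw [h0, map_zero])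
  have h2 : ∀ t ∈ Metric.ball t0 ρ, deriv h t = 0 := by
    intro t ht
    have := congrArg (d1_ev (⟨t, ht⟩ : Metric.ball t0 ρ)) h1
    rwa [d1_ev_mk, map_zero] at this
  intro t ht
  exact Metric.isOpen_ball.is_const_of_deriv_eq_zero (convex_ball t0 ρ).isPreconnected hh.1 (fun t ht => h2 t ht) ht
    (Metric.mem_ball_self hρ)

end fin

end Pool.Agent.Z6
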