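import Pool.Agent.Z6.B3
import Pool.Agent.Z6.C1
import Pool.Agent.Z6.C3
import Pool.Agent.Z6.S2
import Pool.Agent.Z5.W1

namespace Pool.Agent.Z6

open Pool.Agent.ZL2 Filter Topology Polynomial
open Pool.Agent.Z5 (fr Gen ev2 Alg Dep)

variable {m : ℕ}

open Pool.Agent.Z5 (w1_an w1_pre w1_ident w1_ident2 w1_mul w1_deriv w1_congr w1_cmul w1_sub w1_inv w1_dep
  w1_zero_deriv w1_log w1_kconj w1_ev2_cont w1_lg w1_dl chart schwarz reflect hasDerivAt_conj_conj d2_poly)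

/-! Algebraic functions. -/

theorem w6_fsum {t0 : ℂ} {ρ : ℝ} (hρ : 0 < ρ) (s : Finset (Fin m)) {φ : Fin m → ℂ → ℂ} (h : ∀ i, Alg t0 ρ (φ i)) :
    Alg t0 ρ (fun t => ∑ i ∈ s, φ i t) := by
  classical
  induction s using Finset.induction_on with
  | empty => exact w1_congr (Alg.const hρ 0) fun t _ => by simp
  | insert a s ha ih => exact w1_congr (Alg.add hρ (h a) ih) fun t _ => by rw [Finset.sum_insert ha]

theorem w6_sum {t0 : ℂ} {ρ : ℝ} (hρ : 0 < ρ) {v : Fin m → ℂ} {φ : Fin m → ℂ → ℂ} (h : ∀ i, Alg t0 ρ (φ i)) :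
    Alg t0 ρ (fun t => ∑ i, v i * φ i t) := w6_fsum hρ Finset.univ fun i => w1_cmul hρ (h i) (v i)

theorem w6_rat {t0 : ℂ} {ρ : ℝ} (hρ : 0 < ρ) {v : Fin m → ℝ} {d : Fin m → ℂ}
    (h : ∀ t ∈ Metric.ball t0 ρ, ∀ i, t ≠ d i) : Alg t0 ρ (fun t => ∑ i, (v i : ℂ) / (t - d i)) :=
  w1_congr (w6_sum hρ (v := fun i => (v i : ℂ)) (φ := fun i t => 1 / (t - d i)) fun i => w1_inv hρ (Alg.id hρ)
    fun t ht => h t ht i) fun _ _ => Finset.sum_congr rfl fun i _ => by rw [mul_one_div]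

/-! Linear algebra. -/

theorem w6_dt_comm (u v : Fin m → ℝ) : dt u v = dt v u := by
  unfold dt
  exact Finset.sum_congr rfl fun i _ => mul_comm _ _

theorem w6_dt_add (u v w : Fin m → ℝ) : dt (u + v) w = dt u w + dt v w := by
  unfold dt
  rw [← Finset.sum_add_distrib]
  exact Finset.sum_congr rfl fun i _ => by rw [Pi.add_apply, add_mul]

theorem w6_dt_sub (u v w : Fin m → ℝ) : dt (u - v) w = dt u w - dt v w := by
  unfold dt
  rw [← Finset.sum_sub_distrib]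
  exact Finset.sum_congr rfl fun i _ => by rw [Pi.sub_apply, sub_mul]

theorem w6_dt_smul (s : ℝ) (u w : Fin m → ℝ) : dt (s • u) w = s * dt u w := by
  unfold dt
  rw [Finset.mul_sum]
  exact Finset.sum_congr rfl fun i _ => by rw [Pi.smul_apply, smul_eq_mul, mul_assoc]

theorem w6_dt_sub_r (u v w : Fin m → ℝ) : dt w (u - v) = dt w u - dt w v := by
  rw [w6_dt_comm, w6_dt_sub, w6_dt_comm u, w6_dt_comm v]

theorem w6_dt_smul_r (s : ℝ) (u w : Fin m → ℝ) : dt w (s • u) = s * dt w u := by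
  rw [w6_dt_comm, w6_dt_smul, w6_dt_comm]

theorem w6_dt_zero (w : Fin m → ℝ) : dt 0 w = 0 := by
  unfold dt
  exact Finset.sum_eq_zero fun i _ => by rw [Pi.zero_apply, zero_mul]

theorem w6_dt_zero_r (w : Fin m → ℝ) : dt w 0 = 0 := by
  rw [w6_dt_comm, w6_dt_zero]

theorem w6_indep {u v : Fin m → ℝ} (hu : u ≠ 0) (h : ¬ LinearIndependent ℝ ![u, v]) : ∃ s : ℝ, v = s • u := by
  rw [LinearIndependent.pair_iff] at h
  push Not at h
  obtain ⟨s, t, h1, h2⟩ := h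
  have ht : t ≠ 0 := by
    intro h3
    subst h3
    rw [zero_smul, add_zero, smul_eq_zero] at h1
    rcases h1 with h1 | h1
    · exact h2 h1 rfl
    · exact hu h1
  refine ⟨-(t⁻¹ * s), ?_⟩
  have h3 : t • v = -(s • u) := by rw [eq_neg_iff_add_eq_zero, add_comm]; exact h1
  have h4 : v = t⁻¹ • (t • v) := by rw [smul_smul, inv_mul_cancel₀ ht, one_smul]
  rw [h4, h3, smul_neg, smul_smul, neg_smul]

theorem w6_indep2 {u v : Fin m → ℝ} (hu : dt u u = 1) (hv : v ≠ 0) (h : dt v u = 0) :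
    LinearIndependent ℝ ![u, v] := by
  rw [LinearIndependent.pair_iff]
  intro s t hst
  have h0 := congrArg (fun x => dt x u) hst
  simp only [w6_dt_add, w6_dt_smul, hu, h, w6_dt_zero, mul_one, mul_zero, add_zero] at h0
  refine ⟨h0, ?_⟩
  rw [h0, zero_smul, zero_add, smul_eq_zero] at hst
  exact hst.resolve_right hv

/-! The holomorphic continuations of the real parts of the logarithms. -/

noncomputable def w6_L (ℓ : Fin m → ℂ → ℂ) (χ : ℂ → ℂ) (i : Fin m) (t : ℂ) : ℂ :=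
  (ℓ i t + (starRingEnd ℂ) (ℓ i ((starRingEnd ℂ) (χ t)))) / 2

theorem w6_L_deriv {d : Fin m → ℂ} {t0 : ℂ} {ρ ρ0 : ℝ} (hρ0 : ρ ≤ ρ0) {ℓ : Fin m → ℂ → ℂ}
    (hℓ : ∀ i, ∀ t ∈ Metric.ball t0 ρ0, HasDerivAt (ℓ i) (1 / (t - d i)) t) {χ : ℂ → ℂ}
    (hχ : DifferentiableOn ℂ χ (Metric.ball t0 ρ))
    (hτ : ∀ t ∈ Metric.ball t0 ρ, (starRingEnd ℂ) (χ t) ∈ Metric.ball t0 ρ0) (i : Fin m) (t : ℂ)
    (ht : t ∈ Metric.ball t0 ρ) :
    HasDerivAt (w6_L ℓ χ i) ((1 / (t - d i) + 1 / (χ t - (starRingEnd ℂ) (d i)) * deriv χ t) / 2) t := by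
  have h1 := hℓ i t (Metric.ball_subset_ball hρ0 ht)
  have h2 : HasDerivAt χ (deriv χ t) t := (hχ.differentiableAt (Metric.isOpen_ball.mem_nhds ht)).hasDerivAt
  have h3 := hasDerivAt_conj_conj (hℓ i _ (hτ t ht))
  have h4 := h3.comp t h2
  rw [map_div₀, map_one, map_sub, Complex.conj_conj] at h4
  exact (h1.add h4).div_const 2

theorem w6_const {d : Fin m → ℂ} {t0 : ℂ} {ρ ρ0 : ℝ} (hρ : 0 < ρ) (hρ0 : ρ ≤ ρ0) {ℓ : Fin m → ℂ → ℂ}
    (hℓ : ∀ i, ∀ t ∈ Metric.ball t0 ρ0, t ≠ d i ∧ HasDerivAt (ℓ i) (1 / (t - d i)) t)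
    {χ k : ℂ → ℂ} (hχ : DifferentiableOn ℂ χ (Metric.ball t0 ρ))
    (hτ : ∀ t ∈ Metric.ball t0 ρ, (starRingEnd ℂ) (χ t) ∈ Metric.ball t0 ρ0) (hk : Alg t0 ρ0 k)
    (hkc : ∀ t ∈ Metric.ball t0 ρ, k t = (starRingEnd ℂ) (k ((starRingEnd ℂ) (χ t)))) {w μ : Fin m → ℝ}
    (h2 : ∀ t ∈ Metric.ball t0 ρ, ∑ i, (μ i : ℂ) * w6_L ℓ χ i t + k t * ∑ i, (w i : ℂ) * w6_L ℓ χ i t = 0)
    (hv : ¬ ∀ t ∈ Metric.ball t0 ρ, ∑ i, (w i : ℂ) * w6_L ℓ χ i t = 0) :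
    ∀ t ∈ Metric.ball t0 ρ, k t = k t0 := by
  by_contra hnc
  have hLd := w6_L_deriv hρ0 (fun i t ht => (hℓ i t ht).2) hχ hτ
  have hLD : ∀ i, DifferentiableOn ℂ (w6_L ℓ χ i) (Metric.ball t0 ρ) := fun i t ht =>
    (hLd i t ht).differentiableAt.differentiableWithinAt
  have hkρ : Alg t0 ρ k := hk.mono (Metric.ball_subset_ball hρ0)
  obtain ⟨t1, r, hr, hsub, hk'⟩ := w1_deriv hρ hkρ.1 hnc
  have hχA : Alg t0 ρ χ := Alg.exchange hρ hkρ hχ (w1_dep hk hτ hkc) hnc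
  have kA : Alg t1 r k := hkρ.mono hsub
  have cA : Alg t1 r χ := hχA.mono hsub
  have k'A : Alg t1 r (fun t => deriv k t) := Alg.deriv hr kA
  have c'A : Alg t1 r (fun t => deriv χ t) := Alg.deriv hr cA
  have hne1 : ∀ j, ∀ t ∈ Metric.ball t1 r, t ≠ d j := fun j t ht =>
    (hℓ j t (Metric.ball_subset_ball hρ0 (hsub ht))).1
  have hne : ∀ j, ∀ t ∈ Metric.ball t1 r, χ t ≠ (starRingEnd ℂ) (d j) := by
    intro j t ht h
    have e1 := (hℓ j _ (hτ t (hsub ht))).1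
    rw [h, Complex.conj_conj] at e1
    exact e1 rfl
  have L'A : ∀ j, Alg t1 r (fun t => (1 / (t - d j) + 1 / (χ t - (starRingEnd ℂ) (d j)) * deriv χ t) / 2) := by
    intro j
    have a1 : Alg t1 r (fun t => 1 / (t - d j)) := w1_inv hr (Alg.id hr) (hne1 j)
    have a2 := w1_inv hr cA (hne j)
    exact w1_congr (w1_cmul hr (Alg.add hr a1 (Alg.mul hr a2 c'A)) (1 / 2)) fun t _ => by ring
  -- the derivative of a real combination
  have hD : ∀ v : Fin m → ℝ, ∀ t ∈ Metric.ball t0 ρ, HasDerivAt (fun t => ∑ i, (v i : ℂ) * w6_L ℓ χ i t)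
      (∑ i, (v i : ℂ) * ((1 / (t - d i) + 1 / (χ t - (starRingEnd ℂ) (d i)) * deriv χ t) / 2)) t := fun v t ht =>
    HasDerivAt.fun_sum fun i _ => (hLd i t ht).const_mul _
  have DA : ∀ v : Fin m → ℝ, Alg t1 r (fun t => ∑ i, (v i : ℂ) *
      ((1 / (t - d i) + 1 / (χ t - (starRingEnd ℂ) (d i)) * deriv χ t) / 2)) := fun v =>
    w6_sum hr (v := fun i => (v i : ℂ)) L'A
  -- `h` is algebraic
  have hHA : Alg t1 r (fun t => ∑ i, (w i : ℂ) * w6_L ℓ χ i t) := by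
    refine w1_congr (Alg.mul hr (w1_cmul hr (Alg.add hr (DA μ) (Alg.mul hr kA (DA w))) (-1)) (Alg.inv hr k'A hk'))
      fun t ht => ?_
    have htρ := hsub ht
    have hkd : HasDerivAt k (deriv k t) t := (hkρ.1.differentiableAt (Metric.isOpen_ball.mem_nhds htρ)).hasDerivAt
    have e1 := w1_zero_deriv (Metric.isOpen_ball.mem_nhds htρ) h2 ((hD μ t htρ).add (hkd.mul (hD w t htρ)))
    rw [← div_eq_mul_inv, eq_div_iff (hk' t ht)]
    linear_combination e1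
  have hkHA : Alg t1 r (fun t => ∑ i, (μ i : ℂ) * w6_L ℓ χ i t) :=
    w1_congr (w1_cmul hr (Alg.mul hr kA hHA) (-1)) fun t ht => by
      have e1 := h2 t (hsub ht)
      linear_combination e1
  -- logarithmic derivatives
  have hRA : ∀ i, Alg t1 r (fun t => (t - d i) * (χ t - (starRingEnd ℂ) (d i))) := fun i =>
    Alg.mul hr (w1_sub hr (Alg.id hr) (Alg.const hr _)) (w1_sub hr cA (Alg.const hr _))
  have hR0 : ∀ i, ∀ t ∈ Metric.ball t1 r, (t - d i) * (χ t - (starRingEnd ℂ) (d i)) ≠ 0 := fun i t ht =>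
    mul_ne_zero (sub_ne_zero.2 (hne1 i t ht)) (sub_ne_zero.2 (hne i t ht))
  have hcon : ∀ v : Fin m → ℝ, Alg t1 r (fun t => ∑ i, (v i : ℂ) * w6_L ℓ χ i t) → ∀ t ∈ Metric.ball t1 r,
      ∑ i, (v i : ℂ) * w6_L ℓ χ i t = ∑ i, (v i : ℂ) * w6_L ℓ χ i t1 := by
    intro v hvA
    refine log_alg hr (fun i t => (t - d i) * (χ t - (starRingEnd ℂ) (d i))) hRA hR0 (fun i => (v i : ℂ) / 2) hvA
      fun t ht => ?_
    rw [(hD v t (hsub ht)).deriv]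
    refine Finset.sum_congr rfl fun i _ => ?_
    have hcd : HasDerivAt χ (deriv χ t) t :=
      (hχ.differentiableAt (Metric.isOpen_ball.mem_nhds (hsub ht))).hasDerivAt
    have e1 := ((hasDerivAt_id t).sub_const (d i)).mul (hcd.sub_const ((starRingEnd ℂ) (d i)))
    have e2 : deriv (fun t => (t - d i) * (χ t - (starRingEnd ℂ) (d i))) t =
        1 * (χ t - (starRingEnd ℂ) (d i)) + (t - d i) * deriv χ t := e1.deriv
    rw [e2]
    have n1 := sub_ne_zero.2 (hne1 i t ht)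
    have n2 := sub_ne_zero.2 (hne i t ht)
    field_simp
  have c1 := hcon w hHA
  have c2 := hcon μ hkHA
  apply hv
  have hz1 : ∑ i, (w i : ℂ) * w6_L ℓ χ i t1 = 0 := by
    by_contra hne0
    have hkc1 : ∀ t ∈ Metric.ball t1 r, k t - k t1 = 0 := by
      intro t ht
      have e1 := h2 t (hsub ht)
      have e2 := h2 t1 (hsub (Metric.mem_ball_self hr))
      rw [c1 t ht, c2 t ht] at e1
      have e3 : (k t - k t1) * ∑ i, (w i : ℂ) * w6_L ℓ χ i t1 = 0 := by linear_combination e1 - e2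
      exact (mul_eq_zero.1 e3).resolve_right hne0
    have hkd : HasDerivAt (fun t => k t - k t1) (deriv k t1) t1 :=
      ((hkρ.1.differentiableAt (Metric.isOpen_ball.mem_nhds (hsub (Metric.mem_ball_self hr)))).hasDerivAt).sub_const _
    exact hk' t1 (Metric.mem_ball_self hr) (w1_zero_deriv (Metric.ball_mem_nhds t1 hr) hkc1 hkd)
  refine w1_ident2 (DifferentiableOn.fun_sum fun i _ => (hLD i).const_mul _) hr (hsub (Metric.mem_ball_self hr))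
    fun t ht => ?_
  rw [c1 t ht, hz1]

/-! Blow-up. -/

theorem w6_blow {U : Ultrafilter ℕ} {un : ℕ → Fin m → ℝ} {Mn : ℕ → Fin 2 → Fin m → ℝ} {u' : Fin m → ℝ}
    {M' : Fin 2 → Fin m → ℝ} (hu : Tendsto un (U : Filter ℕ) (𝓝 u')) (hM : Tendsto Mn (U : Filter ℕ) (𝓝 M'))
    (hnc : ∀ᶠ n in (U : Filter ℕ), ¬ (un n = u' ∧ Mn n = M')) :
    ∃ (ε : ℕ → ℝ) (u1 : Fin m → ℝ) (M1 : Fin 2 → Fin m → ℝ), (∀ᶠ n in (U : Filter ℕ), 0 < ε n) ∧
      Tendsto ε (U : Filter ℕ) (𝓝 0) ∧ Tendsto (fun n => (ε n)⁻¹ • (un n - u')) (U : Filter ℕ) (𝓝 u1) ∧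
      Tendsto (fun n => (ε n)⁻¹ • (Mn n - M')) (U : Filter ℕ) (𝓝 M1) ∧ ¬ (u1 = 0 ∧ M1 = 0) := by
  let v : ℕ → (Fin m → ℝ) × (Fin 2 → Fin m → ℝ) := fun n => (un n - u', Mn n - M')
  have hv0 : Tendsto v (U : Filter ℕ) (𝓝 0) := by
    have h1 : Tendsto (fun n => un n - u') (U : Filter ℕ) (𝓝 0) := by
      simpa using hu.sub_const u'
    have h2 : Tendsto (fun n => Mn n - M') (U : Filter ℕ) (𝓝 0) := by
      simpa using hM.sub_const M'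
    exact h1.prodMk_nhds h2
  have hpos : ∀ᶠ n in (U : Filter ℕ), 0 < ‖v n‖ := by
    filter_upwards [hnc] with n hn
    rw [norm_pos_iff]
    intro h
    apply hn
    have h1 := congrArg Prod.fst h
    have h2 := congrArg Prod.snd h
    exact ⟨sub_eq_zero.1 h1, sub_eq_zero.1 h2⟩
  have hK := isCompact_sphere (0 : (Fin m → ℝ) × (Fin 2 → Fin m → ℝ)) 1
  obtain ⟨w, hw, hwl⟩ := hK.ultrafilter_le_nhds (U.map fun n => (‖v n‖)⁻¹ • v n) (by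
    rw [Ultrafilter.coe_map, le_principal_iff, mem_map]
    filter_upwards [hpos] with n hn
    rw [Set.mem_preimage, mem_sphere_zero_iff_norm, norm_smul, norm_inv, norm_norm, inv_mul_cancel₀ hn.ne'])
  rw [Ultrafilter.coe_map] at hwl
  have hwt : Tendsto (fun n => (‖v n‖)⁻¹ • v n) (U : Filter ℕ) (𝓝 w) := hwl
  refine ⟨fun n => ‖v n‖, w.1, w.2, hpos, ?_, ?_, ?_, ?_⟩
  · simpa using hv0.norm
  · exact (continuous_fst.tendsto w).comp hwt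
  · exact (continuous_snd.tendsto w).comp hwt
  · rintro ⟨h1, h2⟩
    rw [mem_sphere_zero_iff_norm] at hw
    have h3 : w = 0 := Prod.ext h1 h2
    rw [h3, norm_zero] at hw
    exact zero_ne_one hw

/-- The limit principle at a point of `Sup`. -/
theorem w6_key {a b : ℂ → ℂ} {c d : Fin m → ℂ} {U : Ultrafilter ℕ} (S : Sq a b c d U) {q : ℂ × ℂ} (hq : q ∈ S.Sup)
    {Φ : ℕ × (ℂ × ℂ) → ℝ} {l : ℝ} (hΦ : Tendsto Φ ((U : Filter ℕ) ×ˢ 𝓝 q) (𝓝 l)) {O : Set (ℂ × ℂ)} (hO : O ∈ 𝓝 q)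
    (h0 : ∀ᶠ n in (U : Filter ℕ), ∀ σ, (S.X n σ, S.t n σ) ∈ O → Φ (n, (S.X n σ, S.t n σ)) ≤ 0) : l ≤ 0 := by
  by_contra hl
  have h1 := hΦ.eventually (lt_mem_nhds (not_le.1 hl))
  rw [Filter.eventually_prod_iff] at h1
  obtain ⟨pa, hpa, pb, hpb, hab⟩ := h1
  obtain ⟨n, ⟨q1, q2⟩, ⟨σ, q3⟩⟩ := ((hpa.and h0).and (hq (O ∩ {x | pb x}) (Filter.inter_mem hO hpb))).exists
  exact absurd (hab q1 q3.2) (not_lt.2 (q2 σ q3.1))

theorem w6_dtl {α : Type} {F : Filter α} {u v : α → Fin m → ℝ} {u' v' : Fin m → ℝ}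
    (hu : Tendsto u F (𝓝 u')) (hv : Tendsto v F (𝓝 v')) :
    Tendsto (fun n => dt (u n) (v n)) F (𝓝 (dt u' v')) := by
  unfold dt
  exact tendsto_finsetSum _ fun i _ => (tendsto_pi_nhds.1 hu i).mul (tendsto_pi_nhds.1 hv i)

theorem w6_limits {a b : ℂ → ℂ} {c d : Fin m → ℂ} {U : Ultrafilter ℕ} (S : Sq a b c d U) {u' : Fin m → ℝ}
    {M' : Fin 2 → Fin m → ℝ} (hu' : Tendsto S.u (U : Filter ℕ) (𝓝 u')) (hM' : Tendsto S.M (U : Filter ℕ) (𝓝 M'))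
    {ε : ℕ → ℝ} (hε0 : ∀ᶠ n in (U : Filter ℕ), 0 < ε n) (hε : Tendsto ε (U : Filter ℕ) (𝓝 0)) {u1 : Fin m → ℝ}
    {M1 : Fin 2 → Fin m → ℝ} (h1 : Tendsto (fun n => (ε n)⁻¹ • (S.u n - u')) (U : Filter ℕ) (𝓝 u1))
    (h2 : Tendsto (fun n => (ε n)⁻¹ • (S.M n - M')) (U : Filter ℕ) (𝓝 M1)) :
    dt u' u' = 1 ∧ dt u1 u' = 0 ∧ ∀ j, dt (M1 j) u' + dt (M' j) u1 = 0 := by
  have hc : Tendsto (fun _ : ℕ => u') (U : Filter ℕ) (𝓝 u') := tendsto_const_nhds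
  have q1 : dt u' u' = 1 := by
    have h := w6_dtl hu' hu'
    simp only [S.hu] at h
    exact tendsto_nhds_unique h tendsto_const_nhds
  have q2 : ∀ j, dt (M' j) u' = 0 := by
    intro j
    have h := w6_dtl (tendsto_pi_nhds.1 hM' j) hu'
    simp only [S.hM] at h
    exact tendsto_nhds_unique h tendsto_const_nhds
  refine ⟨q1, ?_, fun j => ?_⟩
  · have h := ((w6_dtl h1 hc).const_mul 2).add (hε.mul (w6_dtl h1 h1))
    have h3 : Tendsto (fun n => 2 * dt ((ε n)⁻¹ • (S.u n - u')) u' +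
        ε n * dt ((ε n)⁻¹ • (S.u n - u')) ((ε n)⁻¹ • (S.u n - u'))) (U : Filter ℕ) (𝓝 0) := by
      refine tendsto_const_nhds.congr' ?_
      filter_upwards [hε0] with n hn
      have e1 := S.hu n
      simp only [w6_dt_smul, w6_dt_smul_r, w6_dt_sub, w6_dt_sub_r, w6_dt_comm u' (S.u n)]
      field_simp
      linear_combination q1 - e1
    have h4 := tendsto_nhds_unique h h3
    linarith
  · have hMj : Tendsto (fun n => (ε n)⁻¹ • (S.M n j - M' j)) (U : Filter ℕ) (𝓝 (M1 j)) := tendsto_pi_nhds.1 h2 j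
    have hcj : Tendsto (fun _ : ℕ => M' j) (U : Filter ℕ) (𝓝 (M' j)) := tendsto_const_nhds
    have h := ((w6_dtl hMj hc).add (w6_dtl hcj h1)).add (hε.mul (w6_dtl hMj h1))
    have h3 : Tendsto (fun n => dt ((ε n)⁻¹ • (S.M n j - M' j)) u' + dt (M' j) ((ε n)⁻¹ • (S.u n - u')) +
        ε n * dt ((ε n)⁻¹ • (S.M n j - M' j)) ((ε n)⁻¹ • (S.u n - u'))) (U : Filter ℕ) (𝓝 0) := by
      refine tendsto_const_nhds.congr' ?_
      filter_upwards [hε0] with n hn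
      have e1 := S.hM n j
      have e2 := q2 j
      simp only [w6_dt_smul, w6_dt_smul_r, w6_dt_sub, w6_dt_sub_r]
      field_simp
      linear_combination e2 - e1
    have h4 := tendsto_nhds_unique h h3
    linarith

/-! Local data. -/

noncomputable def w6_cst (A B C : Polynomial ℂ) (j : Fin 2) (t : ℂ) : ℝ :=
  if j = 0 then Real.log ‖rf A C t‖ else Real.log ‖rf B C t‖

noncomputable def w6_dc (A B C : Polynomial ℂ) (j : Fin 2) (t : ℂ) : ℂ :=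
  if j = 0 then (derivative A).eval t / A.eval t - (derivative C).eval t / C.eval t
  else (derivative B).eval t / B.eval t - (derivative C).eval t / C.eval t

theorem w6_local {A B C : Polynomial ℂ} {c d : Fin m → ℂ} (hc : ∀ i, c i ≠ 0) {t0 : ℂ} (ht0 : ∀ i, t0 ≠ d i)
    (hta : rf A C t0 ≠ 0) (htb : rf B C t0 ≠ 0) {ξ : ℂ → ℂ} {ρ1 : ℝ}
    (hρ1 : 0 < ρ1) (hξ : DifferentiableOn ℂ ξ (Metric.ball t0 ρ1)) (h0 : ξ t0 ≠ 0) (h1 : ξ t0 ≠ 1)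
    {u : Fin m → ℝ} (hcr : ∑ i, (u i : ℂ) / (t0 - d i) ≠ 0) :
    ∃ ρ, 0 < ρ ∧ ρ ≤ ρ1 ∧ ∃ (ℓ : Fin m → ℂ → ℂ) (lm la : Fin 2 → ℂ → ℂ), ∀ t ∈ Metric.ball t0 ρ,
      (∀ i, t ≠ d i ∧ HasDerivAt (ℓ i) (1 / (t - d i)) t ∧ (ℓ i t).re = LY c d t i) ∧ ξ t ≠ 0 ∧ ξ t ≠ 1 ∧
      (∀ j, HasDerivAt (lm j) (w1_dl ξ j t) t ∧ (lm j t).re = w1_lg j (ξ t)) ∧
      ∑ i, (u i : ℂ) / (t - d i) ≠ 0 ∧ (A.eval t ≠ 0 ∧ B.eval t ≠ 0 ∧ C.eval t ≠ 0) ∧
      ∀ j, HasDerivAt (la j) (w6_dc A B C j t) t ∧ (la j t).re = w6_cst A B C j t := by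
  obtain ⟨r1, hr1, ℓ, hℓ⟩ := exists_log hc ht0
  have hξd : ∀ t ∈ Metric.ball t0 ρ1, HasDerivAt ξ (deriv ξ t) t := fun t ht =>
    (hξ.differentiableAt (Metric.isOpen_ball.mem_nhds ht)).hasDerivAt
  obtain ⟨r2, hr2, l0, hl0⟩ := w1_log hρ1 hξd h0
  obtain ⟨r3, hr3, l1, hl1⟩ := w1_log (ψ := fun t => 1 - ξ t) (ψ' := fun t => - deriv ξ t) hρ1
    (fun t ht => (hξd t ht).const_sub 1) (sub_ne_zero.2 h1.symm)
  have hcont : ContinuousAt (fun t => ∑ i, (u i : ℂ) / (t - d i)) t0 :=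
    tendsto_finsetSum _ fun i _ => (continuousAt_const.div (continuousAt_id.sub continuousAt_const)
      (sub_ne_zero.2 (ht0 i)))
  obtain ⟨r4, hr4, hb4⟩ := Metric.mem_nhds_iff.1 (hcont.eventually_ne hcr)
  obtain ⟨r5, hr5, la, hla⟩ := exists_log_rf hta
  obtain ⟨r6, hr6, lb, hlb⟩ := exists_log_rf htb
  refine ⟨min ρ1 (min (min (min r1 r2) (min r3 r4)) (min r5 r6)), by positivity, min_le_left _ _, ℓ, ![l0, l1],
    ![la, lb], fun t ht => ?_⟩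
  simp only [Metric.mem_ball, lt_min_iff] at ht
  obtain ⟨t1, ⟨⟨t2, t3⟩, t4, t5⟩, t6, t7⟩ := ht
  have e0 := hl0 t t3
  have e1 := hl1 t t4
  have e2 := hla t t6
  have e3 := hlb t t7
  refine ⟨fun i => ⟨(hℓ i t t2).1, (hℓ i t t2).2.1, (hℓ i t t2).2.2.1⟩, e0.1, fun h => e1.1 (by rw [h, sub_self]),
    fun j => ?_, hb4 t5, ⟨e2.1, e3.1, e2.2.1⟩, fun j => ?_⟩
  · match j with
    | 0 => exact ⟨e0.2.1, e0.2.2⟩
    | 1 => exact ⟨e1.2.1, e1.2.2⟩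
  · match j with
    | 0 => exact ⟨e2.2.2.1, e2.2.2.2.1⟩
    | 1 => exact ⟨e3.2.2.1, e3.2.2.2.1⟩

theorem w6_supG {a b : ℂ → ℂ} {c d : Fin m → ℂ} {U : Ultrafilter ℕ} (S : Sq a b c d U) {G : Polynomial (Polynomial ℂ)}
    (hG : ∀ᶠ n in (U : Filter ℕ), ∀ σ, ev2 G (S.t n σ) (S.X n σ) = 0) {q : ℂ × ℂ} (hq : q ∈ S.Sup) :
    ev2 G q.2 q.1 = 0 := by
  have h1 : Tendsto (fun p : ℕ × (ℂ × ℂ) => ‖ev2 G p.2.2 p.2.1‖) ((U : Filter ℕ) ×ˢ 𝓝 q)
      (𝓝 ‖ev2 G q.2 q.1‖) := ((w1_ev2_cont G).norm.tendsto q).comp tendsto_snd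
  have h2 := w6_key S hq h1 Filter.univ_mem (hG.mono fun n hGn σ _ => by
    simp only [hGn σ, norm_zero, le_refl])
  exact norm_le_zero_iff.1 h2

/-- Row Z6-W1. As `Z5.W1`, with the following changes. (a) `Fin m`, and `rf A C`, `rf B C` in place of the constants: in step (2) `g_0 = λ_0 - ∑_i M'_0i ℓ_i - ℓ_a` with `ℓ_a` the logarithm of `rf A C` (`exists_log_rf`), `g_1 = λ_1 - ∑_i M'_1i ℓ_i - ℓ_b`. `k_j = g_j'/f_0'` is still `Alg`: the derivatives of `ℓ_a, ℓ_b` are rational functions.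
The blow-up relation (4) does not change (the coefficient of `log ‖rf A C‖` does not depend on `n`). (b) The CLAIM in step (5), for all `m`: suppose `k = k_j` is not constant. From (**) `∑_i M1_ji Λ_i + k ∑_i u1_i Λ_i = 0`; differentiate: `k' · h = - ∑_i (M1_ji + k u1_i) Λ_i'` with `h = ∑_i u1_i Λ_i`. As before `k, χ` are `Alg`,
`Λ_i' = (1/(t - d_i) + χ'/(χ - conj d_i))/2` is `Alg`, so `h` is `Alg` (on a ball where `k' ≠ 0`), and `∑_i M1_ji Λ_i = - k h` is `Alg`. `Λ_i' = R_i' / (2 R_i)` with `R_i = c_i (t - d_i) · conj c_i (χ - conj d_i)`, `Alg` without zeros (on a small ball). By `log_alg` (row S2) `h` is constant, and `k h` is constant, so `h = 0` because `k` is not constant.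
Then `∑ u1_i Λ_i = 0` on the ball, so by `HH` `u1 ∈ ℝ u'`, and `dt u1 u' = 0` gives `u1 = 0`; then `∑ M1_li Λ_i = 0` for both `l` and `M1 = 0` as before: contradiction. -/
theorem W1 (hm : 0 < m) {A B C : Polynomial ℂ} (hA0 : A ≠ 0) (hB0 : B ≠ 0) (hC0 : C ≠ 0) {c d : Fin m → ℂ} {U : Ultrafilter ℕ}
    (S : Sq (rf A C) (rf B C) c d U)
    (hc : ∀ i, c i ≠ 0) (hd : Function.Injective d) (hH : HH c d) {A1 : ℝ} (hA : S.Bdd A1)
    {u' : Fin m → ℝ} {M' : Fin 2 → Fin m → ℝ} (hu' : Tendsto S.u (U : Filter ℕ) (𝓝 u'))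
    (hM' : Tendsto S.M (U : Filter ℕ) (𝓝 M')) (G : Polynomial (Polynomial ℂ)) (hG0 : G ≠ 0)
    (hG : ∀ᶠ n in (U : Filter ℕ), ∀ σ, ev2 G (S.t n σ) (S.X n σ) = 0) {E : Set ℂ} (hE : E.Finite)
    (hsep : ∀ t, t ∉ E → ∀ x, ev2 G t x = 0 → ev2 (derivative G) t x ≠ 0)
    (hnc : ∀ᶠ n in (U : Filter ℕ), ¬ (S.u n = u' ∧ S.M n = M')) :
    ∃ (κ : Fin 2 → ℝ) (t0 : ℂ) (ρ : ℝ) (ξ : ℂ → ℂ), 0 < ρ ∧ DifferentiableOn ℂ ξ (Metric.ball t0 ρ) ∧
      (∀ t ∈ Metric.ball t0 ρ, (∀ i, t ≠ d i) ∧ rf A C t ≠ 0 ∧ rf B C t ≠ 0 ∧ ξ t ≠ 0 ∧ ξ t ≠ 1 ∧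
        deriv ξ t / ξ t = ∑ i, ((M' 0 i + κ 0 * u' i : ℝ) : ℂ) / (t - d i) +
          ((derivative A).eval t / A.eval t - (derivative C).eval t / C.eval t) ∧
        - deriv ξ t / (1 - ξ t) = ∑ i, ((M' 1 i + κ 1 * u' i : ℝ) : ℂ) / (t - d i) +
          ((derivative B).eval t / B.eval t - (derivative C).eval t / C.eval t)) ∧
      ∀ᶠ n in (U : Filter ℕ), ∃ σ, S.t n σ ∈ Metric.ball t0 ρ ∧ S.X n σ = ξ (S.t n σ) := by
  classical
  obtain ⟨ε, u1, M1, hε0, hε, hb1, hb2, hne⟩ := w6_blow hu' hM' hnc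
  obtain ⟨hu1, L1, L2⟩ := w6_limits S hu' hM' hε0 hε hb1 hb2
  have hu0 : u' ≠ 0 := by
    rintro rfl
    rw [w6_dt_zero] at hu1
    exact zero_ne_one hu1
  -- finite exceptional set
  have hE' : (E ∪ {t : ℂ | (∀ i, t ≠ d i) ∧ ∑ i, (u' i : ℂ) / (t - d i) = 0}).Finite :=
    hE.union (crit_finite hd hu0)
  obtain ⟨p, hp, hpE, hpd, hpa, hpb, hp0, hp1, hpacc⟩ := exists_sup hm hA0 hB0 hC0 S hc hA hE'
  have hcr : ∑ i, (u' i : ℂ) / (p.2 - d i) ≠ 0 := fun h => hpE (Or.inr ⟨hpd, h⟩)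
  have hsG : ∀ q ∈ S.Sup, ev2 G q.2 q.1 = 0 := fun q hq => w6_supG S hG hq
  have hG1 := hsep p.2 (fun h => hpE (Or.inl h)) p.1 (hsG p hp)
  obtain ⟨ρ1, η, ξ, hρ1, hη, hξd, hξ0, hξG, hξu⟩ := chart G (hsG p hp) hG1
  obtain ⟨ρ2, hρ2, hρ21, ℓ, lm, la, hloc⟩ := w6_local hc hpd hpa hpb hρ1 hξd (by rw [hξ0]; exact hp0)
    (by rw [hξ0]; exact hp1) hcr
  obtain ⟨x0, t0⟩ := p
  simp only at hpd hp0 hp1 hcr hG1 hρ1 hξd hξ0 hξG hξu hloc
  -- the functions f0, g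
  obtain ⟨f0, hf0⟩ : ∃ f0 : ℂ → ℂ, f0 = fun t => ∑ i, (u' i : ℂ) * ℓ i t := ⟨_, rfl⟩
  obtain ⟨g, hgd⟩ : ∃ g : Fin 2 → ℂ → ℂ, g = fun j t => lm j t - ∑ i, (M' j i : ℂ) * ℓ i t - la j t := ⟨_, rfl⟩
  obtain ⟨f', hf'd⟩ : ∃ f' : ℂ → ℂ, f' = fun t => ∑ i, (u' i : ℂ) / (t - d i) := ⟨_, rfl⟩
  obtain ⟨g', hg'd⟩ : ∃ g' : Fin 2 → ℂ → ℂ, g' = fun j t => w1_dl ξ j t - ∑ i, (M' j i : ℂ) / (t - d i) -
    w6_dc A B C j t := ⟨_, rfl⟩
  have hf : ∀ t ∈ Metric.ball t0 ρ2, HasDerivAt f0 (f' t) t := by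
    intro t ht
    rw [hf0, hf'd]
    have h1 : HasDerivAt (fun t => ∑ i, (u' i : ℂ) * ℓ i t) (∑ i, (u' i : ℂ) * (1 / (t - d i))) t :=
      HasDerivAt.fun_sum fun i _ => ((hloc t ht).1 i).2.1.const_mul _
    simpa only [mul_one_div] using h1
  have hg : ∀ j, ∀ t ∈ Metric.ball t0 ρ2, HasDerivAt (g j) (g' j t) t := by
    intro j t ht
    rw [hgd, hg'd]
    have h1 : HasDerivAt (fun t => ∑ i, (M' j i : ℂ) * ℓ i t) (∑ i, (M' j i : ℂ) / (t - d i)) t := by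
      have h2 : HasDerivAt (fun t => ∑ i, (M' j i : ℂ) * ℓ i t) (∑ i, (M' j i : ℂ) * (1 / (t - d i))) t :=
        HasDerivAt.fun_sum fun i _ => ((hloc t ht).1 i).2.1.const_mul _
      simpa only [mul_one_div] using h2
    exact ((((hloc t ht).2.2.2.1 j).1).sub h1).sub (((hloc t ht).2.2.2.2.2.2 j).1)
  have hfre : ∀ t ∈ Metric.ball t0 ρ2, (f0 t).re = dt u' (LY c d t) := by
    intro t ht
    rw [hf0]
    simp only [Complex.re_sum, dt, Complex.re_ofReal_mul]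
    exact Finset.sum_congr rfl fun i _ => by rw [((hloc t ht).1 i).2.2]
  have hgre : ∀ j, ∀ t ∈ Metric.ball t0 ρ2,
      (g j t).re = w1_lg j (ξ t) - dt (M' j) (LY c d t) - w6_cst A B C j t := by
    intro j t ht
    rw [hgd]
    simp only [Complex.sub_re, Complex.re_sum, dt, Complex.re_ofReal_mul]
    rw [((hloc t ht).2.2.2.1 j).2, ((hloc t ht).2.2.2.2.2.2 j).2]
    congr 2
    exact Finset.sum_congr rfl fun i _ => by rw [((hloc t ht).1 i).2.2]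
  -- relations at the points of the orbits and of Sup
  have hrr : ∀ n σ j, w1_lg j (S.X n σ) = dt (S.M n j) (LY c d (S.t n σ)) + w6_cst A B C j (S.t n σ) := by
    intro n σ j
    match j with
    | 0 => exact S.r1 n σ
    | 1 => exact S.r2 n σ
  have hrf : ∀ t ∈ Metric.ball t0 ρ2, rf A C t ≠ 0 ∧ rf B C t ≠ 0 := by
    intro t ht
    obtain ⟨n1, n2, n3⟩ := (hloc t ht).2.2.2.2.2.1
    exact ⟨div_ne_zero n1 n3, div_ne_zero n2 n3⟩
  have hpt : ∀ q ∈ S.Sup, q.2 ∈ Metric.ball t0 ρ2 → ‖q.1 - x0‖ < η →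
      q.1 = ξ q.2 ∧ (f0 q.2).re = 0 ∧ ∀ j, (g j q.2).re = 0 := by
    intro q hq h2 h1
    have e1 : q.1 = ξ q.2 := hξu q.2 (Metric.ball_subset_ball hρ21 h2) q.1 h1 (hsG q hq)
    obtain ⟨l1, l2, l3, -⟩ := hloc q.2 h2
    obtain ⟨s1, s2, s3⟩ := sup_rel S hc hu' hM' hq (fun i => (l1 i).1) (hrf q.2 h2).1 (hrf q.2 h2).2
      (by rw [e1]; exact l2) (by rw [e1]; exact l3)
    refine ⟨e1, by rw [hfre _ h2]; exact s1, fun j => ?_⟩
    rw [hgre j _ h2, ← e1]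
    match j with
    | 0 =>
      show Real.log ‖q.1‖ - dt (M' 0) (LY c d q.2) - Real.log ‖rf A C q.2‖ = 0
      rw [s2]; ring
    | 1 =>
      show Real.log ‖1 - q.1‖ - dt (M' 1) (LY c d q.2) - Real.log ‖rf B C q.2‖ = 0
      rw [s3]; ring
  have hf00 : (f0 t0).re = 0 := (hpt (x0, t0) hp (Metric.mem_ball_self hρ2) (by simpa using hη)).2.1
  have hacc : ∀ O ∈ 𝓝 t0, ∃ q ∈ S.Sup, q.2 ∈ O ∧ q.2 ≠ t0 ∧ ‖q.1 - x0‖ < η := by
    intro O hO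
    have h1 : {q : ℂ × ℂ | q.2 ∈ O ∧ ‖q.1 - x0‖ < η} ∈ 𝓝 (x0, t0) := by
      refine Filter.inter_mem ((continuous_snd.tendsto (x0, t0)) hO) ?_
      have h2 : Continuous fun q : ℂ × ℂ => ‖q.1 - x0‖ := by fun_prop
      exact (h2.tendsto (x0, t0)).eventually (gt_mem_nhds (by simpa using hη))
    obtain ⟨q, q1, q2, q3⟩ := hpacc _ h1
    exact ⟨q, q1, q2.1, q3, q2.2⟩
  -- the Schwarz function
  have hf't0 : deriv f0 t0 ≠ 0 := by
    rw [(hf t0 (Metric.mem_ball_self hρ2)).deriv, hf'd]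
    exact hcr
  obtain ⟨ρ3, hρ3, χ, hχd, hχc⟩ := schwarz (f := f0) (t0 := t0) (Filter.eventually_of_mem
    (Metric.ball_mem_nhds t0 hρ2) fun t ht => (hf t ht).differentiableAt) hf't0 hf00
  obtain ⟨ρ4, hρ4, hρ42, hρ43⟩ : ∃ ρ4, 0 < ρ4 ∧ ρ4 ≤ ρ2 ∧ ρ4 ≤ ρ3 :=
    ⟨min ρ2 ρ3, lt_min hρ2 hρ3, min_le_left _ _, min_le_right _ _⟩
  have s42 := Metric.ball_subset_ball (x := t0) hρ42
  have s43 := Metric.ball_subset_ball (x := t0) hρ43
  have hacc2 : ∀ O ∈ 𝓝 t0, ∃ t ∈ O, t ≠ t0 ∧ (f0 t).re = 0 ∧ ∀ j, (g j t).re = 0 := by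
    intro O hO
    obtain ⟨q, q1, q2, q3, q4⟩ := hacc (O ∩ Metric.ball t0 ρ2) (Filter.inter_mem hO (Metric.ball_mem_nhds t0 hρ2))
    obtain ⟨-, e1, e2⟩ := hpt q q1 q2.2 q4
    exact ⟨q.2, q2.1, q3, e1, e2⟩
  have hRg : ∀ j, ∃ r, 0 < r ∧ r ≤ ρ4 ∧ ∀ t ∈ Metric.ball t0 r, (starRingEnd ℂ) (χ t) ∈ Metric.ball t0 ρ4 ∧
      g j t + (starRingEnd ℂ) (g j ((starRingEnd ℂ) (χ t))) = 0 := fun j =>
    reflect (f := f0) (g := g j) hρ4 (fun t ht => (hg j t (s42 ht)).differentiableAt.differentiableWithinAt)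
      (hχd.mono s43) (fun t ht => hχc t (s43 ht)) hf00 (fun O hO => by
        obtain ⟨t, q1, q2, q3, q4⟩ := hacc2 O hO
        exact ⟨t, q1, q2, q3, q4 j⟩)
  obtain ⟨r0, hr0, hr04, hR0⟩ := hRg 0
  obtain ⟨r1, hr1, hr14, hR1⟩ := hRg 1
  obtain ⟨r2, hr2, hr24, hR2⟩ := reflect (f := f0) (g := f0) hρ4
    (fun t ht => (hf t (s42 ht)).differentiableAt.differentiableWithinAt)
    (hχd.mono s43) (fun t ht => hχc t (s43 ht)) hf00 (fun O hO => by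
        obtain ⟨t, q1, q2, q3, q4⟩ := hacc2 O hO
        exact ⟨t, q1, q2, q3, q3⟩)
  obtain ⟨ρ, hρ, hρ0, hρr1, hρr2⟩ : ∃ ρ, 0 < ρ ∧ ρ ≤ r0 ∧ ρ ≤ r1 ∧ ρ ≤ r2 :=
    ⟨min r0 (min r1 r2), lt_min hr0 (lt_min hr1 hr2), min_le_left _ _,
      (min_le_right _ _).trans (min_le_left _ _), (min_le_right _ _).trans (min_le_right _ _)⟩
  have b0 := Metric.ball_subset_ball (x := t0) hρ0
  have b1 := Metric.ball_subset_ball (x := t0) hρr1
  have b2 := Metric.ball_subset_ball (x := t0) hρr2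
  have hρρ4 : ρ ≤ ρ4 := hρ0.trans hr04
  have s4 := Metric.ball_subset_ball (x := t0) hρρ4
  have hτ : ∀ t ∈ Metric.ball t0 ρ, (starRingEnd ℂ) (χ t) ∈ Metric.ball t0 ρ4 := fun t ht => (hR0 t (b0 ht)).1
  have hRf : ∀ t ∈ Metric.ball t0 ρ, f0 t + (starRingEnd ℂ) (f0 ((starRingEnd ℂ) (χ t))) = 0 :=
    fun t ht => (hR2 t (b2 ht)).2
  have hRgj : ∀ j, ∀ t ∈ Metric.ball t0 ρ, g j t + (starRingEnd ℂ) (g j ((starRingEnd ℂ) (χ t))) = 0 := by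
    intro j t ht
    match j with
    | 0 => exact (hR0 t (b0 ht)).2
    | 1 => exact (hR1 t (b1 ht)).2
  have hf'ne : ∀ t ∈ Metric.ball t0 ρ2, f' t ≠ 0 := by
    intro t ht
    rw [hf'd]
    exact (hloc t ht).2.2.2.2.1
  -- k
  obtain ⟨k, hkd⟩ : ∃ k : Fin 2 → ℂ → ℂ, k = fun j t => g' j t / f' t := ⟨_, rfl⟩
  have hkc : ∀ j, ∀ t ∈ Metric.ball t0 ρ, k j t = (starRingEnd ℂ) (k j ((starRingEnd ℂ) (χ t))) := by
    intro j t ht
    rw [hkd]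
    exact w1_kconj (fun t ht => hf t (s42 ht)) (fun t ht => hg j t (s42 ht)) (fun t ht => hf'ne t (s42 ht)) hρρ4
      (hχd.mono s43) hτ hRf (hRgj j) t ht
  have hfix : ∀ t ∈ Metric.ball t0 ρ, (f0 t).re = 0 → (starRingEnd ℂ) (χ t) = t := by
    intro t ht h
    rw [hχc t (s43 (s4 ht)) h, Complex.conj_conj]
  have hz : ∀ j, ∀ t ∈ Metric.ball t0 ρ, (f0 t).re = 0 → (g j t).re = 0 := by
    intro j t ht h
    have e1 := hRgj j t ht
    rw [hfix t ht h] at e1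
    have e2 := congrArg Complex.re e1
    simp only [Complex.add_re, Complex.conj_re, Complex.zero_re] at e2
    linarith
  have hkre : ∀ j, ∀ t ∈ Metric.ball t0 ρ, (f0 t).re = 0 → ((k j t).re : ℂ) = k j t := by
    intro j t ht h
    have e1 := hkc j t ht
    rw [hfix t ht h] at e1
    exact (Complex.conj_eq_iff_re.1 e1.symm)
  have hΛ : ∀ i, ∀ t ∈ Metric.ball t0 ρ, (f0 t).re = 0 → w6_L ℓ χ i t = (LY c d t i : ℂ) := by
    intro i t ht h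
    unfold w6_L
    rw [hfix t ht h, ← ((hloc t (s42 (s4 ht))).1 i).2.2, Complex.add_conj]
    push_cast
    ring
  -- star
  have hstar : ∀ q ∈ S.Sup, q.2 ∈ Metric.ball t0 ρ → ‖q.1 - x0‖ < η → ∀ j,
      dt (M1 j) (LY c d q.2) = - (k j q.2).re * dt u1 (LY c d q.2) := by
    intro q hq h2 h1 j
    have h22 := s42 (s4 h2)
    have hO : {x : ℂ × ℂ | x.2 ∈ Metric.ball t0 ρ2 ∧ ‖x.1 - x0‖ < η} ∈ 𝓝 q := by
      refine Filter.inter_mem ((continuous_snd.tendsto q) (Metric.isOpen_ball.mem_nhds h22)) ?_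
      have h3 : Continuous fun q : ℂ × ℂ => ‖q.1 - x0‖ := by fun_prop
      exact (h3.tendsto q).eventually (gt_mem_nhds h1)
    have hfa : HasStrictDerivAt f0 (f' q.2) q.2 := by
      have e1 : DifferentiableOn ℂ f0 (Metric.ball t0 ρ2) := fun t ht =>
        (hf t ht).differentiableAt.differentiableWithinAt
      have e2 := (w1_an e1 q.2 h22).hasStrictDerivAt
      rwa [(hf q.2 h22).deriv] at e2
    have hga : HasStrictDerivAt (g j) (g' j q.2) q.2 := by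
      have e1 : DifferentiableOn ℂ (g j) (Metric.ball t0 ρ2) := fun t ht =>
        (hg j t ht).differentiableAt.differentiableWithinAt
      have e2 := (w1_an e1 q.2 h22).hasStrictDerivAt
      rwa [(hg j q.2 h22).deriv] at e2
    have h4 := star S hc hε0 hε hb1 hb2 hq (fun i => ((hloc q.2 h22).1 i).1) hfa hga (hf'ne q.2 h22)
      (Filter.eventually_of_mem (Metric.isOpen_ball.mem_nhds h22) hfre) j hO
      (hG.mono fun n hGn σ hσ => by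
        have e1 : S.X n σ = ξ (S.t n σ) := hξu _ (Metric.ball_subset_ball hρ21 hσ.1) _ hσ.2 (hGn σ)
        rw [hgre j _ hσ.1, ← e1, hrr n σ j]
        ring)
      (Filter.eventually_of_mem (Metric.isOpen_ball.mem_nhds h2) (hz j))
    rw [hkd]
    exact h4
  -- k is algebraic
  have hball4 : ∀ t ∈ Metric.ball t0 ρ4, ∀ i, t ≠ d i := fun t ht i => ((hloc t (s42 ht)).1 i).1
  have hξA : Alg t0 ρ4 ξ := ⟨hξd.mono ((s42).trans (Metric.ball_subset_ball hρ21)), G, hG0,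
    fun t ht => hξG t (Metric.ball_subset_ball hρ21 (s42 ht))⟩
  have hξ'A : Alg t0 ρ4 (fun t => deriv ξ t) := Alg.deriv hρ4 hξA
  have hdlA : ∀ j, Alg t0 ρ4 (w1_dl ξ j) := by
    intro j
    match j with
    | 0 =>
      exact w1_congr (Alg.mul hρ4 hξ'A (Alg.inv hρ4 hξA fun t ht => (hloc t (s42 ht)).2.1)) fun t _ =>
        div_eq_mul_inv _ _
    | 1 =>
      refine w1_congr (Alg.mul hρ4 (w1_cmul hρ4 hξ'A (-1)) (Alg.inv hρ4 (w1_sub hρ4 (Alg.const hρ4 1) hξA)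
        fun t ht => sub_ne_zero.2 (hloc t (s42 ht)).2.2.1.symm)) fun t _ => ?_
      show - deriv ξ t / (1 - ξ t) = _
      rw [div_eq_mul_inv, neg_one_mul]
  have hpq : ∀ P Q : Polynomial ℂ, (∀ t ∈ Metric.ball t0 ρ4, Q.eval t ≠ 0) →
      Alg t0 ρ4 (fun t => P.eval t / Q.eval t) := fun P Q hQ =>
    w1_congr (Alg.mul hρ4 (d2_poly hρ4 P) (Alg.inv hρ4 (d2_poly hρ4 Q) hQ)) fun _ _ => div_eq_mul_inv _ _
  have hdcA : ∀ j, Alg t0 ρ4 (w6_dc A B C j) := by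
    intro j
    have n3 := hpq (derivative C) C fun t ht => (hloc t (s42 ht)).2.2.2.2.2.1.2.2
    match j with
    | 0 => exact w1_sub hρ4 (hpq (derivative A) A fun t ht => (hloc t (s42 ht)).2.2.2.2.2.1.1) n3
    | 1 => exact w1_sub hρ4 (hpq (derivative B) B fun t ht => (hloc t (s42 ht)).2.2.2.2.2.1.2.1) n3
  have hkA : ∀ j, Alg t0 ρ4 (k j) := by
    intro j
    refine w1_congr (Alg.mul hρ4 (w1_sub hρ4 (w1_sub hρ4 (hdlA j) (w6_rat hρ4 (v := M' j) hball4)) (hdcA j))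
      (Alg.inv hρ4 (w6_rat hρ4 (v := u') hball4) fun t ht => (hloc t (s42 ht)).2.2.2.2.1)) fun t _ => ?_
    rw [hkd, hg'd, hf'd]
    exact div_eq_mul_inv _ _
  -- relations between the continuations
  have hLd := w6_L_deriv hρρ4 (fun i t ht => ((hloc t (s42 ht)).1 i).2.1) (hχd.mono (s4.trans s43)) hτ
  have hLD : ∀ i, DifferentiableOn ℂ (w6_L ℓ χ i) (Metric.ball t0 ρ) := fun i t ht =>
    (hLd i t ht).differentiableAt.differentiableWithinAt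
  have hΛdt : ∀ v : Fin m → ℝ, ∀ t ∈ Metric.ball t0 ρ, (f0 t).re = 0 →
      ∑ i, (v i : ℂ) * w6_L ℓ χ i t = (dt v (LY c d t) : ℂ) := by
    intro v t ht h
    unfold dt
    push_cast
    exact Finset.sum_congr rfl fun i _ => by rw [hΛ i t ht h]
  have hpts : ∀ O ∈ 𝓝 t0, ∃ q ∈ S.Sup, q.2 ∈ O ∧ q.2 ≠ t0 ∧ ‖q.1 - x0‖ < η ∧ q.2 ∈ Metric.ball t0 ρ ∧
      (f0 q.2).re = 0 := by
    intro O hO
    obtain ⟨q, q1, q2, q3, q4⟩ := hacc (O ∩ Metric.ball t0 ρ) (Filter.inter_mem hO (Metric.ball_mem_nhds t0 hρ))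
    exact ⟨q, q1, q2.1, q3, q4, q2.2, (hpt q q1 (s42 (s4 q2.2)) q4).2.1⟩
  have hrel1 : ∀ t ∈ Metric.ball t0 ρ, ∑ i, (u' i : ℂ) * w6_L ℓ χ i t = 0 := by
    refine w1_ident hρ (DifferentiableOn.fun_sum fun i _ => (hLD i).const_mul _) fun O hO => ?_
    obtain ⟨q, q1, q2, q3, q4, q5, q6⟩ := hpts O hO
    refine ⟨q.2, q2, q3, ?_⟩
    rw [hΛdt u' q.2 q5 q6, ← hfre q.2 (s42 (s4 q5)), q6, Complex.ofReal_zero]
  have hrel2 : ∀ j, ∀ t ∈ Metric.ball t0 ρ, ∑ i, (M1 j i : ℂ) * w6_L ℓ χ i t +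
      k j t * ∑ i, (u1 i : ℂ) * w6_L ℓ χ i t = 0 := by
    intro j
    refine w1_ident hρ ((DifferentiableOn.fun_sum fun i _ => (hLD i).const_mul _).fun_add
      ((((hkA j).mono s4).1).fun_mul (DifferentiableOn.fun_sum fun i _ => (hLD i).const_mul _))) fun O hO => ?_
    obtain ⟨q, q1, q2, q3, q4, q5, q6⟩ := hpts O hO
    refine ⟨q.2, q2, q3, ?_⟩
    rw [hΛdt (M1 j) q.2 q5 q6, hΛdt u1 q.2 q5 q6, hstar q q1 q5 q4 j, ← hkre j q.2 q5 q6]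
    push_cast
    rw [Complex.ofReal_re]
    ring
  have hv : ∀ v : Fin m → ℝ, LinearIndependent ℝ ![u', v] →
      ¬ ∀ t ∈ Metric.ball t0 ρ, ∑ i, (v i : ℂ) * w6_L ℓ χ i t = 0 := by
    intro v hi h
    have hfin := hH u' v hi
    obtain ⟨q, q1, q2, q3, q4, q5, q6⟩ := hpts (({t : ℂ | (∀ i, t ≠ d i) ∧ dt u' (LY c d t) = 0 ∧
      dt v (LY c d t) = 0} \ {t0})ᶜ) ((hfin.sdiff).isClosed.isOpen_compl.mem_nhds (by simp))
    apply q2
    refine ⟨⟨fun i => ((hloc q.2 (s42 (s4 q5))).1 i).1, ?_, ?_⟩, q3⟩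
    · rw [← hfre q.2 (s42 (s4 q5))]; exact q6
    · have e1 := h q.2 q5
      rw [hΛdt v q.2 q5 q6] at e1
      exact_mod_cast e1
  have hu10 : u1 ≠ 0 := by
    intro h
    apply hne
    refine ⟨h, ?_⟩
    funext j
    have e1 : ¬ LinearIndependent ℝ ![u', M1 j] := by
      intro hi
      refine hv (M1 j) hi fun t ht => ?_
      have e2 := hrel2 j t ht
      rw [h] at e2
      simpa using e2
    obtain ⟨s, hs⟩ := w6_indep hu0 e1
    have e3 := L2 j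
    rw [h, hs, w6_dt_smul, w6_dt_zero_r, hu1, mul_one, add_zero] at e3
    rw [hs, e3, zero_smul]
    rfl
  have hind : LinearIndependent ℝ ![u', u1] := w6_indep2 hu1 hu10 L1
  have hconst : ∀ j, ∀ t ∈ Metric.ball t0 ρ, k j t = k j t0 := fun j =>
    w6_const hρ hρρ4 (fun i t ht => ⟨((hloc t (s42 ht)).1 i).1, ((hloc t (s42 ht)).1 i).2.1⟩)
      (hχd.mono (s4.trans s43)) hτ (hkA j) (hkc j) (hrel2 j) (hv u1 hind)
  refine ⟨fun j => (k j t0).re, t0, ρ, ξ, hρ, hξd.mono ((s4.trans s42).trans (Metric.ball_subset_ball hρ21)),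
    ?_, ?_⟩
  · intro t ht
    have ht2 := s42 (s4 ht)
    obtain ⟨l1, l2, l3, l4, l5, l6, l7⟩ := hloc t ht2
    have hfin : ∀ j, w1_dl ξ j t = ∑ i, ((M' j i + (k j t0).re * u' i : ℝ) : ℂ) / (t - d i) + w6_dc A B C j t := by
      intro j
      have e1 := hconst j t ht
      rw [← hkre j t0 (Metric.mem_ball_self hρ) hf00, hkd] at e1
      simp only at e1
      rw [div_eq_iff (hf'ne t ht2), hg'd, hf'd] at e1
      simp only at e1
      have e2 : ∑ i, ((M' j i + (k j t0).re * u' i : ℝ) : ℂ) / (t - d i) =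
          ∑ i, (M' j i : ℂ) / (t - d i) + ((k j t0).re : ℂ) * ∑ i, (u' i : ℂ) / (t - d i) := by
        rw [Finset.mul_sum, ← Finset.sum_add_distrib]
        exact Finset.sum_congr rfl fun i _ => by push_cast; ring
      rw [e2, hkd, hg'd, hf'd]
      linear_combination e1
    exact ⟨fun i => (l1 i).1, (hrf t ht2).1, (hrf t ht2).2, l2, l3, hfin 0, hfin 1⟩
  · have h1 : {q : ℂ × ℂ | q.2 ∈ Metric.ball t0 ρ ∧ ‖q.1 - x0‖ < η} ∈ 𝓝 (x0, t0) := by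
      refine Filter.inter_mem ((continuous_snd.tendsto (x0, t0)) (Metric.ball_mem_nhds t0 hρ)) ?_
      have h2 : Continuous fun q : ℂ × ℂ => ‖q.1 - x0‖ := by fun_prop
      exact (h2.tendsto (x0, t0)).eventually (gt_mem_nhds (by simpa using hη))
    filter_upwards [hp _ h1, hG] with n hn hGn
    obtain ⟨σ, q1, q2⟩ := hn
    exact ⟨σ, q1, hξu _ (Metric.ball_subset_ball hρ21 (s42 (s4 q1))) _ q2 (hGn σ)⟩

end Pool.Agent.Z6
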