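import Pool.Agent.Z6.E2
import Pool.Agent.Z6.E4
import Pool.Agent.Z6.E5
import Pool.Agent.Z6.W1
import Pool.Agent.Z5.E6

namespace Pool.Agent.Z6

open Pool.Agent.ZL2 Filter Topology
open Pool.Agent.Z5 (fr Gen ev2)

variable {F : Type} [Field F] [NumberField F] [Algebra F ℂ] {m : ℕ} {A B C : Polynomial F} {c d : Fin m → F}

theorem e6_norm {v : Fin m → ℝ} (h : dt v v = 1) : ‖v‖ ≤ 1 := by
  rw [pi_norm_le_iff_of_nonneg zero_le_one]
  intro i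
  rw [Real.norm_eq_abs, abs_le_one_iff_mul_self_le_one, ← h]
  unfold dt
  exact Finset.single_le_sum (f := fun i => v i * v i) (fun j _ => mul_self_nonneg (v j)) (Finset.mem_univ i)

/-- Row Z6-E6. As `Z5.ArM.main`. -/
theorem ArM.main (S : ArM F A B C c d) (U : Ultrafilter ℕ) (hU : (U : Filter ℕ) ≤ cofinite)
    (hX : Function.Injective (fun n => S.j n (S.X n)) ∨ ∃ x : F, ∀ n, S.X n = algebraMap F (S.K n) x) :
    (∃ (u' : Fin m → ℝ) (M' : Fin 2 → Fin m → ℝ), ∀ᶠ n in (U : Filter ℕ), S.u n = u' ∧ S.M n = M') ∨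
    ∃ (k : Fin 2 → Fin m → ℤ) (e : ℕ), 0 < e ∧ ∀ᶠ n in (U : Filter ℕ),
      (S.X n / S.a n * ∏ i, S.y n i ^ (- k 0 i)) ^ e = 1 ∧
      ((1 - S.X n) / S.b n * ∏ i, S.y n i ^ (- k 1 i)) ^ e = 1 := by
  obtain ⟨A0, hA⟩ := S.bdd U hU
  obtain ⟨u', hu'⟩ := Pool.Agent.Z5.e6_lim U S.u (R := 1) (Eventually.of_forall fun n => e6_norm (S.hu n))
  obtain ⟨M', hM'⟩ := Pool.Agent.Z5.e6_lim U S.M (R := |A0|) (by
    have hA2 : ∀ᶠ n in (U : Filter ℕ), ∀ j i, |S.M n j i| ≤ A0 := hA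
    refine hA2.mono fun n hn => ?_
    rw [pi_norm_le_iff_of_nonneg (abs_nonneg _)]
    intro j
    rw [pi_norm_le_iff_of_nonneg (abs_nonneg _)]
    intro i
    exact (hn j i).trans (le_abs_self _))
  by_cases h : ∀ᶠ n in (U : Filter ℕ), S.u n = u' ∧ S.M n = M'
  · exact Or.inl ⟨u', M', h⟩
  right
  have hnc : ∀ᶠ n in (U : Filter ℕ), ¬ (S.u n = u' ∧ S.M n = M') := Ultrafilter.eventually_not.2 h
  obtain ⟨L, f, hf, hev⟩ := S.exists_eq U hU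
  obtain ⟨G, E, hG0, hE, hsep, hG⟩ := S.toAr.exists_G U hU f hf hev
  have hinj := (algebraMap F ℂ).injective
  obtain ⟨κ, t0, ρ, ξ, hρ, hξ, hode, hs⟩ := W1 (by have := S.hm; omega)
    ((Polynomial.map_ne_zero_iff hinj).2 S.hA) ((Polynomial.map_ne_zero_iff hinj).2 S.hB)
    ((Polynomial.map_ne_zero_iff hinj).2 S.hC) (S.sq U hU)
    (fun i => (map_ne_zero _).2 (S.hc i)) (hinj.comp S.hd) S.hH hA hu' hM' G hG0 hG hE hsep hnc
  exact S.end_beta hU hX hu' hM' hρ hξ hode hs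

end Pool.Agent.Z6
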