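import Pool.Agent.ZL2.Geom4
import Pool.Agent.Z5.G1

open MvPolynomial Pool.Agent.MP_dd1803_nt Pool.Agent.ZPA

namespace Pool.Agent.Z6

variable {m : ℕ}

/-- The pencil of lines `A(t) x_0 + B(t) x_1 = C(t)` over the line `y_i = c_i (t - d_i)`. -/
def TP (A B C : Polynomial ℂ) (c d : Fin m → ℂ) : Set (Fin 2 ⊕ Fin m → ℂˣ) :=
  {x | ∃ t : ℂ, (∀ i, (x (Sum.inr i) : ℂ) = c i * (t - d i)) ∧
    A.eval t * (x (Sum.inl 0) : ℂ) + B.eval t * (x (Sum.inl 1) : ℂ) = C.eval t}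

variable {A B C : Polynomial ℂ} {c d : Fin m → ℂ}

/-! Helper lemmas. -/

theorem tp1_aeval {κ : Type} (Q : Polynomial ℂ) (T : MvPolynomial κ ℂ) (x : κ → ℂ) :
    aeval x (Polynomial.aeval T Q) = Q.eval (aeval x T) := by
  rw [← Polynomial.aeval_algHom_apply, Polynomial.coe_aeval_eq_eval]

/-- The parameter as a polynomial. -/
noncomputable def tp1T (c d : Fin m → ℂ) (i0 : Fin m) : MvPolynomial (Fin 2 ⊕ Fin m) ℂ :=
  MvPolynomial.C (c i0)⁻¹ * MvPolynomial.X (Sum.inr i0) + MvPolynomial.C (d i0)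

theorem tp1T_val (c d : Fin m → ℂ) (i0 : Fin m) (x : Fin 2 ⊕ Fin m → ℂˣ) :
    aeval (co x) (tp1T c d i0) = (c i0)⁻¹ * (x (Sum.inr i0) : ℂ) + d i0 := by
  unfold tp1T
  rw [map_add, map_mul, aeval_C, aeval_C, aeval_X]
  rfl

theorem tp1T_eq (hc : ∀ i, c i ≠ 0) (i0 : Fin m) {x : Fin 2 ⊕ Fin m → ℂˣ} {t : ℂ}
    (h : ∀ i, (x (Sum.inr i) : ℂ) = c i * (t - d i)) : (c i0)⁻¹ * (x (Sum.inr i0) : ℂ) + d i0 = t := by
  rw [h i0, inv_mul_cancel_left₀ (hc i0)]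
  ring

theorem tp1_iff (hc : ∀ i, c i ≠ 0) (i0 : Fin m) (x : Fin 2 ⊕ Fin m → ℂˣ) :
    x ∈ TP A B C c d ↔
      (∀ i, c i0 * (x (Sum.inr i) : ℂ) - c i * (x (Sum.inr i0) : ℂ) - c i0 * c i * (d i0 - d i) = 0) ∧
      A.eval ((c i0)⁻¹ * (x (Sum.inr i0) : ℂ) + d i0) * (x (Sum.inl 0) : ℂ) +
        B.eval ((c i0)⁻¹ * (x (Sum.inr i0) : ℂ) + d i0) * (x (Sum.inl 1) : ℂ) =
        C.eval ((c i0)⁻¹ * (x (Sum.inr i0) : ℂ) + d i0) := by
  constructor
  · rintro ⟨t, ht, hl⟩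
    refine ⟨fun i => ?_, ?_⟩
    · rw [ht i, ht i0]; ring
    · rw [tp1T_eq hc i0 ht]
      exact hl
  · rintro ⟨h1, h2⟩
    refine ⟨_, fun i => ?_, h2⟩
    have h3 := h1 i
    have h4 := hc i0
    field_simp
    linear_combination h3

/-- The equations. -/
noncomputable def tp1P (A B C : Polynomial ℂ) (c d : Fin m → ℂ) (i0 i : Fin m) : MvPolynomial (Fin 2 ⊕ Fin m) ℂ :=
  if i = i0 then Polynomial.aeval (tp1T c d i0) A * MvPolynomial.X (Sum.inl 0) +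
    Polynomial.aeval (tp1T c d i0) B * MvPolynomial.X (Sum.inl 1) - Polynomial.aeval (tp1T c d i0) C
  else MvPolynomial.C (c i0) * MvPolynomial.X (Sum.inr i) - MvPolynomial.C (c i) * MvPolynomial.X (Sum.inr i0) -
    MvPolynomial.C (c i0 * c i * (d i0 - d i))

theorem tp1_mem (hc : ∀ i, c i ≠ 0) (i0 : Fin m) (x : Fin 2 ⊕ Fin m → ℂˣ) :
    x ∈ TP A B C c d ↔ ∀ i, aeval (co x) (tp1P A B C c d i0 i) = 0 := by
  have h0 : aeval (co x) (tp1P A B C c d i0 i0) =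
      A.eval ((c i0)⁻¹ * (x (Sum.inr i0) : ℂ) + d i0) * (x (Sum.inl 0) : ℂ) +
        B.eval ((c i0)⁻¹ * (x (Sum.inr i0) : ℂ) + d i0) * (x (Sum.inl 1) : ℂ) -
        C.eval ((c i0)⁻¹ * (x (Sum.inr i0) : ℂ) + d i0) := by
    unfold tp1P
    rw [if_pos rfl, map_sub, map_add, map_mul, map_mul, aeval_X, aeval_X, tp1_aeval, tp1_aeval, tp1_aeval, tp1T_val]
    rfl
  have hi : ∀ i, i ≠ i0 → aeval (co x) (tp1P A B C c d i0 i) =
      c i0 * (x (Sum.inr i) : ℂ) - c i * (x (Sum.inr i0) : ℂ) - c i0 * c i * (d i0 - d i) := by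
    intro i hi
    unfold tp1P
    rw [if_neg hi, map_sub, map_sub, map_mul, map_mul, aeval_X, aeval_X, aeval_C, aeval_C, aeval_C]
    rfl
  rw [tp1_iff hc i0]
  constructor
  · rintro ⟨h1, h2⟩ i
    by_cases hi0 : i = i0
    · subst hi0
      rw [h0, h2, sub_self]
    · rw [hi i hi0]
      exact h1 i
  · intro h
    refine ⟨fun i => ?_, ?_⟩
    · by_cases hi0 : i = i0
      · subst hi0
        ring
      · have := h i
        rw [hi i hi0] at this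
        exact this
    · have := h i0
      rw [h0] at this
      linear_combination this

theorem tp1_ex {Q : Polynomial ℂ} (hQ : Q ≠ 0) (d : Fin m → ℂ) : {t : ℂ | Q.eval t ≠ 0 ∧ ∀ i, t ≠ d i}.Infinite := by
  have h1 : ({t : ℂ | Q.eval t = 0} ∪ Set.range d).Finite := by
    refine Set.Finite.union ?_ (Set.finite_range d)
    refine (Q.roots.toFinset.finite_toSet).subset fun t ht => ?_
    rw [Finset.mem_coe, Multiset.mem_toFinset, Polynomial.mem_roots hQ]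
    exact ht
  refine h1.infinite_compl.mono fun t ht => ?_
  rw [Set.mem_compl_iff, Set.mem_union, not_or] at ht
  exact ⟨ht.1, fun i h => ht.2 ⟨i, h.symm⟩⟩

/-- Units. -/
noncomputable def tp1u (v : ℂ) : ℂˣ := if h : v = 0 then 1 else Units.mk0 v h

theorem tp1u_val {v : ℂ} (h : v ≠ 0) : (tp1u v : ℂ) = v := by
  unfold tp1u
  rw [dif_neg h, Units.val_mk0]

theorem tp1_congr {κ : Type} {S : Set (κ → ℂˣ)} {f g : (κ → ℂˣ) → ℂ} (h : RatOn S f) (he : ∀ x ∈ S, g x = f x) :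
    RatOn S g := by
  obtain ⟨a, b, h⟩ := h
  exact ⟨a, b, fun x hx => ⟨(h x hx).1, by rw [he x hx]; exact (h x hx).2⟩⟩

/-- The parametrisation `(s, y) ↦ (s, (C - A s) / B, c_i (t - d_i))`, `t = y / c_{i0} + d_{i0}`. -/
noncomputable def tp1phi (A B C : Polynomial ℂ) (c d : Fin m → ℂ) (i0 : Fin m) (z : Fin 2 → ℂˣ) : Fin 2 ⊕ Fin m → ℂˣ :=
  Sum.elim (fun i => if i = 0 then z 0 else
      tp1u ((C.eval ((c i0)⁻¹ * (z 1 : ℂ) + d i0) - A.eval ((c i0)⁻¹ * (z 1 : ℂ) + d i0) * (z 0 : ℂ)) *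
        (B.eval ((c i0)⁻¹ * (z 1 : ℂ) + d i0))⁻¹))
    (fun i => tp1u (c i * ((c i0)⁻¹ * (z 1 : ℂ) + d i0 - d i)))

/-- The parameter on the plane. -/
noncomputable def tp1S (c d : Fin m → ℂ) (i0 : Fin m) : MvPolynomial (Fin 2) ℂ :=
  MvPolynomial.C (c i0)⁻¹ * MvPolynomial.X 1 + MvPolynomial.C (d i0)

theorem tp1S_val (c d : Fin m → ℂ) (i0 : Fin m) (z : Fin 2 → ℂˣ) :
    aeval (co z) (tp1S c d i0) = (c i0)⁻¹ * (z 1 : ℂ) + d i0 := by
  unfold tp1S
  rw [map_add, map_mul, aeval_C, aeval_C, aeval_X]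
  rfl

/-- The polynomial whose zeros are excluded. -/
noncomputable def tp1h (A B C : Polynomial ℂ) (c d : Fin m → ℂ) (i0 : Fin m) : MvPolynomial (Fin 2) ℂ :=
  Polynomial.aeval (tp1S c d i0) B * (Polynomial.aeval (tp1S c d i0) C - Polynomial.aeval (tp1S c d i0) A *
    MvPolynomial.X 0) * ∏ i, (tp1S c d i0 - MvPolynomial.C (d i))

theorem tp1h_val (i0 : Fin m) (z : Fin 2 → ℂˣ) : aeval (co z) (tp1h A B C c d i0) =
    B.eval ((c i0)⁻¹ * (z 1 : ℂ) + d i0) * (C.eval ((c i0)⁻¹ * (z 1 : ℂ) + d i0) -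
      A.eval ((c i0)⁻¹ * (z 1 : ℂ) + d i0) * (z 0 : ℂ)) * ∏ i, ((c i0)⁻¹ * (z 1 : ℂ) + d i0 - d i) := by
  unfold tp1h
  rw [map_mul, map_mul, map_sub, map_mul, map_prod, tp1_aeval, tp1_aeval, tp1_aeval, tp1S_val, aeval_X]
  simp only [map_sub, tp1S_val, aeval_C]
  rfl

theorem tp1_dom (i0 : Fin m) (z : Fin 2 → ℂˣ) : z ∈ Set.univ \ zp (tp1h A B C c d i0) ↔
    B.eval ((c i0)⁻¹ * (z 1 : ℂ) + d i0) ≠ 0 ∧ C.eval ((c i0)⁻¹ * (z 1 : ℂ) + d i0) -
      A.eval ((c i0)⁻¹ * (z 1 : ℂ) + d i0) * (z 0 : ℂ) ≠ 0 ∧ ∀ i, (c i0)⁻¹ * (z 1 : ℂ) + d i0 - d i ≠ 0 := by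
  rw [Set.mem_sdiff, mem_zp, tp1h_val]
  simp only [Set.mem_univ, true_and, mul_eq_zero, not_or, Finset.prod_eq_zero_iff, Finset.mem_univ, not_exists,
    and_assoc]

theorem tp1_rat (hc : ∀ i, c i ≠ 0) (i0 : Fin m) :
    RatMap (Set.univ \ zp (tp1h A B C c d i0)) (tp1phi A B C c d i0) := by
  have hev : ∀ Q : Polynomial ℂ, RatOn (Set.univ \ zp (tp1h A B C c d i0))
      (fun z => Q.eval ((c i0)⁻¹ * (z 1 : ℂ) + d i0)) := fun Q =>
    tp1_congr (ratOn_poly _ (Polynomial.aeval (tp1S c d i0) Q)) fun z _ => by rw [tp1_aeval, tp1S_val]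
  rintro (i | i)
  · fin_cases i
    · exact ratOn_coord _ 0
    · refine tp1_congr (((hev C).sub ((hev A).mul (ratOn_coord _ 0))).mul ((hev B).inv fun z hz =>
        ((tp1_dom i0 z).1 hz).1)) fun z hz => ?_
      obtain ⟨h1, h2, h3⟩ := (tp1_dom i0 z).1 hz
      exact tp1u_val (mul_ne_zero h2 (inv_ne_zero h1))
  · refine tp1_congr ((ratOn_const _ (c i)).mul ((ratOn_poly _ (tp1S c d i0)).sub (ratOn_const _ (d i)))) fun z hz => ?_
    obtain ⟨h1, h2, h3⟩ := (tp1_dom i0 z).1 hz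
    rw [tp1S_val]
    exact tp1u_val (mul_ne_zero (hc i) (h3 i))

theorem tp1_half (hc : ∀ i, c i ≠ 0) (i0 : Fin m) (hB : B ≠ 0) (hC : C ≠ 0) :
    PIrr {x | x ∈ TP A B C c d ∧ B.eval ((c i0)⁻¹ * (x (Sum.inr i0) : ℂ) + d i0) ≠ 0} := by
  have h1 : PIrr (Set.univ \ zp (tp1h A B C c d i0)) := by
    refine PIrr.diff (irr_univ.pirr) (zclosed_zp _) ?_
    intro hsub
    obtain ⟨t, ht1, ht2⟩ := (tp1_ex (mul_ne_zero hB hC) d).nonempty
    rw [Polynomial.eval_mul, mul_ne_zero_iff] at ht1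
    have hex : ∃ s : ℂ, s ≠ 0 ∧ C.eval t - A.eval t * s ≠ 0 := by
      by_contra hcon
      push Not at hcon
      have e1 := hcon 1 one_ne_zero
      have e2 := hcon 2 two_ne_zero
      exact ht1.2 (by linear_combination 2 * e1 - e2)
    obtain ⟨s, hs, hs1⟩ := hex
    have hy : c i0 * (t - d i0) ≠ 0 := mul_ne_zero (hc i0) (sub_ne_zero.2 (ht2 i0))
    have hz : (![Units.mk0 s hs, Units.mk0 _ hy] : Fin 2 → ℂˣ) ∈ Set.univ \ zp (tp1h A B C c d i0) := by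
      rw [tp1_dom]
      have e : (c i0)⁻¹ * (((![Units.mk0 s hs, Units.mk0 _ hy] : Fin 2 → ℂˣ) 1 : ℂˣ) : ℂ) + d i0 = t := by
        show (c i0)⁻¹ * (c i0 * (t - d i0)) + d i0 = t
        rw [inv_mul_cancel_left₀ (hc i0)]
        ring
      rw [e]
      exact ⟨ht1.1, hs1, fun i => sub_ne_zero.2 (ht2 i)⟩
    exact hz.2 (hsub (Set.mem_univ _))
  have h2 := h1.image (tp1_rat (A := A) (B := B) (C := C) (d := d) hc i0)
  have h3 : {x | x ∈ TP A B C c d ∧ B.eval ((c i0)⁻¹ * (x (Sum.inr i0) : ℂ) + d i0) ≠ 0} =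
      tp1phi A B C c d i0 '' (Set.univ \ zp (tp1h A B C c d i0)) := by
    ext x
    constructor
    · rintro ⟨⟨t, ht, hl⟩, hx⟩
      have e := tp1T_eq hc i0 ht
      have htd : ∀ i, t - d i ≠ 0 := by
        intro i h
        have := ht i
        rw [h, mul_zero] at this
        exact (x _).ne_zero this
      refine ⟨![x (Sum.inl 0), x (Sum.inr i0)], ?_, ?_⟩
      · rw [tp1_dom]
        show B.eval ((c i0)⁻¹ * (x (Sum.inr i0) : ℂ) + d i0) ≠ 0 ∧ C.eval ((c i0)⁻¹ * (x (Sum.inr i0) : ℂ) + d i0) -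
          A.eval ((c i0)⁻¹ * (x (Sum.inr i0) : ℂ) + d i0) * (x (Sum.inl 0) : ℂ) ≠ 0 ∧
            ∀ i, (c i0)⁻¹ * (x (Sum.inr i0) : ℂ) + d i0 - d i ≠ 0
        refine ⟨hx, ?_, ?_⟩
        · rw [e] at hx ⊢
          rw [← hl, add_sub_cancel_left]
          exact mul_ne_zero hx (x _).ne_zero
        · rw [e]
          exact htd
      · funext i
        apply Units.ext
        rcases i with i | i
        · fin_cases i
          · rfl
          · show (tp1u ((C.eval ((c i0)⁻¹ * (x (Sum.inr i0) : ℂ) + d i0) -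
              A.eval ((c i0)⁻¹ * (x (Sum.inr i0) : ℂ) + d i0) * (x (Sum.inl 0) : ℂ)) *
              (B.eval ((c i0)⁻¹ * (x (Sum.inr i0) : ℂ) + d i0))⁻¹) : ℂ) = (x (Sum.inl 1) : ℂ)
            rw [e] at hx ⊢
            have e2 : C.eval t - A.eval t * (x (Sum.inl 0) : ℂ) = B.eval t * (x (Sum.inl 1) : ℂ) := by
              linear_combination - hl
            rw [e2, tp1u_val (mul_ne_zero (mul_ne_zero hx (x _).ne_zero) (inv_ne_zero hx))]
            field_simp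
        · show (tp1u (c i * ((c i0)⁻¹ * (x (Sum.inr i0) : ℂ) + d i0 - d i)) : ℂ) = (x (Sum.inr i) : ℂ)
          rw [e, tp1u_val (mul_ne_zero (hc i) (htd i)), ht i]
    · rintro ⟨z, hz, rfl⟩
      obtain ⟨n1, n2, n3⟩ := (tp1_dom i0 z).1 hz
      have er : ∀ i, ((tp1phi A B C c d i0 z (Sum.inr i) : ℂˣ) : ℂ) = c i * ((c i0)⁻¹ * (z 1 : ℂ) + d i0 - d i) :=
        fun i => tp1u_val (mul_ne_zero (hc i) (n3 i))
      have e1 : ((tp1phi A B C c d i0 z (Sum.inl 1) : ℂˣ) : ℂ) = (C.eval ((c i0)⁻¹ * (z 1 : ℂ) + d i0) -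
        A.eval ((c i0)⁻¹ * (z 1 : ℂ) + d i0) * (z 0 : ℂ)) * (B.eval ((c i0)⁻¹ * (z 1 : ℂ) + d i0))⁻¹ :=
        tp1u_val (mul_ne_zero n2 (inv_ne_zero n1))
      have e0 : ((tp1phi A B C c d i0 z (Sum.inl 0) : ℂˣ) : ℂ) = (z 0 : ℂ) := rfl
      refine ⟨⟨(c i0)⁻¹ * (z 1 : ℂ) + d i0, er, ?_⟩, ?_⟩
      · rw [e0, e1]
        have hh : ∀ a b e s : ℂ, b ≠ 0 → a * s + b * ((e - a * s) * b⁻¹) = e := by
          intro a b e s hb
          field_simp
          ring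
        exact hh _ _ _ _ n1
      · rw [er, inv_mul_cancel_left₀ (hc i0)]
        rw [sub_add_cancel]
        exact n1
  rw [h3]
  exact h2

/-- The exchange of the two coordinates. -/
def tp1sw : Fin 2 ⊕ Fin m → Fin 2 ⊕ Fin m := Sum.map (fun i => if i = 0 then 1 else 0) id

theorem tp1_half' (hc : ∀ i, c i ≠ 0) (i0 : Fin m) (hA : A ≠ 0) (hC : C ≠ 0) :
    PIrr {x | x ∈ TP A B C c d ∧ A.eval ((c i0)⁻¹ * (x (Sum.inr i0) : ℂ) + d i0) ≠ 0} := by
  have h1 := (tp1_half (A := B) (B := A) (C := C) (d := d) hc i0 hA hC).image (ratMap_pull _ tp1sw)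
  have h2 : {x | x ∈ TP A B C c d ∧ A.eval ((c i0)⁻¹ * (x (Sum.inr i0) : ℂ) + d i0) ≠ 0} =
      pull tp1sw '' {x | x ∈ TP B A C c d ∧ A.eval ((c i0)⁻¹ * (x (Sum.inr i0) : ℂ) + d i0) ≠ 0} := by
    ext x
    constructor
    · rintro ⟨⟨t, ht, hl⟩, hx⟩
      refine ⟨pull tp1sw x, ⟨⟨t, ht, ?_⟩, hx⟩, ?_⟩
      · show B.eval t * (x (Sum.inl 1) : ℂ) + A.eval t * (x (Sum.inl 0) : ℂ) = C.eval t
        rw [add_comm]
        exact hl
      · funext i
        rcases i with i | i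
        · fin_cases i <;> rfl
        · rfl
    · rintro ⟨y, ⟨⟨t, ht, hl⟩, hx⟩, rfl⟩
      refine ⟨⟨t, ht, ?_⟩, hx⟩
      show A.eval t * (y (Sum.inl 1) : ℂ) + B.eval t * (y (Sum.inl 0) : ℂ) = C.eval t
      rw [add_comm]
      exact hl
  rw [h2]
  exact h1

/-- Points. -/
theorem tp1_pt (hc : ∀ i, c i ≠ 0) {s t : ℂ} (hs : s ≠ 0) (hB : B.eval t ≠ 0) (hs1 : C.eval t - A.eval t * s ≠ 0)
    (ht : ∀ i, t ≠ d i) :
    ∃ x ∈ TP A B C c d, (x (Sum.inl 0) : ℂ) = s ∧ (x (Sum.inl 1) : ℂ) = (C.eval t - A.eval t * s) / B.eval t ∧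
      ∀ i, (x (Sum.inr i) : ℂ) = c i * (t - d i) := by
  refine ⟨Sum.elim (fun i => if i = 0 then Units.mk0 s hs
      else Units.mk0 ((C.eval t - A.eval t * s) / B.eval t) (div_ne_zero hs1 hB))
    (fun i => Units.mk0 (c i * (t - d i)) (mul_ne_zero (hc i) (sub_ne_zero.2 (ht i)))), ⟨t, fun i => ?_, ?_⟩, ?_, ?_,
      fun i => ?_⟩
  · simp
  · simp only [Sum.elim_inl, if_true, one_ne_zero, if_false, Units.val_mk0]
    field_simp
    ring
  · simp
  · simp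
  · simp

theorem tp1_pt2 (hc : ∀ i, c i ≠ 0) (hA : A ≠ 0) (hB : B ≠ 0) (hC : C ≠ 0) :
    ∃ x ∈ TP A B C c d, ∃ t : ℂ, (∀ i, (x (Sum.inr i) : ℂ) = c i * (t - d i)) ∧ A.eval t ≠ 0 ∧ B.eval t ≠ 0 := by
  obtain ⟨t, ht1, ht2⟩ := (tp1_ex (mul_ne_zero (mul_ne_zero hA hB) hC) d).nonempty
  rw [Polynomial.eval_mul, Polynomial.eval_mul, mul_ne_zero_iff, mul_ne_zero_iff] at ht1
  have hex : ∃ s : ℂ, s ≠ 0 ∧ C.eval t - A.eval t * s ≠ 0 := by
    by_contra hcon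
    push Not at hcon
    have e1 := hcon 1 one_ne_zero
    have e2 := hcon 2 two_ne_zero
    exact ht1.2 (by linear_combination 2 * e1 - e2)
  obtain ⟨s, hs, hs1⟩ := hex
  obtain ⟨x, hx, -, -, h3⟩ := tp1_pt (A := A) (C := C) hc hs ht1.1.2 hs1 ht2
  exact ⟨x, hx, t, h3, ht1.1⟩

/-- Row Z6-G1. Compare `Z5/G1.lean`. `TP` is the zero set of `c_0 y_i - c_i y_0 - c_0 c_i (d_0 - d_i)` and of `A(t) x_0 + B(t) x_1 - C(t)` with `t = y_0 / c_0 + d_0` substituted (`0 < m`). -/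
theorem zclosed_TP (hm : 0 < m) (hc : ∀ i, c i ≠ 0) : ZClosed (TP A B C c d) := by
  refine ⟨Set.range (tp1P A B C c d ⟨0, hm⟩), ?_⟩
  ext x
  rw [tp1_mem hc ⟨0, hm⟩]
  simp only [Set.mem_ofPred_eq, Set.forall_mem_range, Pool.Agent.MP_dd1803_nt.aeval_eq_eval]

/-- `TP` is the closure of a rationally parametrised set: `(s, t) ↦ (s, (C(t) - A(t) s)/B(t), c_i (t - d_i))` on the open set where everything is defined and nonzero. POINTS OUTSIDE this open set: those with `B(t) = 0`. `hcop`: no `t` different from all `d_i` is a common zero of `A, B, C`. To see that such a point `P` (over `t*` with `B(t*) = 0`, so `A(t*) x_0 = C(t*)`, `A(t*) ≠ 0 ≠ C(t*)`) is in the closure: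
use near `t*` the other parametrisation `(t, x_1) ↦ ((C - B x_1)/A, x_1, ...)`. Best: two polynomials `p, q` with `p q = 0` on `TP`: restrict to the two open sets `{B ≠ 0}`, `{A ≠ 0}` of `TP`, both irreducible (images of open subsets of the plane) with nonempty intersection, and they cover `TP`. (Or algebraically: `A x_0 + B x_1 - C` is irreducible in `ℂ[t, 1/∏(t-d_i)][x_0, x_1]`.) -/
theorem irr_TP (hm : 0 < m) (hc : ∀ i, c i ≠ 0) (hA : A ≠ 0) (hB : B ≠ 0) (hC : C ≠ 0)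
    (hcop : ∀ t, (∀ i, t ≠ d i) → ¬ (A.eval t = 0 ∧ B.eval t = 0 ∧ C.eval t = 0)) : Irr (TP A B C c d) := by
  obtain ⟨x0, hx0, t0, ht0, hA0, hB0⟩ := tp1_pt2 (d := d) hc hA hB hC
  refine ⟨zclosed_TP hm hc, ⟨x0, hx0⟩, fun Z1 Z2 hZ1 hZ2 hZ => ?_⟩
  obtain ⟨i0, -⟩ : ∃ i0 : Fin m, i0 = ⟨0, hm⟩ := ⟨_, rfl⟩
  have P1 := tp1_half' (A := A) (B := B) (C := C) (d := d) hc i0 hA hC
  have P2 := tp1_half (A := A) (B := B) (C := C) (d := d) hc i0 hB hC
  have key : ∀ Z : Set (Fin 2 ⊕ Fin m → ℂˣ), ZClosed Z →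
      {x | x ∈ TP A B C c d ∧ B.eval ((c i0)⁻¹ * (x (Sum.inr i0) : ℂ) + d i0) ≠ 0} ⊆ Z → TP A B C c d ⊆ Z := by
    intro Z hZc h2
    have h1 : {x | x ∈ TP A B C c d ∧ A.eval ((c i0)⁻¹ * (x (Sum.inr i0) : ℂ) + d i0) ≠ 0} ⊆ Z := by
      have h3 : {x | x ∈ TP A B C c d ∧ A.eval ((c i0)⁻¹ * (x (Sum.inr i0) : ℂ) + d i0) ≠ 0} ⊆
          Z ∪ zp (Polynomial.aeval (tp1T c d i0) B) := by
        rintro x ⟨hx, -⟩
        by_cases hb : B.eval ((c i0)⁻¹ * (x (Sum.inr i0) : ℂ) + d i0) = 0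
        · right
          rw [mem_zp, tp1_aeval, tp1T_val]
          exact hb
        · exact Or.inl (h2 ⟨hx, hb⟩)
      rcases P1.subset_or hZc (zclosed_zp _) h3 with h4 | h4
      · exact h4
      · exfalso
        have e := tp1T_eq hc i0 ht0
        have h5 := h4 (show x0 ∈ _ from ⟨hx0, by rw [e]; exact hA0⟩)
        rw [mem_zp, tp1_aeval, tp1T_val, e] at h5
        exact hB0 h5
    intro x hx
    by_cases hb : B.eval ((c i0)⁻¹ * (x (Sum.inr i0) : ℂ) + d i0) = 0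
    · by_cases ha : A.eval ((c i0)⁻¹ * (x (Sum.inr i0) : ℂ) + d i0) = 0
      · exfalso
        obtain ⟨t, ht, hl⟩ := hx
        rw [tp1T_eq hc i0 ht] at ha hb
        refine hcop t (fun i h => ?_) ⟨ha, hb, ?_⟩
        · have := ht i
          rw [h, sub_self, mul_zero] at this
          exact (x _).ne_zero this
        · rw [← hl, ha, hb]
          ring
      · exact h1 ⟨hx, ha⟩
    · exact h2 ⟨hx, hb⟩
  have h3 : {x | x ∈ TP A B C c d ∧ B.eval ((c i0)⁻¹ * (x (Sum.inr i0) : ℂ) + d i0) ≠ 0} ⊆ Z1 ∪ Z2 :=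
    fun x hx => hZ hx.1
  rcases P2.subset_or hZ1 hZ2 h3 with h4 | h4
  · exact Or.inl (key Z1 hZ1 h4)
  · exact Or.inr (key Z2 hZ2 h4)

theorem tp1_basis (hc : ∀ i, c i ≠ 0) (i0 : Fin m) (hB : B ≠ 0) {Z : Set (Fin 2 ⊕ Fin m → ℂˣ)} (hZ : Irr Z)
    (h : Z ⊆ TP A B C c d) : td ℂ Z ≤ 2 := by
  classical
  have hP := vI_isPrime (k := ℂ) hZ.pirr
  have hne : Nontrivial (MvPolynomial (Fin 2 ⊕ Fin m) ℂ ⧸ vI ℂ Z) := inferInstance
  have hdom : IsDomain (MvPolynomial (Fin 2 ⊕ Fin m) ℂ ⧸ vI ℂ Z) := inferInstance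
  have hsm : ∀ (r : ℂ) (y : MvPolynomial (Fin 2 ⊕ Fin m) ℂ ⧸ vI ℂ Z), r • y = algebraMap ℂ _ r * y :=
    fun r y => Algebra.smul_def r y
  have hgen0 : ∀ s : Set (Fin 2 ⊕ Fin m), ∀ i ∈ s, gen ℂ Z i ∈ Algebra.adjoin ℂ (gen ℂ Z '' s) := fun s i hi =>
    Algebra.subset_adjoin ⟨_, hi, rfl⟩
  -- the coordinates `y_i` are affine functions of `y_{i0}`
  have hy : ∀ i, gen ℂ Z (Sum.inr i) = (c i0)⁻¹ • (c i • gen ℂ Z (Sum.inr i0) + (c i0 * c i * (d i0 - d i)) • 1) := by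
    intro i
    have h3 : (MvPolynomial.X (Sum.inr i) - (c i0)⁻¹ • (c i • MvPolynomial.X (Sum.inr i0) +
        (c i0 * c i * (d i0 - d i)) • 1) : MvPolynomial (Fin 2 ⊕ Fin m) ℂ) ∈ vI ℂ Z := by
      rw [mem_vI]
      intro y hy
      have h5 := ((tp1_iff hc i0 y).1 (h hy)).1 i
      rw [map_sub, map_smul, map_add, map_smul, map_smul, aeval_X, aeval_X, map_one, sub_eq_zero]
      simp only [co_apply, smul_eq_mul]
      have h6 := hc i0
      field_simp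
      linear_combination h5
    have h4 := Ideal.Quotient.eq_zero_iff_mem.mpr h3
    have h5 : Ideal.Quotient.mkₐ ℂ (vI ℂ Z) (MvPolynomial.X (Sum.inr i) - (c i0)⁻¹ • (c i • MvPolynomial.X (Sum.inr i0) +
        (c i0 * c i * (d i0 - d i)) • 1)) = 0 := h4
    rw [map_sub, map_smul, map_add, map_smul, map_smul, map_one, sub_eq_zero] at h5
    exact h5
  have hmk : ∀ Q : Polynomial ℂ, Ideal.Quotient.mkₐ ℂ (vI ℂ Z) (Polynomial.aeval (tp1T c d i0) Q) =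
      Polynomial.aeval ((c i0)⁻¹ • gen ℂ Z (Sum.inr i0) + d i0 • 1) Q := by
    intro Q
    rw [← Polynomial.aeval_algHom_apply]
    congr 1
    congr 1
    unfold tp1T
    rw [map_add, map_mul, ← MvPolynomial.algebraMap_eq, AlgHom.commutes, AlgHom.commutes, hsm, hsm, mul_one]
    rfl
  -- the relation between `x_0` and `x_1`
  have hl : Polynomial.aeval ((c i0)⁻¹ • gen ℂ Z (Sum.inr i0) + d i0 • 1) A * gen ℂ Z (Sum.inl 0) +
      Polynomial.aeval ((c i0)⁻¹ • gen ℂ Z (Sum.inr i0) + d i0 • 1) B * gen ℂ Z (Sum.inl 1) =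
      Polynomial.aeval ((c i0)⁻¹ • gen ℂ Z (Sum.inr i0) + d i0 • 1) C := by
    have h3 : (Polynomial.aeval (tp1T c d i0) A * MvPolynomial.X (Sum.inl 0) +
        Polynomial.aeval (tp1T c d i0) B * MvPolynomial.X (Sum.inl 1) - Polynomial.aeval (tp1T c d i0) C) ∈ vI ℂ Z := by
      rw [mem_vI]
      intro y hy
      have h5 := ((tp1_iff hc i0 y).1 (h hy)).2
      rw [map_sub, map_add, map_mul, map_mul, aeval_X, aeval_X, tp1_aeval, tp1_aeval, tp1_aeval, tp1T_val, sub_eq_zero]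
      exact h5
    have h4 := Ideal.Quotient.eq_zero_iff_mem.mpr h3
    have h5 : Ideal.Quotient.mkₐ ℂ (vI ℂ Z) (Polynomial.aeval (tp1T c d i0) A * MvPolynomial.X (Sum.inl 0) +
        Polynomial.aeval (tp1T c d i0) B * MvPolynomial.X (Sum.inl 1) - Polynomial.aeval (tp1T c d i0) C) = 0 := h4
    rw [map_sub, map_add, map_mul, map_mul, hmk, hmk, hmk, sub_eq_zero] at h5
    exact h5
  by_cases hb : Polynomial.aeval ((c i0)⁻¹ • gen ℂ Z (Sum.inr i0) + d i0 • 1) B = 0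
  · -- `t` is constant on `Z`
    have hTalg : IsAlgebraic ℂ ((c i0)⁻¹ • gen ℂ Z (Sum.inr i0) + d i0 • 1) := ⟨B, hB, hb⟩
    have h1 : IsAlgebraic ℂ (gen ℂ Z (Sum.inr i0)) := by
      have h2 : gen ℂ Z (Sum.inr i0) = algebraMap ℂ _ (c i0) *
          (((c i0)⁻¹ • gen ℂ Z (Sum.inr i0) + d i0 • 1) - algebraMap ℂ _ (d i0)) := by
        rw [hsm, hsm, mul_one, add_sub_cancel_right, ← mul_assoc, ← map_mul,
          mul_inv_cancel₀ (hc i0), map_one, one_mul]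
      rw [h2]
      exact (isAlgebraic_algebraMap (c i0)).mul (hTalg.sub (isAlgebraic_algebraMap (d i0)))
    have h2 : ∀ i, IsAlgebraic ℂ (gen ℂ Z (Sum.inr i)) := by
      intro i
      rw [hy i, hsm, hsm, hsm, mul_one]
      exact (isAlgebraic_algebraMap _).mul (((isAlgebraic_algebraMap _).mul h1).add (isAlgebraic_algebraMap _))
    have hinj : Function.Injective (algebraMap ℂ (Algebra.adjoin ℂ (gen ℂ Z '' {Sum.inl 0, Sum.inl 1}))) :=
      (algebraMap ℂ _).injective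
    obtain ⟨s, hs, _, hcard⟩ := exists_basis (k := ℂ) hZ.pirr {Sum.inl 0, Sum.inl 1} fun i => by
      rcases i with i | i
      · refine isAlgebraic_algebraMap (⟨_, hgen0 {Sum.inl 0, Sum.inl 1} (Sum.inl i) ?_⟩ :
          Algebra.adjoin ℂ (gen ℂ Z '' {Sum.inl 0, Sum.inl 1}))
        fin_cases i <;> simp
      · exact (h2 i).extendScalars hinj
    rw [← hcard]
    refine (Set.ncard_le_ncard hs).trans ?_
    rw [Set.ncard_pair (by simp)]
  · obtain ⟨s, hs, _, hcard⟩ := exists_basis (k := ℂ) hZ.pirr {Sum.inl 0, Sum.inr i0} fun i => by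
      have hl0 := hgen0 {Sum.inl 0, Sum.inr i0} (Sum.inl 0) (by simp)
      have hr0 := hgen0 {Sum.inl 0, Sum.inr i0} (Sum.inr i0) (by simp)
      have hT : (c i0)⁻¹ • gen ℂ Z (Sum.inr i0) + d i0 • 1 ∈ Algebra.adjoin ℂ (gen ℂ Z '' {Sum.inl 0, Sum.inr i0}) :=
        Subalgebra.add_mem _ (Subalgebra.smul_mem _ hr0 _) (Subalgebra.smul_mem _ (Subalgebra.one_mem _) _)
      have hev : ∀ Q : Polynomial ℂ, Polynomial.aeval ((c i0)⁻¹ • gen ℂ Z (Sum.inr i0) + d i0 • 1) Q ∈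
          Algebra.adjoin ℂ (gen ℂ Z '' {Sum.inl 0, Sum.inr i0}) := fun Q =>
        Polynomial.aeval_mem_adjoin_singleton ℂ _ |> fun h => (Algebra.adjoin_le (by
          rw [Set.singleton_subset_iff]; exact hT)) h
      rcases i with i | i
      · fin_cases i
        · exact isAlgebraic_algebraMap (⟨_, hl0⟩ : Algebra.adjoin ℂ (gen ℂ Z '' {Sum.inl 0, Sum.inr i0}))
        · refine ⟨Polynomial.C (⟨_, hev B⟩ : Algebra.adjoin ℂ (gen ℂ Z '' {Sum.inl 0, Sum.inr i0})) * Polynomial.X -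
            Polynomial.C (⟨_, Subalgebra.sub_mem _ (hev C) (Subalgebra.mul_mem _ (hev A) hl0)⟩ :
              Algebra.adjoin ℂ (gen ℂ Z '' {Sum.inl 0, Sum.inr i0})), ?_, ?_⟩
          · intro h0
            have h1 := congrArg (fun q => Polynomial.coeff q 1) h0
            simp only [Polynomial.coeff_sub, Polynomial.coeff_C_mul, Polynomial.coeff_X_one, mul_one,
              Polynomial.coeff_C_succ, sub_zero, Polynomial.coeff_zero] at h1
            exact hb (congrArg Subtype.val h1)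
          · rw [map_sub, map_mul, Polynomial.aeval_C, Polynomial.aeval_C, Polynomial.aeval_X]
            show Polynomial.aeval ((c i0)⁻¹ • gen ℂ Z (Sum.inr i0) + d i0 • 1) B * gen ℂ Z (Sum.inl 1) -
              (Polynomial.aeval ((c i0)⁻¹ • gen ℂ Z (Sum.inr i0) + d i0 • 1) C -
              Polynomial.aeval ((c i0)⁻¹ • gen ℂ Z (Sum.inr i0) + d i0 • 1) A * gen ℂ Z (Sum.inl 0)) = 0
            linear_combination hl
      · have h1 : gen ℂ Z (Sum.inr i) ∈ Algebra.adjoin ℂ (gen ℂ Z '' {Sum.inl 0, Sum.inr i0}) := by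
          rw [hy i]
          exact Subalgebra.smul_mem _ (Subalgebra.add_mem _ (Subalgebra.smul_mem _ hr0 _)
            (Subalgebra.smul_mem _ (Subalgebra.one_mem _) _)) _
        exact isAlgebraic_algebraMap (⟨_, h1⟩ : Algebra.adjoin ℂ (gen ℂ Z '' {Sum.inl 0, Sum.inr i0}))
    rw [← hcard]
    refine (Set.ncard_le_ncard hs).trans ?_
    rw [Set.ncard_pair (by simp)]

theorem tp1_dm (hm : 0 < m) (hc : ∀ i, c i ≠ 0) (hA : A ≠ 0) (hB : B ≠ 0) (hC : C ≠ 0) :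
    dm (TP A B C c d) = (2 : WithBot ℕ∞) := by
  obtain ⟨x, hx, -⟩ := tp1_pt2 (d := d) hc hA hB hC
  obtain ⟨n, hn, _, h1, Z, hZ, hZV, h2⟩ := exists_dm (⟨x, hx⟩ : (TP A B C c d).Nonempty)
  rw [hn]
  have h3 : n ≤ 2 := by
    rw [← h2]
    exact tp1_basis hc ⟨0, hm⟩ hB hZ hZV
  have h4 : 2 ≤ n := by
    have h5 : TP A B C c d = Set.univ ∩ {x | ∀ i ∈ (Finset.univ : Finset (Fin m)),
        aeval (co x) (tp1P A B C c d ⟨0, hm⟩ i) = 0} := by
      ext y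
      rw [tp1_mem hc ⟨0, hm⟩]
      simp only [Set.mem_inter_iff, Set.mem_univ, true_and, Finset.mem_univ, true_implies,
        Set.mem_ofPred_eq]
    obtain ⟨Y, hY, _⟩ := exists_comp_mem (zclosed_TP hm hc) hx
    have hY' := hY
    rw [h5] at hY'
    have h6 := krull_list Finset.univ _ irr_univ hY'
    rw [td_univ] at h6
    have h7 := h1 Y hY.irr hY.subset
    simp only [Fintype.card_sum, Fintype.card_fin, Finset.card_univ] at h6
    omega
  have h5 : n = 2 := le_antisymm h3 h4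
  rw [h5]
  rfl

theorem td_TP (hm : 0 < m) (hc : ∀ i, c i ≠ 0) (hA : A ≠ 0) (hB : B ≠ 0) (hC : C ≠ 0)
    (hcop : ∀ t, (∀ i, t ≠ d i) → ¬ (A.eval t = 0 ∧ B.eval t = 0 ∧ C.eval t = 0)) : td ℂ (TP A B C c d) = 2 := by
  have h1 := tp1_dm (d := d) hm hc hA hB hC
  rw [dm_irr (irr_TP hm hc hA hB hC hcop)] at h1
  exact_mod_cast h1

theorem dm_TP (hm : 0 < m) (hc : ∀ i, c i ≠ 0) (hA : A ≠ 0) (hB : B ≠ 0) (hC : C ≠ 0)
    (hcop : ∀ t, (∀ i, t ≠ d i) → ¬ (A.eval t = 0 ∧ B.eval t = 0 ∧ C.eval t = 0)) :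
    dm (TP A B C c d) = (2 : WithBot ℕ∞) := by
  exact tp1_dm hm hc hA hB hC

theorem tp1_ypart (hc : ∀ i, c i ≠ 0) (hd : Function.Injective d) (n : Fin m → ℤ) {E : Set ℂ} (hE : E.Infinite)
    (hEd : ∀ t ∈ E, ∀ i, t ≠ d i) (h : ∀ t ∈ E, ∏ i, (c i * (t - d i)) ^ n i = 1) (j : Fin m) : ¬ 0 < n j := by
  intro hj
  let P : Polynomial ℂ := ∏ i, (Polynomial.C (c i) * (Polynomial.X - Polynomial.C (d i))) ^ (n i).toNat
  let Q : Polynomial ℂ := ∏ i, (Polynomial.C (c i) * (Polynomial.X - Polynomial.C (d i))) ^ (-n i).toNat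
  have hP : ∀ t, P.eval t = ∏ i, (c i * (t - d i)) ^ (n i).toNat := by
    intro t
    simp only [P, Polynomial.eval_prod, Polynomial.eval_pow, Polynomial.eval_mul, Polynomial.eval_C,
      Polynomial.eval_sub, Polynomial.eval_X]
  have hQ : ∀ t, Q.eval t = ∏ i, (c i * (t - d i)) ^ (-n i).toNat := by
    intro t
    simp only [Q, Polynomial.eval_prod, Polynomial.eval_pow, Polynomial.eval_mul, Polynomial.eval_C,
      Polynomial.eval_sub, Polynomial.eval_X]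
  have hPQ : P = Q := by
    refine Polynomial.eq_of_infinite_eval_eq P Q ?_
    refine hE.mono fun t ht => ?_
    have ht' := hEd t ht
    show P.eval t = Q.eval t
    rw [hP, hQ]
    have h1 := h t ht
    have h2 : ∏ i, (c i * (t - d i)) ^ (n i).toNat =
        (∏ i, (c i * (t - d i)) ^ n i) * ∏ i, (c i * (t - d i)) ^ (-n i).toNat := by
      rw [← Finset.prod_mul_distrib]
      refine Finset.prod_congr rfl fun i _ => ?_
      have h3 : c i * (t - d i) ≠ 0 := mul_ne_zero (hc i) (sub_ne_zero.2 (ht' i))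
      rw [← zpow_natCast, ← zpow_natCast, ← zpow_add₀ h3]
      congr 1
      omega
    rw [h2, h1, one_mul]
  have h1 := hP (d j)
  rw [hPQ, hQ] at h1
  have h2 : ∏ i, (c i * (d j - d i)) ^ (n i).toNat = 0 := by
    refine Finset.prod_eq_zero (Finset.mem_univ j) ?_
    rw [sub_self, mul_zero, zero_pow]
    omega
  rw [h2, Finset.prod_eq_zero_iff] at h1
  obtain ⟨i, _, hi⟩ := h1
  by_cases hij : i = j
  · subst hij
    have h4 : (-n i).toNat = 0 := by omega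
    rw [h4, pow_zero] at hi
    exact one_ne_zero hi
  · exact pow_ne_zero _ (mul_ne_zero (hc i) (sub_ne_zero.2 fun e => hij (hd e).symm)) hi

/-- No nontrivial monomial is constant up to a torsion factor on `TP` (`2 ≤ m` is not needed; `d` injective is). For fixed general `t` the line `A x_0 + B x_1 = C` (all three nonzero) has no nontrivial monomial in `x_0, x_1` which is constant, and `∏ (c_i (t - d_i))^(k_i)` is not constant for `k ≠ 0`. -/
theorem rk_TP (hm : 0 < m) (hc : ∀ i, c i ≠ 0) (hd : Function.Injective d) (hA : A ≠ 0) (hB : B ≠ 0) (hC : C ≠ 0)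
    (hcop : ∀ t, (∀ i, t ≠ d i) → ¬ (A.eval t = 0 ∧ B.eval t = 0 ∧ C.eval t = 0)) : rk (TP A B C c d) = 0 := by
  classical
  have h0 : Lam (TP A B C c d) = ⊥ := by
    rw [Submodule.eq_bot_iff]
    intro v hv
    obtain ⟨N, hN, hv⟩ := hv
    have hN' : (N : ℤ) ≠ 0 := by exact_mod_cast hN.ne'
    have hE := tp1_ex (mul_ne_zero (mul_ne_zero hA hB) hC) d
    have hE3 : ∀ t ∈ {t : ℂ | (A * B * C).eval t ≠ 0 ∧ ∀ i, t ≠ d i}, A.eval t ≠ 0 ∧ B.eval t ≠ 0 ∧ C.eval t ≠ 0 := by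
      rintro t ⟨ht, -⟩
      rw [Polynomial.eval_mul, Polynomial.eval_mul, mul_ne_zero_iff, mul_ne_zero_iff] at ht
      exact ⟨ht.1.1, ht.1.2, ht.2⟩
    obtain ⟨t0, ht0⟩ := hE.nonempty
    have key : ∀ s t : ℂ, s ≠ 0 → B.eval t ≠ 0 → C.eval t - A.eval t * s ≠ 0 → (∀ i, t ≠ d i) →
        (s ^ ((N : ℤ) * v (Sum.inl 0)) * ((C.eval t - A.eval t * s) / B.eval t) ^ ((N : ℤ) * v (Sum.inl 1))) *
          ∏ i, (c i * (t - d i)) ^ ((N : ℤ) * v (Sum.inr i)) = 1 := by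
      intro s t hs hb hs1 ht
      obtain ⟨x, hx, e1, e2, e3⟩ := tp1_pt (A := A) (C := C) hc hs hb hs1 ht
      have h1 := congrArg Units.val (hv x hx)
      unfold ch at h1
      rw [Fintype.prod_sum_type, Fin.prod_univ_two] at h1
      push_cast at h1
      rw [e1, e2, mul_pow, mul_pow, ← Finset.prod_pow] at h1
      refine Eq.trans ?_ h1
      simp_rw [e3, mul_comm (N : ℤ), zpow_mul, zpow_natCast]
    obtain ⟨nA, nB, nC⟩ := hE3 t0 ht0
    have hx : v (Sum.inl 0) = 0 ∧ v (Sum.inl 1) = 0 := by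
      by_contra hcon
      rw [not_and_or] at hcon
      have hC0 : (∏ i, (c i * (t0 - d i)) ^ ((N : ℤ) * v (Sum.inr i))) ≠ 0 :=
        Finset.prod_ne_zero_iff.2 fun i _ => zpow_ne_zero _ (mul_ne_zero (hc i) (sub_ne_zero.2 (ht0.2 i)))
      have hfin := ZL2.fin_sol (div_ne_zero nA nC) (div_ne_zero nB nC) (n := (N : ℤ) * v (Sum.inl 0))
        (n' := (N : ℤ) * v (Sum.inl 1))
        (by
          rcases hcon with h | h
          · exact Or.inl (mul_ne_zero hN' h)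
          · exact Or.inr (mul_ne_zero hN' h)) (∏ i, (c i * (t0 - d i)) ^ ((N : ℤ) * v (Sum.inr i)))⁻¹
          (inv_ne_zero hC0)
      have hinf : ({0, C.eval t0 / A.eval t0} : Set ℂ)ᶜ.Infinite := Set.Finite.infinite_compl (Set.toFinite _)
      apply hinf
      refine hfin.subset ?_
      intro s hs
      simp only [Set.mem_compl_iff, Set.mem_insert_iff, Set.mem_singleton_iff, not_or] at hs
      obtain ⟨hs0, hs1⟩ := hs
      have hs2 : C.eval t0 - A.eval t0 * s ≠ 0 := by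
        intro h
        apply hs1
        rw [eq_div_iff nA]
        linear_combination -h
      refine ⟨hs0, (C.eval t0 - A.eval t0 * s) / B.eval t0, div_ne_zero hs2 nB, ?_, ?_⟩
      · field_simp
        ring
      · exact eq_inv_of_mul_eq_one_left (key s t0 hs0 nB hs2 ht0.2)
    have hy : ∀ t ∈ {t : ℂ | (A * B * C).eval t ≠ 0 ∧ ∀ i, t ≠ d i},
        ∏ i, (c i * (t - d i)) ^ ((N : ℤ) * v (Sum.inr i)) = 1 := by
      intro t ht
      obtain ⟨mA, mB, mC⟩ := hE3 t ht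
      have hex : ∃ s : ℂ, s ≠ 0 ∧ C.eval t - A.eval t * s ≠ 0 := by
        by_contra hcon
        push Not at hcon
        have e1 := hcon 1 one_ne_zero
        have e2 := hcon 2 two_ne_zero
        exact mC (by linear_combination 2 * e1 - e2)
      obtain ⟨s0, hs0, hs1⟩ := hex
      have h1 := key s0 t hs0 mB hs1 ht.2
      rw [hx.1, hx.2, mul_zero, zpow_zero, zpow_zero, one_mul, one_mul] at h1
      exact h1
    have hy' : ∀ t ∈ {t : ℂ | (A * B * C).eval t ≠ 0 ∧ ∀ i, t ≠ d i},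
        ∏ i, (c i * (t - d i)) ^ (-((N : ℤ) * v (Sum.inr i))) = 1 := by
      intro t ht
      simp_rw [zpow_neg]
      rw [Finset.prod_inv_distrib, hy t ht, inv_one]
    funext i
    rcases i with i | i
    · fin_cases i
      · exact hx.1
      · exact hx.2
    · have h1 := tp1_ypart hc hd _ hE (fun t ht => ht.2) hy i
      have h2 := tp1_ypart hc hd _ hE (fun t ht => ht.2) hy' i
      have h3 : (N : ℤ) * v (Sum.inr i) = 0 := by omega
      exact (mul_eq_zero.1 h3).resolve_left hN'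
  unfold rk
  rw [h0]
  exact finrank_bot ℤ _

end Pool.Agent.Z6
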