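import Pool.Agent.Z6.K2b
import Pool.Agent.Z5.K2
import Pool.Agent.Z5.K0

open MvPolynomial Pool.Agent.MP_dd1803_nt Pool.Agent.ZPA Pool.Agent.ZL2

namespace Pool.Agent.Z6

variable {m : ℕ}

open Filter Topology

/-- the relation of a coordinate -/
def k2_R {F : Type} [Field F] (y : Fin m → F) (K : Type) [Field K] [Algebra F K] (w : K) : Prop :=
  ∃ (e : ℤ) (n : Fin m → ℤ), e ≠ 0 ∧ w ^ e = ∏ i, (algebraMap F K (y i)) ^ n i

theorem k2_R_comap {F : Type} [Field F] {y : Fin m → F} {K K' : Type} [Field K] [Field K'] [Algebra F K] [Algebra F K']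
    (ι : K →ₐ[F] K') {w : K} (h : k2_R y K' (ι w)) : k2_R y K w := by
  obtain ⟨e, n, he, h⟩ := h
  refine ⟨e, n, he, ι.toRingHom.injective ?_⟩
  change ι (w ^ e) = ι (∏ i, (algebraMap F K (y i)) ^ n i)
  rw [map_zpow₀, h, map_prod]
  refine Finset.prod_congr rfl fun i _ => ?_
  rw [map_zpow₀, AlgHom.commutes]

theorem k2_R_map {F : Type} [Field F] {y : Fin m → F} {K K' : Type} [Field K] [Field K'] [Algebra F K] [Algebra F K']
    (ι : K →ₐ[F] K') {w : K} (h : k2_R y K w) : k2_R y K' (ι w) := by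
  obtain ⟨e, n, he, h⟩ := h
  refine ⟨e, n, he, ?_⟩
  rw [← map_zpow₀, h, map_prod]
  refine Finset.prod_congr rfl fun i _ => ?_
  rw [map_zpow₀, AlgHom.commutes]

theorem k2_R_alg {F : Type} [Field F] {y : Fin m → F} {K : Type} [Field K] [Algebra F K] {w : K} (h : k2_R y K w) :
    IsAlgebraic F w := by
  obtain ⟨e, n, he, h⟩ := h
  have h1 : IsAlgebraic F (w ^ e) := by
    have h2 : w ^ e = algebraMap F K (∏ i, (y i) ^ n i) := by
      rw [h, map_prod]
      exact Finset.prod_congr rfl fun i _ => (map_zpow₀ _ _ _).symm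
    rw [h2]
    exact isAlgebraic_algebraMap _
  have h3 : IsAlgebraic F (w ^ e.natAbs) := by
    rcases Int.natAbs_eq e with h4 | h4
    · rw [← zpow_natCast, ← h4]
      exact h1
    · have h5 : w ^ e.natAbs = (w ^ e)⁻¹ := by
        rw [← zpow_neg, ← zpow_natCast]
        congr 1
        omega
      rw [h5]
      exact h1.inv
  exact h3.of_pow (Int.natAbs_pos.2 he)

theorem k2_R_lv {F : Type} [Field F] {y : Fin m → F} (hy : ∀ i, y i ≠ 0) {K : Type} [Field K] [NumberField K] [Algebra F K] {w : K}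
    (h : k2_R y K w) : ∃ M : Fin m → ℝ, ∀ p : Pl K, lv p w = ∑ i, M i * lv p (algebraMap F K (y i)) := by
  obtain ⟨e, n, he, h⟩ := h
  have he' : (e : ℝ) ≠ 0 := by exact_mod_cast he
  refine ⟨fun i => (n i : ℝ) / e, fun p => ?_⟩
  have h1 := congrArg (lv p) h
  have h2 : ∀ s : Finset (Fin m), lv p (∏ i ∈ s, (algebraMap F K (y i)) ^ n i) = ∑ i ∈ s, (n i : ℝ) * lv p (algebraMap F K (y i)) := by
    classical
    intro s
    induction s using Finset.induction_on with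
    | empty => rw [Finset.prod_empty, Finset.sum_empty, lv_one]
    | insert a s ha ih =>
      rw [Finset.prod_insert ha, Finset.sum_insert ha, lv_mul p (zpow_ne_zero _ ((map_ne_zero _).2 (hy a)))
        (Finset.prod_ne_zero_iff.2 fun i _ => zpow_ne_zero _ ((map_ne_zero _).2 (hy i))), ih, lv_zpow]
  rw [lv_zpow, h2] at h1
  have h3 : ∑ i, (n i : ℝ) / e * lv p (algebraMap F K (y i)) = (∑ i, (n i : ℝ) * lv p (algebraMap F K (y i))) / e := by
    rw [Finset.sum_div]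
    exact Finset.sum_congr rfl fun i _ => by ring
  rw [h3, ← h1]
  field_simp

/-- norms of conjugates -/
theorem k2_R_norm {F : Type} [Field F] [Algebra F ℂ] {y : Fin m → F} {K : Type} [Field K] [Algebra F K] {w : K} (h : k2_R y K w)
    (σ τ : K →ₐ[F] ℂ) : ‖σ w‖ = ‖τ w‖ := by
  obtain ⟨e, n, he, h⟩ := h
  have h1 : ∀ σ : K →ₐ[F] ℂ, ‖σ w‖ ^ e = ‖∏ i, (algebraMap F ℂ (y i)) ^ n i‖ := by
    intro σ
    rw [← norm_zpow, ← map_zpow₀, h, map_prod]
    congr 1
    refine Finset.prod_congr rfl fun i _ => ?_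
    rw [map_zpow₀, AlgHom.commutes]
  have h2 := (h1 σ).trans (h1 τ).symm
  have h3 : ‖σ w‖ ^ e.natAbs = ‖τ w‖ ^ e.natAbs := by
    rcases Int.natAbs_eq e with h4 | h4
    · rw [← zpow_natCast, ← zpow_natCast, ← h4]
      exact h2
    · have h5 : ∀ r : ℝ, r ^ e.natAbs = (r ^ e)⁻¹ := by
        intro r
        rw [← zpow_neg, ← zpow_natCast]
        congr 1
        omega
      rw [h5, h5, h2]
  exact (pow_left_inj₀ (norm_nonneg _) (norm_nonneg _) (Int.natAbs_pos.2 he).ne').1 h3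

/-- two numbers with equal norms and equal distances from one -/
theorem k2_conj {u w : ℂ} (h : ‖u‖ = ‖w‖) (h' : ‖1 - u‖ = ‖1 - w‖) : u = w ∨ u = (starRingEnd ℂ) w := by
  have h1 : Complex.normSq u = Complex.normSq w := by rw [Complex.normSq_eq_norm_sq, Complex.normSq_eq_norm_sq, h]
  have h2 : Complex.normSq (1 - u) = Complex.normSq (1 - w) := by rw [Complex.normSq_eq_norm_sq, Complex.normSq_eq_norm_sq, h']
  simp only [Complex.normSq_apply, Complex.sub_re, Complex.sub_im, Complex.one_re, Complex.one_im] at h1 h2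
  have h3 : u.re = w.re := by nlinarith
  rw [h3] at h1
  have h4 : (u.im - w.im) * (u.im + w.im) = 0 := by nlinarith
  rcases mul_eq_zero.1 h4 with h5 | h5
  · left
    exact Complex.ext h3 (by linarith)
  · right
    refine Complex.ext (by rw [Complex.conj_re, h3]) ?_
    rw [Complex.conj_im]
    linarith

theorem k2_ev_conj {L : ℕ} (f : (Fin 1 → Fin (L + 1)) → ℤ) (w : ℂ) :
    ‖ev f (fun _ => (starRingEnd ℂ) w)‖ = ‖ev f (fun _ => w)‖ := by
  have h := Pool.Agent.Z5.k0_ev (starRingEnd ℂ) f (fun _ => w)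
  rw [← h]
  exact Complex.norm_conj _

/-- large points -/
def k2_big {F : Type} [Field F] [NumberField F] [Algebra F ℂ] (a b : F) (q : ℂ × ℂ) : Prop :=
  ∀ (K : Type) [Field K] [NumberField K] [Algebra F K] (ι : K →ₐ[F] ℂ) (x y : K), ι x = q.1 → ι y = q.2 →
    5000 * Sm (fun p : Pl K => ell p + 2 * (|lv p (algebraMap F K a)| + |lv p (algebraMap F K b)|)) <
      Ht (Xl (algebraMap F K a) (algebraMap F K b) x y)

/-- the points of the line in the division group -/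
def k2_S {F : Type} [Field F] [NumberField F] [Algebra F ℂ] (a b : F) (y : Fin m → F) (q : ℂ × ℂ) : Prop :=
  q.1 ≠ 0 ∧ q.2 ≠ 0 ∧ algebraMap F ℂ a * q.1 + algebraMap F ℂ b * q.2 = 1 ∧ k2_R y ℂ q.1 ∧ k2_R y ℂ q.2

theorem k2_large {F : Type} [Field F] [NumberField F] [Algebra F ℂ] {a b : F} (ha : a ≠ 0) (hb : b ≠ 0) {y : Fin m → F}
    (hy : ∀ i, y i ≠ 0) : {q : ℂ × ℂ | k2_S a b y q ∧ k2_big a b q}.Finite := by
  classical
  obtain ⟨N, hN⟩ := large_card m
  by_contra hcon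
  obtain ⟨T0, hT0, hcard⟩ := Set.Infinite.exists_subset_card_eq hcon (N + 1)
  let G : Set ℂ := (T0.image Prod.fst : Finset ℂ) ∪ (T0.image Prod.snd : Finset ℂ)
  have hGfin : G.Finite := (Finset.finite_toSet _).union (Finset.finite_toSet _)
  have hGint : ∀ z ∈ G, IsIntegral F z := by
    rintro z (hz | hz)
    · obtain ⟨q, hq, rfl⟩ := Finset.mem_image.1 (Finset.mem_coe.1 hz)
      exact (k2_R_alg (hT0 hq).1.2.2.2.1).isIntegral
    · obtain ⟨q, hq, rfl⟩ := Finset.mem_image.1 (Finset.mem_coe.1 hz)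
      exact (k2_R_alg (hT0 hq).1.2.2.2.2).isIntegral
  have : Finite G := hGfin
  let K : IntermediateField F ℂ := IntermediateField.adjoin F G
  have hKfin : FiniteDimensional F K := IntermediateField.finiteDimensional_adjoin hGint
  have hKn : NumberField K := NumberField.of_module_finite F K
  have hg : ∀ q ∈ T0, ∃ q' : K × K, (q'.1 : ℂ) = q.1 ∧ (q'.2 : ℂ) = q.2 := by
    intro q hq
    exact ⟨(⟨q.1, IntermediateField.subset_adjoin F G (Or.inl (Finset.mem_coe.2 (Finset.mem_image_of_mem _ hq)))⟩,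
      ⟨q.2, IntermediateField.subset_adjoin F G (Or.inr (Finset.mem_coe.2 (Finset.mem_image_of_mem _ hq)))⟩), rfl, rfl⟩
  choose! g hg1 hg2 using hg
  have hinj : Set.InjOn g T0 := by
    intro q hq q' hq' h
    refine Prod.ext ?_ ?_
    · rw [← hg1 q hq, ← hg1 q' hq', h]
    · rw [← hg2 q hq, ← hg2 q' hq', h]
  have key := hN K (algebraMap F K a) (algebraMap F K b) ((map_ne_zero _).2 ha) ((map_ne_zero _).2 hb)
    (fun i => algebraMap F K (y i)) (fun i => (map_ne_zero _).2 (hy i)) (T0.image g) (by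
      intro q' hq'
      obtain ⟨q, hq, rfl⟩ := Finset.mem_image.1 hq'
      obtain ⟨⟨h1, h2, h3, h4, h5⟩, h6⟩ := hT0 hq
      have e1 : K.val (g q).1 = q.1 := hg1 q hq
      have e2 : K.val (g q).2 = q.2 := hg2 q hq
      obtain ⟨M0, hM0⟩ := k2_R_lv hy (k2_R_comap K.val (w := (g q).1) (by rw [e1]; exact h4))
      obtain ⟨M1, hM1⟩ := k2_R_lv hy (k2_R_comap K.val (w := (g q).2) (by rw [e2]; exact h5))
      refine ⟨?_, ?_, ?_, ⟨M0, M1, fun p => ⟨hM0 p, hM1 p⟩⟩, ?_⟩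
      · intro h
        rw [h, map_zero] at e1
        exact h1 e1.symm
      · intro h
        rw [h, map_zero] at e2
        exact h2 e2.symm
      · apply K.val.toRingHom.injective
        change K.val (algebraMap F K a * (g q).1 + algebraMap F K b * (g q).2) = K.val 1
        rw [map_add, map_mul, map_mul, AlgHom.commutes, AlgHom.commutes, e1, e2, map_one]
        exact h3
      · exact h6 K K.val (g q).1 (g q).2 e1 e2)
  rw [Finset.card_image_of_injOn hinj, hcard] at key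
  omega

/-- a constant for the heights of the coefficients -/
theorem k2_H0 {F : Type} [Field F] [NumberField F] {a b : F} (ha : a ≠ 0) (hb : b ≠ 0) : ∃ H0 : ℝ, 0 ≤ H0 ∧
    ∀ (K : Type) [Field K] [NumberField K] [Algebra F K],
      5000 * Sm (fun p : Pl K => ell p + 2 * (|lv p (algebraMap F K a)| + |lv p (algebraMap F K b)|)) ≤
        H0 * Module.finrank ℚ K := by
  obtain ⟨Ca, hCa0, hCa⟩ := hh_ext ha
  obtain ⟨Cb, hCb0, hCb⟩ := hh_ext hb
  refine ⟨5000 * (1 + 4 * Ca + 4 * Cb), by positivity, ?_⟩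
  intro K _ _ _
  have ha' : algebraMap F K a ≠ 0 := (map_ne_zero _).2 ha
  have hb' : algebraMap F K b ≠ 0 := (map_ne_zero _).2 hb
  have h1 : Sm (fun p : Pl K => ell p + 2 * (|lv p (algebraMap F K a)| + |lv p (algebraMap F K b)|)) =
      (Module.finrank ℚ K : ℝ) * Real.log 2 + 2 * (2 * hh (algebraMap F K a) + 2 * hh (algebraMap F K b)) := by
    rw [Sm_add FS_ell (((FS_lv ha').abs.add (FS_lv hb').abs).smul 2), Sm_smul, Sm_add (FS_lv ha').abs (FS_lv hb').abs,
      Sm_abs ha', Sm_abs hb', Sm_ell]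
  rw [h1]
  have h2 := hCa K
  have h3 := hCb K
  have h4 : Real.log 2 ≤ 1 := by
    have := Real.log_two_lt_d9
    linarith
  have h5 : (0 : ℝ) ≤ Module.finrank ℚ K := Nat.cast_nonneg _
  have h6 : (Module.finrank ℚ K : ℝ) * Real.log 2 ≤ Module.finrank ℚ K * 1 := mul_le_mul_of_nonneg_left h4 h5
  linarith

/-- Liouville inequality and boundedness of the small points -/
theorem k2_liou {F : Type} [Field F] [NumberField F] [Algebra F ℂ] {a b : F} (ha : a ≠ 0) (hb : b ≠ 0) (y : Fin m → F) :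
    ∃ R C : ℝ, 0 < C ∧ ∀ q : ℂ × ℂ, k2_S a b y q → ¬ k2_big a b q →
      ‖algebraMap F ℂ a * q.1‖ ≤ R ∧ ∀ (L : ℕ) (f : (Fin 1 → Fin (L + 1)) → ℤ), 1 ≤ L → (∀ α, |f α| ≤ 2 ^ L) →
        ‖ev f (fun _ => algebraMap F ℂ a * q.1)‖ ≤ Real.exp (-(C * L)) → ev f (fun _ => algebraMap F ℂ a * q.1) = 0 := by
  classical
  obtain ⟨H0, hH0, hH⟩ := k2_H0 ha hb
  obtain ⟨κ, hκ⟩ : ∃ κ : ℝ, κ = (Module.finrank ℚ F : ℝ) * ((1 : ℕ) * H0 + ((1 : ℕ) + 1) * Real.log 2) := ⟨_, rfl⟩
  have hlog : 0 ≤ Real.log 2 := Real.log_nonneg (by norm_num)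
  have hκ0 : 0 ≤ κ := by rw [hκ]; positivity
  refine ⟨Real.exp (2 * H0 * Module.finrank ℚ F), κ + 1, by linarith, ?_⟩
  rintro q ⟨hq1, hq2, hq3, hq4, hq5⟩ hbig
  unfold k2_big at hbig
  push Not at hbig
  obtain ⟨K, iK1, iK2, iK3, ι, x, z, hx, hz, hle⟩ := hbig
  have hFK : FiniteDimensional F K := Module.Finite.of_restrictScalars_finite ℚ F K
  have hx0 : x ≠ 0 := fun h => hq1 (by rw [← hx, h, map_zero])
  have hz0 : z ≠ 0 := fun h => hq2 (by rw [← hz, h, map_zero])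
  have ha' : algebraMap F K a ≠ 0 := (map_ne_zero _).2 ha
  have hb' : algebraMap F K b ≠ 0 := (map_ne_zero _).2 hb
  have hline : algebraMap F K a * x + algebraMap F K b * z = 1 := by
    apply ι.toRingHom.injective
    change ι (algebraMap F K a * x + algebraMap F K b * z) = ι 1
    rw [map_add, map_mul, map_mul, AlgHom.commutes, AlgHom.commutes, hx, hz, map_one]
    exact hq3
  obtain ⟨u, hu⟩ : ∃ u : K, u = algebraMap F K a * x := ⟨_, rfl⟩
  have hu0 : u ≠ 0 := by rw [hu]; exact mul_ne_zero ha' hx0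
  have huι : ι u = algebraMap F ℂ a * q.1 := by rw [hu, map_mul, AlgHom.commutes, hx]
  have hhu : hh u ≤ H0 * Module.finrank ℚ K := by
    rw [hu]
    exact (hh_le_Ht ha' hb' hx0 hz0).1.trans (hle.trans (hH K))
  have hRx : k2_R y K x := k2_R_comap ι (by rw [hx]; exact hq4)
  have hRz : k2_R y K z := k2_R_comap ι (by rw [hz]; exact hq5)
  have hn : ∀ σ : K →ₐ[F] ℂ, ‖σ u‖ = ‖ι u‖ := by
    intro σ
    rw [hu, map_mul, map_mul, AlgHom.commutes, AlgHom.commutes, norm_mul, norm_mul, k2_R_norm hRx σ ι]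
  have hn1 : ∀ σ : K →ₐ[F] ℂ, ‖1 - σ u‖ = ‖1 - ι u‖ := by
    intro σ
    have h1 : ∀ σ : K →ₐ[F] ℂ, 1 - σ u = algebraMap F ℂ b * σ z := by
      intro σ
      have h2 := congrArg σ hline
      rw [map_add, ← hu, map_mul, AlgHom.commutes, map_one] at h2
      linear_combination -h2
    rw [h1, h1, norm_mul, norm_mul, k2_R_norm hRz σ ι]
  have hne : Nonempty (K →ₐ[F] ℂ) := ⟨ι⟩
  have hcardpos : (0 : ℝ) < Fintype.card (K →ₐ[F] ℂ) := by exact_mod_cast Fintype.card_pos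
  rw [← huι]
  constructor
  · have h1 := Pool.Agent.Z5.sum_le_hh (F := F) hu0 hhu
    have h2 : ∑ σ : K →ₐ[F] ℂ, |Real.log ‖σ u‖| = |Real.log ‖ι u‖| * Fintype.card (K →ₐ[F] ℂ) := by
      rw [Finset.sum_congr rfl fun σ _ => by rw [hn σ], Finset.sum_const, Finset.card_univ, nsmul_eq_mul, mul_comm]
    rw [h2] at h1
    have h3 := le_of_mul_le_mul_right h1 hcardpos
    have h4 : Real.log ‖ι u‖ ≤ 2 * H0 * Module.finrank ℚ F := (le_abs_self _).trans h3
    exact (Real.log_le_iff_le_exp (norm_pos_iff.2 ((map_ne_zero ι).2 hu0))).1 h4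
  · intro L f hL hf hsmall
    by_contra hev
    have hev' : ev f (fun _ : Fin 1 => u) ≠ 0 := by
      intro h
      apply hev
      have h1 := Pool.Agent.Z5.k0_ev (ι : K →+* ℂ) f (fun _ => u)
      rw [h, map_zero] at h1
      exact h1.symm
    have h1 := Pool.Agent.Z5.bp_ineq (F := F) hL f hf (fun _ : Fin 1 => u) (fun _ => hu0) (B := H0) (fun _ => hhu) hev'
      (C := κ + 1) (by linarith)
    have h2 : Pool.Agent.Z5.fr (fun σ : K →ₐ[F] ℂ => ‖ev f (fun j : Fin 1 => σ u)‖ ≤ Real.exp (-((κ + 1) * L))) = 1 := by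
      refine Eq.trans ?_ (Pool.Agent.Z5.fr_true (ι := K →ₐ[F] ℂ))
      congr 1
      funext σ
      rw [eq_iff_iff, iff_true]
      rcases k2_conj (hn σ) (hn1 σ) with h3 | h3
      · rw [h3]
        exact hsmall
      · rw [h3, k2_ev_conj]
        exact hsmall
    rw [h2, mul_one, ← hκ] at h1
    linarith

/-- Liardet for a line -/
theorem k2_fin {F : Type} [Field F] [NumberField F] [Algebra F ℂ] {a b : F} (ha : a ≠ 0) (hb : b ≠ 0) {y : Fin m → F}
    (hy : ∀ i, y i ≠ 0) : {q : ℂ × ℂ | k2_S a b y q}.Finite := by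
  have hsmall : {q : ℂ × ℂ | k2_S a b y q ∧ ¬ k2_big a b q}.Finite := by
    obtain ⟨R, C, hC, hRC⟩ := k2_liou ha hb y
    by_contra hcon
    have haC : algebraMap F ℂ a ≠ 0 := (map_ne_zero _).2 ha
    have hbC : algebraMap F ℂ b ≠ 0 := (map_ne_zero _).2 hb
    let φ : ℂ × ℂ → ℂ := fun q => algebraMap F ℂ a * q.1
    have hφ : Set.InjOn φ {q : ℂ × ℂ | k2_S a b y q ∧ ¬ k2_big a b q} := by
      intro q hq q' hq' h
      have h1 : q.1 = q'.1 := mul_left_cancel₀ haC h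
      have k1 := hq.1.2.2.1
      have k2 := hq'.1.2.2.1
      rw [h1] at k1
      exact Prod.ext h1 (mul_left_cancel₀ hbC (add_left_cancel (k1.trans k2.symm)))
    have hinf : (φ '' {q : ℂ × ℂ | k2_S a b y q ∧ ¬ k2_big a b q}).Infinite := Set.Infinite.image hφ hcon
    obtain ⟨w, _, hw⟩ := hinf.exists_accPt_of_subset_isCompact (isCompact_closedBall (0 : ℂ) R) (by
      rintro _ ⟨q, hq, rfl⟩
      rw [mem_closedBall_zero_iff]
      exact (hRC q hq.1 hq.2).1)
    obtain ⟨L, f, hL, hf0, hf, hs⟩ := Pool.Agent.Z5.pt_small 1 le_rfl (fun _ => w) C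
    have hcont : Continuous (fun w : ℂ => ‖ev f (fun _ : Fin 1 => w)‖) := by
      unfold ev; fun_prop
    have hev : ∀ᶠ z in 𝓝 w, ‖ev f (fun _ : Fin 1 => z)‖ < Real.exp (-(C * L)) :=
      (hcont.tendsto w).eventually (gt_mem_nhds hs)
    have hfreq := (accPt_iff_frequently.1 hw)
    have hroots := Pool.Agent.Z5.k0_roots f hf0
    have hinf2 : {z : ℂ | ev f (fun _ : Fin 1 => z) = 0}.Infinite := by
      intro hfin
      have h1 : ∀ᶠ z in 𝓝 w, z ∉ {z : ℂ | ev f (fun _ : Fin 1 => z) = 0} \ {w} :=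
        (hfin.subset Set.sdiff_subset).isClosed.isOpen_compl.mem_nhds (by simp)
      obtain ⟨z, ⟨hzw, hz⟩, h2, h3⟩ := (hfreq.and_eventually (hev.and h1)).exists
      obtain ⟨q, hq, rfl⟩ := hz
      refine h3 ⟨(hRC q hq.1 hq.2).2 L f hL hf h2.le, hzw⟩
    exact hinf2 hroots
  refine (hsmall.union (k2_large ha hb hy)).subset ?_
  intro q hq
  by_cases h : k2_big a b q
  · exact Or.inr ⟨hq, h⟩
  · exact Or.inl ⟨hq, h⟩

/-- Relations of one coordinate over `y0`, from the rank of the lattice of relations. -/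
theorem k2_rel {dd : ℕ} {y0 : Fin dd → ℂˣ} (hrk0 : rk ({y0} : Set (Fin dd → ℂˣ)) ≤ 1)
    {P : Fin 2 ⊕ Fin dd → ℂˣ} (hy : ∀ i, P (Sum.inr i) = y0 i)
    (hrk : 3 ≤ rk ({P} : Set (Fin 2 ⊕ Fin dd → ℂˣ))) (j : Fin 2) :
    ∃ (e : ℤ) (m : Fin dd → ℤ), e ≠ 0 ∧ P (Sum.inl j) ^ e = ch m y0 := by
  classical
  have hch : ∀ m : Fin 2 ⊕ Fin dd → ℤ, ch m P = P (Sum.inl 0) ^ m (Sum.inl 0) * P (Sum.inl 1) ^ m (Sum.inl 1) *
      ch (fun i => m (Sum.inr i)) y0 := by
    intro m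
    unfold ch
    rw [Fintype.prod_sum_type, Fin.prod_univ_two]
    simp only [hy]
  obtain ⟨j', hj'⟩ : ∃ j' : Fin 2, j' ≠ j := by
    fin_cases j
    · exact ⟨1, by decide⟩
    · exact ⟨0, by decide⟩
  -- the relations with exponent `0` at `j'`
  let f : Lam ({P} : Set (Fin 2 ⊕ Fin dd → ℂˣ)) →ₗ[ℤ] ℤ :=
    (LinearMap.proj (R := ℤ) (φ := fun _ : Fin 2 ⊕ Fin dd => ℤ) (Sum.inl j')).comp (Lam _).subtype
  have h1 := finrank_le_ker_add f
  have h2 : Module.finrank ℤ (LinearMap.range f) ≤ 1 := by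
    refine (Submodule.finrank_le _).trans ?_
    rw [Module.finrank_self]
  have h3 : 2 ≤ Module.finrank ℤ (LinearMap.ker f) := by
    have : 3 ≤ Module.finrank ℤ (Lam ({P} : Set (Fin 2 ⊕ Fin dd → ℂˣ))) := hrk
    omega
  by_contra hcon
  push Not at hcon
  -- all of them vanish at `j`
  have h4 : ∀ w : LinearMap.ker f, ((w : Lam ({P} : Set (Fin 2 ⊕ Fin dd → ℂˣ))) : Fin 2 ⊕ Fin dd → ℤ) (Sum.inl j) = 0 := by
    intro w
    by_contra hne
    obtain ⟨m, hm⟩ : ∃ m : Fin 2 ⊕ Fin dd → ℤ,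
      m = ((w : Lam ({P} : Set (Fin 2 ⊕ Fin dd → ℂˣ))) : Fin 2 ⊕ Fin dd → ℤ) := ⟨_, rfl⟩
    rw [← hm] at hne
    have hmL : m ∈ Lam ({P} : Set (Fin 2 ⊕ Fin dd → ℂˣ)) := hm ▸ (w : Lam ({P} : Set (Fin 2 ⊕ Fin dd → ℂˣ))).2
    have hmj' : m (Sum.inl j') = 0 := by
      have := LinearMap.mem_ker.1 w.2
      rw [hm]
      exact this
    obtain ⟨N, hN, hNx⟩ := mem_Lam.1 hmL
    have h5 := hNx P rfl
    have h6 : P (Sum.inl j) ^ m (Sum.inl j) * ch (fun i => m (Sum.inr i)) y0 = ch m P := by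
      rw [hch]
      congr 1
      fin_cases j
      · have : j' = 1 := by
          fin_cases j'
          · exact absurd rfl hj'
          · rfl
        rw [this] at hmj'
        rw [hmj', zpow_zero, mul_one]
        rfl
      · have : j' = 0 := by
          fin_cases j'
          · rfl
          · exact absurd rfl hj'
        rw [this] at hmj'
        rw [hmj', zpow_zero, one_mul]
        rfl
    refine hcon (m (Sum.inl j) * N) (-((N : ℤ) • fun i => m (Sum.inr i))) (mul_ne_zero hne (by exact_mod_cast hN.ne')) ?_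
    rw [ch_neg, ch_zsmul, zpow_mul]
    rw [← h6, mul_pow, ← zpow_natCast, ← zpow_natCast] at h5
    exact eq_inv_of_mul_eq_one_left h5
  -- so they are relations of `y0`
  have hmem : ∀ w : LinearMap.ker f, (LinearMap.funLeft ℤ ℤ (Sum.inr : Fin dd → Fin 2 ⊕ Fin dd))
      ((w : Lam ({P} : Set (Fin 2 ⊕ Fin dd → ℂˣ))) : Fin 2 ⊕ Fin dd → ℤ) ∈ Lam ({y0} : Set (Fin dd → ℂˣ)) := by
    intro w
    have k1 := h4 w
    have k2 : ((w : Lam ({P} : Set (Fin 2 ⊕ Fin dd → ℂˣ))) : Fin 2 ⊕ Fin dd → ℤ) (Sum.inl j') = 0 :=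
      LinearMap.mem_ker.1 w.2
    obtain ⟨N, hN, hNx⟩ := mem_Lam.1 (w : Lam ({P} : Set (Fin 2 ⊕ Fin dd → ℂˣ))).2
    obtain ⟨m, hm⟩ : ∃ m : Fin 2 ⊕ Fin dd → ℤ,
      m = ((w : Lam ({P} : Set (Fin 2 ⊕ Fin dd → ℂˣ))) : Fin 2 ⊕ Fin dd → ℤ) := ⟨_, rfl⟩
    rw [← hm] at k1 k2 hNx ⊢
    refine mem_Lam.2 ⟨N, hN, ?_⟩
    intro y hy'
    rw [Set.mem_singleton_iff.1 hy']
    have h5 := hNx P rfl
    rw [hch] at h5
    have e0 : m (Sum.inl 0) = 0 ∧ m (Sum.inl 1) = 0 := by
      fin_cases j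
      · have : j' = 1 := by
          fin_cases j'
          · exact absurd rfl hj'
          · rfl
        rw [this] at k2
        exact ⟨k1, k2⟩
      · have : j' = 0 := by
          fin_cases j'
          · rfl
          · exact absurd rfl hj'
        rw [this] at k2
        exact ⟨k2, k1⟩
    rw [e0.1, e0.2, zpow_zero, zpow_zero, one_mul, one_mul] at h5
    exact h5
  let g : LinearMap.ker f →ₗ[ℤ] Lam ({y0} : Set (Fin dd → ℂˣ)) := LinearMap.codRestrict _
    ((LinearMap.funLeft ℤ ℤ (Sum.inr : Fin dd → Fin 2 ⊕ Fin dd)).comp ((Lam ({P} : Set (Fin 2 ⊕ Fin dd → ℂˣ))).subtype.comp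
      (LinearMap.ker f).subtype)) hmem
  have hg : Function.Injective g := by
    rw [injective_iff_map_eq_zero]
    intro w hw
    apply Subtype.ext
    apply Subtype.ext
    funext i
    have h5 : ∀ i, ((w : Lam ({P} : Set (Fin 2 ⊕ Fin dd → ℂˣ))) : Fin 2 ⊕ Fin dd → ℤ) (Sum.inr i) = 0 := fun i =>
      congrFun (congrArg Subtype.val hw) i
    have k1 := h4 w
    have k2 : ((w : Lam ({P} : Set (Fin 2 ⊕ Fin dd → ℂˣ))) : Fin 2 ⊕ Fin dd → ℤ) (Sum.inl j') = 0 :=
      LinearMap.mem_ker.1 w.2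
    rcases i with i | i
    · by_cases hij : i = j
      · rw [hij]
        exact k1
      · have : i = j' := by
          fin_cases i <;> fin_cases j <;> fin_cases j' <;> simp_all
        rw [this]
        exact k2
    · exact h5 i
  have h5 := LinearMap.finrank_le_finrank_of_injective hg
  have h6 : Module.finrank ℤ (Lam ({y0} : Set (Fin dd → ℂˣ))) ≤ 1 := hrk0
  omega

/-- Row Z6-K2. As `Z5.fibre`, with `Fin m`. The relations: the projection of `Lam {P}` to the `x`-part has rank `2` (its kernel `Lam {y0}` has rank `≤ 1`), so `x_j ^ e_j = ch (m_j) y0` up to roots of unity. The group generated by the `y0 i` may have rank larger than two, so part (2) (large heights) is replaced by `large_card` (row K2b):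
if infinitely many `P ∈ Ps` are large (for ALL number fields `K ⊇ F(P)`, `5000 Sm (ell + 2(|lv a| + |lv b|)) < Ht`; `Sm (ell + ...) ≤ const [K:ℚ]` by `hh_ext`), take `N + 1` of them in a common number field. Part (3) (bounded heights) is the same as in `Z5.fibre`. -/
theorem fibre {a b : ℂ} (ha : a ≠ 0) (hb : b ≠ 0) (haa : IsAlgebraic ℚ a) (hba : IsAlgebraic ℚ b)
    {y0 : Fin m → ℂˣ} (hy0 : ∀ i, IsAlgebraic ℚ (y0 i : ℂ)) (hrk0 : rk ({y0} : Set (Fin m → ℂˣ)) ≤ 1)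
    {Ps : Set (Fin 2 ⊕ Fin m → ℂˣ)} (hline : ∀ P ∈ Ps, a * (P (Sum.inl 0) : ℂ) + b * (P (Sum.inl 1) : ℂ) = 1)
    (hy : ∀ P ∈ Ps, ∀ i, P (Sum.inr i) = y0 i) (hrk : ∀ P ∈ Ps, 3 ≤ rk ({P} : Set (Fin 2 ⊕ Fin m → ℂˣ)))
    (hinf : Ps.Infinite) : False := by
  classical
  set S : Set ℂ := {a, b} ∪ Set.range (fun i => (y0 i : ℂ)) with hS
  have hSfin : S.Finite := ((Set.finite_singleton b).insert a).union (Set.finite_range _)
  have hSalg : ∀ z ∈ S, IsIntegral ℚ z := by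
    rintro z ((rfl | rfl) | ⟨i, rfl⟩)
    · exact haa.isIntegral
    · exact hba.isIntegral
    · exact (hy0 i).isIntegral
  have : Finite S := hSfin
  let F : IntermediateField ℚ ℂ := IntermediateField.adjoin ℚ S
  have hFfin : FiniteDimensional ℚ F := IntermediateField.finiteDimensional_adjoin hSalg
  have hFn : NumberField F := ⟨⟩
  let a' : F := ⟨a, IntermediateField.subset_adjoin ℚ S (Or.inl (Or.inl rfl))⟩
  let b' : F := ⟨b, IntermediateField.subset_adjoin ℚ S (Or.inl (Or.inr rfl))⟩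
  let y' : Fin m → F := fun i => ⟨(y0 i : ℂ), IntermediateField.subset_adjoin ℚ S (Or.inr ⟨i, rfl⟩)⟩
  have ha' : a' ≠ 0 := fun h => ha (congrArg Subtype.val h)
  have hb' : b' ≠ 0 := fun h => hb (congrArg Subtype.val h)
  have hy' : ∀ i, y' i ≠ 0 := fun i h => (y0 i).ne_zero (congrArg Subtype.val h)
  have hfin := k2_fin ha' hb' hy'
  let ψ : (Fin 2 ⊕ Fin m → ℂˣ) → ℂ × ℂ := fun P => (P (Sum.inl 0), P (Sum.inl 1))
  have hψ : Set.InjOn ψ Ps := by
    intro P hP P' hP' h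
    have h1 : (P (Sum.inl 0) : ℂ) = P' (Sum.inl 0) := congrArg Prod.fst h
    have h2 : (P (Sum.inl 1) : ℂ) = P' (Sum.inl 1) := congrArg Prod.snd h
    funext i
    rcases i with i | i
    · fin_cases i
      · exact Units.ext h1
      · exact Units.ext h2
    · rw [hy P hP, hy P' hP']
  have hR : ∀ P ∈ Ps, ∀ j : Fin 2, k2_R y' ℂ (P (Sum.inl j) : ℂ) := by
    intro P hP j
    obtain ⟨e, n, he, h⟩ := k2_rel hrk0 (hy P hP) (hrk P hP) j
    refine ⟨e, n, he, ?_⟩
    have h1 := congrArg Units.val h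
    rw [Units.val_zpow_eq_zpow_val] at h1
    rw [h1]
    unfold ch
    rw [Units.coe_prod]
    refine Finset.prod_congr rfl fun i _ => ?_
    rw [Units.val_zpow_eq_zpow_val]
    rfl
  refine hinf.image hψ (hfin.subset ?_)
  rintro _ ⟨P, hP, rfl⟩
  exact ⟨(P _).ne_zero, (P _).ne_zero, hline P hP, hR P hP 0, hR P hP 1⟩

end Pool.Agent.Z6
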