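import Pool.Agent.Z6.K1
import Pool.Agent.Z6.K2
import Pool.Agent.Z5.G3

open MvPolynomial Pool.Agent.MP_dd1803_nt Pool.Agent.ZPA Pool.Agent.ZL2

namespace Pool.Agent.Z6

variable {m : ℕ} {A B C : Polynomial ℂ} {c d : Fin m → ℂ}

/-- Row Z6-G3a. As `Z5.exists_Y`. -/
theorem exists_Y (hm : 2 ≤ m) (hA : A ≠ 0) (hB : B ≠ 0) (hC : C ≠ 0)
    (hAa : ∀ k, IsAlgebraic ℚ (A.coeff k)) (hBa : ∀ k, IsAlgebraic ℚ (B.coeff k)) (hCa : ∀ k, IsAlgebraic ℚ (C.coeff k))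
    (hc : ∀ i, c i ≠ 0) (hca : ∀ i, IsAlgebraic ℚ (c i)) (hd : Function.Injective d)
    (hda : ∀ i, IsAlgebraic ℚ (d i)) (hH : HH c d) (P : ℕ → Fin 2 ⊕ Fin m → ℂˣ)
    (hPV : ∀ n, P n ∈ TP A B C c d) (hPa : ∀ n i, IsAlgebraic ℚ (P n i : ℂ))
    (hinj : Function.Injective (fun n i => P n (Sum.inr i)))
    (hrk : ∀ n, 3 ≤ rk ({P n} : Set (Fin 2 ⊕ Fin m → ℂˣ))) {V : Set (Fin 2 ⊕ Fin m → ℂˣ)} (hV : ZClosed V)
    (hPV' : ∀ n, P n ∈ V) : ∃ Y, Irr Y ∧ Y ⊆ V ∧ 1 ≤ td ℂ Y ∧ 3 ≤ cd Y ∧ ∃ n, P n ∈ Y := by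
  obtain ⟨𝒩, hinf, h⟩ := core_seq hm hA hB hC hAa hBa hCa hc hca hd hda hH P hPV hPa hinj hrk
  have hPinj : Function.Injective P := by
    intro n n' hmn
    apply hinj
    simp only [hmn]
  have hPs : (P '' 𝒩).Infinite := hinf.image hPinj.injOn
  have hsub : P '' 𝒩 ⊆ V := by
    rintro _ ⟨n, -, rfl⟩
    exact hPV' n
  rcases h with ⟨L, h1, h2⟩ | ⟨L, k, h1, hk, h2⟩
  · obtain ⟨Y, y1, y2, y3, y4, Q, ⟨n, -, rfl⟩, y5⟩ := Z5.comp_of_lat hV hPs hsub L (by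
      rintro _ ⟨n, hn, rfl⟩
      exact h2 n hn)
    exact ⟨Y, y1, y2, y3, h1.trans y4, n, y5⟩
  · obtain ⟨Y, y1, y2, y3, y4, Q, ⟨n, -, rfl⟩, y5⟩ := Z5.comp_of_rel hV hPs hsub L hk (by
      rintro _ ⟨n, hn, rfl⟩
      exact h2 n hn)
    refine ⟨Y, y1, y2, y3, ?_, n, y5⟩
    unfold cd
    omega

/-- Row Z6-G3b. As `Z5.repar_y`; the polynomials are composed with `t1 + (t2 - t1) s` (`Polynomial.comp`). -/
theorem repar_y (hm : 0 < m) (hA : A ≠ 0) (hB : B ≠ 0) (hC : C ≠ 0) (hc : ∀ i, c i ≠ 0) (hd : Function.Injective d) (hH : HH c d)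
    {P Q : Fin 2 ⊕ Fin m → ℂˣ}
    (hP : P ∈ TP A B C c d) (hQ : Q ∈ TP A B C c d) (hPa : ∀ i, IsAlgebraic ℚ (P i : ℂ))
    (hQa : ∀ i, IsAlgebraic ℚ (Q i : ℂ)) (hne : (fun i => P (Sum.inr i)) ≠ fun i => Q (Sum.inr i)) :
    ∃ (A' B' C' : Polynomial ℂ) (c' d' : Fin m → ℂ), A' ≠ 0 ∧ B' ≠ 0 ∧ C' ≠ 0 ∧ (∀ i, c' i ≠ 0) ∧
      (∀ i, IsAlgebraic ℚ (c' i)) ∧ Function.Injective d' ∧
      (∀ i, IsAlgebraic ℚ (d' i)) ∧ HH c' d' ∧ TP A B C c d = TP A' B' C' c' d' := by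
  obtain ⟨t1, h1, -⟩ := hP
  obtain ⟨t2, h2, -⟩ := hQ
  have ht : t2 - t1 ≠ 0 := by
    intro h
    apply hne
    funext i
    apply Units.ext
    rw [h1, h2, sub_eq_zero.1 h]
  have hci : ∀ i, c i * (t2 - t1) = (Q (Sum.inr i) : ℂ) - P (Sum.inr i) := by
    intro i
    rw [h1, h2]
    ring
  have hev : ∀ (R : Polynomial ℂ) (s : ℂ),
      (R.comp (Polynomial.C t1 + Polynomial.C (t2 - t1) * Polynomial.X)).eval s = R.eval (t1 + (t2 - t1) * s) := by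
    intro R s
    rw [Polynomial.eval_comp, Polynomial.eval_add, Polynomial.eval_mul, Polynomial.eval_C, Polynomial.eval_C,
      Polynomial.eval_X]
  have hne0 : ∀ R : Polynomial ℂ, R ≠ 0 → R.comp (Polynomial.C t1 + Polynomial.C (t2 - t1) * Polynomial.X) ≠ 0 := by
    intro R hR h
    apply hR
    apply Polynomial.funext
    intro t
    have h3 := hev R ((t - t1) / (t2 - t1))
    rw [h, Polynomial.eval_zero, mul_div_cancel₀ _ ht, add_sub_cancel] at h3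
    rw [← h3, Polynomial.eval_zero]
  refine ⟨A.comp (Polynomial.C t1 + Polynomial.C (t2 - t1) * Polynomial.X),
    B.comp (Polynomial.C t1 + Polynomial.C (t2 - t1) * Polynomial.X),
    C.comp (Polynomial.C t1 + Polynomial.C (t2 - t1) * Polynomial.X),
    fun i => c i * (t2 - t1), fun i => (d i - t1) / (t2 - t1), hne0 A hA, hne0 B hB, hne0 C hC,
    fun i => mul_ne_zero (hc i) ht, ?_, ?_, ?_, ?_, ?_⟩
  · intro i
    simp only [hci]
    exact (hQa _).sub (hPa _)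
  · intro i l h
    apply hd
    have h3 := (div_left_inj' ht).1 h
    linear_combination h3
  · intro i
    have h3 : (d i - t1) / (t2 - t1) = - (P (Sum.inr i) : ℂ) * ((Q (Sum.inr i) : ℂ) - P (Sum.inr i))⁻¹ := by
      rw [← hci i, h1]
      have := hc i
      field_simp
      ring
    simp only [h3]
    exact ((hPa _).neg).mul ((hQa _).sub (hPa _)).inv
  · intro u v huv
    have h3 := hH u v huv
    refine (h3.preimage (f := fun s : ℂ => t1 + s * (t2 - t1)) (Function.Injective.injOn ?_)).subset ?_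
    · intro s s' h4
      have h5 : s * (t2 - t1) = s' * (t2 - t1) := by linear_combination h4
      exact mul_right_cancel₀ ht h5
    · rintro s ⟨q1, q2, q3⟩
      have hL : LY (fun i => c i * (t2 - t1)) (fun i => (d i - t1) / (t2 - t1)) s =
          LY c d (t1 + s * (t2 - t1)) := by
        funext i
        unfold LY
        congr 2
        field_simp
        ring
      rw [hL] at q2 q3
      refine ⟨fun i hi => q1 i ?_, q2, q3⟩
      rw [eq_div_iff ht]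
      linear_combination hi
  · ext x
    constructor
    · rintro ⟨t, q2, q1⟩
      refine ⟨(t - t1) / (t2 - t1), fun i => ?_, ?_⟩
      · rw [q2 i]
        field_simp
        ring
      · rw [hev, hev, hev, mul_div_cancel₀ _ ht, add_sub_cancel]
        exact q1
    · rintro ⟨s, q2, q1⟩
      rw [hev, hev, hev] at q1
      refine ⟨t1 + (t2 - t1) * s, fun i => ?_, q1⟩
      rw [q2 i]
      field_simp
      ring

/-- A linear form applied to the coefficients. -/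
noncomputable def g3cF (f : ℂ →ₗ[acl (∅ : Set ℂ)] acl (∅ : Set ℂ)) (Q : Polynomial ℂ) : Polynomial ℂ :=
  ∑ n ∈ Finset.range (Q.natDegree + 1), Polynomial.monomial n ((f (Q.coeff n) : acl (∅ : Set ℂ)) : ℂ)

theorem g3cF_coeff (f : ℂ →ₗ[acl (∅ : Set ℂ)] acl (∅ : Set ℂ)) (Q : Polynomial ℂ) (k : ℕ) :
    (g3cF f Q).coeff k = ((f (Q.coeff k) : acl (∅ : Set ℂ)) : ℂ) := by
  unfold g3cF
  rw [Polynomial.finsetSum_coeff]
  simp only [Polynomial.coeff_monomial]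
  rw [Finset.sum_ite_eq' (Finset.range (Q.natDegree + 1)) k]
  split_ifs with h
  · rfl
  · rw [Finset.mem_range, not_lt] at h
    rw [Polynomial.coeff_eq_zero_of_natDegree_lt h, map_zero]
    rfl

theorem g3cF_eval (f : ℂ →ₗ[acl (∅ : Set ℂ)] acl (∅ : Set ℂ)) (Q : Polynomial ℂ) (z : acl (∅ : Set ℂ)) :
    (g3cF f Q).eval (z : ℂ) = ((f (Q.eval (z : ℂ)) : acl (∅ : Set ℂ)) : ℂ) := by
  have h1 : Q.eval (z : ℂ) = ∑ n ∈ Finset.range (Q.natDegree + 1), (z ^ n : acl (∅ : Set ℂ)) • Q.coeff n := by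
    rw [Polynomial.eval_eq_sum_range]
    refine Finset.sum_congr rfl fun n _ => ?_
    rw [Algebra.smul_def, mul_comm]
    rfl
  rw [h1, map_sum]
  unfold g3cF
  rw [Polynomial.eval_finsetSum]
  push_cast
  refine Finset.sum_congr rfl fun n _ => ?_
  rw [Polynomial.eval_monomial, map_smul, smul_eq_mul]
  push_cast
  ring

/-- Row Z6-G3c. Algebraic points of a pencil with transcendental coefficients over an algebraic line are on a pencil with algebraic coefficients. Let `k ⊂ ℂ` be the field of algebraic numbers (`algebraicClosure ℚ ℂ`), `λ : ℂ →ₗ[k] k` a linear form with `λ (α) ≠ 0` for one nonzero coefficient `α` of each of `A, B, C`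
(a vector space over an infinite field is not a finite union of proper subspaces; in Mathlib for example `Module.exists_dual_forall_apply_ne_zero`-like lemmas or `Subspace.biUnion_ne_univ...`). `A'` = `A` with `λ` applied to the coefficients, and so on. For an algebraic point `(x, y)` with parameter `t = y_0 / c_0 + d_0` algebraic:
`A(t) x_0 + B(t) x_1 - C(t) = 0` is a linear combination of the coefficients with multipliers in `k`; apply `λ`. -/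
theorem lam_trick (hm : 0 < m) (hA : A ≠ 0) (hB : B ≠ 0) (hC : C ≠ 0) (hc : ∀ i, c i ≠ 0) (hca : ∀ i, IsAlgebraic ℚ (c i))
    (hda : ∀ i, IsAlgebraic ℚ (d i)) :
    ∃ A' B' C' : Polynomial ℂ, A' ≠ 0 ∧ B' ≠ 0 ∧ C' ≠ 0 ∧ (∀ k, IsAlgebraic ℚ (A'.coeff k)) ∧
      (∀ k, IsAlgebraic ℚ (B'.coeff k)) ∧ (∀ k, IsAlgebraic ℚ (C'.coeff k)) ∧
      ∀ P ∈ TP A B C c d, (∀ i, IsAlgebraic ℚ (P i : ℂ)) → P ∈ TP A' B' C' c d := by
  obtain ⟨f, hf⟩ := Module.exists_dual_forall_apply_ne_zero (K := acl (∅ : Set ℂ))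
    (![A.leadingCoeff, B.leadingCoeff, C.leadingCoeff] : Fin 3 → ℂ) (by
      intro i
      fin_cases i
      · exact Polynomial.leadingCoeff_ne_zero.2 hA
      · exact Polynomial.leadingCoeff_ne_zero.2 hB
      · exact Polynomial.leadingCoeff_ne_zero.2 hC)
  have hne : ∀ Q : Polynomial ℂ, f Q.leadingCoeff ≠ 0 → g3cF f Q ≠ 0 := by
    intro Q hQ h
    apply hQ
    have h1 := g3cF_coeff f Q Q.natDegree
    rw [h, Polynomial.coeff_zero] at h1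
    exact Subtype.ext h1.symm
  have hal : ∀ (Q : Polynomial ℂ) k, IsAlgebraic ℚ ((g3cF f Q).coeff k) := by
    intro Q k
    rw [g3cF_coeff]
    exact mem_acl_empty.1 (f (Q.coeff k)).2
  refine ⟨g3cF f A, g3cF f B, g3cF f C, hne A (hf 0), hne B (hf 1), hne C (hf 2), hal A, hal B, hal C, ?_⟩
  rintro P ⟨t, ht, hl⟩ hPa
  have hta : IsAlgebraic ℚ t := by
    have h1 : t = (P (Sum.inr ⟨0, hm⟩) : ℂ) * (c ⟨0, hm⟩)⁻¹ + d ⟨0, hm⟩ := by
      rw [ht]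
      have := hc ⟨0, hm⟩
      field_simp
      ring
    rw [h1]
    exact ((hPa _).mul (hca _).inv).add (hda _)
  refine ⟨t, ht, ?_⟩
  obtain ⟨z, hz⟩ : ∃ z : acl (∅ : Set ℂ), (z : ℂ) = t := ⟨⟨t, mem_acl_empty.2 hta⟩, rfl⟩
  obtain ⟨p0, hp0⟩ : ∃ z : acl (∅ : Set ℂ), (z : ℂ) = (P (Sum.inl 0) : ℂ) := ⟨⟨_, mem_acl_empty.2 (hPa _)⟩, rfl⟩
  obtain ⟨p1, hp1⟩ : ∃ z : acl (∅ : Set ℂ), (z : ℂ) = (P (Sum.inl 1) : ℂ) := ⟨⟨_, mem_acl_empty.2 (hPa _)⟩, rfl⟩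
  rw [← hz, ← hp0, ← hp1] at hl ⊢
  rw [g3cF_eval, g3cF_eval, g3cF_eval]
  have h1 : f (p0 • A.eval (z : ℂ) + p1 • B.eval (z : ℂ)) = f (C.eval (z : ℂ)) := by
    congr 1
    rw [← hl, Algebra.smul_def, Algebra.smul_def, mul_comm, mul_comm (algebraMap _ _ p1)]
    rfl
  rw [map_add, map_smul, map_smul, smul_eq_mul, smul_eq_mul] at h1
  have h2 := congrArg (fun w : acl (∅ : Set ℂ) => (w : ℂ)) h1
  push_cast at h2
  linear_combination h2

theorem g3d_alg {a b p0 p1 q0 q1 : ℂ} (h1 : a * p0 + b * p1 = 1) (h2 : a * q0 + b * q1 = 1) (hp0 : p0 ≠ 0)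
    (a0 : IsAlgebraic ℚ p0) (a1 : IsAlgebraic ℚ p1) (b0 : IsAlgebraic ℚ q0) (b1 : IsAlgebraic ℚ q1)
    (hne : ¬ (p0 = q0 ∧ p1 = q1)) : IsAlgebraic ℚ a ∧ IsAlgebraic ℚ b := by
  by_cases hD : p0 * q1 - p1 * q0 = 0
  · exfalso
    apply hne
    have h3 : p0 = q0 := by
      linear_combination q0 * h1 - p0 * h2 + b * hD
    have h4 : p1 = q1 := by
      apply mul_left_cancel₀ hp0
      linear_combination p1 * h3 - hD
    exact ⟨h3, h4⟩
  · have ea : a = (q1 - p1) * (p0 * q1 - p1 * q0)⁻¹ := by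
      rw [← div_eq_mul_inv, eq_div_iff hD]
      linear_combination q1 * h1 - p1 * h2
    have eb : b = (p0 - q0) * (p0 * q1 - p1 * q0)⁻¹ := by
      rw [← div_eq_mul_inv, eq_div_iff hD]
      linear_combination p0 * h2 - q0 * h1
    have hDa := ((a0.mul b1).sub (a1.mul b0)).inv
    constructor
    · rw [ea]
      exact (b1.sub a1).mul hDa
    · rw [eb]
      exact (a0.sub b0).mul hDa

/-- The case where a monomial of the `x`-part is constant. -/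
theorem g3d_case2 {V : Set (Fin 2 ⊕ Fin m → ℂˣ)} (hV : ZClosed V) {Ps : Set (Fin 2 ⊕ Fin m → ℂˣ)} (hPV : Ps ⊆ V)
    (hrk : ∀ P ∈ Ps, 3 ≤ rk ({P} : Set (Fin 2 ⊕ Fin m → ℂˣ))) (hinf : Ps.Infinite)
    (ψ : (Fin 2 ⊕ Fin m → ℤ) →ₗ[ℤ] ℤ)
    (hψ : ∀ v, ψ v = 0 → ∀ P ∈ Ps, ∀ Q ∈ Ps, ch v P = ch v Q) :
    ∃ Y, Irr Y ∧ Y ⊆ V ∧ 1 ≤ td ℂ Y ∧ 3 ≤ cd Y ∧ ∃ P ∈ Ps, P ∈ Y := by
  obtain ⟨P0, hP0⟩ := hinf.nonempty
  obtain ⟨k, hk, h1⟩ := Z5.g3_exp P0
  obtain ⟨Y, y1, y2, y3, y4, y5⟩ := Z5.comp_of_rel hV hinf hPV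
    (Lam ({P0} : Set (Fin 2 ⊕ Fin m → ℂˣ)) ⊓ LinearMap.ker ψ) hk (by
      rintro P hP v ⟨hv1, hv2⟩
      rw [hψ v hv2 P hP P0 hP0]
      exact h1 v hv1)
  refine ⟨Y, y1, y2, y3, ?_, y5⟩
  have h2 := finrank_le_ker_add (ψ.comp (Lam ({P0} : Set (Fin 2 ⊕ Fin m → ℂˣ))).subtype)
  have h3 : Module.finrank ℤ (LinearMap.ker (ψ.comp (Lam ({P0} : Set (Fin 2 ⊕ Fin m → ℂˣ))).subtype)) ≤
      Module.finrank ℤ ((Lam ({P0} : Set (Fin 2 ⊕ Fin m → ℂˣ)) ⊓ LinearMap.ker ψ :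
        Submodule ℤ (Fin 2 ⊕ Fin m → ℤ))) := by
    let f : LinearMap.ker (ψ.comp (Lam ({P0} : Set (Fin 2 ⊕ Fin m → ℂˣ))).subtype) →ₗ[ℤ]
        ((Lam ({P0} : Set (Fin 2 ⊕ Fin m → ℂˣ)) ⊓ LinearMap.ker ψ : Submodule ℤ (Fin 2 ⊕ Fin m → ℤ))) :=
      LinearMap.codRestrict _ ((Lam ({P0} : Set (Fin 2 ⊕ Fin m → ℂˣ))).subtype.comp (Submodule.subtype _)) (by
        rintro ⟨⟨v, hv⟩, hv2⟩
        exact ⟨hv, hv2⟩)
    apply LinearMap.finrank_le_finrank_of_injective (f := f)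
    rintro ⟨⟨v, hv⟩, hv2⟩ ⟨⟨w, hw⟩, hw2⟩ h
    have h4 := congrArg Subtype.val h
    exact Subtype.ext (Subtype.ext h4)
  have h4 := hrk P0 hP0
  have h5 : rk ({P0} : Set (Fin 2 ⊕ Fin m → ℂˣ)) = Module.finrank ℤ (Lam ({P0} : Set (Fin 2 ⊕ Fin m → ℂˣ))) := rfl
  have h6 := Submodule.finrank_le (LinearMap.range (ψ.comp (Lam ({P0} : Set (Fin 2 ⊕ Fin m → ℂˣ))).subtype))
  rw [Module.finrank_self] at h6
  unfold cd
  omega

/-- Row Z6-G3d. Infinitely many points over one point `y0` (parameter `t0`, unique). Not all of `A(t0), B(t0), C(t0)` are zero (`hcop`; `t0 ≠ d i` because `y0 i ≠ 0`). CASE 1: all three nonzero. As `Z5.exists_Y_fibre`, with `a = A(t0)/C(t0)`, `b = B(t0)/C(t0)`, which are algebraic (two points with different `x`-parts and Cramer, compare `Z5.alg_ab`),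
`fibre` (row K2). CASE 2: exactly one is zero (two zeros are impossible: a monomial would be zero). Then for all `P ∈ Ps` one character `e` of the `x`-part has the same value: `e = x_0 / x_1` if `C(t0) = 0`, `e = x_1` if `A(t0) = 0`, `e = x_0` if `B(t0) = 0`. Fix `P0 ∈ Ps`, `L` = the `v ∈ Lam {P0}` with `v_0 + v_1 = 0` (resp. `v_0 = 0`, resp. `v_1 = 0`):
`finrank L ≥ 3 - 1 = 2` (`finrank_le_ker_add`), `ch v P = ch v P0` for all `P ∈ Ps`, `v ∈ L`, and a common exponent `k > 0` with `ch v P0 ^ k = 1` on `L` (finitely generated). `comp_of_rel` (row G2 of Z5). -/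
theorem exists_Y_fibre (hm : 0 < m) (hA : A ≠ 0) (hB : B ≠ 0) (hC : C ≠ 0)
    (hcop : ∀ t, (∀ i, t ≠ d i) → ¬ (A.eval t = 0 ∧ B.eval t = 0 ∧ C.eval t = 0)) (hc : ∀ i, c i ≠ 0)
    {V : Set (Fin 2 ⊕ Fin m → ℂˣ)} (hV : ZClosed V)
    {y0 : Fin m → ℂˣ} {Ps : Set (Fin 2 ⊕ Fin m → ℂˣ)} (hPs : Ps ⊆ TP A B C c d) (hPV : Ps ⊆ V)
    (hPa : ∀ P ∈ Ps, ∀ i, IsAlgebraic ℚ (P i : ℂ)) (hy : ∀ P ∈ Ps, ∀ i, P (Sum.inr i) = y0 i)
    (hrk : ∀ P ∈ Ps, 3 ≤ rk ({P} : Set (Fin 2 ⊕ Fin m → ℂˣ))) (hinf : Ps.Infinite) :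
    ∃ Y, Irr Y ∧ Y ⊆ V ∧ 1 ≤ td ℂ Y ∧ 3 ≤ cd Y ∧ ∃ P ∈ Ps, P ∈ Y := by
  classical
  obtain ⟨P, hP, Q, hQ, hPQ⟩ := hinf.nontrivial
  have hy0 : ∀ i, IsAlgebraic ℚ (y0 i : ℂ) := fun i => by
    rw [← hy P hP i]
    exact hPa P hP _
  obtain ⟨t0, ht0, hl0⟩ := hPs hP
  have hyt : ∀ i, (y0 i : ℂ) = c i * (t0 - d i) := fun i => by rw [← hy P hP i]; exact ht0 i
  have htd : ∀ i, t0 ≠ d i := by
    intro i h
    have h1 := hyt i
    rw [h, sub_self, mul_zero] at h1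
    exact (y0 i).ne_zero h1
  have hline : ∀ R ∈ Ps, A.eval t0 * (R (Sum.inl 0) : ℂ) + B.eval t0 * (R (Sum.inl 1) : ℂ) = C.eval t0 := by
    intro R hR
    obtain ⟨t, ht, hl⟩ := hPs hR
    have h1 : t = t0 := by
      have h2 := ht ⟨0, hm⟩
      rw [hy R hR, hyt] at h2
      have h3 := mul_left_cancel₀ (hc _) h2
      linear_combination -h3
    rw [← h1]
    exact hl
  have hchY : ∀ (v : Fin 2 ⊕ Fin m → ℤ) (R : Fin 2 ⊕ Fin m → ℂˣ), R ∈ Ps →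
      ch v R = R (Sum.inl 0) ^ v (Sum.inl 0) * R (Sum.inl 1) ^ v (Sum.inl 1) * ∏ i, y0 i ^ v (Sum.inr i) := by
    intro v R hR
    unfold ch
    rw [Fintype.prod_sum_type, Fin.prod_univ_two]
    congr 1
    exact Finset.prod_congr rfl fun i _ => by rw [hy R hR i]
  by_cases hA0 : A.eval t0 = 0
  · -- `x_1` is constant
    have hB0 : B.eval t0 ≠ 0 := by
      intro h
      refine hcop t0 htd ⟨hA0, h, ?_⟩
      rw [← hl0, hA0, h]
      ring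
    refine g3d_case2 hV hPV hrk hinf (LinearMap.proj (Sum.inl 0)) fun v hv R hR R' hR' => ?_
    have hv0 : v (Sum.inl 0) = 0 := hv
    have e1 := hline R hR
    have e2 := hline R' hR'
    have e3 : R (Sum.inl 1) = R' (Sum.inl 1) := by
      apply Units.ext
      apply mul_left_cancel₀ hB0
      rw [hA0] at e1 e2
      linear_combination e1 - e2
    rw [hchY v R hR, hchY v R' hR', hv0, zpow_zero, zpow_zero, e3]
  by_cases hB0 : B.eval t0 = 0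
  · refine g3d_case2 hV hPV hrk hinf (LinearMap.proj (Sum.inl 1)) fun v hv R hR R' hR' => ?_
    have hv0 : v (Sum.inl 1) = 0 := hv
    have e1 := hline R hR
    have e2 := hline R' hR'
    have e3 : R (Sum.inl 0) = R' (Sum.inl 0) := by
      apply Units.ext
      apply mul_left_cancel₀ hA0
      rw [hB0] at e1 e2
      linear_combination e1 - e2
    rw [hchY v R hR, hchY v R' hR', hv0, zpow_zero, zpow_zero, e3]
  by_cases hC0 : C.eval t0 = 0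
  · refine g3d_case2 hV hPV hrk hinf ((LinearMap.proj (Sum.inl 0) : (Fin 2 ⊕ Fin m → ℤ) →ₗ[ℤ] ℤ) +
      LinearMap.proj (Sum.inl 1))
      fun v hv R hR R' hR' => ?_
    have hv0 : v (Sum.inl 0) + v (Sum.inl 1) = 0 := hv
    have e1 := hline R hR
    have e2 := hline R' hR'
    have hv1 : v (Sum.inl 1) = - v (Sum.inl 0) := by omega
    have e3 : R (Sum.inl 0) * (R (Sum.inl 1))⁻¹ = R' (Sum.inl 0) * (R' (Sum.inl 1))⁻¹ := by
      rw [← div_eq_mul_inv, ← div_eq_mul_inv, div_eq_div_iff_mul_eq_mul]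
      apply Units.ext
      rw [Units.val_mul, Units.val_mul]
      apply mul_left_cancel₀ hA0
      rw [hC0] at e1 e2
      linear_combination (R' (Sum.inl 1) : ℂ) * e1 - (R (Sum.inl 1) : ℂ) * e2
    have e4 : ∀ S : Fin 2 ⊕ Fin m → ℂˣ, S (Sum.inl 0) ^ v (Sum.inl 0) * S (Sum.inl 1) ^ v (Sum.inl 1) =
        (S (Sum.inl 0) * (S (Sum.inl 1))⁻¹) ^ v (Sum.inl 0) := by
      intro S
      rw [hv1, mul_zpow, inv_zpow, zpow_neg]
    rw [hchY v R hR, hchY v R' hR', e4, e4, e3]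
  -- the general case
  have hane : A.eval t0 / C.eval t0 ≠ 0 := div_ne_zero hA0 hC0
  have hbne : B.eval t0 / C.eval t0 ≠ 0 := div_ne_zero hB0 hC0
  have hl1 : ∀ R ∈ Ps, A.eval t0 / C.eval t0 * (R (Sum.inl 0) : ℂ) + B.eval t0 / C.eval t0 * (R (Sum.inl 1) : ℂ) = 1 := by
    intro R hR
    have h1 := hline R hR
    field_simp
    linear_combination h1
  have hxne : ¬ ((P (Sum.inl 0) : ℂ) = Q (Sum.inl 0) ∧ (P (Sum.inl 1) : ℂ) = Q (Sum.inl 1)) := by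
    rintro ⟨h1, h2⟩
    apply hPQ
    funext i
    rcases i with i | i
    · fin_cases i
      · exact Units.ext h1
      · exact Units.ext h2
    · rw [hy P hP i, hy Q hQ i]
  obtain ⟨haa, hba⟩ := g3d_alg (hl1 P hP) (hl1 Q hQ) (Units.ne_zero _) (hPa P hP _) (hPa P hP _) (hPa Q hQ _)
    (hPa Q hQ _) hxne
  by_cases hrk0 : rk ({y0} : Set (Fin m → ℂˣ)) ≤ 1
  · exact absurd (fibre hane hbne haa hba hy0 hrk0 hl1 hy hrk hinf) id
  · obtain ⟨k, hk, h1⟩ := Z5.g3_exp y0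
    have hinj : Function.Injective (inrM : (Fin m → ℤ) →ₗ[ℤ] (Fin 2 ⊕ Fin m → ℤ)) := by
      intro v w h
      funext i
      exact congrFun h (Sum.inr i)
    obtain ⟨Y, y1, y2, y3, y4, y5⟩ := Z5.comp_of_rel hV hinf hPV
      ((Lam ({y0} : Set (Fin m → ℂˣ))).map (inrM : (Fin m → ℤ) →ₗ[ℤ] (Fin 2 ⊕ Fin m → ℤ))) hk (by
        rintro P hP _ ⟨v, hv, rfl⟩
        rw [ch_inrM]
        have h2 : P ∘ Sum.inr = y0 := funext fun i => hy P hP i
        rw [h2]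
        exact h1 v hv)
    have h3 := (Submodule.equivMapOfInjective _ hinj (Lam ({y0} : Set (Fin m → ℂˣ)))).finrank_eq
    rw [← h3] at y4
    refine ⟨Y, y1, y2, y3, ?_, y5⟩
    have h4 : rk ({y0} : Set (Fin m → ℂˣ)) = Module.finrank ℤ (Lam ({y0} : Set (Fin m → ℂˣ))) := rfl
    unfold cd
    omega

end Pool.Agent.Z6
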