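import Pool.Agent.Z6.G3
import Pool.Agent.Z5.G4

open MvPolynomial Pool.Agent.MP_dd1803_nt Pool.Agent.ZPA Pool.Agent.ZL2

namespace Pool.Agent.Z6

variable {m : ℕ} {A B C : Polynomial ℂ} {c d : Fin m → ℂ}

theorem g4_dt_smul_left (s : ℝ) (u v : Fin m → ℝ) : dt (s • u) v = s * dt u v := by
  unfold dt
  rw [Finset.mul_sum]
  exact Finset.sum_congr rfl fun i _ => by rw [Pi.smul_apply, smul_eq_mul, mul_assoc]

theorem g4_dt_comm (u v : Fin m → ℝ) : dt u v = dt v u := by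
  unfold dt
  exact Finset.sum_congr rfl fun i _ => mul_comm _ _

theorem g4_dt_smul_right (s : ℝ) (u v : Fin m → ℝ) : dt u (s • v) = s * dt u v := by
  rw [g4_dt_comm, g4_dt_smul_left, g4_dt_comm]

theorem g4_dt_sub_right (u v w : Fin m → ℝ) : dt u (v - w) = dt u v - dt u w := by
  unfold dt
  rw [← Finset.sum_sub_distrib]
  exact Finset.sum_congr rfl fun i _ => by rw [Pi.sub_apply, mul_sub]

theorem g4_dt_pos {u : Fin m → ℝ} (h : u ≠ 0) : 0 < dt u u := by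
  obtain ⟨i, hi⟩ := Function.ne_iff.1 h
  unfold dt
  refine Finset.sum_pos' (fun j _ => mul_self_nonneg _) ⟨i, Finset.mem_univ i, ?_⟩
  exact mul_self_pos.2 hi

theorem g4_norm {u : Fin m → ℝ} (h : u ≠ 0) : ∃ s : ℝ, dt (s • u) (s • u) = 1 := by
  have h1 := g4_dt_pos h
  have h2 : Real.sqrt (dt u u) ≠ 0 := (Real.sqrt_pos.2 h1).ne'
  refine ⟨(Real.sqrt (dt u u))⁻¹, ?_⟩
  rw [g4_dt_smul_left, g4_dt_smul_right]
  have h3 : Real.sqrt (dt u u) * Real.sqrt (dt u u) = dt u u := Real.mul_self_sqrt h1.le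
  nth_rewrite 3 [← h3]
  field_simp

theorem g4_gs {N : Submodule ℝ (Fin m → ℝ)} {r1 r2 : Fin m → ℝ} (h1 : r1 ≠ 0) (h2 : ∀ s : ℝ, s • r1 ≠ r2)
    (m1 : r1 ∈ N) (m2 : r2 ∈ N) : ∃ u v : Fin m → ℝ, dt u u = 1 ∧ dt v v = 1 ∧ dt u v = 0 ∧ u ∈ N ∧ v ∈ N := by
  obtain ⟨s1, hs1⟩ := g4_norm h1
  have hw : r2 - dt (s1 • r1) r2 • (s1 • r1) ≠ 0 := by
    intro h
    refine h2 (dt (s1 • r1) r2 * s1) ?_
    rw [← smul_smul]
    exact (sub_eq_zero.1 h).symm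
  obtain ⟨s2, hs2⟩ := g4_norm hw
  refine ⟨s1 • r1, s2 • (r2 - dt (s1 • r1) r2 • (s1 • r1)), hs1, hs2, ?_, N.smul_mem _ m1,
    N.smul_mem _ (N.sub_mem m2 (N.smul_mem _ (N.smul_mem _ m1)))⟩
  rw [g4_dt_smul_right, g4_dt_sub_right, g4_dt_smul_right, hs1, mul_one, sub_self, mul_zero]

/-- The vectors with zero `x`-part. -/
def g4_in (m : ℕ) : (Fin m → ℝ) →ₗ[ℝ] (Fin 2 ⊕ Fin m → ℝ) where
  toFun w := Sum.elim 0 w
  map_add' v w := by
    funext k
    rcases k with k | k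
    · exact (add_zero (0 : ℝ)).symm
    · rfl
  map_smul' r w := by
    funext k
    rcases k with k | k
    · exact (mul_zero r).symm
    · rfl

theorem g4_ch (v : Fin m → ℤ) (P : Fin 2 ⊕ Fin m → ℂˣ) :
    ch (Sum.elim 0 v : Fin 2 ⊕ Fin m → ℤ) P = ch v (fun i => P (Sum.inr i)) := by
  unfold ch
  rw [Fintype.prod_sum_type]
  have h1 : ∏ x : Fin 2, P (Sum.inl x) ^ (Sum.elim 0 v : Fin 2 ⊕ Fin m → ℤ) (Sum.inl x) = 1 :=
    Finset.prod_eq_one fun x _ => zpow_zero _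
  rw [h1, one_mul]
  rfl

/-- Row Z6-G4a. As `Z5.finite_pts`, with `repar_y`, then `lam_trick` for the new data, `exists_Y` for the algebraic pencil and `V = TP A B C c d`; `exists_Y_fibre`. (`repar_y` gives `TP A B C c d = TP A' B' C' c' d'`; the data `A', B', C'` may be transcendental, then `lam_trick`.) -/
theorem finite_pts (hm : 2 ≤ m) (hA : A ≠ 0) (hB : B ≠ 0) (hC : C ≠ 0)
    (hcop : ∀ t, (∀ i, t ≠ d i) → ¬ (A.eval t = 0 ∧ B.eval t = 0 ∧ C.eval t = 0)) (hc : ∀ i, c i ≠ 0)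
    (hd : Function.Injective d) (hH : HH c d) :
    {P : Fin 2 ⊕ Fin m → ℂˣ | P ∈ TP A B C c d ∧ (∀ i, IsAlgebraic ℚ (P i : ℂ)) ∧
      3 ≤ rk ({P} : Set (Fin 2 ⊕ Fin m → ℂˣ)) ∧
      ∀ Y, Irr Y → Y ⊆ TP A B C c d → 3 ≤ cd Y → P ∈ Y → td ℂ Y = 0}.Finite := by
  classical
  have hm0 : 0 < m := by omega
  by_contra hinf
  obtain ⟨S, hS⟩ : ∃ S : Set (Fin 2 ⊕ Fin m → ℂˣ), S = {P : Fin 2 ⊕ Fin m → ℂˣ | P ∈ TP A B C c d ∧
      (∀ i, IsAlgebraic ℚ (P i : ℂ)) ∧ 3 ≤ rk ({P} : Set (Fin 2 ⊕ Fin m → ℂˣ)) ∧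
      ∀ Y, Irr Y → Y ⊆ TP A B C c d → 3 ≤ cd Y → P ∈ Y → td ℂ Y = 0} := ⟨_, rfl⟩
  rw [← hS] at hinf
  have hmem : ∀ P ∈ S, P ∈ TP A B C c d ∧ (∀ i, IsAlgebraic ℚ (P i : ℂ)) ∧
      3 ≤ rk ({P} : Set (Fin 2 ⊕ Fin m → ℂˣ)) ∧
      ∀ Y, Irr Y → Y ⊆ TP A B C c d → 3 ≤ cd Y → P ∈ Y → td ℂ Y = 0 := fun P hP => by
    rw [hS] at hP
    exact hP
  have hV : ZClosed (TP A B C c d) := zclosed_TP hm0 hc
  by_cases hfib : ∃ y0 : Fin m → ℂˣ, {P | P ∈ S ∧ ∀ i, P (Sum.inr i) = y0 i}.Infinite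
  · obtain ⟨y0, hy0⟩ := hfib
    obtain ⟨Y, hY, hYV, htd, hcd, P, hP, hPY⟩ := exists_Y_fibre hm0 hA hB hC hcop hc hV
      (Ps := {P | P ∈ S ∧ ∀ i, P (Sum.inr i) = y0 i}) (fun P hP => (hmem P hP.1).1)
      (fun P hP => (hmem P hP.1).1) (fun P hP => (hmem P hP.1).2.1) (fun P hP => hP.2)
      (fun P hP => (hmem P hP.1).2.2.1) hy0
    have h1 := (hmem P hP.1).2.2.2 Y hY hYV hcd hPY
    omega
  · push Not at hfib
    have himg : ((fun (P : Fin 2 ⊕ Fin m → ℂˣ) (i : Fin m) => P (Sum.inr i)) '' S).Infinite := by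
      intro hfin
      apply hinf
      refine (hfin.biUnion (t := fun y0 => {P | P ∈ S ∧ ∀ i, P (Sum.inr i) = y0 i})
        fun y0 _ => ?_).subset ?_
      · exact hfib y0
      · intro P hP
        simp only [Set.mem_iUnion]
        exact ⟨_, ⟨P, hP, rfl⟩, hP, fun i => rfl⟩
    have hex : ∀ n : ℕ, ∃ P ∈ S, (fun i : Fin m => P (Sum.inr i)) = (himg.natEmbedding _ n : Fin m → ℂˣ) := by
      intro n
      obtain ⟨P, hP, h⟩ := (himg.natEmbedding _ n).2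
      exact ⟨P, hP, h⟩
    choose P hPS hPe using hex
    have hinj : Function.Injective (fun n i => P n (Sum.inr i)) := by
      intro k n hmn
      have h1 : (fun i : Fin m => P k (Sum.inr i)) = fun i => P n (Sum.inr i) := hmn
      rw [hPe k, hPe n] at h1
      exact (himg.natEmbedding _).injective (Subtype.ext h1)
    have hne : (fun i => P 0 (Sum.inr i)) ≠ fun i => P 1 (Sum.inr i) := fun h =>
      zero_ne_one (hinj h)
    obtain ⟨A', B', C', c', d', hA', hB', hC', hc', hca', hd', hda', hH', hTP⟩ := repar_y hm0 hA hB hC hc hd hH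
      (hmem _ (hPS 0)).1 (hmem _ (hPS 1)).1 (hmem _ (hPS 0)).2.1 (hmem _ (hPS 1)).2.1 hne
    obtain ⟨A2, B2, C2, hA2, hB2, hC2, hAa, hBa, hCa, hlam⟩ := lam_trick hm0 hA' hB' hC' hc' hca' hda'
    obtain ⟨Y, hY, hYV, htd, hcd, n, hPY⟩ := exists_Y hm hA2 hB2 hC2 hAa hBa hCa hc' hca' hd' hda' hH' P
      (fun n => hlam _ (by rw [← hTP]; exact (hmem _ (hPS n)).1) (hmem _ (hPS n)).2.1)
      (fun n => (hmem _ (hPS n)).2.1) hinj (fun n => (hmem _ (hPS n)).2.2.1) hV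
      (fun n => (hmem _ (hPS n)).1)
    have h1 := (hmem _ (hPS n)).2.2.2 Y hY hYV hcd hPY
    omega

/-- Row Z6-G4b. Only finitely many algebraic points of the line have two independent relations. Otherwise a sequence `y n` of different ones, parameters `t n` (algebraic, different); `exists_Ar`-like data (see the proof of `exists_Ar`, row K4a; or apply `exists_Ar` itself) with the dummy first part `A = B = C = 1`, `X = 2`: the points
`P n = (2, -1, y n) ∈ TP 1 1 1 c d`; two independent elements of `Lam {y n}` give two independent real (orthonormal) relations between the `lv p (y i)` (`linearIndependent_algebraMap_comp_iff` and Gram-Schmidt for two vectors): contradiction with `Ar.finite_two` (row K3a). -/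
theorem finite_rk2 (hm : 2 ≤ m) (hc : ∀ i, c i ≠ 0) (hca : ∀ i, IsAlgebraic ℚ (c i)) (hd : Function.Injective d)
    (hda : ∀ i, IsAlgebraic ℚ (d i)) (hH : HH c d) :
    {y : Fin m → ℂˣ | (∃ t : ℂ, ∀ i, (y i : ℂ) = c i * (t - d i)) ∧ (∀ i, IsAlgebraic ℚ (y i : ℂ)) ∧
      2 ≤ rk ({y} : Set (Fin m → ℂˣ))}.Finite := by
  classical
  by_contra hinf
  obtain ⟨T, hT⟩ : ∃ T : Set (Fin m → ℂˣ), T = {y : Fin m → ℂˣ | (∃ t : ℂ, ∀ i, (y i : ℂ) = c i * (t - d i)) ∧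
      (∀ i, IsAlgebraic ℚ (y i : ℂ)) ∧ 2 ≤ rk ({y} : Set (Fin m → ℂˣ))} := ⟨_, rfl⟩
  rw [← hT] at hinf
  have hTi : T.Infinite := hinf
  have hmem : ∀ y ∈ T, (∃ t : ℂ, ∀ i, (y i : ℂ) = c i * (t - d i)) ∧
      (∀ i, IsAlgebraic ℚ (y i : ℂ)) ∧ 2 ≤ rk ({y} : Set (Fin m → ℂˣ)) := fun y hy => by
    rw [hT] at hy
    exact hy
  obtain ⟨y, hy⟩ : ∃ y : ℕ → Fin m → ℂˣ, y = fun n => (hTi.natEmbedding T n : Fin m → ℂˣ) := ⟨_, rfl⟩
  have hyT : ∀ n, y n ∈ T := fun n => by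
    rw [hy]
    exact (hTi.natEmbedding T n).2
  have hyi : Function.Injective y := by
    intro k n h
    rw [hy] at h
    exact (hTi.natEmbedding T).injective (Subtype.ext h)
  obtain ⟨P, hP⟩ : ∃ P : ℕ → Fin 2 ⊕ Fin m → ℂˣ,
      P = fun n => Sum.elim ![Units.mk0 (2 : ℂ) two_ne_zero, -1] (y n) := ⟨_, rfl⟩
  have hP0 : ∀ n, (P n (Sum.inl 0) : ℂ) = 2 := fun n => by
    rw [hP]
    rfl
  have hP1 : ∀ n, (P n (Sum.inl 1) : ℂ) = -1 := fun n => by
    rw [hP]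
    rfl
  have hPy : ∀ n i, P n (Sum.inr i) = y n i := fun n i => by
    rw [hP]
    rfl
  have h1a : ∀ k, IsAlgebraic ℚ ((1 : Polynomial ℂ).coeff k) := by
    intro k
    rw [Polynomial.coeff_one]
    split_ifs
    · exact isAlgebraic_one
    · exact isAlgebraic_zero
  have h2a : IsAlgebraic ℚ (2 : ℂ) := by
    have := isAlgebraic_algebraMap (R := ℚ) (A := ℂ) (2 : ℚ)
    simpa using this
  have h3a : IsAlgebraic ℚ (-1 : ℂ) := by
    have := isAlgebraic_algebraMap (R := ℚ) (A := ℂ) (-1 : ℚ)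
    simpa using this
  have hPV : ∀ n, P n ∈ TP (1 : Polynomial ℂ) 1 1 c d := by
    intro n
    obtain ⟨t, ht⟩ := (hmem _ (hyT n)).1
    refine ⟨t, fun i => ?_, ?_⟩
    · rw [hPy]
      exact ht i
    · rw [hP0, hP1, Polynomial.eval_one]
      norm_num
  have hPa : ∀ n i, IsAlgebraic ℚ (P n i : ℂ) := by
    intro n i
    rcases i with i | i
    · fin_cases i
      · show IsAlgebraic ℚ (P n (Sum.inl 0) : ℂ)
        rw [hP0]
        exact h2a
      · show IsAlgebraic ℚ (P n (Sum.inl 1) : ℂ)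
        rw [hP1]
        exact h3a
    · rw [hPy]
      exact (hmem _ (hyT n)).2.1 i
  obtain ⟨F, _, _, _, A', B', C', c', d', x', S, _, hpt, _⟩ := exists_Ar (A := 1) (B := 1) (C := 1) hm one_ne_zero
    one_ne_zero one_ne_zero h1a h1a h1a hc hca hd hda hH P hPV
    (fun n t _ => by
      rw [Polynomial.eval_one]
      exact ⟨one_ne_zero, one_ne_zero, one_ne_zero⟩) hPa
    (by
      have e : (fun n i => P n (Sum.inr i)) = y := by
        funext n i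
        exact hPy n i
      rw [e]
      exact hyi) (x0 := 1) isAlgebraic_one
  have hfin := S.finite_two
  refine Set.infinite_univ (α := ℕ) (hfin.subset fun n _ => ?_)
  have hrk := (hmem _ (hyT n)).2.2
  unfold rk at hrk
  obtain ⟨Bs⟩ : Nonempty (Module.Basis (Fin (Module.finrank ℤ (Lam ({y n} : Set (Fin m → ℂˣ))))) ℤ
    (Lam ({y n} : Set (Fin m → ℂˣ)))) := ⟨Module.finBasis ℤ _⟩
  have h1 : LinearIndependent ℤ (fun i => ((Bs i : Lam ({y n} : Set (Fin m → ℂˣ))) : Fin m → ℤ)) :=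
    Bs.linearIndependent.map' (Lam ({y n} : Set (Fin m → ℂˣ))).subtype (Submodule.ker_subtype _)
  have h2 : LinearIndependent ℝ (fun i => (algebraMap ℤ ℝ) ∘
      ((Bs i : Lam ({y n} : Set (Fin m → ℂˣ))) : Fin m → ℤ)) := by
    rw [linearIndependent_algebraMap_comp_iff]
    exact h1
  have h3 := h2.comp (Fin.castLE hrk) (Fin.castLE_injective hrk)
  rw [linearIndependent_fin2] at h3
  have hN : ∀ i, (algebraMap ℤ ℝ) ∘ ((Bs i : Lam ({y n} : Set (Fin m → ℂˣ))) : Fin m → ℤ) ∈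
      (S.N n).comap (g4_in m) := by
    intro i
    rw [Submodule.mem_comap]
    obtain ⟨k, hk, h4⟩ := (Bs i).2
    have h5 : (Sum.elim 0 ((Bs i : Lam ({y n} : Set (Fin m → ℂˣ))) : Fin m → ℤ) : Fin 2 ⊕ Fin m → ℤ) ∈
        Lam ({P n} : Set (Fin 2 ⊕ Fin m → ℂˣ)) := by
      refine ⟨k, hk, fun x hx => ?_⟩
      rw [Set.mem_singleton_iff] at hx
      rw [hx, g4_ch]
      have e : (fun i => P n (Sum.inr i)) = y n := funext fun i => hPy n i
      rw [e]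
      exact h4 (y n) rfl
    have h6 := (S.mem_Lam_iff (hpt n) _).1 h5
    have e : g4_in m ((algebraMap ℤ ℝ) ∘ ((Bs i : Lam ({y n} : Set (Fin m → ℂˣ))) : Fin m → ℤ)) =
        fun k => (((Sum.elim 0 ((Bs i : Lam ({y n} : Set (Fin m → ℂˣ))) : Fin m → ℤ) :
          Fin 2 ⊕ Fin m → ℤ) k : ℤ) : ℝ) := by
      funext k
      rcases k with k | k
      · exact Int.cast_zero.symm
      · rfl
    rw [e]
    exact h6
  obtain ⟨u, v, hu, hv, huv, hu2, hv2⟩ := g4_gs (N := (S.N n).comap (g4_in m)) h3.1 h3.2 (hN _) (hN _)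
  have hrel : ∀ w : Fin m → ℝ, w ∈ (S.N n).comap (g4_in m) → ∀ p : Pl (S.K n), ∑ i, w i * lv p (S.y n i) = 0 := by
    intro w hw p
    have h4 : ∑ k, g4_in m w k * lv p (S.pt n k) = 0 := hw p
    rw [Fintype.sum_sum_type] at h4
    have h5 : ∑ x : Fin 2, g4_in m w (Sum.inl x) * lv p (S.pt n (Sum.inl x)) = 0 :=
      Finset.sum_eq_zero fun x _ => by
        show (0 : ℝ) * _ = 0
        rw [zero_mul]
    rw [h5, zero_add] at h4
    exact h4
  exact ⟨u, v, hu, hv, huv, hrel u hu2, hrel v hv2⟩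

end Pool.Agent.Z6
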