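import Pool.Agent.Z6.N2
import Pool.Agent.Z6.A3
import Pool.Agent.Z5.K0

namespace Pool.Agent.Z6

open Pool.Agent.ZL2 Filter Topology
open Pool.Agent.Z5 (fr Gen ev2 sum_le_hh bp_ineq fr_mono fr_true k0_ev k0_roots n2_hh_inv n2_hh_mul)

/-- A sequence of points `(X, t)` over number fields `K n`, extensions of `F`, inside `ℂ`. -/
structure Ar (F : Type) [Field F] [NumberField F] [Algebra F ℂ] {m : ℕ} (A B C : Polynomial F) (c d : Fin m → F) where
  hm : 2 ≤ m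
  hA : A ≠ 0
  hB : B ≠ 0
  hC : C ≠ 0
  hc : ∀ i, c i ≠ 0
  hd : Function.Injective d
  hH : HH (fun i => algebraMap F ℂ (c i)) (fun i => algebraMap F ℂ (d i))
  K : ℕ → Type
  [fld : ∀ n, Field (K n)]
  [nf : ∀ n, NumberField (K n)]
  [alg : ∀ n, Algebra F (K n)]
  [fd : ∀ n, FiniteDimensional F (K n)]
  j : ∀ n, K n →ₐ[F] ℂ
  X : ∀ n, K n
  t : ∀ n, K n
  hX0 : ∀ n, X n ≠ 0
  hX1 : ∀ n, X n ≠ 1
  ht : ∀ n i, t n ≠ algebraMap F (K n) (d i)
  hAt : ∀ n, Polynomial.aeval (t n) A ≠ 0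
  hBt : ∀ n, Polynomial.aeval (t n) B ≠ 0
  hCt : ∀ n, Polynomial.aeval (t n) C ≠ 0
  inj : Function.Injective (fun n => j n (t n))

attribute [instance] Ar.fld Ar.nf Ar.alg Ar.fd

variable {F : Type} [Field F] [NumberField F] [Algebra F ℂ] {m : ℕ} {A B C : Polynomial F} {c d : Fin m → F}

/-- The coordinates `y_i = c_i (t - d_i)`. -/
noncomputable def Ar.y (S : Ar F A B C c d) (n : ℕ) (i : Fin m) : S.K n :=
  algebraMap F (S.K n) (c i) * (S.t n - algebraMap F (S.K n) (d i))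

/-- The coefficient `A(t) / C(t)`. -/
noncomputable def Ar.a (S : Ar F A B C c d) (n : ℕ) : S.K n :=
  Polynomial.aeval (S.t n) A / Polynomial.aeval (S.t n) C

/-- The coefficient `B(t) / C(t)`. -/
noncomputable def Ar.b (S : Ar F A B C c d) (n : ℕ) : S.K n :=
  Polynomial.aeval (S.t n) B / Polynomial.aeval (S.t n) C

theorem Ar.y_ne (S : Ar F A B C c d) (n : ℕ) (i : Fin m) : S.y n i ≠ 0 :=
  mul_ne_zero ((map_ne_zero _).2 (S.hc i)) (sub_ne_zero.2 (S.ht n i))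

theorem Ar.a_ne (S : Ar F A B C c d) (n : ℕ) : S.a n ≠ 0 := div_ne_zero (S.hAt n) (S.hCt n)

theorem Ar.b_ne (S : Ar F A B C c d) (n : ℕ) : S.b n ≠ 0 := div_ne_zero (S.hBt n) (S.hCt n)

/-- Row Z6-K0a. As `Z5.Ar.gen1`. -/
theorem Ar.gen1 (S : Ar F A B C c d) {U : Filter ℕ} (hU : U ≤ cofinite) {B0 : ℝ}
    (hB : ∀ᶠ n in U, hh (S.t n) ≤ B0 * Module.finrank ℚ (S.K n)) :
    Gen (k := 1) U ((Module.finrank ℚ F : ℝ) * (((1 : ℕ) : ℝ) * B0 + (((1 : ℕ) : ℝ) + 1) * Real.log 2))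
      (fun n (σ : S.K n →ₐ[F] ℂ) _ => σ (S.t n)) := by
  intro L f hL hf0 hf C0 hC
  have hfin := k0_roots f hf0
  have h1 : {n : ℕ | ev f (fun _ => S.j n (S.t n)) = 0 ∨ S.j n (S.t n) = 0}.Finite := by
    have h2 : ({x : ℂ | ev f (fun _ => x) = 0} ∪ {0}).Finite := hfin.union (Set.finite_singleton _)
    refine Set.Finite.subset (h2.preimage (S.inj.injOn)) ?_
    rintro n (hn | hn)
    · exact Or.inl hn
    · exact Or.inr hn
  have h3 : ∀ᶠ n in U, ¬ (ev f (fun _ => S.j n (S.t n)) = 0 ∨ S.j n (S.t n) = 0) := by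
    refine hU ?_
    rw [Filter.mem_cofinite]
    refine h1.subset ?_
    intro n hn
    by_contra h
    exact hn h
  filter_upwards [h3, hB] with n hn hBn
  rw [not_or] at hn
  have ht0 : S.t n ≠ 0 := fun h => hn.2 (by rw [h, map_zero])
  have hev0 : ev f (fun _ : Fin 1 => S.t n) ≠ 0 := by
    intro h
    apply hn.1
    have h4 := k0_ev (S.j n : S.K n →+* ℂ) f (fun _ => S.t n)
    rw [h, map_zero] at h4
    exact h4.symm
  exact bp_ineq hL f hf (fun _ : Fin 1 => S.t n) (fun _ => ht0) (fun _ => hBn) hev0 hC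

/-- Row Z6-K0b. A common bound: `hb` for the `y_i` and `t`; `hh_poly` for the values of `A, B, C`; `hh (x / y) ≤ hh x + hh y` for nonzero `x, y` (`lv_mul`, `lv_inv`, product formula). -/
theorem Ar.exists_bound (S : Ar F A B C c d) : ∃ B0 : ℝ, 0 ≤ B0 ∧ ∀ n (u : Fin m → ℝ), dt u u = 1 →
    (∀ p : Pl (S.K n), ∑ i, u i * lv p (S.y n i) = 0) →
      (∀ i, hh (S.y n i) ≤ B0 * Module.finrank ℚ (S.K n)) ∧ hh (S.t n) ≤ B0 * Module.finrank ℚ (S.K n) ∧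
      hh (S.a n) ≤ B0 * Module.finrank ℚ (S.K n) ∧ hh (S.b n) ≤ B0 * Module.finrank ℚ (S.K n) := by
  obtain ⟨B1, hB1, hb1⟩ := hb c d S.hc S.hd
  obtain ⟨CA, hCA, hA⟩ := hh_poly A
  obtain ⟨CB, hCB, hB⟩ := hh_poly B
  obtain ⟨CC, hCC, hC⟩ := hh_poly C
  refine ⟨B1 + (CA + CB + CC) * (B1 + 1), by positivity, fun n u hu hr => ?_⟩
  obtain ⟨h1, h2⟩ := hb1 (S.K n) (S.t n) (S.ht n) u hu hr
  have hD : (0 : ℝ) ≤ (Module.finrank ℚ (S.K n) : ℝ) := Nat.cast_nonneg _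
  have h3 : B1 * Module.finrank ℚ (S.K n) ≤ (B1 + (CA + CB + CC) * (B1 + 1)) * Module.finrank ℚ (S.K n) := by
    refine mul_le_mul_of_nonneg_right ?_ hD
    have : 0 ≤ (CA + CB + CC) * (B1 + 1) := by positivity
    linarith
  have hP : ∀ (P : Polynomial F) (E : ℝ), 0 ≤ E →
      hh (Polynomial.aeval (S.t n) P) ≤ E * (hh (S.t n) + Module.finrank ℚ (S.K n)) →
      hh (Polynomial.aeval (S.t n) P) ≤ E * (B1 + 1) * Module.finrank ℚ (S.K n) := by
    intro P E hE h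
    refine h.trans ?_
    rw [mul_assoc]
    exact mul_le_mul_of_nonneg_left (by linarith) hE
  have hA' := hP A CA hCA (hA (S.K n) (S.t n))
  have hB' := hP B CB hCB (hB (S.K n) (S.t n))
  have hC' := hP C CC hCC (hC (S.K n) (S.t n))
  have hD1 : 0 ≤ B1 * (Module.finrank ℚ (S.K n) : ℝ) := mul_nonneg hB1 hD
  have pA : 0 ≤ CA * (B1 + 1) * (Module.finrank ℚ (S.K n) : ℝ) := by positivity
  have pB : 0 ≤ CB * (B1 + 1) * (Module.finrank ℚ (S.K n) : ℝ) := by positivity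
  refine ⟨fun i => (h1 i).trans h3, h2.trans h3, ?_, ?_⟩
  · have h4 : hh (S.a n) ≤ hh (Polynomial.aeval (S.t n) A) + hh (Polynomial.aeval (S.t n) C) := by
      unfold Ar.a
      rw [div_eq_mul_inv, ← n2_hh_inv (Polynomial.aeval (S.t n) C)]
      exact n2_hh_mul _ _
    linarith
  · have h4 : hh (S.b n) ≤ hh (Polynomial.aeval (S.t n) B) + hh (Polynomial.aeval (S.t n) C) := by
      unfold Ar.b
      rw [div_eq_mul_inv, ← n2_hh_inv (Polynomial.aeval (S.t n) C)]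
      exact n2_hh_mul _ _
    linarith

/-- The constant of `exists_bound`. -/
noncomputable def Ar.B0 (S : Ar F A B C c d) : ℝ := Classical.choose S.exists_bound

theorem Ar.hB0 (S : Ar F A B C c d) : 0 ≤ S.B0 ∧ ∀ n (u : Fin m → ℝ), dt u u = 1 →
    (∀ p : Pl (S.K n), ∑ i, u i * lv p (S.y n i) = 0) →
      (∀ i, hh (S.y n i) ≤ S.B0 * Module.finrank ℚ (S.K n)) ∧ hh (S.t n) ≤ S.B0 * Module.finrank ℚ (S.K n) ∧
      hh (S.a n) ≤ S.B0 * Module.finrank ℚ (S.K n) ∧ hh (S.b n) ≤ S.B0 * Module.finrank ℚ (S.K n) :=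
  Classical.choose_spec S.exists_bound

theorem Ar.map_y (S : Ar F A B C c d) (n : ℕ) (σ : S.K n →ₐ[F] ℂ) (i : Fin m) :
    σ (S.y n i) = algebraMap F ℂ (c i) * (σ (S.t n) - algebraMap F ℂ (d i)) := by
  simp only [Ar.y, map_mul, map_sub, AlgHom.commutes]

theorem Ar.map_eval (S : Ar F A B C c d) (n : ℕ) (σ : S.K n →ₐ[F] ℂ) (P : Polynomial F) :
    σ (Polynomial.aeval (S.t n) P) = (P.map (algebraMap F ℂ)).eval (σ (S.t n)) := by
  rw [← Polynomial.aeval_algHom_apply, Polynomial.aeval_def, Polynomial.eval_map]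

theorem Ar.map_a (S : Ar F A B C c d) (n : ℕ) (σ : S.K n →ₐ[F] ℂ) :
    σ (S.a n) = rf (A.map (algebraMap F ℂ)) (C.map (algebraMap F ℂ)) (σ (S.t n)) := by
  simp only [Ar.a, map_div₀, Ar.map_eval, rf]

theorem Ar.map_b (S : Ar F A B C c d) (n : ℕ) (σ : S.K n →ₐ[F] ℂ) :
    σ (S.b n) = rf (B.map (algebraMap F ℂ)) (C.map (algebraMap F ℂ)) (σ (S.t n)) := by
  simp only [Ar.b, map_div₀, Ar.map_eval, rf]

theorem Ar.LY_eq (S : Ar F A B C c d) (n : ℕ) (σ : S.K n →ₐ[F] ℂ) (i : Fin m) :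
    LY (fun i => algebraMap F ℂ (c i)) (fun i => algebraMap F ℂ (d i)) (σ (S.t n)) i =
      lv (Sum.inl (σ : S.K n →+* ℂ) : Pl (S.K n)) (S.y n i) := by
  show Real.log ‖algebraMap F ℂ (c i) * (σ (S.t n) - algebraMap F ℂ (d i))‖ = Real.log ‖σ (S.y n i)‖
  rw [S.map_y]

/-- Row Z6-K0c. As `Z5.Ar.no_two`. -/
theorem Ar.no_two (S : Ar F A B C c d) (u v : ℕ → Fin m → ℝ) (hu : ∀ n, dt (u n) (u n) = 1)
    (hv : ∀ n, dt (v n) (v n) = 1) (huv : ∀ n, dt (u n) (v n) = 0)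
    (h1 : ∀ n (p : Pl (S.K n)), ∑ i, u n i * lv p (S.y n i) = 0)
    (h2 : ∀ n (p : Pl (S.K n)), ∑ i, v n i * lv p (S.y n i) = 0) : False := by
  have hne : ∀ n, Nonempty (S.K n →ₐ[F] ℂ) := fun n => ⟨S.j n⟩
  have hU : ((Filter.hyperfilter ℕ : Ultrafilter ℕ) : Filter ℕ) ≤ cofinite := Filter.hyperfilter_le_cofinite
  have hg := S.gen1 hU (Eventually.of_forall fun n => (S.hB0.2 n (u n) (hu n) (h1 n)).2.1)
  refine lemI (by have := S.hm; omega) (Filter.hyperfilter ℕ) (ι := fun n => S.K n →ₐ[F] ℂ)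
    (B := 2 * S.B0 * (Module.finrank ℚ F : ℝ))
    (c := fun i => algebraMap F ℂ (c i)) (d := fun i => algebraMap F ℂ (d i))
    (fun i => (map_ne_zero _).2 (S.hc i)) S.hH (fun n σ => σ (S.t n)) hg ?_ ?_ u (fun n _ => v n) hu
    (fun n _ => hv n) (fun n _ => huv n) (fun _ => 0) tendsto_const_nhds ?_
  · intro n σ i h
    refine S.ht n i ?_
    have h1 : σ (S.t n) = σ (algebraMap F (S.K n) (d i)) := by rw [h, AlgHom.commutes]
    exact (σ : S.K n →+* ℂ).injective h1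
  · intro n i
    have h := (S.hB0.2 n (u n) (hu n) (h1 n)).1 i
    have h1 := sum_le_hh (F := F) (S.y_ne n i) h
    refine le_trans (le_of_eq ?_) h1
    refine Finset.sum_congr rfl fun σ _ => ?_
    rw [S.LY_eq]
    rfl
  · refine Eventually.of_forall fun n => ?_
    have h3 : (1 : ℝ) ≤ fr (fun σ : S.K n →ₐ[F] ℂ => ∃ j : Fin 3,
        |dt (u n) (LY (fun i => algebraMap F ℂ (c i)) (fun i => algebraMap F ℂ (d i)) (σ (S.t n)))| ≤ 0 ∧
        |dt (v n) (LY (fun i => algebraMap F ℂ (c i)) (fun i => algebraMap F ℂ (d i)) (σ (S.t n)))| ≤ 0) := by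
      rw [← fr_true (ι := S.K n →ₐ[F] ℂ)]
      refine fr_mono fun σ _ => ⟨0, ?_, ?_⟩
      · simp only [dt, S.LY_eq]
        rw [h1 n, abs_zero]
      · simp only [dt, S.LY_eq]
        rw [h2 n, abs_zero]
    exact le_trans (by norm_num) h3

/-- A sequence of points with the real relations `u, M`. -/
structure ArM (F : Type) [Field F] [NumberField F] [Algebra F ℂ] {m : ℕ} (A B C : Polynomial F) (c d : Fin m → F) extends
    Ar F A B C c d where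
  u : ℕ → Fin m → ℝ
  M : ℕ → Fin 2 → Fin m → ℝ
  hu : ∀ n, dt (u n) (u n) = 1
  hM : ∀ n j, dt (M n j) (u n) = 0
  r0 : ∀ n (p : Pl (K n)), ∑ i, u n i * lv p (toAr.y n i) = 0
  r1 : ∀ n (p : Pl (K n)), lv p (X n) = ∑ i, M n 0 i * lv p (toAr.y n i) + lv p (toAr.a n)
  r2 : ∀ n (p : Pl (K n)), lv p (1 - X n) = ∑ i, M n 1 i * lv p (toAr.y n i) + lv p (toAr.b n)

/-- The sequence of Galois orbits. -/
noncomputable def ArM.sq (S : ArM F A B C c d) (U : Ultrafilter ℕ) (hU : (U : Filter ℕ) ≤ cofinite) :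
    Sq (rf (A.map (algebraMap F ℂ)) (C.map (algebraMap F ℂ))) (rf (B.map (algebraMap F ℂ)) (C.map (algebraMap F ℂ)))
      (fun i => algebraMap F ℂ (c i)) (fun i => algebraMap F ℂ (d i)) U where
  ι n := S.K n →ₐ[F] ℂ
  fin n := inferInstance
  ne n := ⟨S.j n⟩
  X n σ := σ (S.X n)
  t n σ := σ (S.t n)
  u := S.u
  M := S.M
  B := 4 * S.B0 * (Module.finrank ℚ F : ℝ)
  κ := (Module.finrank ℚ F : ℝ) * (((1 : ℕ) : ℝ) * S.B0 + (((1 : ℕ) : ℝ) + 1) * Real.log 2)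
  hX0 n σ := (map_ne_zero _).2 (S.hX0 n)
  hX1 n σ := fun h => S.hX1 n (by
    have h1 : σ (S.X n) = σ 1 := by rw [h, map_one]
    exact (σ : S.K n →+* ℂ).injective h1)
  ht n σ i := fun h => S.ht n i (by
    have h1 : σ (S.t n) = σ (algebraMap F (S.K n) (d i)) := by rw [h, AlgHom.commutes]
    exact (σ : S.K n →+* ℂ).injective h1)
  ha n σ := by
    rw [← S.map_a]
    exact (map_ne_zero _).2 (S.a_ne n)
  hb n σ := by
    rw [← S.map_b]
    exact (map_ne_zero _).2 (S.b_ne n)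
  hu := S.hu
  hM := S.hM
  r0 n σ := by
    simp only [dt, S.LY_eq]
    exact S.r0 n _
  r1 n σ := by
    simp only [dt, S.LY_eq]
    have h := S.r1 n (Sum.inl (σ : S.K n →+* ℂ))
    have h2 : lv (Sum.inl (σ : S.K n →+* ℂ) : Pl (S.K n)) (S.a n) =
        Real.log ‖rf (A.map (algebraMap F ℂ)) (C.map (algebraMap F ℂ)) (σ (S.t n))‖ := by
      show Real.log ‖σ (S.a n)‖ = _
      rw [S.map_a]
    rw [h2] at h
    exact h
  r2 n σ := by
    simp only [dt, S.LY_eq]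
    have h := S.r2 n (Sum.inl (σ : S.K n →+* ℂ))
    have h2 : lv (Sum.inl (σ : S.K n →+* ℂ) : Pl (S.K n)) (S.b n) =
        Real.log ‖rf (B.map (algebraMap F ℂ)) (C.map (algebraMap F ℂ)) (σ (S.t n))‖ := by
      show Real.log ‖σ (S.b n)‖ = _
      rw [S.map_b]
    rw [h2] at h
    have h3 : lv (Sum.inl (σ : S.K n →+* ℂ) : Pl (S.K n)) (1 - S.X n) = Real.log ‖1 - σ (S.X n)‖ := by
      show Real.log ‖σ (1 - S.X n)‖ = _
      rw [map_sub, map_one]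
    rw [h3] at h
    exact h
  hB n i := by
    have h := (S.hB0.2 n (S.u n) (S.hu n) (S.r0 n)).1 i
    have h1 := sum_le_hh (F := F) (S.y_ne n i) h
    have h2 : ∑ σ : S.K n →ₐ[F] ℂ, |LY (fun i => algebraMap F ℂ (c i)) (fun i => algebraMap F ℂ (d i)) (σ (S.t n)) i| =
        ∑ σ : S.K n →ₐ[F] ℂ, |Real.log ‖σ (S.y n i)‖| := by
      refine Finset.sum_congr rfl fun σ _ => ?_
      rw [S.LY_eq]
      rfl
    rw [h2]
    refine h1.trans ?_
    have h3 := S.hB0.1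
    have h4 : (0 : ℝ) ≤ (Module.finrank ℚ F : ℝ) * (Fintype.card (S.K n →ₐ[F] ℂ) : ℝ) := by positivity
    nlinarith
  hab n := by
    have h := (S.hB0.2 n (S.u n) (S.hu n) (S.r0 n)).2.2
    have h1 := sum_le_hh (F := F) (S.a_ne n) h.1
    have h2 := sum_le_hh (F := F) (S.b_ne n) h.2
    rw [Finset.sum_add_distrib]
    have e1 : ∑ σ : S.K n →ₐ[F] ℂ, |Real.log ‖rf (A.map (algebraMap F ℂ)) (C.map (algebraMap F ℂ)) (σ (S.t n))‖| =
        ∑ σ : S.K n →ₐ[F] ℂ, |Real.log ‖σ (S.a n)‖| :=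
      Finset.sum_congr rfl fun σ _ => by rw [S.map_a]
    have e2 : ∑ σ : S.K n →ₐ[F] ℂ, |Real.log ‖rf (B.map (algebraMap F ℂ)) (C.map (algebraMap F ℂ)) (σ (S.t n))‖| =
        ∑ σ : S.K n →ₐ[F] ℂ, |Real.log ‖σ (S.b n)‖| :=
      Finset.sum_congr rfl fun σ _ => by rw [S.map_b]
    rw [e1, e2]
    linarith
  gen := S.gen1 hU (Eventually.of_forall fun n => (S.hB0.2 n (S.u n) (S.hu n) (S.r0 n)).2.1)

end Pool.Agent.Z6
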