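import Pool.Agent.Z6.K4
import Pool.Agent.Z5.K1

open Pool.Agent.MP_dd1803_nt Pool.Agent.ZPA Pool.Agent.ZL2

namespace Pool.Agent.Z6

variable {m : ℕ}

/-- The vectors `e_j - k_j`. -/
def k1_v (k : Fin 2 → Fin m → ℤ) (j : Fin 2) : Fin 2 ⊕ Fin m → ℤ :=
  Sum.elim (Pi.single j 1) (fun i => - k j i)

theorem k1_indep (k : Fin 2 → Fin m → ℤ) : LinearIndependent ℤ (k1_v k) := by
  rw [Fintype.linearIndependent_iff]
  intro g hg i
  have h1 := congrFun hg (Sum.inl i)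
  rw [Fin.sum_univ_two] at h1
  match i with
  | 0 => simpa [k1_v] using h1
  | 1 => simpa [k1_v] using h1

theorem k1_ch (k : Fin 2 → Fin m → ℤ) (j : Fin 2) (x : Fin 2 ⊕ Fin m → ℂˣ) :
    (ch (k1_v k j) x : ℂ) = (x (Sum.inl j) : ℂ) * ∏ i, (x (Sum.inr i) : ℂ) ^ (- k j i) := by
  unfold ch
  rw [Fintype.prod_sum_type, Units.val_mul, Units.coe_prod, Units.coe_prod]
  congr 1
  · rw [Finset.prod_eq_single j]
    · simp [k1_v]
    · intro i _ hi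
      simp [k1_v, Pi.single_eq_of_ne hi]
    · intro h
      exact absurd (Finset.mem_univ j) h
  · refine Finset.prod_congr rfl fun i _ => ?_
    simp only [k1_v, Sum.elim_inr, Units.val_zpow_eq_zpow_val]

theorem k1_alg {A : Polynomial ℂ} (hAa : ∀ k, IsAlgebraic ℚ (A.coeff k)) {t : ℂ} (ht : IsAlgebraic ℚ t) :
    IsAlgebraic ℚ (A.eval t) := by
  rw [Polynomial.eval_eq_sum_range]
  have h : ∀ s : Finset ℕ, IsAlgebraic ℚ (∑ i ∈ s, A.coeff i * t ^ i) := by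
    intro s
    induction s using Finset.induction_on with
    | empty => simpa using (isAlgebraic_zero : IsAlgebraic ℚ (0 : ℂ))
    | insert a s ha ih =>
      rw [Finset.sum_insert ha]
      exact ((hAa a).mul (ht.pow a)).add ih
  exact h _

/-- The parameter is determined by the point. -/
theorem k1_par {c d : Fin m → ℂ} (hm : 2 ≤ m) (hc : ∀ i, c i ≠ 0) {y : Fin m → ℂ} {t t' : ℂ}
    (h : ∀ i, y i = c i * (t - d i)) (h' : ∀ i, y i = c i * (t' - d i)) : t = t' := by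
  have h0 : c ⟨0, by omega⟩ * (t - d ⟨0, by omega⟩) = c ⟨0, by omega⟩ * (t' - d ⟨0, by omega⟩) := by
    rw [← h, ← h']
  have h1 := mul_left_cancel₀ (hc ⟨0, by omega⟩) h0
  linear_combination h1

theorem k1_alg_par {c d : Fin m → ℂ} (hm : 2 ≤ m) (hc : ∀ i, c i ≠ 0) (hca : ∀ i, IsAlgebraic ℚ (c i))
    (hda : ∀ i, IsAlgebraic ℚ (d i)) {y : Fin m → ℂ} (hy : ∀ i, IsAlgebraic ℚ (y i)) {t : ℂ}
    (h : ∀ i, y i = c i * (t - d i)) : IsAlgebraic ℚ t := by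
  have e : t = y ⟨0, by omega⟩ * (c ⟨0, by omega⟩)⁻¹ + d ⟨0, by omega⟩ := by
    rw [h ⟨0, by omega⟩]
    field_simp [hc ⟨0, by omega⟩]
    ring
  rw [e]
  exact ((hy _).mul (hca _).inv).add (hda _)

/-- Row Z6-K1b. As `Z5.core_seq'`; here `X n = A(t_n)/C(t_n) * P n (inl 0)` is injective or constant (`tt n` = the parameter of `P n`). -/
theorem core_seq' {A B C : Polynomial ℂ} {c d : Fin m → ℂ} (hm : 2 ≤ m) (hA : A ≠ 0) (hB : B ≠ 0) (hC : C ≠ 0)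
    (hAa : ∀ k, IsAlgebraic ℚ (A.coeff k)) (hBa : ∀ k, IsAlgebraic ℚ (B.coeff k)) (hCa : ∀ k, IsAlgebraic ℚ (C.coeff k))
    (hc : ∀ i, c i ≠ 0) (hca : ∀ i, IsAlgebraic ℚ (c i)) (hd : Function.Injective d)
    (hda : ∀ i, IsAlgebraic ℚ (d i)) (hH : HH c d) (P : ℕ → Fin 2 ⊕ Fin m → ℂˣ) (tt : ℕ → ℂ)
    (hPV : ∀ n, P n ∈ TP A B C c d) (htt : ∀ n i, (P n (Sum.inr i) : ℂ) = c i * (tt n - d i))
    (hne : ∀ n, A.eval (tt n) ≠ 0 ∧ B.eval (tt n) ≠ 0 ∧ C.eval (tt n) ≠ 0)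
    (hPa : ∀ n i, IsAlgebraic ℚ (P n i : ℂ))
    (hinj : Function.Injective (fun n i => P n (Sum.inr i)))
    (hrk : ∀ n, 3 ≤ rk ({P n} : Set (Fin 2 ⊕ Fin m → ℂˣ)))
    (hX : Function.Injective (fun n => A.eval (tt n) / C.eval (tt n) * (P n (Sum.inl 0) : ℂ)) ∨
      ∃ x, ∀ n, A.eval (tt n) / C.eval (tt n) * (P n (Sum.inl 0) : ℂ) = x) :
    ∃ 𝒩 : Set ℕ, 𝒩.Infinite ∧
      ((∃ L : Submodule ℤ (Fin 2 ⊕ Fin m → ℤ), 3 ≤ Module.finrank ℤ L ∧
        ∀ n ∈ 𝒩, L ≤ Lam ({P n} : Set (Fin 2 ⊕ Fin m → ℂˣ))) ∨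
      ∃ (L : Submodule ℤ (Fin 2 ⊕ Fin m → ℤ)) (k : ℕ), 2 ≤ Module.finrank ℤ L ∧ 0 < k ∧
        ∀ n ∈ 𝒩, ∀ v ∈ L, ch v (P n) ^ k = 1) := by
  have htt0 : IsAlgebraic ℚ (tt 0) := k1_alg_par hm hc hca hda (fun i => hPa 0 (Sum.inr i)) (htt 0)
  have hx0 : IsAlgebraic ℚ (A.eval (tt 0) / C.eval (tt 0) * (P 0 (Sum.inl 0) : ℂ)) := by
    rw [div_eq_mul_inv]
    exact ((k1_alg hAa htt0).mul (k1_alg hCa htt0).inv).mul (hPa 0 _)
  obtain ⟨F, _, _, _, A', B', C', c', d', x', S, hx', hpt, hX'⟩ :=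
    exists_Ar hm hA hB hC hAa hBa hCa hc hca hd hda hH P hPV
      (fun n t h => by
        rw [k1_par hm hc h (htt n)]
        exact hne n) hPa hinj hx0
  have hX2 : ∀ n, S.j n (S.X n) = A.eval (tt n) / C.eval (tt n) * (P n (Sum.inl 0) : ℂ) :=
    fun n => hX' n (tt n) (htt n)
  have hN : ∀ n, 3 ≤ Module.finrank ℝ (S.N n) := fun n => (hrk n).trans (S.rk_le (hpt n))
  have hXX : Function.Injective (fun n => S.j n (S.X n)) ∨ ∃ x : F, ∀ n, S.X n = algebraMap F (S.K n) x := by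
    rcases hX with h | ⟨x, h⟩
    · left
      intro m n hmn
      simp only [hX2] at hmn
      exact h hmn
    · right
      refine ⟨x', fun n => ?_⟩
      apply (S.j n : S.K n →+* ℂ).injective
      show S.j n (S.X n) = S.j n (algebraMap F (S.K n) x')
      rw [hX2, AlgHom.commutes, hx', h n, h 0]
  obtain ⟨𝒩, hinf, h⟩ := S.main hN hXX
  refine ⟨𝒩, hinf, ?_⟩
  rcases h with ⟨N', hN'⟩ | ⟨k, e, he, hm'⟩
  · left
    obtain ⟨n0, hn0⟩ := hinf.nonempty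
    refine ⟨Lam ({P n0} : Set (Fin 2 ⊕ Fin m → ℂˣ)), hrk n0, fun n hn v hv => ?_⟩
    rw [S.mem_Lam_iff (hpt n), hN' n hn, ← hN' n0 hn0, ← S.mem_Lam_iff (hpt n0)]
    exact hv
  · right
    refine ⟨Submodule.span ℤ (Set.range (k1_v k)), e, ?_, he, fun n hn w hw => ?_⟩
    · rw [finrank_span_eq_card (k1_indep k), Fintype.card_fin]
    · have hgen : ∀ j, ch (k1_v k j) (P n) ^ e = 1 := by
        intro j
        apply Units.ext
        rw [Units.val_pow_eq_pow_val, k1_ch, Units.val_one]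
        have e0 := hm' n hn
        match j with
        | 0 =>
          have e1 := congrArg (S.j n) e0.1
          rw [map_pow, map_mul, map_prod, map_one] at e1
          simp only [map_zpow₀, hpt] at e1
          exact e1
        | 1 =>
          have e1 := congrArg (S.j n) e0.2
          rw [map_pow, map_mul, map_prod, map_one] at e1
          simp only [map_zpow₀, hpt] at e1
          exact e1
      induction hw using Submodule.span_induction with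
      | mem x hx =>
        obtain ⟨j, rfl⟩ := hx
        exact hgen j
      | zero => rw [ch_zero, one_pow]
      | add x y _ _ h1 h2 => rw [ch_add, mul_pow, h1, h2, one_mul]
      | smul r x _ h1 =>
        rw [ch_zsmul, ← zpow_natCast, ← zpow_mul, mul_comm, zpow_mul, zpow_natCast, h1, one_zpow]

/-- Row Z6-K1c. All but finitely many `n` have `A, B, C ≠ 0` at the parameter `t n = P n (inr 0) / c 0 + d 0` (the `t n` are different); `Z5.inj_or_const` for the subsequence and `core_seq'`. -/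
theorem core_seq {A B C : Polynomial ℂ} {c d : Fin m → ℂ} (hm : 2 ≤ m) (hA : A ≠ 0) (hB : B ≠ 0) (hC : C ≠ 0)
    (hAa : ∀ k, IsAlgebraic ℚ (A.coeff k)) (hBa : ∀ k, IsAlgebraic ℚ (B.coeff k)) (hCa : ∀ k, IsAlgebraic ℚ (C.coeff k))
    (hc : ∀ i, c i ≠ 0) (hca : ∀ i, IsAlgebraic ℚ (c i)) (hd : Function.Injective d)
    (hda : ∀ i, IsAlgebraic ℚ (d i)) (hH : HH c d) (P : ℕ → Fin 2 ⊕ Fin m → ℂˣ)
    (hPV : ∀ n, P n ∈ TP A B C c d) (hPa : ∀ n i, IsAlgebraic ℚ (P n i : ℂ))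
    (hinj : Function.Injective (fun n i => P n (Sum.inr i)))
    (hrk : ∀ n, 3 ≤ rk ({P n} : Set (Fin 2 ⊕ Fin m → ℂˣ))) :
    ∃ 𝒩 : Set ℕ, 𝒩.Infinite ∧
      ((∃ L : Submodule ℤ (Fin 2 ⊕ Fin m → ℤ), 3 ≤ Module.finrank ℤ L ∧
        ∀ n ∈ 𝒩, L ≤ Lam ({P n} : Set (Fin 2 ⊕ Fin m → ℂˣ))) ∨
      ∃ (L : Submodule ℤ (Fin 2 ⊕ Fin m → ℤ)) (k : ℕ), 2 ≤ Module.finrank ℤ L ∧ 0 < k ∧
        ∀ n ∈ 𝒩, ∀ v ∈ L, ch v (P n) ^ k = 1) := by
  have ht : ∀ n, ∃ t : ℂ, ∀ i, (P n (Sum.inr i) : ℂ) = c i * (t - d i) := fun n => by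
    obtain ⟨t, h, -⟩ := hPV n
    exact ⟨t, h⟩
  choose tt htt using ht
  have htinj : Function.Injective tt := by
    intro n n' h
    apply hinj
    funext i
    apply Units.ext
    show (P n (Sum.inr i) : ℂ) = (P n' (Sum.inr i) : ℂ)
    rw [htt n i, htt n' i, h]
  have hfin : {n : ℕ | ¬ (A.eval (tt n) ≠ 0 ∧ B.eval (tt n) ≠ 0 ∧ C.eval (tt n) ≠ 0)}.Finite := by
    have h1 : {t : ℂ | ¬ (A.eval t ≠ 0 ∧ B.eval t ≠ 0 ∧ C.eval t ≠ 0)}.Finite := by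
      refine (((A * B * C).roots.toFinset : Finset ℂ).finite_toSet).subset fun t h => ?_
      have h2 : (A * B * C).eval t = 0 := by
        rw [Polynomial.eval_mul, Polynomial.eval_mul]
        by_contra h3
        apply h
        refine ⟨fun h4 => h3 ?_, fun h4 => h3 ?_, fun h4 => h3 ?_⟩
        · rw [h4, zero_mul, zero_mul]
        · rw [h4, mul_zero, zero_mul]
        · rw [h4, mul_zero]
      have h3 : A * B * C ≠ 0 := mul_ne_zero (mul_ne_zero hA hB) hC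
      simpa [Polynomial.mem_roots h3, Polynomial.IsRoot.def] using h2
    exact h1.preimage htinj.injOn
  have hinf0 : {n : ℕ | A.eval (tt n) ≠ 0 ∧ B.eval (tt n) ≠ 0 ∧ C.eval (tt n) ≠ 0}.Infinite := by
    have h2 := hfin.infinite_compl
    refine h2.mono fun n hn => ?_
    by_contra h3
    exact hn h3
  have e := hinf0.natEmbedding
  let φ0 : ℕ → ℕ := fun n => (e n : ℕ)
  have hφ0 : Function.Injective φ0 := fun n n' h => e.injective (Subtype.ext h)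
  have hφ0' : ∀ n, A.eval (tt (φ0 n)) ≠ 0 ∧ B.eval (tt (φ0 n)) ≠ 0 ∧ C.eval (tt (φ0 n)) ≠ 0 := fun n => (e n).2
  obtain ⟨φ1, hφ1, h⟩ := Pool.Agent.Z5.inj_or_const
    (fun n => A.eval (tt (φ0 n)) / C.eval (tt (φ0 n)) * (P (φ0 n) (Sum.inl 0) : ℂ))
  obtain ⟨𝒩, hinf, h1⟩ := core_seq' hm hA hB hC hAa hBa hCa hc hca hd hda hH (fun n => P (φ0 (φ1 n)))
    (fun n => tt (φ0 (φ1 n))) (fun n => hPV _) (fun n => htt _) (fun n => hφ0' _)
    (fun n => hPa _) (hinj.comp (hφ0.comp hφ1)) (fun n => hrk _) h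
  refine ⟨(φ0 ∘ φ1) '' 𝒩, hinf.image (hφ0.comp hφ1).injOn, ?_⟩
  rcases h1 with ⟨L, h2, h3⟩ | ⟨L, k, h2, hk, h3⟩
  · left
    refine ⟨L, h2, ?_⟩
    rintro _ ⟨n, hn, rfl⟩
    exact h3 n hn
  · right
    refine ⟨L, k, h2, hk, ?_⟩
    rintro _ ⟨n, hn, rfl⟩
    exact h3 n hn

end Pool.Agent.Z6
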