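import Pool.Agent.ZL2.H
import Pool.Agent.ZL2.Const

namespace Pool.Agent.Z6

open Pool.Agent.ZL2

variable {K : Type} [Field K] [NumberField K]

/-- Row Z6-K2a. Two points of the line whose logarithms are nearly proportional are equal (large height). PROOF. `X = Xl a b x y`, `Y = Xl a b x' y'`, `t = tt X`, `t' = tt Y`, `E p = |lv p x' - s lv p x| + |lv p y' - s lv p y| + 2 (1+s) (|lv p a| + |lv p b|)`.
(1) `|(t'_k - t'_l) - s (t_k - t_l)| ≤ E` for all `k, l` (`tt_Xl0`, `tt_Xl1`). With `l1` such that `t'_l1 = 0`: `t'_i - s t_i ≤ E - s t_l1 ≤ E`; with `l0` such that `t_l0 = 0`: `t'_i - s t_i ≥ t'_l0 - E ≥ - E`. So `|t'_i - s t_i| ≤ E` (the zeros and nonnegativity: `tri_of_sum_zero`).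
(2) `stepB` with `err = E`, `m p = ell p + 2 (|lv p a| + |lv p b|) + E p / (38 (1 + s))`, `M = Sm m`: `38 (1+s) M ≥ Sm E`; `Sm E ≤ 2 δ s Ht X + 2 (1+s) Sm(|lv a| + |lv b|)` with `δ = 1/1000`, so `M ≤ M0 + M0/38 + (2 δ / 38) Ht X` with `M0 = Sm (ell + 2 (|lv a| + |lv b|))` and
`2000 M ≤ 2053 M0 + (4/38) Ht X < Ht X` by `hH`. So `DD X Y = 0`, i.e. `a x b y' = b y a x'`, and with the equations of the line `x = x'`, `y = y'`. -/
theorem two_close {a b x y x' y' : K} (ha : a ≠ 0) (hb : b ≠ 0) (hx : x ≠ 0) (hy : y ≠ 0) (hx' : x' ≠ 0)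
    (hy' : y' ≠ 0) (h : a * x + b * y = 1) (h' : a * x' + b * y' = 1) {s : ℝ} (hs : 0 ≤ s)
    (hs1 : Ht (Xl a b x' y') = s * Ht (Xl a b x y))
    (h1 : Sm (fun p : Pl K => |lv p x' - s * lv p x|) ≤ s * Ht (Xl a b x y) / 1000)
    (h2 : Sm (fun p : Pl K => |lv p y' - s * lv p y|) ≤ s * Ht (Xl a b x y) / 1000)
    (hH : 5000 * Sm (fun p : Pl K => ell p + 2 * (|lv p a| + |lv p b|)) < Ht (Xl a b x y))
    (hHH : Ht (Xl a b x y) ≤ Ht (Xl a b x' y')) : x = x' ∧ y = y' := by
  have hX := Xl_ne ha hb hx hy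
  have hX0 := Xl_sum h
  have hY := Xl_ne ha hb hx' hy'
  have hY0 := Xl_sum h'
  have hTX := tri_of_sum_zero hX hX0
  have hTY := tri_of_sum_zero hY hY0
  have hs2 : 0 < 1 + s := by linarith
  obtain ⟨c, hc⟩ : ∃ c : Pl K → ℝ, c = fun p => |lv p a| + |lv p b| := ⟨_, rfl⟩
  have hcf : FS c := by
    rw [hc]
    exact (FS_lv ha).abs.add (FS_lv hb).abs
  have hc0 : ∀ p, 0 ≤ c p := fun p => by
    rw [hc]
    exact add_nonneg (abs_nonneg _) (abs_nonneg _)
  obtain ⟨e0, he0⟩ : ∃ e0 : Pl K → ℝ, e0 = fun p => |lv p x' - s * lv p x| := ⟨_, rfl⟩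
  obtain ⟨e1, he1⟩ : ∃ e1 : Pl K → ℝ, e1 = fun p => |lv p y' - s * lv p y| := ⟨_, rfl⟩
  have he0f : FS e0 := by
    rw [he0]
    exact ((FS_lv hx').sub ((FS_lv hx).smul s)).abs
  have he1f : FS e1 := by
    rw [he1]
    exact ((FS_lv hy').sub ((FS_lv hy).smul s)).abs
  have he00 : ∀ p, 0 ≤ e0 p := fun p => by
    rw [he0]
    exact abs_nonneg _
  have he10 : ∀ p, 0 ≤ e1 p := fun p => by
    rw [he1]
    exact abs_nonneg _
  have hmc : (fun p : Pl K => ell p + 2 * (|lv p a| + |lv p b|)) = fun p => ell p + 2 * c p := by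
    rw [hc]
  rw [hmc] at hH
  rw [← he0] at h1
  rw [← he1] at h2
  obtain ⟨M0, hM0⟩ : ∃ M0, M0 = Sm (fun p : Pl K => ell p + 2 * c p) := ⟨_, rfl⟩
  rw [← hM0] at hH
  obtain ⟨err, herr⟩ : ∃ err : Pl K → ℝ, err = fun p => (e0 p + e1 p) + (2 * (1 + s)) * c p := ⟨_, rfl⟩
  have herrf : FS err := by
    rw [herr]
    exact (he0f.add he1f).add (hcf.smul _)
  have herr0 : ∀ p, 0 ≤ err p := fun p => by
    rw [herr]
    have i1 := he00 p
    have i2 := he10 p
    have i3 := mul_nonneg (mul_nonneg (by norm_num : (0 : ℝ) ≤ 2) hs2.le) (hc0 p)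
    show 0 ≤ (e0 p + e1 p) + (2 * (1 + s)) * c p
    linarith
  have hSerr : Sm err = (Sm e0 + Sm e1) + (2 * (1 + s)) * Sm c := by
    rw [herr, Sm_add (he0f.add he1f) (hcf.smul _), Sm_add he0f he1f, Sm_smul]
  have hSc : 0 ≤ Sm c := Sm_nonneg hc0
  have hM1 : M0 = Sm (ell : Pl K → ℝ) + 2 * Sm c := by
    rw [hM0, Sm_add FS_ell (hcf.smul 2), Sm_smul]
  have hSell : 0 ≤ Sm (ell : Pl K → ℝ) := Sm_nonneg ell_nonneg
  -- local comparison
  have hloc : ∀ p i, |tt (Xl a b x' y') p i - s * tt (Xl a b x y) p i| ≤ err p := by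
    intro p
    have T0 := tt_Xl0 p (a := a) (b := b) (x := x) (y := y) ha hx
    have T1 := tt_Xl1 p (a := a) (b := b) (x := x) (y := y) hb hy
    have T0' := tt_Xl0 p (a := a) (b := b) (x := x') (y := y') ha hx'
    have T1' := tt_Xl1 p (a := a) (b := b) (x := x') (y := y') hb hy'
    have hTX0 := hTX.nonneg p
    have hTY0 := hTY.nonneg p
    obtain ⟨l0, hl0⟩ := hTX.zero p
    obtain ⟨l1, hl1⟩ := hTY.zero p
    generalize tt (Xl a b x y) p = t at *
    generalize tt (Xl a b x' y') p = t' at *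
    have hev : err p = (|lv p x' - s * lv p x| + |lv p y' - s * lv p y|) + (2 * (1 + s)) * (|lv p a| + |lv p b|) := by
      rw [herr, he0, he1, hc]
    have b0 : |(t' 2 - t' 0) - s * (t 2 - t 0)| ≤ |lv p x' - s * lv p x| + (1 + s) * |lv p a| := by
      have e : (t' 2 - t' 0) - s * (t 2 - t 0) = (lv p x' - s * lv p x) + (lv p a - s * lv p a) := by
        rw [T0, T0']
        ring
      rw [e]
      refine (abs_add_le _ _).trans (add_le_add_right ?_ _)
      have i1 := abs_sub (lv p a) (s * lv p a)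
      rw [abs_mul, abs_of_nonneg hs] at i1
      linarith
    have b1 : |(t' 2 - t' 1) - s * (t 2 - t 1)| ≤ |lv p y' - s * lv p y| + (1 + s) * |lv p b| := by
      have e : (t' 2 - t' 1) - s * (t 2 - t 1) = (lv p y' - s * lv p y) + (lv p b - s * lv p b) := by
        rw [T1, T1']
        ring
      rw [e]
      refine (abs_add_le _ _).trans (add_le_add_right ?_ _)
      have i1 := abs_sub (lv p b) (s * lv p b)
      rw [abs_mul, abs_of_nonneg hs] at i1
      linarith
    have A0 := abs_nonneg (lv p x' - s * lv p x)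
    have A1 := abs_nonneg (lv p y' - s * lv p y)
    have A2 := mul_nonneg hs2.le (abs_nonneg (lv p a))
    have A3 := mul_nonneg hs2.le (abs_nonneg (lv p b))
    have hpair : ∀ k l, (t' k - t' l) - s * (t k - t l) ≤ err p := by
      intro k l
      rw [hev]
      have c0 := abs_le.1 b0
      have c1 := abs_le.1 b1
      fin_cases k <;> fin_cases l
      · show (t' 0 - t' 0) - s * (t 0 - t 0) ≤ _
        rw [sub_self, sub_self, mul_zero, sub_zero]
        linarith
      · show (t' 0 - t' 1) - s * (t 0 - t 1) ≤ _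
        linarith [c0.1, c0.2, c1.1, c1.2]
      · show (t' 0 - t' 2) - s * (t 0 - t 2) ≤ _
        linarith [c0.1, c0.2, c1.1, c1.2]
      · show (t' 1 - t' 0) - s * (t 1 - t 0) ≤ _
        linarith [c0.1, c0.2, c1.1, c1.2]
      · show (t' 1 - t' 1) - s * (t 1 - t 1) ≤ _
        rw [sub_self, sub_self, mul_zero, sub_zero]
        linarith
      · show (t' 1 - t' 2) - s * (t 1 - t 2) ≤ _
        linarith [c0.1, c0.2, c1.1, c1.2]
      · show (t' 2 - t' 0) - s * (t 2 - t 0) ≤ _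
        linarith [c0.1, c0.2, c1.1, c1.2]
      · show (t' 2 - t' 1) - s * (t 2 - t 1) ≤ _
        linarith [c0.1, c0.2, c1.1, c1.2]
      · show (t' 2 - t' 2) - s * (t 2 - t 2) ≤ _
        rw [sub_self, sub_self, mul_zero, sub_zero]
        linarith
    intro i
    rw [abs_le]
    constructor
    · have i1 := hpair l0 i
      rw [hl0] at i1
      have i2 := hTY0 l0
      linarith
    · have i1 := hpair i l1
      rw [hl1] at i1
      have i2 := mul_nonneg hs (hTX0 l1)
      linarith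
  obtain ⟨κ, hκ⟩ : ∃ κ : ℝ, κ = 1 / (38 * (1 + s)) := ⟨_, rfl⟩
  have hκ0 : 0 < κ := by
    rw [hκ]
    positivity
  have hκ1 : 38 * (1 + s) * κ = 1 := by
    rw [hκ]
    field_simp
  obtain ⟨M, hM⟩ : ∃ M, M = Sm (fun p : Pl K => (ell p + 2 * c p) + κ * err p) := ⟨_, rfl⟩
  have hMe : M = M0 + κ * Sm err := by
    rw [hM, Sm_add (FS_m hcf) (herrf.smul κ), Sm_smul, hM0]
  have hM00 : 0 ≤ M0 := by
    rw [hM1]
    linarith
  have hSerr0 : 0 ≤ Sm err := Sm_nonneg herr0
  have hD : DD (Xl a b x y) (Xl a b x' y') = 0 := by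
    refine stepB (m := fun p : Pl K => (ell p + 2 * c p) + κ * err p) (M := M) hX hX0 hY hY0 ?_
      ((FS_m hcf).add (herrf.smul κ)) hM.symm hs herrf herr0 ?_ hloc ?_ hHH
    · intro p
      have i1 := hc0 p
      have i2 := mul_nonneg hκ0.le (herr0 p)
      linarith
    · have i1 : 38 * (1 + s) * M = 38 * (1 + s) * M0 + Sm err := by
        rw [hMe]
        linear_combination (Sm err) * hκ1
      have i2 : 0 ≤ 38 * (1 + s) * M0 := by positivity
      linarith
    · obtain ⟨H, hHt⟩ : ∃ H, H = Ht (Xl a b x y) := ⟨_, rfl⟩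
      rw [← hHt] at hH h1 h2 ⊢
      have hHpos : 0 < H := by linarith
      have i1 : κ * Sm err ≤ κ * (2 * s * H / 1000 + 2 * (1 + s) * Sm c) := by
        refine mul_le_mul_of_nonneg_left ?_ hκ0.le
        rw [hSerr]
        linarith
      have i2 : κ * (2 * (1 + s) * Sm c) = Sm c / 19 := by
        linear_combination (Sm c / 19) * hκ1
      have i3 : κ * (s * H) ≤ H / 38 := by
        have i4 : κ * (s * H) = H / 38 - κ * H := by
          linear_combination (H / 38) * hκ1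
        have i5 := mul_pos hκ0 hHpos
        linarith
      have i6 : κ * (2 * s * H / 1000 + 2 * (1 + s) * Sm c) = (2 / 1000) * (κ * (s * H)) + κ * (2 * (1 + s) * Sm c) := by
        ring
      rw [hMe]
      have i7 : Sm c ≤ M0 / 2 := by
        rw [hM1]
        linarith
      linarith
  have hD' : a * x * (b * y') - b * y * (a * x') = 0 := hD
  have hxy : x * y' = y * x' := by
    have h3 : (a * b) * (x * y' - y * x') = 0 := by linear_combination hD'
    exact sub_eq_zero.1 ((mul_eq_zero.1 h3).resolve_left (mul_ne_zero ha hb))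
  constructor
  · linear_combination (-x) * h' + x' * h + b * hxy
  · linear_combination (-y) * h' + y' * h - a * hxy

end Pool.Agent.Z6
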