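import Pool.Agent.Z6.K2a
import Pool.Agent.ZL2.Main3

namespace Pool.Agent.Z6

open Pool.Agent.ZL2

/-- packing, around any centre -/
theorem k2b_pack (r k : ℕ) : ∀ (E : Type) [NormedAddCommGroup E] [NormedSpace ℝ E] [FiniteDimensional ℝ E],
    Module.finrank ℝ E ≤ r → ∀ (c : E) (s : Finset E), (∀ v ∈ s, ‖v - c‖ ≤ 2 ^ k) →
      (∀ v ∈ s, ∀ w ∈ s, v ≠ w → 1 ≤ ‖v - w‖) → s.card ≤ (5 ^ r) ^ (k + 1) := by
  induction k with
  | zero =>
    intro E _ _ _ hr c s hs hd
    classical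
    have h1 := Besicovitch.card_le_of_separated (s.image fun v => v - c) (by
      intro v hv
      obtain ⟨w, hw, rfl⟩ := Finset.mem_image.1 hv
      have := hs w hw
      rw [pow_zero] at this
      linarith) (by
      intro v hv w hw hvw
      obtain ⟨v', hv', rfl⟩ := Finset.mem_image.1 hv
      obtain ⟨w', hw', rfl⟩ := Finset.mem_image.1 hw
      have h2 : v' ≠ w' := fun h => hvw (by rw [h])
      have := hd v' hv' w' hw' h2
      rwa [sub_sub_sub_cancel_right])
    rw [Finset.card_image_of_injective _ (sub_left_injective)] at h1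
    refine h1.trans ?_
    rw [zero_add, pow_one]
    exact Nat.pow_le_pow_right (by norm_num) hr
  | succ k ih =>
    intro E _ _ _ hr c s hs hd
    classical
    obtain ⟨u, hu, humax⟩ := Finset.exists_max_image (s.powerset.filter fun u => ∀ v ∈ u, ∀ w ∈ u, v ≠ w → (2 : ℝ) ^ k ≤ ‖v - w‖)
      Finset.card ⟨∅, by simp⟩
    rw [Finset.mem_filter, Finset.mem_powerset] at hu
    obtain ⟨hus, hud⟩ := hu
    have h2k : (0 : ℝ) < 2 ^ k := by positivity
    -- the number of centres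
    have hcard : u.card ≤ 5 ^ r := by
      have hinj : Function.Injective (fun v : E => ((2 : ℝ) ^ k)⁻¹ • (v - c)) := by
        intro v w h
        have h1 : v - c = w - c := smul_right_injective E (inv_ne_zero h2k.ne') h
        exact sub_left_injective h1
      have h1 := Besicovitch.card_le_of_separated (u.image fun v => ((2 : ℝ) ^ k)⁻¹ • (v - c)) (by
        intro v hv
        obtain ⟨w, hw, rfl⟩ := Finset.mem_image.1 hv
        have h2 := hs w (hus hw)
        rw [norm_smul, norm_inv, Real.norm_of_nonneg h2k.le, inv_mul_le_iff₀ h2k]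
        rwa [pow_succ] at h2) (by
        intro v hv w hw hvw
        obtain ⟨v', hv', rfl⟩ := Finset.mem_image.1 hv
        obtain ⟨w', hw', rfl⟩ := Finset.mem_image.1 hw
        have h2 : v' ≠ w' := fun h => hvw (by rw [h])
        have h3 := hud v' hv' w' hw' h2
        rw [← smul_sub, sub_sub_sub_cancel_right, norm_smul, norm_inv, Real.norm_of_nonneg h2k.le, le_inv_mul_iff₀ h2k, mul_one]
        exact h3)
      rw [Finset.card_image_of_injective _ hinj] at h1
      exact h1.trans (Nat.pow_le_pow_right (by norm_num) hr)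
    -- covering
    have hcov : s ⊆ u.biUnion fun v => s.filter fun w => ‖w - v‖ ≤ 2 ^ k := by
      intro w hw
      rw [Finset.mem_biUnion]
      by_contra hcon
      push Not at hcon
      have h1 : ∀ v ∈ u, (2 : ℝ) ^ k < ‖w - v‖ := by
        intro v hv
        by_contra h2
        exact hcon v hv (Finset.mem_filter.2 ⟨hw, not_lt.1 h2⟩)
      have hwu : w ∉ u := by
        intro h
        have := h1 w h
        rw [sub_self, norm_zero] at this
        linarith
      have h3 := humax (insert w u) (by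
        rw [Finset.mem_filter, Finset.mem_powerset]
        refine ⟨Finset.insert_subset hw hus, ?_⟩
        intro v hv v' hv' hne
        rw [Finset.mem_insert] at hv hv'
        rcases hv with rfl | hv
        · rcases hv' with rfl | hv'
          · exact absurd rfl hne
          · exact (h1 v' hv').le
        · rcases hv' with rfl | hv'
          · rw [norm_sub_rev]
            exact (h1 v hv).le
          · exact hud v hv v' hv' hne)
      rw [Finset.card_insert_of_notMem hwu] at h3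
      omega
    refine (Finset.card_le_card hcov).trans ((Finset.card_biUnion_le_card_mul u _ ((5 ^ r) ^ (k + 1)) ?_).trans ?_)
    · intro v hv
      exact ih E hr v _ (fun w hw => (Finset.mem_filter.1 hw).2)
        (fun w hw w' hw' h => hd w (Finset.mem_filter.1 hw).1 w' (Finset.mem_filter.1 hw').1 h)
    · rw [pow_succ (5 ^ r) (k + 1), mul_comm]
      exact Nat.mul_le_mul_left _ hcard

/-- Row Z6-K2b1. Packing in normed spaces: a set of more than `N = 5 ^ (r k)` points of norm `≤ 2 ^ (k+1)`... has two points at distance `≤ 1`. Use `Besicovitch.card_le_of_separated` (a set of points of norm `≤ 2` with mutual distances `≥ 1` has at most `5 ^ r` elements), scaled, and induction on `k`: among the points of norm `≤ 2 ρ` take a maximal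
subset with mutual distances `≥ ρ`: at most `5 ^ r` points, and the balls of radius `ρ` around them cover the set; so one of these balls contains at least `card / 5 ^ r` of the points; translate. -/
theorem packing (r k : ℕ) : ∃ N : ℕ, ∀ (E : Type) [NormedAddCommGroup E] [NormedSpace ℝ E] [FiniteDimensional ℝ E],
    Module.finrank ℝ E ≤ r → ∀ s : Finset E, (∀ v ∈ s, ‖v‖ ≤ 2 ^ k) → N < s.card →
      ∃ v ∈ s, ∃ w ∈ s, v ≠ w ∧ ‖v - w‖ ≤ 1 := by
  refine ⟨(5 ^ r) ^ (k + 1), ?_⟩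
  intro E _ _ _ hr s hs hcard
  by_contra hcon
  push Not at hcon
  have := k2b_pack r k E hr 0 s (fun v hv => by rw [sub_zero]; exact hs v hv)
    (fun v hv w hw h => (hcon v hv w hw h).le)
  omega

/-- packing for a norm given as a function -/
theorem k2b_norm (r k : ℕ) : ∃ N : ℕ, ∀ (V : Type) [AddCommGroup V] [Module ℝ V] [FiniteDimensional ℝ V],
    Module.finrank ℝ V ≤ r → ∀ ν : V → ℝ, (∀ x, 0 ≤ ν x) → (∀ (c : ℝ) x, ν (c • x) = |c| * ν x) →
      (∀ x y, ν (x + y) ≤ ν x + ν y) → (∀ x, ν x = 0 → x = 0) → ∀ s : Finset V, (∀ v ∈ s, ν v ≤ 2 ^ k) → N < s.card →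
      ∃ v ∈ s, ∃ w ∈ s, v ≠ w ∧ ν (v - w) ≤ 1 := by
  obtain ⟨N, hN⟩ := packing r k
  refine ⟨N, ?_⟩
  intro V _ _ _ hr ν h0 h1 h2 h3 s hs hcard
  let _ : Norm V := ⟨ν⟩
  have core : NormedSpace.Core ℝ V :=
    { norm_nonneg := h0
      norm_smul := fun c x => by rw [Real.norm_eq_abs]; exact h1 c x
      norm_triangle := h2
      norm_eq_zero_iff := fun x => ⟨h3 x, fun h => by
        rw [h]
        have := h1 0 0
        rwa [zero_smul, abs_zero, zero_mul] at this⟩ }
  let _ : NormedAddCommGroup V := NormedAddCommGroup.ofCore core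
  let _ : NormedSpace ℝ V := NormedSpace.ofCore core
  exact hN V hr s hs hcard

section

variable {K : Type} [Field K] [NumberField K] {m : ℕ}

/-- the logarithms of a product of real powers -/
noncomputable def k2b_Phi (z : Fin m → K) : (Fin m → ℝ) →ₗ[ℝ] (Pl K → ℝ) where
  toFun v := fun p => ∑ i, v i * lv p (z i)
  map_add' v w := by
    funext p
    simp only [Pi.add_apply, add_mul, Finset.sum_add_distrib]
  map_smul' c v := by
    funext p
    simp only [Pi.smul_apply, smul_eq_mul, RingHom.id_apply, Finset.mul_sum, mul_assoc]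

/-- pairs -/
noncomputable def k2b_V (z : Fin m → K) : Submodule ℝ ((Pl K → ℝ) × (Pl K → ℝ)) :=
  LinearMap.range ((k2b_Phi z).prodMap (k2b_Phi z))

theorem k2b_finrank (z : Fin m → K) : Module.finrank ℝ (k2b_V z) ≤ 2 * m := by
  refine (LinearMap.finrank_range_le _).trans ?_
  rw [Module.finrank_prod, Module.finrank_fin_fun]
  omega

theorem k2b_FS {z : Fin m → K} (hz : ∀ i, z i ≠ 0) (x : k2b_V z) : FS x.1.1 ∧ FS x.1.2 := by
  obtain ⟨⟨f, g⟩, ⟨v, w⟩, h⟩ := x
  have hh : ∀ v : Fin m → ℝ, FS (k2b_Phi z v) := fun v =>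
    FS.sum Finset.univ (F := fun i p => v i * lv p (z i)) fun i _ => (FS_lv (hz i)).smul (v i)
  have h1 : k2b_Phi z v = f := congrArg Prod.fst h
  have h2 : k2b_Phi z w = g := congrArg Prod.snd h
  exact ⟨h1 ▸ hh v, h2 ▸ hh w⟩

/-- the norm -/
noncomputable def k2b_nu (z : Fin m → K) (x : k2b_V z) : ℝ := Sm (fun p => |x.1.1 p|) + Sm (fun p => |x.1.2 p|)

theorem k2b_nu_nonneg (z : Fin m → K) (x : k2b_V z) : 0 ≤ k2b_nu z x :=
  add_nonneg (Sm_nonneg fun _ => abs_nonneg _) (Sm_nonneg fun _ => abs_nonneg _)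

theorem k2b_nu_smul (z : Fin m → K) (c : ℝ) (x : k2b_V z) : k2b_nu z (c • x) = |c| * k2b_nu z x := by
  have h : ∀ f : Pl K → ℝ, Sm (fun p => |(c • f) p|) = |c| * Sm (fun p => |f p|) := by
    intro f
    rw [← Sm_smul]
    refine Sm_congr fun p => ?_
    rw [Pi.smul_apply, smul_eq_mul, abs_mul]
  change Sm (fun p => |(c • x.1.1) p|) + Sm (fun p => |(c • x.1.2) p|) = _
  rw [h, h, ← mul_add]
  rfl

theorem k2b_nu_add {z : Fin m → K} (hz : ∀ i, z i ≠ 0) (x y : k2b_V z) : k2b_nu z (x + y) ≤ k2b_nu z x + k2b_nu z y := by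
  have h : ∀ f g : Pl K → ℝ, FS f → FS g → Sm (fun p => |(f + g) p|) ≤ Sm (fun p => |f p|) + Sm (fun p => |g p|) := by
    intro f g hf hg
    rw [← Sm_add hf.abs hg.abs]
    exact Sm_mono (hf.add hg).abs (hf.abs.add hg.abs) fun p => abs_add_le _ _
  have h1 := h _ _ (k2b_FS hz x).1 (k2b_FS hz y).1
  have h2 := h _ _ (k2b_FS hz x).2 (k2b_FS hz y).2
  change Sm (fun p => |(x.1.1 + y.1.1) p|) + Sm (fun p => |(x.1.2 + y.1.2) p|) ≤ _
  unfold k2b_nu
  linarith

theorem k2b_zero {f : Pl K → ℝ} (hf : FS f) (h : Sm (fun p => |f p|) = 0) : f = 0 := by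
  funext p
  have h1 : |f p| ≤ Sm (fun p => |f p|) := by
    have := single_le_finsum p (f := fun p => |f p|) hf.abs (fun j => abs_nonneg _)
    exact this
  rw [h] at h1
  exact abs_nonpos_iff.1 h1

theorem k2b_nu_zero {z : Fin m → K} (hz : ∀ i, z i ≠ 0) (x : k2b_V z) (h : k2b_nu z x = 0) : x = 0 := by
  have h1 : 0 ≤ Sm (fun p => |x.1.1 p|) := Sm_nonneg fun _ => abs_nonneg _
  have h2 : 0 ≤ Sm (fun p => |x.1.2 p|) := Sm_nonneg fun _ => abs_nonneg _
  unfold k2b_nu at h
  have h3 := k2b_zero (k2b_FS hz x).1 (by linarith)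
  have h4 := k2b_zero (k2b_FS hz x).2 (by linarith)
  exact Subtype.ext (Prod.ext h3 h4)

theorem k2b_bound {a b x y : K} (ha : a ≠ 0) (hb : b ≠ 0) (hx : x ≠ 0) (hy : y ≠ 0)
    (hH : 5000 * Sm (fun p : Pl K => ell p + 2 * (|lv p a| + |lv p b|)) < Ht (Xl a b x y)) :
    0 < Ht (Xl a b x y) ∧ Sm (fun p : Pl K => |lv p x|) ≤ 3 * Ht (Xl a b x y) ∧
      Sm (fun p : Pl K => |lv p y|) ≤ 3 * Ht (Xl a b x y) := by
  have hc : FS (fun p : Pl K => ell p + 2 * (|lv p a| + |lv p b|)) :=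
    FS_ell.add (((FS_lv ha).abs.add (FS_lv hb).abs).smul 2)
  have h0 : 0 ≤ Sm (fun p : Pl K => ell p + 2 * (|lv p a| + |lv p b|)) :=
    Sm_nonneg fun p => by have := ell_nonneg p; positivity
  have h1 : Sm (fun p : Pl K => |lv p a|) ≤ Sm (fun p : Pl K => ell p + 2 * (|lv p a| + |lv p b|)) :=
    Sm_mono (FS_lv ha).abs hc fun p => by
      have := ell_nonneg p
      have := abs_nonneg (lv p a)
      have := abs_nonneg (lv p b)
      linarith
  have h2 : Sm (fun p : Pl K => |lv p b|) ≤ Sm (fun p : Pl K => ell p + 2 * (|lv p a| + |lv p b|)) :=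
    Sm_mono (FS_lv hb).abs hc fun p => by
      have := ell_nonneg p
      have := abs_nonneg (lv p a)
      have := abs_nonneg (lv p b)
      linarith
  rw [Sm_abs ha] at h1
  rw [Sm_abs hb] at h2
  have h3 := hh_le_Ht ha hb hx hy
  have h4 := Sm_abs_div ha hx h3.1
  have h5 := Sm_abs_div hb hy h3.2
  refine ⟨by linarith, by linarith, by linarith⟩

theorem k2b_key {a b : K} (ha : a ≠ 0) (hb : b ≠ 0) {q q' : K × K}
    (hq : q.1 ≠ 0 ∧ q.2 ≠ 0 ∧ a * q.1 + b * q.2 = 1) (hq' : q'.1 ≠ 0 ∧ q'.2 ≠ 0 ∧ a * q'.1 + b * q'.2 = 1)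
    (hH : 5000 * Sm (fun p : Pl K => ell p + 2 * (|lv p a| + |lv p b|)) < Ht (Xl a b q.1 q.2))
    (hHH : Ht (Xl a b q.1 q.2) ≤ Ht (Xl a b q'.1 q'.2))
    (h1 : Sm (fun p : Pl K => |2000 / Ht (Xl a b q.1 q.2) * lv p q.1 - 2000 / Ht (Xl a b q'.1 q'.2) * lv p q'.1|) ≤ 1)
    (h2 : Sm (fun p : Pl K => |2000 / Ht (Xl a b q.1 q.2) * lv p q.2 - 2000 / Ht (Xl a b q'.1 q'.2) * lv p q'.2|) ≤ 1) :
    q = q' := by
  have h0 := (k2b_bound ha hb hq.1 hq.2.1 hH).1
  set H := Ht (Xl a b q.1 q.2) with hHdef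
  set H' := Ht (Xl a b q'.1 q'.2) with hH'def
  have h0' : 0 < H' := h0.trans_le hHH
  have hs : ∀ x x' : K, Sm (fun p : Pl K => |2000 / H * lv p x - 2000 / H' * lv p x'|) ≤ 1 →
      Sm (fun p : Pl K => |lv p x' - (H' / H) * lv p x|) ≤ (H' / H) * H / 1000 := by
    intro x x' h
    have h3 : Sm (fun p : Pl K => |lv p x' - (H' / H) * lv p x|) =
        (H' / 2000) * Sm (fun p : Pl K => |2000 / H * lv p x - 2000 / H' * lv p x'|) := by
      rw [← Sm_smul]
      refine Sm_congr fun p => ?_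
      have h4 : H' / 2000 * |2000 / H * lv p x - 2000 / H' * lv p x'| =
          |(H' / 2000) * (2000 / H * lv p x - 2000 / H' * lv p x')| := by
        rw [abs_mul, abs_of_pos (by positivity : (0 : ℝ) < H' / 2000)]
      rw [h4, ← abs_neg]
      congr 1
      field_simp
      ring
    rw [h3, div_mul_cancel₀ _ h0.ne']
    have h5 : H' / 2000 * Sm (fun p : Pl K => |2000 / H * lv p x - 2000 / H' * lv p x'|) ≤ H' / 2000 * 1 :=
      mul_le_mul_of_nonneg_left h (by positivity)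
    linarith
  have h3 := two_close ha hb hq.1 hq.2.1 hq'.1 hq'.2.1 hq.2.2 hq'.2.2 (s := H' / H) (by positivity)
    (by rw [← hHdef, ← hH'def, div_mul_cancel₀ _ h0.ne']) (hs _ _ h1) (hs _ _ h2) hH hHH
  exact Prod.ext h3.1 h3.2

end

/-- Row Z6-K2b2. The number of the points of large height of a line in the division group of a finitely generated group is bounded. PROOF. For `q ∈ T` the functions `lv q.1, lv q.2` are in the real vector space `W` of the functions `p ↦ ∑ v_i lv p (z i)` on `Pl K`, of dimension `≤ m`, with the norm `Sm |f|` (`f` finitely supported; `Sm |f| = 0` implies `f = 0`).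
Let `E = W × W` (sup norm; dimension `≤ 2m`) and let `w(q) = (2000 / Ht) • (lv q.1, lv q.2)`, `Ht = Ht (Xl a b q.1 q.2)`. `‖w(q)‖ ≤ 2000 · 4 ≤ 2 ^ 13` (`Sm |lv (a x)| = 2 hh (a x) ≤ 2 Ht`, `hh_le_Ht` in `ZL2/Main3.lean`, and `Sm |lv a| ≤ Ht / 5000`). Either two different `q, q' ∈ T` have `w(q) = w(q')` or `w` is injective on `T` and `packing` gives
`q ≠ q'` with `‖w(q) - w(q')‖ ≤ 1`. Let `Ht(q) ≤ Ht(q')`, `s = Ht(q')/Ht(q)`: `Sm |lv q'.1 - s lv q.1| = (Ht(q')/2000) ‖...‖ ≤ s Ht(q) / 2000`: `two_close` gives `q = q'`. (`Ht (q) > 0`.) The normed space may be constructed as you like: for example a quotient or a subtype of functions `Pl K → ℝ` with a norm defined by `Sm`, or avoid it: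
a linear map from `Fin m → ℝ` and a seminorm, passing to the quotient by the kernel.) -/
theorem large_card (m : ℕ) : ∃ N : ℕ, ∀ (K : Type) [Field K] [NumberField K] (a b : K), a ≠ 0 → b ≠ 0 →
    ∀ z : Fin m → K, (∀ i, z i ≠ 0) → ∀ T : Finset (K × K),
      (∀ q ∈ T, q.1 ≠ 0 ∧ q.2 ≠ 0 ∧ a * q.1 + b * q.2 = 1 ∧
        (∃ M0 M1 : Fin m → ℝ, ∀ p : Pl K, lv p q.1 = ∑ i, M0 i * lv p (z i) ∧ lv p q.2 = ∑ i, M1 i * lv p (z i)) ∧
        5000 * Sm (fun p : Pl K => ell p + 2 * (|lv p a| + |lv p b|)) < Ht (Xl a b q.1 q.2)) → T.card ≤ N := by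
  obtain ⟨N, hN⟩ := k2b_norm (2 * m) 14
  refine ⟨N, ?_⟩
  intro K _ _ a b ha hb z hz T hT
  classical
  by_contra hcon
  push Not at hcon
  have hfd : FiniteDimensional ℝ (k2b_V z) := by
    unfold k2b_V
    infer_instance
  have hw : ∀ q ∈ T, ∃ x : k2b_V z, (∀ p, x.1.1 p = lv p q.1) ∧ (∀ p, x.1.2 p = lv p q.2) := by
    intro q hq
    obtain ⟨_, _, _, ⟨M0, M1, hM⟩, _⟩ := hT q hq
    exact ⟨⟨_, ⟨(M0, M1), rfl⟩⟩, fun p => (hM p).1.symm, fun p => (hM p).2.symm⟩
  choose! w hw1 hw2 using hw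
  let H : K × K → ℝ := fun q => Ht (Xl a b q.1 q.2)
  let W : K × K → k2b_V z := fun q => (2000 / H q) • w q
  have hpos : ∀ q ∈ T, 0 < H q := fun q hq => (k2b_bound ha hb (hT q hq).1 (hT q hq).2.1 (hT q hq).2.2.2.2).1
  have hWn : ∀ q ∈ T, k2b_nu z (W q) ≤ 2 ^ 14 := by
    intro q hq
    have h1 := k2b_bound ha hb (hT q hq).1 (hT q hq).2.1 (hT q hq).2.2.2.2
    have h2 := hpos q hq
    have h3 : k2b_nu z (w q) ≤ 6 * H q := by
      unfold k2b_nu
      rw [Sm_congr (fun p => by rw [hw1 q hq p] : ∀ p, |(w q).1.1 p| = |lv p q.1|),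
        Sm_congr (fun p => by rw [hw2 q hq p] : ∀ p, |(w q).1.2 p| = |lv p q.2|)]
      have h4 : Sm (fun p : Pl K => |lv p q.1|) ≤ 3 * H q := h1.2.1
      have h5 : Sm (fun p : Pl K => |lv p q.2|) ≤ 3 * H q := h1.2.2
      linarith
    rw [k2b_nu_smul, abs_of_pos (by positivity)]
    calc 2000 / H q * k2b_nu z (w q) ≤ 2000 / H q * (6 * H q) := mul_le_mul_of_nonneg_left h3 (by positivity)
      _ = 12000 := by field_simp; norm_num
      _ ≤ 2 ^ 14 := by norm_num
  have hex : ∃ q ∈ T, ∃ q' ∈ T, q ≠ q' ∧ k2b_nu z (W q - W q') ≤ 1 := by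
    by_cases hinj : Set.InjOn W T
    · obtain ⟨v, hv, v', hv', hne, h⟩ := hN (k2b_V z) (k2b_finrank z) (k2b_nu z) (k2b_nu_nonneg z) (k2b_nu_smul z)
        (k2b_nu_add hz) (k2b_nu_zero hz) (T.image W) (by
          intro v hv
          obtain ⟨q, hq, rfl⟩ := Finset.mem_image.1 hv
          exact hWn q hq) (by rwa [Finset.card_image_of_injOn hinj])
      obtain ⟨q, hq, rfl⟩ := Finset.mem_image.1 hv
      obtain ⟨q', hq', rfl⟩ := Finset.mem_image.1 hv'
      exact ⟨q, hq, q', hq', fun h => hne (by rw [h]), h⟩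
    · unfold Set.InjOn at hinj
      push Not at hinj
      obtain ⟨q, hq, q', hq', h, hne⟩ := hinj
      refine ⟨q, hq, q', hq', hne, ?_⟩
      rw [h, sub_self]
      have h1 := k2b_nu_smul z 0 0
      rw [zero_smul, abs_zero, zero_mul] at h1
      rw [h1]
      exact zero_le_one
  have hfin : ∀ q ∈ T, ∀ q' ∈ T, k2b_nu z (W q - W q') ≤ 1 → H q ≤ H q' → q = q' := by
    intro q hq q' hq' h hHH
    have hq1 := hT q hq
    have hq2 := hT q' hq'
    have e1 : ∀ p, (W q - W q').1.1 p = 2000 / H q * lv p q.1 - 2000 / H q' * lv p q'.1 := by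
      intro p
      rw [← hw1 q hq p, ← hw1 q' hq' p]
      rfl
    have e2 : ∀ p, (W q - W q').1.2 p = 2000 / H q * lv p q.2 - 2000 / H q' * lv p q'.2 := by
      intro p
      rw [← hw2 q hq p, ← hw2 q' hq' p]
      rfl
    unfold k2b_nu at h
    rw [Sm_congr (fun p => by rw [e1 p] : ∀ p, |(W q - W q').1.1 p| = |2000 / H q * lv p q.1 - 2000 / H q' * lv p q'.1|),
      Sm_congr (fun p => by rw [e2 p] : ∀ p, |(W q - W q').1.2 p| = |2000 / H q * lv p q.2 - 2000 / H q' * lv p q'.2|)] at h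
    have n1 : 0 ≤ Sm (fun p : Pl K => |2000 / H q * lv p q.1 - 2000 / H q' * lv p q'.1|) := Sm_nonneg fun _ => abs_nonneg _
    have n2 : 0 ≤ Sm (fun p : Pl K => |2000 / H q * lv p q.2 - 2000 / H q' * lv p q'.2|) := Sm_nonneg fun _ => abs_nonneg _
    exact k2b_key ha hb ⟨hq1.1, hq1.2.1, hq1.2.2.1⟩ ⟨hq2.1, hq2.2.1, hq2.2.2.1⟩ hq1.2.2.2.2 hHH
      (by linarith) (by linarith)
  obtain ⟨q, hq, q', hq', hne, h⟩ := hex
  rcases le_total (H q) (H q') with h1 | h1
  · exact hne (hfin q hq q' hq' h h1)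
  · refine hne (hfin q' hq' q hq ?_ h1).symm
    have h2 := k2b_nu_smul z (-1) (W q - W q')
    have h3 : (-1 : ℝ) • (W q - W q') = W q' - W q := (neg_one_smul ℝ (W q - W q')).trans (neg_sub _ _)
    rw [h3, abs_neg, abs_one, one_mul] at h2
    rw [h2]
    exact h

end Pool.Agent.Z6
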