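import Pool.Agent.Z6.Defs
import Pool.Agent.Z5.N3

namespace Pool.Agent.Z6

open Pool.Agent.ZL2 Filter Topology

variable {m : ℕ}

/-- The vector `(0, u)` of `ℝ^(2+m)`. -/
def inY (u : Fin m → ℝ) : Fin 2 ⊕ Fin m → ℝ := Sum.elim (fun _ => 0) u

/-- The vector `(e_j, -w)` of `ℝ^(2+m)`. -/
def inX (j : Fin 2) (w : Fin m → ℝ) : Fin 2 ⊕ Fin m → ℝ := Sum.elim (Pi.single j 1) (fun i => - w i)

theorem n3_dt_smul_left (s : ℝ) (u v : Fin m → ℝ) : dt (s • u) v = s * dt u v := by
  unfold dt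
  rw [Finset.mul_sum]
  exact Finset.sum_congr rfl fun i _ => by simp [mul_assoc]

theorem n3_dt_comm (u v : Fin m → ℝ) : dt u v = dt v u := by
  unfold dt
  exact Finset.sum_congr rfl fun i _ => mul_comm _ _

theorem n3_dt_smul_right (s : ℝ) (u v : Fin m → ℝ) : dt u (s • v) = s * dt u v := by
  rw [n3_dt_comm, n3_dt_smul_left, n3_dt_comm]

theorem n3_dt_sub_left (u v w : Fin m → ℝ) : dt (u - v) w = dt u w - dt v w := by
  unfold dt
  rw [← Finset.sum_sub_distrib]
  exact Finset.sum_congr rfl fun i _ => by simp [sub_mul]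

theorem n3_dt_pos {u : Fin m → ℝ} (h : u ≠ 0) : 0 < dt u u := by
  unfold dt
  obtain ⟨i, hi⟩ := Function.ne_iff.1 h
  refine Finset.sum_pos' (fun j _ => mul_self_nonneg _) ⟨i, Finset.mem_univ _, ?_⟩
  exact mul_self_pos.2 hi

/-- The normalisation of a vector. -/
theorem n3_norm {u : Fin m → ℝ} (h : u ≠ 0) : ∃ s : ℝ, 0 < s ∧ dt (s • u) (s • u) = 1 := by
  have h1 := n3_dt_pos h
  have h2 := Real.sqrt_pos.2 h1
  refine ⟨(Real.sqrt (dt u u))⁻¹, inv_pos.2 h2, ?_⟩
  rw [n3_dt_smul_left, n3_dt_smul_right]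
  have h3 := Real.mul_self_sqrt h1.le
  field_simp
  nlinarith [h3]

/-- `u ↦ (0, u)`. -/
def n3_inY : (Fin m → ℝ) →ₗ[ℝ] (Fin 2 ⊕ Fin m → ℝ) where
  toFun := inY
  map_add' u v := by
    funext x
    rcases x with x | x <;> simp [inY]
  map_smul' s u := by
    funext x
    rcases x with x | x <;> simp [inY]

/-- the projection to the first two coordinates -/
def n3_pr : (Fin 2 ⊕ Fin m → ℝ) →ₗ[ℝ] (Fin 2 → ℝ) where
  toFun w j := w (Sum.inl j)
  map_add' _ _ := rfl
  map_smul' _ _ := rfl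

theorem n3_eq_inY {w : Fin 2 ⊕ Fin m → ℝ} (h : ∀ j, w (Sum.inl j) = 0) :
    w = inY fun i => w (Sum.inr i) := by
  funext x
  rcases x with x | x
  · simp [inY, h x]
  · simp [inY]

theorem n3_eq_inX {w : Fin 2 ⊕ Fin m → ℝ} {j : Fin 2}
    (h : ∀ k, w (Sum.inl k) = (Pi.single j 1 : Fin 2 → ℝ) k) :
    w = inX j fun i => - w (Sum.inr i) := by
  funext x
  rcases x with x | x
  · simp [inX, h x]
  · simp [inX]

/-- Row Z6-N3. As `Z5.dichotomy`. -/
theorem dichotomy (N : Submodule ℝ (Fin 2 ⊕ Fin m → ℝ)) (hN : 3 ≤ Module.finrank ℝ N) :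
    (∃ u v : Fin m → ℝ, dt u u = 1 ∧ dt v v = 1 ∧ dt u v = 0 ∧ inY u ∈ N ∧ inY v ∈ N) ∨
    ∃ (u : Fin m → ℝ) (M : Fin 2 → Fin m → ℝ), dt u u = 1 ∧ (∀ j, dt (M j) u = 0) ∧ inY u ∈ N ∧
      (∀ j, inX j (M j) ∈ N) ∧
      ∀ w ∈ N, ∃ (s : ℝ) (r : Fin 2 → ℝ), w = s • inY u + ∑ j, r j • inX j (M j) := by
  have hmem : ∀ u : Fin m → ℝ, u ∈ N.comap n3_inY ↔ inY u ∈ N := fun u => Iff.rfl
  have hk : Module.finrank ℝ (LinearMap.ker (n3_pr.domRestrict N)) ≤
      Module.finrank ℝ (N.comap n3_inY) := by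
    let φ : LinearMap.ker (n3_pr.domRestrict N) →ₗ[ℝ] (N.comap n3_inY) :=
      { toFun := fun w => ⟨fun i => w.1.1 (Sum.inr i), by
          have h1 : ∀ j, w.1.1 (Sum.inl j) = 0 := fun j => congrFun (LinearMap.mem_ker.1 w.2) j
          rw [hmem, ← n3_eq_inY h1]
          exact w.1.2⟩
        map_add' := fun _ _ => rfl
        map_smul' := fun _ _ => rfl }
    refine LinearMap.finrank_le_finrank_of_injective (f := φ) ?_
    intro w w' h
    have h1 : ∀ j, w.1.1 (Sum.inl j) = 0 := fun j => congrFun (LinearMap.mem_ker.1 w.2) j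
    have h2 : ∀ j, w'.1.1 (Sum.inl j) = 0 := fun j => congrFun (LinearMap.mem_ker.1 w'.2) j
    have h3 : ∀ i, w.1.1 (Sum.inr i) = w'.1.1 (Sum.inr i) := fun i =>
      congrFun (congrArg Subtype.val h) i
    apply Subtype.ext
    apply Subtype.ext
    funext x
    rcases x with x | x
    · rw [h1, h2]
    · exact h3 x
  have hr : Module.finrank ℝ (LinearMap.range (n3_pr.domRestrict N)) ≤ 2 := by
    have := Submodule.finrank_le (LinearMap.range (n3_pr.domRestrict N))
    simpa using this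
  have hs := LinearMap.finrank_range_add_finrank_ker (n3_pr.domRestrict N)
  by_cases h2 : 2 ≤ Module.finrank ℝ (N.comap n3_inY)
  · left
    obtain ⟨f, hf⟩ := exists_linearIndependent_of_le_finrank h2
    have hf' : LinearIndependent ℝ (fun i => (f i : Fin m → ℝ)) :=
      hf.map' (Submodule.subtype _) (Submodule.ker_subtype _)
    have ha : (f 0 : Fin m → ℝ) ≠ 0 := hf'.ne_zero 0
    obtain ⟨s, hs0, hs1⟩ := n3_norm ha
    set u : Fin m → ℝ := s • (f 0 : Fin m → ℝ) with hu
    set b : Fin m → ℝ := (f 1 : Fin m → ℝ) - (dt (f 1 : Fin m → ℝ) u) • u with hb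
    have hb0 : b ≠ 0 := by
      intro h0
      have h3 := LinearIndependent.pair_iff.1 (show LinearIndependent ℝ ![(f 0 : Fin m → ℝ), (f 1 : Fin m → ℝ)] from by
        convert hf' using 1
        funext i
        fin_cases i <;> rfl) (-(dt (f 1 : Fin m → ℝ) u * s)) 1 (by
          have : b = (-(dt (f 1 : Fin m → ℝ) u * s)) • (f 0 : Fin m → ℝ) + (1 : ℝ) • (f 1 : Fin m → ℝ) := by
            rw [hb]
            nth_rewrite 2 [hu]
            rw [smul_smul, neg_smul, one_smul]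
            abel
          rw [← this, h0])
      exact one_ne_zero h3.2
    obtain ⟨r, hr0, hr1⟩ := n3_norm hb0
    have hub : dt b u = 0 := by
      rw [hb, n3_dt_sub_left, n3_dt_smul_left, hs1, mul_one, sub_self]
    have hum : u ∈ N.comap n3_inY := Submodule.smul_mem _ _ (f 0).2
    have hbm : b ∈ N.comap n3_inY := Submodule.sub_mem _ (f 1).2 (Submodule.smul_mem _ _ hum)
    refine ⟨u, r • b, hs1, hr1, ?_, (hmem _).1 hum, (hmem _).1 (Submodule.smul_mem _ _ hbm)⟩
    rw [n3_dt_smul_right, n3_dt_comm, hub, mul_zero]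
  · right
    have h1 : Module.finrank ℝ (N.comap n3_inY) = 1 := by omega
    have hsur : Module.finrank ℝ (LinearMap.range (n3_pr.domRestrict N)) = 2 := by omega
    have htop : LinearMap.range (n3_pr.domRestrict N) = ⊤ := by
      apply Submodule.eq_top_of_finrank_eq
      rw [hsur]
      simp
    obtain ⟨v, hv0, hv⟩ := finrank_eq_one_iff'.1 h1
    have hv0' : (v : Fin m → ℝ) ≠ 0 := fun h => hv0 (Subtype.ext h)
    obtain ⟨s, hs0, hs1⟩ := n3_norm hv0'
    set u : Fin m → ℝ := s • (v : Fin m → ℝ) with hu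
    have hum : u ∈ N.comap n3_inY := Submodule.smul_mem _ _ v.2
    have hj : ∀ j : Fin 2, ∃ w : Fin m → ℝ, inX j w ∈ N := by
      intro j
      have : (Pi.single j 1 : Fin 2 → ℝ) ∈ LinearMap.range (n3_pr.domRestrict N) := by
        rw [htop]; trivial
      obtain ⟨w, hw⟩ := this
      refine ⟨fun i => - w.1 (Sum.inr i), ?_⟩
      rw [← n3_eq_inX (fun k => congrFun hw k)]
      exact w.2
    choose mm hm using hj
    have hM : ∀ j, inX j (mm j - (dt (mm j) u) • u) = inX j (mm j) + (dt (mm j) u) • inY u := by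
      intro j
      funext x
      rcases x with x | x
      · simp [inX, inY]
      · simp only [inX, inY, Sum.elim_inr, Pi.sub_apply, Pi.smul_apply, Pi.add_apply, smul_eq_mul]
        ring
    have hMm : ∀ j, inX j (mm j - (dt (mm j) u) • u) ∈ N := by
      intro j
      rw [hM]
      exact N.add_mem (hm j) (N.smul_mem _ ((hmem _).1 hum))
    refine ⟨u, fun j => mm j - (dt (mm j) u) • u, hs1, fun j => ?_, (hmem _).1 hum, hMm, ?_⟩
    · rw [n3_dt_sub_left, n3_dt_smul_left, hs1, mul_one, sub_self]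
    · intro w hw
      set w' : Fin 2 ⊕ Fin m → ℝ :=
        w - ∑ j, w (Sum.inl j) • inX j (mm j - (dt (mm j) u) • u) with hw'
      have hw'm : w' ∈ N := N.sub_mem hw (N.sum_mem fun j _ => N.smul_mem _ (hMm j))
      have hw0 : ∀ j, w' (Sum.inl j) = 0 := by
        intro j
        rw [hw']
        simp only [Pi.sub_apply, Finset.sum_apply, Pi.smul_apply, smul_eq_mul, inX, Sum.elim_inl]
        rw [Finset.sum_eq_single j]
        · simp
        · intro k _ hkj
          rw [Pi.single_eq_of_ne (Ne.symm hkj)]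
          simp
        · intro h; exact absurd (Finset.mem_univ _) h
      have hw1 : w' = inY fun i => w' (Sum.inr i) := n3_eq_inY hw0
      have hw2 : (fun i => w' (Sum.inr i)) ∈ N.comap n3_inY := by
        rw [hmem, ← hw1]
        exact hw'm
      obtain ⟨c, hc⟩ := hv ⟨_, hw2⟩
      have hc' : c • (v : Fin m → ℝ) = fun i => w' (Sum.inr i) := congrArg Subtype.val hc
      refine ⟨c / s, fun j => w (Sum.inl j), ?_⟩
      have e1 : (c / s) • inY u = w' := by
        rw [hw1, ← hc']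
        have : (c / s) • inY u = inY ((c / s) • u) := (n3_inY.map_smul (c / s) u).symm
        rw [this, hu, smul_smul, div_mul_cancel₀ _ hs0.ne']
      rw [e1, hw']
      abel


end Pool.Agent.Z6
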