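import Pool.Agent.Z6.E6
import Pool.Agent.Z6.N3
import Pool.Agent.Z5.K3

namespace Pool.Agent.Z6

open Pool.Agent.ZL2 Filter Topology
open Pool.Agent.Z5 (fr Gen ev2)

variable {F : Type} [Field F] [NumberField F] [Algebra F ℂ] {m : ℕ} {A B C : Polynomial F} {c d : Fin m → F}

/-- The points of `G_m^(2+m)`. -/
noncomputable def Ar.pt (S : Ar F A B C c d) (n : ℕ) : Fin 2 ⊕ Fin m → S.K n :=
  Sum.elim ![S.X n / S.a n, (1 - S.X n) / S.b n] (S.y n)

/-- The real relations. -/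
def Ar.N (S : Ar F A B C c d) (n : ℕ) : Submodule ℝ (Fin 2 ⊕ Fin m → ℝ) where
  carrier := {w | ∀ p : Pl (S.K n), ∑ k, w k * lv p (S.pt n k) = 0}
  add_mem' {v w} hv hw p := by
    have h : ∑ k, (v + w) k * lv p (S.pt n k) =
        ∑ k, v k * lv p (S.pt n k) + ∑ k, w k * lv p (S.pt n k) := by
      rw [← Finset.sum_add_distrib]
      exact Finset.sum_congr rfl fun k _ => by rw [Pi.add_apply, add_mul]
    rw [h, hv p, hw p, add_zero]
  zero_mem' p := by simp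
  smul_mem' r w hw p := by
    have h : ∑ k, (r • w) k * lv p (S.pt n k) = r * ∑ k, w k * lv p (S.pt n k) := by
      rw [Finset.mul_sum]
      exact Finset.sum_congr rfl fun k _ => by rw [Pi.smul_apply, smul_eq_mul, mul_assoc]
    rw [h, hw p, mul_zero]

/-- A subsequence. -/
noncomputable def Ar.comp (S : Ar F A B C c d) (φ : ℕ → ℕ) (hφ : Function.Injective φ) : Ar F A B C c d where
  hm := S.hm
  hA := S.hA
  hB := S.hB
  hC := S.hC
  hc := S.hc
  hd := S.hd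
  hH := S.hH
  K n := S.K (φ n)
  j n := S.j (φ n)
  X n := S.X (φ n)
  t n := S.t (φ n)
  hX0 n := S.hX0 (φ n)
  hX1 n := S.hX1 (φ n)
  ht n := S.ht (φ n)
  hAt n := S.hAt (φ n)
  hBt n := S.hBt (φ n)
  hCt n := S.hCt (φ n)
  inj := S.inj.comp hφ

/-- Row Z6-K3a. From the proof of `Z5.Ar.main`: only finitely many `n` have two independent pure relations in `y` (otherwise a subsequence contradicts `no_two`). -/
theorem Ar.finite_two (S : Ar F A B C c d) : {n : ℕ | ∃ u v : Fin m → ℝ, dt u u = 1 ∧ dt v v = 1 ∧ dt u v = 0 ∧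
    (∀ p : Pl (S.K n), ∑ i, u i * lv p (S.y n i) = 0) ∧ (∀ p : Pl (S.K n), ∑ i, v i * lv p (S.y n i) = 0)}.Finite := by
  classical
  by_contra hcon
  obtain ⟨φ, hφ, hm⟩ := Z5.k3_sub hcon
  choose u v a1 a2 a3 a4 a5 using hm
  exact (S.comp _ hφ).no_two u v a1 a2 a3 (fun n p => a4 n p) (fun n p => a5 n p)

/-- Row Z6-K3b. As `Z5.Ar.main` (`lv p (X / a n) = lv p X - lv p (S.a n)`). -/
theorem Ar.main (S : Ar F A B C c d) (hN : ∀ n, 3 ≤ Module.finrank ℝ (S.N n))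
    (hX : Function.Injective (fun n => S.j n (S.X n)) ∨ ∃ x : F, ∀ n, S.X n = algebraMap F (S.K n) x) :
    ∃ 𝒩 : Set ℕ, 𝒩.Infinite ∧ ((∃ N' : Submodule ℝ (Fin 2 ⊕ Fin m → ℝ), ∀ n ∈ 𝒩, S.N n = N') ∨
    ∃ (k : Fin 2 → Fin m → ℤ) (e : ℕ), 0 < e ∧ ∀ n ∈ 𝒩,
      (S.pt n (Sum.inl 0) * ∏ i, S.pt n (Sum.inr i) ^ (- k 0 i)) ^ e = 1 ∧
      (S.pt n (Sum.inl 1) * ∏ i, S.pt n (Sum.inr i) ^ (- k 1 i)) ^ e = 1) := by
  classical
  have hdich := fun n => dichotomy (S.N n) (hN n)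
  have hY : ∀ n (u : Fin m → ℝ), inY u ∈ S.N n → ∀ p : Pl (S.K n), ∑ i, u i * lv p (S.y n i) = 0 := by
    intro n u h p
    have h1 : ∑ k, inY u k * lv p (S.pt n k) = 0 := h p
    rw [Fintype.sum_sum_type] at h1
    have h2 : ∑ x : Fin 2, inY u (Sum.inl x) * lv p (S.pt n (Sum.inl x)) = 0 :=
      Finset.sum_eq_zero fun x _ => by
        show (0 : ℝ) * _ = 0
        rw [zero_mul]
    rw [h2, zero_add] at h1
    exact h1
  have hXr : ∀ n (j : Fin 2) (w : Fin m → ℝ), inX j w ∈ S.N n → ∀ p : Pl (S.K n),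
      lv p (S.pt n (Sum.inl j)) = ∑ i, w i * lv p (S.y n i) := by
    intro n j w h p
    have h1 : ∑ k, inX j w k * lv p (S.pt n k) = 0 := h p
    rw [Fintype.sum_sum_type] at h1
    have h2 : ∑ x : Fin 2, inX j w (Sum.inl x) * lv p (S.pt n (Sum.inl x)) = lv p (S.pt n (Sum.inl j)) := by
      rw [Finset.sum_eq_single j]
      · show (Pi.single j 1 : Fin 2 → ℝ) j * _ = _
        rw [Pi.single_eq_same, one_mul]
      · intro x _ hx
        show (Pi.single j 1 : Fin 2 → ℝ) x * _ = 0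
        rw [Pi.single_eq_of_ne hx, zero_mul]
      · intro h'; exact absurd (Finset.mem_univ _) h'
    have h3 : ∑ x : Fin m, inX j w (Sum.inr x) * lv p (S.pt n (Sum.inr x)) = - ∑ i, w i * lv p (S.y n i) := by
      rw [← Finset.sum_neg_distrib]
      refine Finset.sum_congr rfl fun x _ => ?_
      show (- w x) * lv p (S.y n x) = _
      ring
    rw [h2, h3] at h1
    linarith
  have hr1 : ∀ n (w : Fin m → ℝ), inX 0 w ∈ S.N n → ∀ p : Pl (S.K n),
      lv p (S.X n) = ∑ i, w i * lv p (S.y n i) + lv p (S.a n) := by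
    intro n w h p
    have e1 := hXr n 0 w h p
    have e2 : lv p (S.X n / S.a n) = lv p (S.X n) - lv p (S.a n) := by
      rw [div_eq_mul_inv, lv_mul p (S.hX0 _) (inv_ne_zero (S.a_ne n)), lv_inv, sub_eq_add_neg]
    have e3 : lv p (S.pt n (Sum.inl 0)) = lv p (S.X n / S.a n) := rfl
    rw [e3, e2] at e1
    linarith
  have hr2 : ∀ n (w : Fin m → ℝ), inX 1 w ∈ S.N n → ∀ p : Pl (S.K n),
      lv p (1 - S.X n) = ∑ i, w i * lv p (S.y n i) + lv p (S.b n) := by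
    intro n w h p
    have e1 := hXr n 1 w h p
    have e2 : lv p ((1 - S.X n) / S.b n) =
        lv p (1 - S.X n) - lv p (S.b n) := by
      rw [div_eq_mul_inv, lv_mul p (sub_ne_zero.2 (S.hX1 _).symm) (inv_ne_zero (S.b_ne n)),
        lv_inv]
      ring
    have e3 : lv p (S.pt n (Sum.inl 1)) = lv p ((1 - S.X n) / S.b n) := rfl
    rw [e3, e2] at e1
    linarith
  have h1 : {n | ∃ u v : Fin m → ℝ, dt u u = 1 ∧ dt v v = 1 ∧ dt u v = 0 ∧ inY u ∈ S.N n ∧ inY v ∈ S.N n}.Finite := by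
    refine S.finite_two.subset ?_
    rintro n ⟨u, v, a1, a2, a3, a4, a5⟩
    exact ⟨u, v, a1, a2, a3, hY _ _ a4, hY _ _ a5⟩
  have h2 : {n | ∃ (u : Fin m → ℝ) (M : Fin 2 → Fin m → ℝ), dt u u = 1 ∧ (∀ j, dt (M j) u = 0) ∧ inY u ∈ S.N n ∧
    (∀ j, inX j (M j) ∈ S.N n) ∧
    ∀ w ∈ S.N n, ∃ (s : ℝ) (r : Fin 2 → ℝ), w = s • inY u + ∑ j, r j • inX j (M j)}.Infinite := by
    refine h1.infinite_compl.mono fun n hn => ?_
    exact (hdich n).resolve_left hn
  obtain ⟨φ, hφ, hm⟩ := Z5.k3_sub h2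
  choose u M b1 b2 b3 b4 b5 using hm
  let T : ArM F A B C c d :=
    { toAr := S.comp φ hφ
      u := u
      M := M
      hu := b1
      hM := b2
      r0 := fun n p => hY _ _ (b3 n) p
      r1 := fun n p => hr1 _ _ (b4 n 0) p
      r2 := fun n p => hr2 _ _ (b4 n 1) p }
  have hXT : Function.Injective (fun n => T.j n (T.X n)) ∨ ∃ x : F, ∀ n, T.X n = algebraMap F (T.K n) x := by
    rcases hX with h | ⟨x, hx⟩
    · exact Or.inl (h.comp hφ)
    · exact Or.inr ⟨x, fun n => hx (φ n)⟩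
  have hinf : ∀ s : Set ℕ, (∀ᶠ n in ((hyperfilter ℕ : Ultrafilter ℕ) : Filter ℕ), n ∈ s) → s.Infinite := by
    intro s hs hfin
    exact notMem_hyperfilter_of_finite hfin hs
  rcases T.main (hyperfilter ℕ) (hyperfilter_le_cofinite) hXT with ⟨u', M', h3⟩ | ⟨k, e, he, h3⟩
  · refine ⟨φ '' {n | u n = u' ∧ M n = M'}, (hinf _ h3).image hφ.injOn, Or.inl
      ⟨Submodule.span ℝ {inY u', inX 0 (M' 0), inX 1 (M' 1)}, ?_⟩⟩
    rintro _ ⟨n, ⟨e1, e2⟩, rfl⟩
    apply le_antisymm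
    · intro w hw
      obtain ⟨s, r, hw'⟩ := b5 n w hw
      rw [hw', Fin.sum_univ_two, e1, e2]
      refine Submodule.add_mem _ (Submodule.smul_mem _ _ (Submodule.subset_span (by simp)))
        (Submodule.add_mem _ (Submodule.smul_mem _ _ (Submodule.subset_span (by simp)))
          (Submodule.smul_mem _ _ (Submodule.subset_span (by simp))))
    · rw [Submodule.span_le]
      rintro w hw
      simp only [Set.mem_insert_iff, Set.mem_singleton_iff] at hw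
      rcases hw with rfl | rfl | rfl
      · rw [← e1]; exact b3 n
      · rw [← e2]; exact b4 n 0
      · rw [← e2]; exact b4 n 1
  · refine ⟨φ '' {n | (T.X n / T.a n * ∏ i, T.y n i ^ (- k 0 i)) ^ e = 1 ∧
      ((1 - T.X n) / T.b n * ∏ i, T.y n i ^ (- k 1 i)) ^ e = 1},
      (hinf _ h3).image hφ.injOn, Or.inr ⟨k, e, he, ?_⟩⟩
    rintro _ ⟨n, ⟨e1, e2⟩, rfl⟩
    exact ⟨e1, e2⟩

end Pool.Agent.Z6
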