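import Pool.Agent.Z6.K3
import Pool.Agent.Z6.G1
import Pool.Agent.Z5.K4

open Pool.Agent.MP_dd1803_nt Pool.Agent.ZPA Pool.Agent.ZL2

namespace Pool.Agent.Z6

variable {m : ℕ}

/-- Row Z6-K4a. As `Z5.exists_Ar`. `F` is generated by the coefficients of `A, B, C` and the `c i, d i, x0`; `t n = P n (inr 0) / c 0 + d 0` (`0 < m`), `X n = A(t) / C(t) * P n (inl 0)` (so `1 - X n = B(t)/C(t) * P n (inl 1)`). -/
theorem exists_Ar {A B C : Polynomial ℂ} {c d : Fin m → ℂ} (hm : 2 ≤ m) (hA : A ≠ 0) (hB : B ≠ 0) (hC : C ≠ 0)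
    (hAa : ∀ k, IsAlgebraic ℚ (A.coeff k)) (hBa : ∀ k, IsAlgebraic ℚ (B.coeff k)) (hCa : ∀ k, IsAlgebraic ℚ (C.coeff k))
    (hc : ∀ i, c i ≠ 0) (hca : ∀ i, IsAlgebraic ℚ (c i)) (hd : Function.Injective d)
    (hda : ∀ i, IsAlgebraic ℚ (d i)) (hH : HH c d) (P : ℕ → Fin 2 ⊕ Fin m → ℂˣ)
    (hPV : ∀ n, P n ∈ TP A B C c d)
    (hne : ∀ n t, (∀ i, (P n (Sum.inr i) : ℂ) = c i * (t - d i)) → A.eval t ≠ 0 ∧ B.eval t ≠ 0 ∧ C.eval t ≠ 0)
    (hPa : ∀ n i, IsAlgebraic ℚ (P n i : ℂ))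
    (hinj : Function.Injective (fun n i => P n (Sum.inr i))) {x0 : ℂ} (hx0 : IsAlgebraic ℚ x0) :
    ∃ (F : Type) (_ : Field F) (_ : NumberField F) (_ : Algebra F ℂ) (A' B' C' : Polynomial F) (c' d' : Fin m → F) (x' : F)
      (S : Ar F A' B' C' c' d'), algebraMap F ℂ x' = x0 ∧
      (∀ n k, S.j n (S.pt n k) = (P n k : ℂ)) ∧
      ∀ n t, (∀ i, (P n (Sum.inr i) : ℂ) = c i * (t - d i)) →
        S.j n (S.X n) = A.eval t / C.eval t * (P n (Sum.inl 0) : ℂ) := by
  classical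
  obtain ⟨S0, hS⟩ : ∃ S0 : Set ℂ, S0 = {x0} ∪ ((Set.range c ∪ Set.range d) ∪
    ((A.coeffs : Set ℂ) ∪ ((B.coeffs : Set ℂ) ∪ (C.coeffs : Set ℂ)))) := ⟨_, rfl⟩
  have hSfin : S0.Finite := by
    rw [hS]
    exact (Set.finite_singleton _).union (((Set.finite_range c).union (Set.finite_range d)).union
      ((Finset.finite_toSet _).union ((Finset.finite_toSet _).union (Finset.finite_toSet _))))
  have hco : ∀ Q : Polynomial ℂ, (∀ k, IsAlgebraic ℚ (Q.coeff k)) → ∀ z ∈ (Q.coeffs : Set ℂ), IsIntegral ℚ z := by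
    intro Q hQ z hz
    obtain ⟨k, -, rfl⟩ := Polynomial.mem_coeffs_iff.1 (Finset.mem_coe.1 hz)
    exact (hQ k).isIntegral
  have hSalg : ∀ z ∈ S0, IsIntegral ℚ z := by
    rw [hS]
    rintro z (hz | (⟨i, rfl⟩ | ⟨i, rfl⟩) | (hz | hz | hz))
    · rw [Set.mem_singleton_iff.1 hz]
      exact hx0.isIntegral
    · exact (hca i).isIntegral
    · exact (hda i).isIntegral
    · exact hco A hAa z hz
    · exact hco B hBa z hz
    · exact hco C hCa z hz
  have : Finite S0 := hSfin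
  let F : IntermediateField ℚ ℂ := IntermediateField.adjoin ℚ S0
  have hFfin : FiniteDimensional ℚ F := IntermediateField.finiteDimensional_adjoin hSalg
  have hFn : NumberField F := ⟨⟩
  have hmem : ∀ z ∈ S0, z ∈ F := fun z hz => IntermediateField.subset_adjoin ℚ S0 hz
  have hlift : ∀ Q : Polynomial ℂ, (Q.coeffs : Set ℂ) ⊆ S0 → ∃ Q' : Polynomial F, Q'.map (algebraMap F ℂ) = Q := by
    intro Q hQ
    rw [← Polynomial.mem_lifts, Polynomial.lifts_iff_coeff_lifts]
    intro k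
    by_cases h0 : Q.coeff k = 0
    · exact ⟨0, by rw [map_zero, h0]⟩
    · exact ⟨⟨Q.coeff k, hmem _ (hQ (Finset.mem_coe.2 (Polynomial.coeff_mem_coeffs h0)))⟩, rfl⟩
  obtain ⟨A', hA'⟩ := hlift A (by
    rw [hS]; exact fun z hz => Or.inr (Or.inr (Or.inl hz)))
  obtain ⟨B', hB'⟩ := hlift B (by
    rw [hS]; exact fun z hz => Or.inr (Or.inr (Or.inr (Or.inl hz))))
  obtain ⟨C', hC'⟩ := hlift C (by
    rw [hS]; exact fun z hz => Or.inr (Or.inr (Or.inr (Or.inr hz))))
  let x' : F := ⟨x0, hmem x0 (by rw [hS]; exact Or.inl rfl)⟩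
  let c' : Fin m → F := fun i => ⟨c i, hmem _ (by rw [hS]; exact Or.inr (Or.inl (Or.inl ⟨i, rfl⟩)))⟩
  let d' : Fin m → F := fun i => ⟨d i, hmem _ (by rw [hS]; exact Or.inr (Or.inl (Or.inr ⟨i, rfl⟩)))⟩
  have hnz : ∀ (Q : Polynomial ℂ) (Q' : Polynomial F), Q'.map (algebraMap F ℂ) = Q → Q ≠ 0 → Q' ≠ 0 := by
    rintro Q Q' h h1 rfl
    rw [Polynomial.map_zero] at h
    exact h1 h.symm
  obtain ⟨i0, hi0⟩ : ∃ i0 : Fin m, i0 = ⟨0, by omega⟩ := ⟨_, rfl⟩
  obtain ⟨t, htdef⟩ : ∃ t : ℕ → ℂ, t = fun n => (P n (Sum.inr i0) : ℂ) / c i0 + d i0 := ⟨_, rfl⟩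
  have htu : ∀ n s, (∀ i, (P n (Sum.inr i) : ℂ) = c i * (s - d i)) → t n = s := by
    intro n s hs
    rw [htdef]
    simp only
    rw [hs i0]
    have := hc i0
    field_simp
    ring
  have htt : ∀ n, (∀ i, (P n (Sum.inr i) : ℂ) = c i * (t n - d i)) ∧
      A.eval (t n) * (P n (Sum.inl 0) : ℂ) + B.eval (t n) * (P n (Sum.inl 1) : ℂ) = C.eval (t n) := by
    intro n
    obtain ⟨s, hs, h2⟩ := hPV n
    rw [htu n s hs]
    exact ⟨hs, h2⟩
  have ht : ∀ n i, (P n (Sum.inr i) : ℂ) = c i * (t n - d i) := fun n => (htt n).1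
  have hABC := fun n => hne n (t n) (ht n)
  obtain ⟨X, hXdef⟩ : ∃ X : ℕ → ℂ, X = fun n => A.eval (t n) / C.eval (t n) * (P n (Sum.inl 0) : ℂ) := ⟨_, rfl⟩
  have hX1 : ∀ n, 1 - X n = B.eval (t n) / C.eval (t n) * (P n (Sum.inl 1) : ℂ) := by
    intro n
    rw [hXdef]
    have h1 := (htt n).2
    have h2 := (hABC n).2.2
    field_simp
    linear_combination -h1
  have hX0 : ∀ n, X n = A.eval (t n) / C.eval (t n) * (P n (Sum.inl 0) : ℂ) := fun n => by rw [hXdef]
  have htalg : ∀ n, IsAlgebraic ℚ (t n) := by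
    intro n
    rw [htdef]
    simp only [div_eq_mul_inv]
    exact ((hPa n _).mul (hca i0).inv).add (hda i0)
  have hev : ∀ (Q : Polynomial ℂ), (∀ k, IsAlgebraic ℚ (Q.coeff k)) → ∀ z, IsAlgebraic ℚ z → IsIntegral ℚ (Q.eval z) := by
    intro Q hQ z hz
    rw [Polynomial.eval_eq_sum_range]
    exact IsIntegral.sum _ fun k _ => (hQ k).isIntegral.mul (hz.isIntegral.pow k)
  have hXalg : ∀ n, IsIntegral ℚ (X n) := by
    intro n
    rw [hX0, div_eq_mul_inv]
    exact ((hev A hAa _ (htalg n)).mul (IsIntegral.inv (hev C hCa _ (htalg n)))).mul (hPa n _).isIntegral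
  let T : ℕ → Set ℂ := fun n => {X n, t n}
  let K : ℕ → IntermediateField F ℂ := fun n => IntermediateField.adjoin F (T n)
  have hKfin : ∀ n, FiniteDimensional F (K n) := by
    intro n
    have : Finite (T n) := (Set.toFinite _ : ({X n, t n} : Set ℂ).Finite)
    refine IntermediateField.finiteDimensional_adjoin ?_
    intro z hz
    have hz' : z = X n ∨ z = t n := hz
    have h1 : IsIntegral ℚ z := by
      rcases hz' with rfl | rfl
      · exact hXalg n
      · exact (htalg n).isIntegral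
    exact h1.tower_top
  have hKn : ∀ n, NumberField (K n) := by
    intro n
    have h1 := hKfin n
    have h2 : FiniteDimensional ℚ (K n) := FiniteDimensional.trans ℚ F (K n)
    exact ⟨⟩
  have hXm : ∀ n, X n ∈ K n := fun n => IntermediateField.subset_adjoin F (T n) (Or.inl rfl)
  have htm : ∀ n, t n ∈ K n := fun n => IntermediateField.subset_adjoin F (T n) (Or.inr rfl)
  have hval : ∀ (n : ℕ) (Q' : Polynomial F), (K n).val (Polynomial.aeval (⟨t n, htm n⟩ : K n) Q') =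
      (Q'.map (algebraMap F ℂ)).eval (t n) := by
    intro n Q'
    rw [← Polynomial.aeval_algHom_apply, Polynomial.aeval_def, Polynomial.eval_map]
    rfl
  have hval0 : ∀ (n : ℕ) (Q' : Polynomial F), (Q'.map (algebraMap F ℂ)).eval (t n) ≠ 0 →
      Polynomial.aeval (⟨t n, htm n⟩ : K n) Q' ≠ 0 := by
    intro n Q' h h0
    apply h
    rw [← hval n, h0, map_zero]
  let S : Ar F A' B' C' c' d' :=
    { hm := hm
      hA := hnz A A' hA' hA
      hB := hnz B B' hB' hB
      hC := hnz C C' hC' hC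
      hc := fun i h => hc i (congrArg Subtype.val h)
      hd := fun i l h => hd (congrArg Subtype.val h)
      hH := hH
      K := fun n => K n
      fld := fun n => inferInstance
      nf := hKn
      alg := fun n => inferInstance
      fd := hKfin
      j := fun n => (K n).val
      X := fun n => ⟨X n, hXm n⟩
      t := fun n => ⟨t n, htm n⟩
      hX0 := fun n h => by
        have h1 : X n = 0 := congrArg Subtype.val h
        rw [hX0] at h1
        exact mul_ne_zero (div_ne_zero (hABC n).1 (hABC n).2.2) (P n (Sum.inl 0)).ne_zero h1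
      hX1 := fun n h => by
        have h1 : X n = 1 := congrArg Subtype.val h
        have h2 := hX1 n
        rw [h1, sub_self] at h2
        exact mul_ne_zero (div_ne_zero (hABC n).2.1 (hABC n).2.2) (P n (Sum.inl 1)).ne_zero h2.symm
      ht := fun n i h => by
        have h1 : t n = d i := congrArg Subtype.val h
        have h2 := ht n i
        rw [h1, sub_self, mul_zero] at h2
        exact (P n (Sum.inr i)).ne_zero h2
      hAt := fun n => hval0 n A' (by rw [hA']; exact (hABC n).1)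
      hBt := fun n => hval0 n B' (by rw [hB']; exact (hABC n).2.1)
      hCt := fun n => hval0 n C' (by rw [hC']; exact (hABC n).2.2)
      inj := fun n n' h => by
        have h1 : t n = t n' := h
        apply hinj
        funext i
        apply Units.ext
        show (P n (Sum.inr i) : ℂ) = (P n' (Sum.inr i) : ℂ)
        rw [ht n i, ht n' i, h1] }
  have hSa : ∀ n, (K n).val (S.a n) = A.eval (t n) / C.eval (t n) := by
    intro n
    show (K n).val (Polynomial.aeval (⟨t n, htm n⟩ : K n) A' / Polynomial.aeval (⟨t n, htm n⟩ : K n) C') = _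
    rw [map_div₀, hval, hval, hA', hC']
  have hSb : ∀ n, (K n).val (S.b n) = B.eval (t n) / C.eval (t n) := by
    intro n
    show (K n).val (Polynomial.aeval (⟨t n, htm n⟩ : K n) B' / Polynomial.aeval (⟨t n, htm n⟩ : K n) C') = _
    rw [map_div₀, hval, hval, hB', hC']
  refine ⟨F, inferInstance, hFn, inferInstance, A', B', C', c', d', x', S, rfl, ?_, ?_⟩
  · intro n k
    have n1 := (hABC n).1
    have n2 := (hABC n).2.1
    have n3 := (hABC n).2.2
    rcases k with k | k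
    · fin_cases k
      · show (K n).val ((⟨X n, hXm n⟩ : K n) / S.a n) = _
        rw [map_div₀, hSa]
        show X n / _ = (P n (Sum.inl 0) : ℂ)
        rw [hX0]
        field_simp
      · show (K n).val ((1 - (⟨X n, hXm n⟩ : K n)) / S.b n) = _
        rw [map_div₀, map_sub, map_one, hSb]
        show (1 - X n) / _ = (P n (Sum.inl 1) : ℂ)
        rw [hX1]
        field_simp
    · show (K n).val (algebraMap F (K n) (c' k) * ((⟨t n, htm n⟩ : K n) - algebraMap F (K n) (d' k))) = _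
      rw [map_mul, map_sub]
      show c k * (t n - d k) = _
      rw [ht n k]
  · intro n s hs
    show X n = _
    rw [hX0, htu n s hs]

variable {F : Type} [Field F] [NumberField F] [Algebra F ℂ] {A B C : Polynomial F} {c d : Fin m → F}

/-- Row Z6-K4b. As `Z5.Ar.mem_Lam_iff`. -/
theorem Ar.mem_Lam_iff (S : Ar F A B C c d) {n : ℕ} {P : Fin 2 ⊕ Fin m → ℂˣ}
    (hP : ∀ k, S.j n (S.pt n k) = (P k : ℂ)) (v : Fin 2 ⊕ Fin m → ℤ) :
    v ∈ Lam ({P} : Set (Fin 2 ⊕ Fin m → ℂˣ)) ↔ (fun k => (v k : ℝ)) ∈ S.N n := by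
  have hpt : ∀ k, S.pt n k ≠ 0 := by
    intro k h
    have h1 := hP k
    rw [h, map_zero] at h1
    exact (P k).ne_zero h1.symm
  obtain ⟨z, hz⟩ : ∃ z : S.K n, z = ∏ k, S.pt n k ^ v k := ⟨_, rfl⟩
  have hz0 : z ≠ 0 := by
    rw [hz]
    exact Finset.prod_ne_zero_iff.2 fun k _ => zpow_ne_zero _ (hpt k)
  have hjz : S.j n z = ((ch v P : ℂˣ) : ℂ) := by
    rw [hz, map_prod]
    unfold ch
    rw [Units.coe_prod]
    refine Finset.prod_congr rfl fun k _ => ?_
    rw [map_zpow₀, hP k, Units.val_zpow_eq_zpow_val]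
  have hlv : ∀ p : Pl (S.K n), lv p z = ∑ k, (v k : ℝ) * lv p (S.pt n k) := by
    intro p
    rw [hz, Z5.k4_lv_prod p _ _ hpt]
  have hj : Function.Injective (S.j n) := (S.j n : S.K n →+* ℂ).injective
  have hpow : ∀ N : ℕ, ch v P ^ N = 1 ↔ z ^ N = 1 := by
    intro N
    constructor
    · intro h
      apply hj
      rw [map_pow, map_one, hjz, ← Units.val_pow_eq_pow_val, h, Units.val_one]
    · intro h
      apply Units.ext
      rw [Units.val_pow_eq_pow_val, ← hjz, ← map_pow, h, map_one]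
      rfl
  constructor
  · rintro ⟨N, hN, h⟩
    have h1 := (hpow N).1 (h P rfl)
    intro p
    have h2 : lv p (z ^ N) = 0 := by rw [h1, lv_one]
    rw [lv_pow, hlv] at h2
    exact (mul_eq_zero.1 h2).resolve_left (by exact_mod_cast hN.ne')
  · intro h
    have h0 : ∀ p : Pl (S.K n), lv p z = 0 := fun p => by rw [hlv]; exact h p
    by_contra hcon
    have h1 : ∀ N : ℕ, 0 < N → z ^ N ≠ 1 := by
      intro N hN h2
      apply hcon
      refine ⟨N, hN, ?_⟩
      intro x hx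
      rw [Set.mem_singleton_iff] at hx
      subst hx
      exact (hpow N).2 h2
    obtain ⟨c0, hc0, h2⟩ := Z5.hh_lower z hz0 h1
    have h3 := h2 (S.K n)
    have h4 : Pool.Agent.ZL2.hh (algebraMap (S.K n) (S.K n) z) = 0 := by
      unfold Pool.Agent.ZL2.hh
      rw [Sm_congr (g := fun _ => 0) (fun p => ?_), Sm_zero]
      show max 0 (lv p z) = 0
      rw [h0 p, max_self]
    rw [h4] at h3
    have h5 : (0 : ℝ) < Module.finrank ℚ (S.K n) := by exact_mod_cast Module.finrank_pos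
    have := mul_pos hc0 h5
    linarith

/-- Row Z6-K4c. As `Z5.Ar.rk_le`. -/
theorem Ar.rk_le (S : Ar F A B C c d) {n : ℕ} {P : Fin 2 ⊕ Fin m → ℂˣ}
    (hP : ∀ k, S.j n (S.pt n k) = (P k : ℂ)) :
    rk ({P} : Set (Fin 2 ⊕ Fin m → ℂˣ)) ≤ Module.finrank ℝ (S.N n) := by
  classical
  unfold rk
  obtain ⟨B⟩ : Nonempty (Module.Basis (Fin (Module.finrank ℤ (Lam ({P} : Set (Fin 2 ⊕ Fin m → ℂˣ))))) ℤ
    (Lam ({P} : Set (Fin 2 ⊕ Fin m → ℂˣ)))) := ⟨Module.finBasis ℤ _⟩
  have h1 : LinearIndependent ℤ (fun i => ((B i : Lam ({P} : Set (Fin 2 ⊕ Fin m → ℂˣ))) : Fin 2 ⊕ Fin m → ℤ)) :=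
    B.linearIndependent.map' (Lam ({P} : Set (Fin 2 ⊕ Fin m → ℂˣ))).subtype (Submodule.ker_subtype _)
  have h2 : LinearIndependent ℝ (fun i => (algebraMap ℤ ℝ) ∘
      ((B i : Lam ({P} : Set (Fin 2 ⊕ Fin m → ℂˣ))) : Fin 2 ⊕ Fin m → ℤ)) := by
    rw [linearIndependent_algebraMap_comp_iff]
    exact h1
  let w : Fin (Module.finrank ℤ (Lam ({P} : Set (Fin 2 ⊕ Fin m → ℂˣ)))) → S.N n := fun i =>
    ⟨fun k => (((B i : Lam ({P} : Set (Fin 2 ⊕ Fin m → ℂˣ))) : Fin 2 ⊕ Fin m → ℤ) k : ℝ),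
      (S.mem_Lam_iff hP _).1 (B i).2⟩
  have h3 : LinearIndependent ℝ w := by
    apply LinearIndependent.of_comp (S.N n).subtype
    exact h2
  have h4 := h3.fintype_card_le_finrank
  rwa [Fintype.card_fin] at h4

end Pool.Agent.Z6
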