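import Pool.Agent.Z6.Defs
import Pool.Agent.Z5.N2

namespace Pool.Agent.Z6

open Pool.Agent.ZL2 Filter Topology

variable {m : ℕ}

open Pool.Agent.Z5 (n2_hh_zero n2_hh_one n2_hh_add n2_hh_mul n2_hh_neg n2_hh_inv n2_ext)

/-- one of the coordinates is at least `1 / m` -/
theorem n2_half {u : Fin m → ℝ} (h : dt u u = 1) : ∃ i, 1 ≤ (m : ℝ) * |u i| := by
  by_contra hc
  push Not at hc
  have h2 : ∀ i, |u i| ≤ 1 := by
    intro i
    have h1 : u i * u i ≤ 1 := by
      rw [← h]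
      unfold dt
      exact Finset.single_le_sum (f := fun i => u i * u i) (fun j _ => mul_self_nonneg _)
        (Finset.mem_univ i)
    rw [abs_le_one_iff_mul_self_le_one]
    exact h1
  rcases Nat.eq_zero_or_pos m with hm | hm
  · subst hm
    unfold dt at h
    simp at h
  have hm0 : (0 : ℝ) < m := by exact_mod_cast hm
  have h3 : ∀ i, (m : ℝ) * (u i * u i) < 1 := by
    intro i
    have e1 := hc i
    have e2 := h2 i
    have e3 := abs_nonneg (u i)
    rw [← abs_mul_abs_self]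
    nlinarith [mul_nonneg hm0.le e3]
  have h4 : ∑ i, (m : ℝ) * (u i * u i) < ∑ _i : Fin m, (1 : ℝ) :=
    Finset.sum_lt_sum_of_nonempty ⟨⟨0, hm⟩, Finset.mem_univ _⟩ fun i _ => h3 i
  rw [← Finset.mul_sum] at h4
  have h5 : ∑ i, u i * u i = 1 := h
  rw [h5] at h4
  simp at h4

theorem n2_le_one {u : Fin m → ℝ} (h : dt u u = 1) (i : Fin m) : |u i| ≤ 1 := by
  have h1 : u i * u i ≤ 1 := by
    rw [← h]
    unfold dt
    exact Finset.single_le_sum (f := fun i => u i * u i) (fun j _ => mul_self_nonneg _)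
      (Finset.mem_univ i)
  rw [abs_le_one_iff_mul_self_le_one]
  exact h1

/-- the estimate at one place -/
theorem n2_place {u C W D : Fin m → ℝ} {i0 : Fin m} {s l : ℝ} (hu : dt u u = 1)
    (h0 : 1 ≤ (m : ℝ) * |u i0|)
    (hl : 0 ≤ l) (hm : l + ∑ i, |C i| + ∑ i, |D i| ≤ s)
    (h1 : ∀ j, j ≠ i0 → W j ≤ max (W i0) (D j) + l)
    (h2 : ∀ j, j ≠ i0 → D j ≤ max (W j) (W i0) + l)
    (hr : ∑ i, u i * (C i + W i) = 0) : max 0 (- W i0) ≤ ((m : ℝ) * (m + 1) + 2) * s := by
  have hC : ∀ i, |C i| ≤ ∑ i, |C i| := fun i =>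
    Finset.single_le_sum (f := fun i => |C i|) (fun j _ => abs_nonneg _) (Finset.mem_univ i)
  have hD : ∀ i, |D i| ≤ ∑ i, |D i| := fun i =>
    Finset.single_le_sum (f := fun i => |D i|) (fun j _ => abs_nonneg _) (Finset.mem_univ i)
  have hC0 : 0 ≤ ∑ i, |C i| := Finset.sum_nonneg fun _ _ => abs_nonneg _
  have hD0 : 0 ≤ ∑ i, |D i| := Finset.sum_nonneg fun _ _ => abs_nonneg _
  have hs0 : 0 ≤ s := by linarith
  have hmm : (0 : ℝ) ≤ m := Nat.cast_nonneg _
  have hmm2 : 0 ≤ (m : ℝ) * (m + 1) * s := by positivity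
  refine max_le (by nlinarith) ?_
  by_cases hN : - W i0 ≤ 2 * s
  · nlinarith
  push Not at hN
  have hW : ∀ j, j ≠ i0 → |W j| ≤ s := by
    intro j hj
    have e1 := h1 j hj
    have e2 := h2 j hj
    have e3 := hD j
    have e4 := neg_abs_le (D j)
    have e5 := le_abs_self (D j)
    rw [max_eq_right (by linarith)] at e1
    rcases le_total (W j) (W i0) with h | h
    · rw [max_eq_right h] at e2
      exfalso; linarith
    · rw [max_eq_left h] at e2
      exact abs_le.2 ⟨by linarith, by linarith⟩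
  have h3 : u i0 * W i0 = - ∑ i, u i * C i - ∑ i ∈ Finset.univ.erase i0, u i * W i := by
    have e1 : ∑ i, u i * (C i + W i) = ∑ i, u i * C i + ∑ i, u i * W i := by
      rw [← Finset.sum_add_distrib]
      exact Finset.sum_congr rfl fun i _ => by ring
    have e2 := Finset.add_sum_erase Finset.univ (fun i => u i * W i) (Finset.mem_univ i0)
    rw [e1] at hr
    linarith
  have h4 : |∑ i, u i * C i| ≤ s := by
    refine (Finset.abs_sum_le_sum_abs _ _).trans ?_
    have : ∑ i, |u i * C i| ≤ ∑ i, |C i| := by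
      refine Finset.sum_le_sum fun i _ => ?_
      rw [abs_mul]
      have := n2_le_one hu i
      nlinarith [abs_nonneg (C i)]
    linarith
  have h5 : |∑ i ∈ Finset.univ.erase i0, u i * W i| ≤ m * s := by
    refine (Finset.abs_sum_le_sum_abs _ _).trans ?_
    have e1 : ∑ i ∈ Finset.univ.erase i0, |u i * W i| ≤ ∑ _i ∈ Finset.univ.erase i0, s := by
      refine Finset.sum_le_sum fun i hi => ?_
      rw [abs_mul]
      have e2 := n2_le_one hu i
      have e3 := hW i (Finset.ne_of_mem_erase hi)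
      nlinarith [abs_nonneg (W i), abs_nonneg (u i)]
    refine e1.trans ?_
    have e4 : ∑ _i ∈ Finset.univ.erase i0, s ≤ ∑ _i : Fin m, s :=
      Finset.sum_le_sum_of_subset_of_nonneg (Finset.erase_subset _ _) fun _ _ _ => hs0
    refine e4.trans (le_of_eq ?_)
    rw [Finset.sum_const, Finset.card_univ, Fintype.card_fin, nsmul_eq_mul]
  have h6 : |u i0| * |W i0| ≤ (m + 1) * s := by
    rw [← abs_mul, h3]
    have e1 := abs_le.1 h4
    have e2 := abs_le.1 h5
    exact abs_le.2 ⟨by linarith, by linarith⟩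
  have h7 := neg_abs_le (W i0)
  have h8 : |W i0| ≤ (m : ℝ) * ((m + 1) * s) := by
    calc |W i0| = 1 * |W i0| := (one_mul _).symm
      _ ≤ ((m : ℝ) * |u i0|) * |W i0| := mul_le_mul_of_nonneg_right h0 (abs_nonneg _)
      _ = (m : ℝ) * (|u i0| * |W i0|) := by ring
      _ ≤ (m : ℝ) * ((m + 1) * s) := mul_le_mul_of_nonneg_left h6 hmm
  have h9 : ((m : ℝ) * (m + 1) + 2) * s = (m : ℝ) * ((m + 1) * s) + 2 * s := by ring
  rw [h9]
  linarith

/-- Row Z6-N2b. As `Z5.hb` (choose `i0` with `|u i0| ≥ 1/√m`; `dt u u = 1` gives `0 < m`). -/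
theorem hb {F : Type} [Field F] [NumberField F] (c d : Fin m → F) (hc : ∀ i, c i ≠ 0)
    (hd : Function.Injective d) :
    ∃ B : ℝ, 0 ≤ B ∧ ∀ (K : Type) [Field K] [NumberField K] [Algebra F K] (t : K), (∀ i, t ≠ algebraMap F K (d i)) →
      ∀ u : Fin m → ℝ, dt u u = 1 →
        (∀ p : Pl K, ∑ i, u i * lv p (algebraMap F K (c i) * (t - algebraMap F K (d i))) = 0) →
        (∀ i, hh (algebraMap F K (c i) * (t - algebraMap F K (d i))) ≤ B * Module.finrank ℚ K) ∧
        hh t ≤ B * Module.finrank ℚ K := by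
  choose Cc hCc0 hCc using fun i => n2_ext (c i)
  choose Cd hCd0 hCd using fun i => n2_ext (d i)
  choose Ce hCe0 hCe using fun q : Fin m × Fin m => n2_ext (d q.1 - d q.2)
  have hl2 : 0 ≤ Real.log 2 := Real.log_nonneg (by norm_num)
  have hScc : 0 ≤ ∑ i, Cc i := Finset.sum_nonneg fun i _ => hCc0 i
  have hScd : 0 ≤ ∑ i, Cd i := Finset.sum_nonneg fun i _ => hCd0 i
  have hSce : 0 ≤ ∑ q, Ce q := Finset.sum_nonneg fun i _ => hCe0 i
  set Cm : ℝ := Real.log 2 + 2 * ∑ i, Cc i + 2 * ∑ q, Ce q with hCm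
  have hCm0 : 0 ≤ Cm := by positivity
  have hKm0 : 0 ≤ (m : ℝ) * (m + 1) + 2 := by positivity
  refine ⟨((m : ℝ) * (m + 1) + 2) * Cm + ∑ i, Cc i + ∑ i, Cd i + ∑ q, Ce q + Real.log 2, by positivity, ?_⟩
  intro K _ _ _ t ht u hu hr
  obtain ⟨i0, hi0⟩ := n2_half hu
  set D : ℝ := (Module.finrank ℚ K : ℝ) with hDD
  have hD0 : 0 ≤ D := Nat.cast_nonneg _
  set z : K := t - algebraMap F K (d i0) with hz
  have hz0 : z ≠ 0 := sub_ne_zero.2 (ht i0)
  have hcK : ∀ i, algebraMap F K (c i) ≠ 0 := fun i => (map_ne_zero _).2 (hc i)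
  have htd : ∀ i, t - algebraMap F K (d i) ≠ 0 := fun i => sub_ne_zero.2 (ht i)
  have hdd : ∀ j, j ≠ i0 → algebraMap F K (d i0 - d j) ≠ 0 := fun j hj =>
    (map_ne_zero _).2 (sub_ne_zero.2 fun h => hj (hd h).symm)
  have hw : ∀ j, t - algebraMap F K (d j) = z + algebraMap F K (d i0 - d j) := by
    intro j
    rw [hz, map_sub]; ring
  -- the estimate at every place
  have hplace : ∀ p : Pl K, max 0 (- lv p z) ≤
      ((m : ℝ) * (m + 1) + 2) * (ell p + ∑ i, |lv p (algebraMap F K (c i))| +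
        ∑ i, |if i = i0 then 0 else lv p (algebraMap F K (d i0 - d i))|) := by
    intro p
    refine n2_place (u := u) (C := fun i => lv p (algebraMap F K (c i)))
      (W := fun i => lv p (t - algebraMap F K (d i)))
      (D := fun i => if i = i0 then 0 else lv p (algebraMap F K (d i0 - d i))) (i0 := i0)
      (l := ell p) hu hi0 (ell_nonneg p) le_rfl ?_ ?_ ?_
    · intro j hj
      simp only [if_neg hj]
      rw [hw j]
      refine lv_add_le p hz0 (hdd j hj) ?_
      rw [← hw j]; exact htd j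
    · intro j hj
      simp only [if_neg hj]
      have e1 : algebraMap F K (d i0 - d j) = (t - algebraMap F K (d j)) + (-z) := by
        rw [hw j]; ring
      have e2 := lv_add_le p (htd j) (neg_ne_zero.2 hz0) (by rw [← e1]; exact hdd j hj)
      rw [← e1, lv_neg] at e2
      exact e2
    · rw [← hr p]
      refine Finset.sum_congr rfl fun i _ => ?_
      rw [lv_mul p (hcK i) (htd i)]
  have hFSc : ∀ i ∈ (Finset.univ : Finset (Fin m)),
      FS (fun p : Pl K => |lv p (algebraMap F K (c i))|) := fun i _ => (FS_lv (hcK i)).abs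
  have hFSd : ∀ i ∈ (Finset.univ : Finset (Fin m)),
      FS (fun p : Pl K => |if i = i0 then 0 else lv p (algebraMap F K (d i0 - d i))|) := by
    intro i _
    by_cases h : i = i0
    · simp only [if_pos h, abs_zero]; exact FS.zero
    · simp only [if_neg h]; exact (FS_lv (hdd i h)).abs
  have hFS1 := (FS_ell (K := K)).add (FS.sum Finset.univ hFSc)
  have hFS2 := hFS1.add (FS.sum Finset.univ hFSd)
  have hFSz : FS (fun p : Pl K => max 0 (- lv p z)) := FS.zero.max (FS_lv hz0).neg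
  have h1 := Sm_mono hFSz (hFS2.smul ((m : ℝ) * (m + 1) + 2)) hplace
  rw [Sm_smul, n2_hh_neg hz0, Sm_add hFS1 (FS.sum Finset.univ hFSd),
    Sm_add FS_ell (FS.sum Finset.univ hFSc), Sm_sum _ hFSc, Sm_sum _ hFSd, Sm_ell] at h1
  have h2 : ∑ i, Sm (fun p : Pl K => |lv p (algebraMap F K (c i))|) ≤ (2 * ∑ i, Cc i) * D := by
    rw [Finset.mul_sum, Finset.sum_mul]
    refine Finset.sum_le_sum fun i _ => ?_
    rw [Sm_abs (hcK i)]
    have := hCc i K
    nlinarith
  have h3 : ∑ i, Sm (fun p : Pl K => |if i = i0 then 0 else lv p (algebraMap F K (d i0 - d i))|) ≤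
      (2 * ∑ q, Ce q) * D := by
    have e1 : ∑ i, Sm (fun p : Pl K => |if i = i0 then 0 else lv p (algebraMap F K (d i0 - d i))|) ≤
        ∑ i, 2 * Ce (i0, i) * D := by
      refine Finset.sum_le_sum fun i _ => ?_
      by_cases h : i = i0
      · simp only [if_pos h, abs_zero]
        rw [Sm_zero]
        exact mul_nonneg (mul_nonneg (by norm_num) (hCe0 _)) hD0
      · simp only [if_neg h]
        rw [Sm_abs (hdd i h)]
        have := hCe (i0, i) K
        simp only at this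
        nlinarith
    refine e1.trans ?_
    have e2 : ∑ i, Ce (i0, i) ≤ ∑ q, Ce q := by
      rw [Fintype.sum_prod_type]
      exact Finset.single_le_sum (f := fun i => ∑ j, Ce (i, j))
        (fun i _ => Finset.sum_nonneg fun j _ => hCe0 _) (Finset.mem_univ i0)
    have e3 : ∑ i, 2 * Ce (i0, i) * D = (2 * ∑ i, Ce (i0, i)) * D := by
      rw [Finset.mul_sum, Finset.sum_mul]
    rw [e3]
    nlinarith
  have hzB : hh z ≤ ((m : ℝ) * (m + 1) + 2) * Cm * D := by
    have e1 : hh z ≤ ((m : ℝ) * (m + 1) + 2) *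
        (D * Real.log 2 + (2 * ∑ i, Cc i) * D + (2 * ∑ q, Ce q) * D) :=
      h1.trans (mul_le_mul_of_nonneg_left (by linarith) hKm0)
    refine e1.trans (le_of_eq ?_)
    rw [hCm]; ring
  have hci : ∀ i, Cc i ≤ ∑ i, Cc i := fun i =>
    Finset.single_le_sum (f := Cc) (fun j _ => hCc0 j) (Finset.mem_univ i)
  have hdi : ∀ i, Cd i ≤ ∑ i, Cd i := fun i =>
    Finset.single_le_sum (f := Cd) (fun j _ => hCd0 j) (Finset.mem_univ i)
  have hei : ∀ q, Ce q ≤ ∑ q, Ce q := fun q =>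
    Finset.single_le_sum (f := Ce) (fun j _ => hCe0 j) (Finset.mem_univ q)
  refine ⟨fun i => ?_, ?_⟩
  · have e1 := n2_hh_mul (algebraMap F K (c i)) (t - algebraMap F K (d i))
    have e2 := n2_hh_add z (algebraMap F K (d i0 - d i))
    rw [← hw i] at e2
    have e3 := hCc i K
    have e4 := hCe (i0, i) K
    simp only at e4
    have e5 : Cc i * D ≤ (∑ i, Cc i) * D := mul_le_mul_of_nonneg_right (hci i) hD0
    have e6 : Ce (i0, i) * D ≤ (∑ q, Ce q) * D := mul_le_mul_of_nonneg_right (hei _) hD0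
    have e7 : 0 ≤ (∑ i, Cd i) * D := mul_nonneg hScd hD0
    have e8 : (((m : ℝ) * (m + 1) + 2) * Cm + ∑ i, Cc i + ∑ i, Cd i + ∑ q, Ce q + Real.log 2) * D =
        ((m : ℝ) * (m + 1) + 2) * Cm * D + (∑ i, Cc i) * D + (∑ i, Cd i) * D + (∑ q, Ce q) * D + D * Real.log 2 := by ring
    rw [e8]
    linarith
  · have e1 : t = z + algebraMap F K (d i0) := by rw [hz]; ring
    have e2 := n2_hh_add z (algebraMap F K (d i0))
    rw [← e1] at e2
    have e3 := hCd i0 K
    have e5 : 0 ≤ (∑ i, Cc i) * D := mul_nonneg hScc hD0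
    have e6 : 0 ≤ (∑ q, Ce q) * D := mul_nonneg hSce hD0
    have e7 : Cd i0 * D ≤ (∑ i, Cd i) * D := mul_le_mul_of_nonneg_right (hdi i0) hD0
    have e8 : (((m : ℝ) * (m + 1) + 2) * Cm + ∑ i, Cc i + ∑ i, Cd i + ∑ q, Ce q + Real.log 2) * D =
        ((m : ℝ) * (m + 1) + 2) * Cm * D + (∑ i, Cc i) * D + (∑ i, Cd i) * D + (∑ q, Ce q) * D + D * Real.log 2 := by ring
    rw [e8]
    linarith

/-- the height of an element given by a relation -/
theorem n2_row {K : Type} [Field K] [NumberField K] {W e : K} {y : Fin m → K} (hW : W ≠ 0)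
    (he : e ≠ 0) (hy : ∀ i, y i ≠ 0) {r : Fin m → ℝ} {A B C : ℝ} (hr : ∑ i, |r i| ≤ A)
    (hB : ∀ i, hh (y i) ≤ B * Module.finrank ℚ K) (hC : hh e ≤ C * Module.finrank ℚ K)
    (h : ∀ p : Pl K, lv p W = ∑ i, r i * lv p (y i) + lv p e) :
    hh W ≤ (m * |A| * |B| + C) * Module.finrank ℚ K := by
  have hA0 : 0 ≤ A := (Finset.sum_nonneg fun _ _ => abs_nonneg _).trans hr
  have hri : ∀ i, |r i| ≤ A := fun i =>
    (Finset.single_le_sum (f := fun i => |r i|) (fun j _ => abs_nonneg _) (Finset.mem_univ i)).trans hr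
  set D : ℝ := (Module.finrank ℚ K : ℝ) with hDD
  have hD0 : 0 ≤ D := Nat.cast_nonneg _
  have hp : ∀ p : Pl K, |lv p W| ≤ ∑ i, A * |lv p (y i)| + |lv p e| := by
    intro p
    rw [h p]
    refine (abs_add_le _ _).trans (add_le_add ((Finset.abs_sum_le_sum_abs _ _).trans
      (Finset.sum_le_sum fun i _ => ?_)) le_rfl)
    rw [abs_mul]
    exact mul_le_mul_of_nonneg_right (hri i) (abs_nonneg _)
  have hFS : ∀ i ∈ (Finset.univ : Finset (Fin m)), FS (fun p : Pl K => A * |lv p (y i)|) :=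
    fun i _ => (FS_lv (hy i)).abs.smul A
  have h1 := Sm_mono (FS_lv hW).abs ((FS.sum Finset.univ hFS).add (FS_lv he).abs) hp
  rw [Sm_add (FS.sum Finset.univ hFS) (FS_lv he).abs, Sm_sum _ hFS, Sm_abs hW, Sm_abs he] at h1
  have h2 : ∑ i, Sm (fun p : Pl K => A * |lv p (y i)|) ≤ ∑ _i : Fin m, 2 * (|A| * |B| * D) := by
    refine Finset.sum_le_sum fun i _ => ?_
    rw [Sm_smul, Sm_abs (hy i), abs_of_nonneg hA0]
    have e1 := hB i
    have e2 : B * D ≤ |B| * D := mul_le_mul_of_nonneg_right (le_abs_self B) hD0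
    have e3 := mul_le_mul_of_nonneg_left (e1.trans e2) hA0
    nlinarith
  rw [Finset.sum_const, Finset.card_univ, Fintype.card_fin, nsmul_eq_mul] at h2
  nlinarith

/-- Row Z6-N2c. As `Z5.row_bound`, with `ak, bk ∈ K` of bounded height in place of the constants `a, b`. -/
theorem row_bound (B A : ℝ) :
    ∃ C : ℝ, 0 ≤ C ∧ ∀ (K : Type) [Field K] [NumberField K] (X ak bk : K) (y : Fin m → K), X ≠ 0 → X ≠ 1 →
      ak ≠ 0 → bk ≠ 0 → hh ak ≤ B * Module.finrank ℚ K → hh bk ≤ B * Module.finrank ℚ K →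
      (∀ i, y i ≠ 0) → (∀ i, hh (y i) ≤ B * Module.finrank ℚ K) → ∀ M : Fin 2 → Fin m → ℝ,
      (∀ p : Pl K, lv p X = ∑ i, M 0 i * lv p (y i) + lv p ak) →
      (∀ p : Pl K, lv p (1 - X) = ∑ i, M 1 i * lv p (y i) + lv p bk) →
      (∃ j, ∑ i, |rw3 M j i| ≤ A) → hh X ≤ C * Module.finrank ℚ K ∧ hh (1 - X) ≤ C * Module.finrank ℚ K := by
  have hl2 : 0 ≤ Real.log 2 := Real.log_nonneg (by norm_num)
  refine ⟨m * |A| * |B| + (|B| + |B|) + 2 * Real.log 2, by positivity, ?_⟩
  intro K _ _ X ak bk y hX0 hX1 haK hbK hCa' hCb' hy hB M hM0 hM1 hj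
  set D : ℝ := (Module.finrank ℚ K : ℝ) with hDD
  have hD0 : 0 ≤ D := Nat.cast_nonneg _
  have hBD : B * D ≤ |B| * D := mul_le_mul_of_nonneg_right (le_abs_self B) hD0
  have hCa : hh ak ≤ |B| * D := hCa'.trans hBD
  have hCb : hh bk ≤ |B| * D := hCb'.trans hBD
  have h1X : (1 - X) ≠ 0 := sub_ne_zero.2 (Ne.symm hX1)
  have eD : 0 ≤ D * Real.log 2 := mul_nonneg hD0 hl2
  have eE : (m * |A| * |B| + (|B| + |B|) + 2 * Real.log 2) * D =
      m * |A| * |B| * D + |B| * D + |B| * D + 2 * (D * Real.log 2) := by ring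
  have ea : 0 ≤ |B| * D := mul_nonneg (abs_nonneg _) hD0
  have hXle : hh X ≤ hh (1 - X) + D * Real.log 2 := by
    have := hh_one_sub (x := 1 - X) h1X (by
      intro h
      exact hX0 (by linear_combination -h))
    rwa [sub_sub_cancel] at this
  have h1Xle : hh (1 - X) ≤ hh X + D * Real.log 2 := hh_one_sub hX0 hX1
  rw [eE]
  obtain ⟨j, hj⟩ := hj
  fin_cases j
  · have h1 := n2_row h1X hbK hy (r := M 1) (A := A) hj hB hCb hM1
    have h2 : (m * |A| * |B| + |B|) * D = m * |A| * |B| * D + |B| * D := by ring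
    rw [h2] at h1
    exact ⟨by linarith, by linarith⟩
  · have h1 := n2_row hX0 haK hy (r := M 0) (A := A) hj hB hCa hM0
    have h2 : (m * |A| * |B| + |B|) * D = m * |A| * |B| * D + |B| * D := by ring
    rw [h2] at h1
    exact ⟨by linarith, by linarith⟩
  · have hw0 : X * (1 - X)⁻¹ ≠ 0 := mul_ne_zero hX0 (inv_ne_zero h1X)
    have he0 : ak * bk⁻¹ ≠ 0 := mul_ne_zero haK (inv_ne_zero hbK)
    have hCe : hh (ak * bk⁻¹) ≤ (|B| + |B|) * D := by
      refine (n2_hh_mul _ _).trans ?_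
      rw [n2_hh_inv]
      linarith
    have h1 := n2_row hw0 he0 hy (r := fun i => M 0 i - M 1 i) (A := A) hj hB hCe (by
      intro p
      rw [lv_mul p hX0 (inv_ne_zero h1X), lv_inv, hM0 p, hM1 p, lv_mul p haK (inv_ne_zero hbK), lv_inv]
      have : ∑ i, (M 0 i - M 1 i) * lv p (y i) =
          ∑ i, M 0 i * lv p (y i) - ∑ i, M 1 i * lv p (y i) := by
        rw [← Finset.sum_sub_distrib]
        exact Finset.sum_congr rfl fun i _ => by ring
      rw [this]
      ring)
    have h2 : (1 - X)⁻¹ = 1 + X * (1 - X)⁻¹ := by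
      field_simp
      ring
    have h3 : hh (1 - X) ≤ hh (X * (1 - X)⁻¹) + D * Real.log 2 := by
      have := n2_hh_add (1 : K) (X * (1 - X)⁻¹)
      rw [n2_hh_one, zero_add, ← h2, n2_hh_inv] at this
      exact this
    have h4 : (m * |A| * |B| + (|B| + |B|)) * D = m * |A| * |B| * D + |B| * D + |B| * D := by ring
    rw [h4] at h1
    exact ⟨by linarith, by linarith⟩

/-- Row Z6-N2d. The height of the value of a polynomial: by induction on the polynomial or from `lv_add_le`, `lv_mul` and `hh_ext` for the coefficients (`hh 0 = 0` by the conventions of Lean; `lv p 0 = 0`). -/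
theorem hh_poly {F : Type} [Field F] [NumberField F] (A : Polynomial F) :
    ∃ C : ℝ, 0 ≤ C ∧ ∀ (K : Type) [Field K] [NumberField K] [Algebra F K] (t : K),
      hh (Polynomial.aeval t A) ≤ C * (hh t + Module.finrank ℚ K) := by
  have hl2 : 0 ≤ Real.log 2 := Real.log_nonneg (by norm_num)
  induction A using Polynomial.induction_on' with
  | add p q hp hq =>
    obtain ⟨C1, hC1, h1⟩ := hp
    obtain ⟨C2, hC2, h2⟩ := hq
    refine ⟨C1 + C2 + Real.log 2, by positivity, ?_⟩
    intro K _ _ _ t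
    have hD0 : (0 : ℝ) ≤ (Module.finrank ℚ K : ℝ) := Nat.cast_nonneg _
    have e1 := h1 K t
    have e2 := h2 K t
    have e3 := n2_hh_add (Polynomial.aeval t p) (Polynomial.aeval t q)
    have e4 := mul_nonneg (hh_nonneg t) hl2
    rw [map_add]
    nlinarith
  | monomial n a =>
    obtain ⟨C1, hC1, h1⟩ := n2_ext a
    refine ⟨C1 + n, by positivity, ?_⟩
    intro K _ _ _ t
    have hD0 : (0 : ℝ) ≤ (Module.finrank ℚ K : ℝ) := Nat.cast_nonneg _
    have hp : ∀ k : ℕ, hh (t ^ k) ≤ k * hh t := by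
      intro k
      induction k with
      | zero =>
        rw [pow_zero, n2_hh_one]
        simp
      | succ k ih =>
        rw [pow_succ]
        refine (n2_hh_mul _ _).trans ?_
        push_cast
        linarith
    rw [Polynomial.aeval_monomial]
    have e1 := n2_hh_mul (algebraMap F K a) (t ^ n)
    have e2 := h1 K
    have e3 := hp n
    have e4 := mul_nonneg hC1 (hh_nonneg t)
    have e5 : (0 : ℝ) ≤ (n : ℝ) * (Module.finrank ℚ K : ℝ) := by positivity
    nlinarith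

end Pool.Agent.Z6
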