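import Mathlib

namespace Pool.Agent.Z6

open Differential algebraMap IntermediateField Finset in
/-- averaging over the Galois group -/
theorem s1_gal (F : Type) (K : Type) [Field F] [Field K] [Differential F] [Differential K]
    [Algebra F K] [DifferentialAlgebra F K] [CharZero F] [FiniteDimensional F K] [IsGalois F K]
    (a : F) {r : ℕ} (c : Fin r → F) (_hc : ∀ x, (c x)′ = 0) (u : Fin r → K) (hu : ∀ x, u x ≠ 0)
    (v : K) (h : algebraMap F K a = ∑ x, algebraMap F K (c x) * logDeriv (u x) + v′) :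
    ∃ (n : ℕ) (_ : 0 < n) (u₀ : Fin r → F) (_ : ∀ x, u₀ x ≠ 0) (v₀ : F),
      (n : F) * a = ∑ x, c x * logDeriv (u₀ x) + v₀′ := by
  classical
  let u₁ (i : Fin r) := ∏ x : (K ≃ₐ[F] K), x (u i)
  have hu1 : ∀ i, u₁ i ∈ fixedField (⊤ : Subgroup (K ≃ₐ[F] K)) := by
    rintro i ⟨e, _⟩
    change e (u₁ i) = u₁ i
    simp only [u₁, map_prod]
    apply Fintype.prod_equiv (Equiv.mulLeft e)
    simp
  have ffb : fixedField ⊤ = ⊥ := (IsGalois.tfae.out 0 1).mp (inferInstance : IsGalois F K)
  simp_rw [ffb, IntermediateField.mem_bot, Set.mem_range] at hu1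
  choose u₀ hu₀ using hu1
  let v₁ := ∑ x : (K ≃ₐ[F] K), x v
  have hv1 : v₁ ∈ fixedField (⊤ : Subgroup (K ≃ₐ[F] K)) := by
    rintro ⟨e, _⟩
    change e v₁ = v₁
    simp only [v₁, map_sum]
    apply Fintype.sum_equiv (Equiv.mulLeft e)
    simp
  rw [ffb, IntermediateField.mem_bot] at hv1
  obtain ⟨v₀, hv₀⟩ := hv1
  have hne1 : ∀ i, u₁ i ≠ 0 := fun i => Finset.prod_ne_zero_iff.mpr (fun x _ => by
    simpa using hu i)
  refine ⟨Fintype.card (K ≃ₐ[F] K), Fintype.card_pos, u₀, fun i hi => hne1 i ?_, v₀, ?_⟩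
  · rw [← hu₀ i, hi, map_zero]
  · apply FaithfulSMul.algebraMap_injective F K
    simp only [map_add, map_sum, map_mul, ← logDeriv_algebraMap, hu₀, ← deriv_algebraMap, hv₀,
      map_natCast]
    have h1 : ∀ i, logDeriv (u₁ i) = ∑ x : (K ≃ₐ[F] K), logDeriv (x (u i)) := by
      intro i
      exact logDeriv_prod _ _ _ (fun x _ => by simpa using hu i)
    simp_rw [h1, mul_sum]
    have h3 : v₁′ = ∑ x : (K ≃ₐ[F] K), (x v)′ := map_sum _ _ _
    rw [sum_comm, h3, ← sum_add_distrib]
    trans ∑ _ : (K ≃ₐ[F] K), algebraMap F K a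
    · simp
    · refine Finset.sum_congr rfl (fun e _ => ?_)
      have h2 := congrArg e h
      simp only [AlgEquiv.commutes, map_add, map_sum, map_mul] at h2
      rw [h2]
      congr 1
      · refine Finset.sum_congr rfl (fun x _ => ?_)
        simp [Differential.logDeriv, algEquiv_deriv']
      · rw [algEquiv_deriv']

open Differential algebraMap IntermediateField Finset in
/-- averaging for a finite extension -/
theorem s1_fin (F : Type) (K : Type) [Field F] [Field K] [Differential F] [Differential K]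
    [Algebra F K] [DifferentialAlgebra F K] [CharZero F] [FiniteDimensional F K]
    (a : F) {r : ℕ} (c : Fin r → F) (hc : ∀ x, (c x)′ = 0) (u : Fin r → K) (hu : ∀ x, u x ≠ 0)
    (v : K) (h : algebraMap F K a = ∑ x, algebraMap F K (c x) * logDeriv (u x) + v′) :
    ∃ (n : ℕ) (_ : 0 < n) (u₀ : Fin r → F) (_ : ∀ x, u₀ x ≠ 0) (v₀ : F),
      (n : F) * a = ∑ x, c x * logDeriv (u₀ x) + v₀′ := by
  classical
  let map := IsAlgClosed.lift (M := AlgebraicClosure F) (R := F) (S := K)
  let K' := map.fieldRange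
  have : FiniteDimensional F K' := LinearMap.finiteDimensional_range map.toLinearMap
  let K'' := normalClosure F K' (AlgebraicClosure F)
  let φ : K →ₐ[F] K'' := (IntermediateField.inclusion (IntermediateField.le_normalClosure K')).comp
    (AlgHom.rangeRestrict map)
  have hφ : Function.Injective φ := φ.toRingHom.injective
  refine s1_gal F K'' a c hc (fun x => φ (u x)) (fun x => ?_) (φ v) ?_
  · exact fun h0 => hu x (hφ (by rw [h0, map_zero]))
  · have h2 := congrArg φ h
    simp only [AlgHom.commutes, map_add, map_sum, map_mul] at h2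
    rw [h2]
    congr 1
    · refine Finset.sum_congr rfl (fun x _ => ?_)
      simp [Differential.logDeriv, algHom_deriv' φ hφ]
    · rw [algHom_deriv' φ hφ]

open Polynomial in
/-- `f` is a rational function of `s`, regular at zero with value `v`. -/
def s1_Reg {L : Type} [Field L] [Algebra ℂ L] (s : L) (f : L) (v : ℂ) : Prop :=
  ∃ A B : ℂ[X], B.eval 0 ≠ 0 ∧ f * aeval s B = aeval s A ∧ A.eval 0 = v * B.eval 0

section reg

open Polynomial

variable {L : Type} [Field L] [Algebra ℂ L] {s : L}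

theorem s1_reg_add {f g : L} {v w : ℂ} (hf : s1_Reg s f v) (hg : s1_Reg s g w) :
    s1_Reg s (f + g) (v + w) := by
  obtain ⟨A, B, hB, h, h0⟩ := hf
  obtain ⟨A', B', hB', h', h0'⟩ := hg
  refine ⟨A * B' + A' * B, B * B', by simp [hB, hB'], ?_, ?_⟩
  · simp only [map_add, map_mul]
    rw [← h, ← h']; ring
  · simp only [eval_add, eval_mul, h0, h0']; ring

theorem s1_reg_mul {f g : L} {v w : ℂ} (hf : s1_Reg s f v) (hg : s1_Reg s g w) :
    s1_Reg s (f * g) (v * w) := by
  obtain ⟨A, B, hB, h, h0⟩ := hf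
  obtain ⟨A', B', hB', h', h0'⟩ := hg
  refine ⟨A * A', B * B', by simp [hB, hB'], ?_, ?_⟩
  · simp only [map_mul]
    rw [← h, ← h']; ring
  · simp only [eval_mul, h0, h0']; ring

theorem s1_reg_C (c : ℂ) : s1_Reg s (algebraMap ℂ L c) c :=
  ⟨C c, 1, by simp, by simp, by simp⟩

theorem s1_reg_s : s1_Reg s s 0 :=
  ⟨X, 1, by simp, by simp, by simp⟩

theorem s1_reg_pow {f : L} {v : ℂ} (hf : s1_Reg s f v) (n : ℕ) : s1_Reg s (f ^ n) (v ^ n) := by
  induction n with
  | zero => simpa using s1_reg_C (s := s) 1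
  | succ n ih => rw [pow_succ, pow_succ]; exact s1_reg_mul ih hf

theorem s1_reg_sum {ι : Type*} (t : Finset ι) (f : ι → L) (v : ι → ℂ)
    (hf : ∀ i ∈ t, s1_Reg s (f i) (v i)) : s1_Reg s (∑ i ∈ t, f i) (∑ i ∈ t, v i) := by
  classical
  induction t using Finset.induction_on with
  | empty => simpa using s1_reg_C (s := s) 0
  | insert i t hi ih =>
    rw [Finset.sum_insert hi, Finset.sum_insert hi]
    exact s1_reg_add (hf i (by simp)) (ih (fun j hj => hf j (by simp [hj])))

theorem s1_reg_unique (hs : Transcendental ℂ s) {f : L} {v w : ℂ} (hf : s1_Reg s f v)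
    (hg : s1_Reg s f w) : v = w := by
  obtain ⟨A, B, hB, h, h0⟩ := hf
  obtain ⟨A', B', hB', h', h0'⟩ := hg
  have h1 : aeval s (A * B') = aeval s (A' * B) := by
    simp only [map_mul]
    rw [← h, ← h']; ring
  have h2 : A * B' = A' * B := (transcendental_iff_injective.mp hs) h1
  have h3 := congrArg (eval 0) h2
  simp only [eval_mul, h0, h0'] at h3
  have h4 : (v - w) * (B.eval 0 * B'.eval 0) = 0 := by linear_combination h3
  rcases mul_eq_zero.mp h4 with h5 | h5
  · exact sub_eq_zero.mp h5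
  · exact absurd h5 (mul_ne_zero hB hB')

theorem s1_reg_ne (hs : Transcendental ℂ s) {f : L} {v : ℂ} (hv : v ≠ 0) (hf : s1_Reg s f v) :
    f ≠ 0 := by
  intro h0
  subst h0
  exact hv (s1_reg_unique hs hf (by simpa using s1_reg_C (s := s) 0))

theorem s1_reg_inv (hs : Transcendental ℂ s) {f : L} {v : ℂ} (hv : v ≠ 0) (hf : s1_Reg s f v) :
    s1_Reg s f⁻¹ v⁻¹ := by
  have hf0 := s1_reg_ne hs hv hf
  obtain ⟨A, B, hB, h, h0⟩ := hf
  refine ⟨B, A, by rw [h0]; exact mul_ne_zero hv hB, ?_, ?_⟩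
  · rw [← h]; field_simp
  · rw [h0]; field_simp

theorem s1_aeval_deriv (D : Derivation ℂ L L) (hD : D s = 1) (P : ℂ[X]) :
    D (aeval s P) = aeval s (derivative P) := by
  have h := D.map_aeval P s
  rw [h, hD]; simp

theorem s1_reg_deriv (D : Derivation ℂ L L) (hD : D s = 1) {f : L} {v : ℂ} (hf : s1_Reg s f v) :
    ∃ w, s1_Reg s (D f) w := by
  obtain ⟨A, B, hB, h, h0⟩ := hf
  have h1 := congrArg D h
  rw [Derivation.leibniz, s1_aeval_deriv D hD, s1_aeval_deriv D hD, smul_eq_mul, smul_eq_mul] at h1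
  refine ⟨(derivative A * B - A * derivative B).eval 0 / (B * B).eval 0, derivative A * B - A * derivative B, B * B,
    by simp [hB], ?_, ?_⟩
  · simp only [map_sub, map_mul]
    rw [← h, ← h1]; ring
  · rw [div_mul_cancel₀]
    simp [hB]

theorem s1_poly_dec (P : ℂ[X]) (hP : P ≠ 0) : ∃ (n : ℕ) (P2 : ℂ[X]), P2.eval 0 ≠ 0 ∧ P = X ^ n * P2 := by
  obtain ⟨P2, h1, h2⟩ := P.exists_eq_pow_rootMultiplicity_mul_and_not_dvd hP 0
  refine ⟨P.rootMultiplicity 0, P2, ?_, by simpa using h1⟩
  intro h0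
  apply h2
  rw [dvd_iff_isRoot]
  exact h0

theorem s1_dec (hs : Transcendental ℂ s) {f : L} (hf : f ∈ IntermediateField.adjoin ℂ ({s} : Set L))
    (hf0 : f ≠ 0) : ∃ (m : ℤ) (g : L) (v : ℂ), v ≠ 0 ∧ s1_Reg s g v ∧ f = s ^ m * g := by
  have hs0 : s ≠ 0 := by
    intro h0; apply hs; rw [h0]; exact isAlgebraic_zero
  have hinj := transcendental_iff_injective.mp hs
  obtain ⟨P, Q, hPQ⟩ := (IntermediateField.mem_adjoin_simple_iff ℂ f).mp hf
  have hP : P ≠ 0 := by rintro rfl; apply hf0; simp [hPQ]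
  have hQ : Q ≠ 0 := by rintro rfl; apply hf0; simp [hPQ]
  obtain ⟨n, P2, h1, h2⟩ := s1_poly_dec P hP
  obtain ⟨k, Q2, h3, h4⟩ := s1_poly_dec Q hQ
  have hreg : ∀ R : ℂ[X], s1_Reg s (aeval s R) (R.eval 0) := fun R => ⟨R, 1, by simp, by simp, by simp⟩
  have hQ20 := s1_reg_ne hs h3 (hreg Q2)
  refine ⟨(n : ℤ) - k, aeval s P2 * (aeval s Q2)⁻¹, P2.eval 0 * (Q2.eval 0)⁻¹,
    mul_ne_zero h1 (inv_ne_zero h3), s1_reg_mul (hreg P2) (s1_reg_inv hs h3 (hreg Q2)), ?_⟩
  rw [hPQ, h2, h4]
  simp only [map_mul, map_pow, aeval_X]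
  rw [zpow_sub₀ hs0, zpow_natCast, zpow_natCast]
  field_simp

theorem s1_resid (hs : Transcendental ℂ s) (D : Derivation ℂ L L) (hD : D s = 1) {H G : L}
    (hH : H ∈ IntermediateField.adjoin ℂ ({s} : Set L)) {γ w : ℂ} (hG : s1_Reg s G w)
    (h : D H = algebraMap ℂ L γ / s + G) : γ = 0 := by
  have hs0 : s ≠ 0 := by
    intro h0; apply hs; rw [h0]; exact isAlgebraic_zero
  have hR : s1_Reg s (algebraMap ℂ L γ + s * G) (γ + 0 * w) :=
    s1_reg_add (s1_reg_C γ) (s1_reg_mul s1_reg_s hG)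
  have h' : s * D H = algebraMap ℂ L γ + s * G := by
    rw [h]; field_simp
  by_cases hH0 : H = 0
  · rw [hH0, map_zero, mul_zero] at h'
    rw [← h'] at hR
    have := s1_reg_unique hs hR (by simpa using s1_reg_C (s := s) 0)
    simpa using this
  · obtain ⟨m, g, v, hv, hg, hHg⟩ := s1_dec hs hH hH0
    obtain ⟨w', hw'⟩ := s1_reg_deriv D hD hg
    have h1 : s * D H = (m : L) * (s ^ m * g) + s ^ m * (s * D g) := by
      rw [hHg, Derivation.leibniz, Derivation.leibniz_zpow, hD]
      simp only [smul_eq_mul, zsmul_eq_mul]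
      rw [zpow_sub_one₀ hs0]
      field_simp
      ring
    rcases lt_or_ge m 0 with hm | hm
    · exfalso
      obtain ⟨n, hn⟩ : ∃ n : ℕ, m = -((n : ℤ) + 1) := ⟨(-m - 1).toNat, by omega⟩
      have h2 : (m : L) * g + s * D g = s ^ (n + 1) * (algebraMap ℂ L γ + s * G) := by
        rw [← h', h1]
        have h3 : s ^ (n + 1) * s ^ m = 1 := by
          rw [hn, ← zpow_natCast, ← zpow_add₀ hs0]; simp
        linear_combination (-(m : L) * g - s * D g) * h3
      have h4 : s1_Reg s ((m : L) * g + s * D g) ((m : ℂ) * v + 0 * w') := by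
        refine s1_reg_add (s1_reg_mul ?_ hg) (s1_reg_mul s1_reg_s hw')
        simpa using s1_reg_C (s := s) (m : ℂ)
      rw [h2] at h4
      have h5 := s1_reg_unique hs h4 (s1_reg_mul (s1_reg_pow s1_reg_s (n + 1)) hR)
      simp only [zero_mul, add_zero, pow_succ, mul_zero] at h5
      rcases mul_eq_zero.mp h5 with h6 | h6
      · have h7 : m = 0 := by exact_mod_cast h6
        omega
      · exact hv h6
    · obtain ⟨n, hn⟩ : ∃ n : ℕ, m = (n : ℤ) := ⟨m.toNat, by omega⟩
      subst hn
      rw [zpow_natCast] at h1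
      have h4 : s1_Reg s (s * D H) ((n : ℂ) * (0 ^ n * v) + 0 ^ n * (0 * w')) := by
        rw [h1]
        refine s1_reg_add (s1_reg_mul ?_ (s1_reg_mul (s1_reg_pow s1_reg_s n) hg))
          (s1_reg_mul (s1_reg_pow s1_reg_s n) (s1_reg_mul s1_reg_s hw'))
        simpa using s1_reg_C (s := s) (n : ℂ)
      rw [h'] at h4
      have h5 := s1_reg_unique hs hR h4
      rcases Nat.eq_zero_or_pos n with h0 | h0
      · subst h0; simpa using h5
      · simpa [zero_pow h0.ne'] using h5

end reg

theorem s1_transc {L : Type} [Field L] [Algebra ℂ L] (D : Derivation ℂ L L) {s : L} (hs : D s ≠ 0) :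
    Transcendental ℂ s := by
  intro halg
  have hint : IsIntegral ℂ s := halg.isIntegral
  have h1 : Polynomial.aeval s (minpoly ℂ s) = 0 := minpoly.aeval ℂ s
  have h2 := D.map_aeval (minpoly ℂ s) s
  rw [h1, map_zero, smul_eq_mul] at h2
  have h3 : Polynomial.aeval s (Polynomial.derivative (minpoly ℂ s)) = 0 := by
    rcases mul_eq_zero.mp h2.symm with h | h
    · exact h
    · exact absurd h hs
  have hdeg : 0 < (minpoly ℂ s).natDegree := minpoly.natDegree_pos hint
  have hne : Polynomial.derivative (minpoly ℂ s) ≠ 0 := by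
    intro h0
    have := Polynomial.derivative_eq_zero.mp h0
    omega
  have h4 := minpoly.degree_le_of_ne_zero ℂ s hne h3
  have h5 := Polynomial.degree_derivative_lt (minpoly.ne_zero hint)
  exact absurd h4 (not_le.mpr h5)

/-- the derivation restricted to `ℂ(s)` -/
theorem s1_mem {L : Type} [Field L] [Algebra ℂ L] (D : Derivation ℂ L L) {s : L} (hD : D s = 1)
    {x : L} (hx : x ∈ IntermediateField.adjoin ℂ ({s} : Set L)) :
    D x ∈ IntermediateField.adjoin ℂ ({s} : Set L) := by
  have hpoly : ∀ P : Polynomial ℂ, Polynomial.aeval s P ∈ IntermediateField.adjoin ℂ ({s} : Set L) := by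
    intro P
    rw [IntermediateField.mem_adjoin_simple_iff]
    exact ⟨P, 1, by simp⟩
  obtain ⟨P, Q, hPQ⟩ := (IntermediateField.mem_adjoin_simple_iff ℂ x).mp hx
  rw [hPQ, Derivation.leibniz_div, s1_aeval_deriv D hD, s1_aeval_deriv D hD]
  simp only [smul_eq_mul]
  exact IntermediateField.mul_mem _ (pow_mem (IntermediateField.inv_mem _ (hpoly Q)) 2)
    (IntermediateField.sub_mem _ (IntermediateField.mul_mem _ (hpoly Q) (hpoly _))
      (IntermediateField.mul_mem _ (hpoly P) (hpoly _)))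

open Differential algebraMap IntermediateField in
theorem s1_main {L : Type} [Field L] [Algebra ℂ L] (D : Derivation ℂ L L) {s : L} (hs : D s = 1)
    {r : ℕ}
    (S : Fin r → L) (hS0 : ∀ k, S k ≠ 0)
    (hS : ∀ k, IsAlgebraic (IntermediateField.adjoin ℂ ({s} : Set L)) (S k)) {h : L}
    (hh : IsAlgebraic (IntermediateField.adjoin ℂ ({s} : Set L)) h) (θ : Fin (r + 1) → ℂ)
    (hθ : LinearIndependent ℚ θ) (heq : D h = θ 0 • (D s / s) + ∑ k, θ k.succ • (D (S k) / S k)) :
    False := by
  classical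
  have htr : Transcendental ℂ s := s1_transc D (by rw [hs]; exact one_ne_zero)
  have hs0 : s ≠ 0 := by
    intro h0; apply htr; rw [h0]; exact isAlgebraic_zero
  let F := IntermediateField.adjoin ℂ ({s} : Set L)
  let dF : Derivation ℤ F F := Derivation.mk'
    { toFun := fun x => (⟨D x, s1_mem D hs x.2⟩ : F)
      map_add' := fun x y => by ext; simp
      map_smul' := fun c x => by ext; simp } (fun a b => by ext; simp)
  let _ : Differential F := ⟨dF⟩
  let _ : Differential L := ⟨D.restrictScalars ℤ⟩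
  have : DifferentialAlgebra F L := ⟨fun a => rfl⟩
  let B : IntermediateField F L := IntermediateField.adjoin F ({h} ∪ Set.range S)
  have hfin : FiniteDimensional F B := by
    apply IntermediateField.finiteDimensional_adjoin
    rintro x (hx | ⟨k, rfl⟩)
    · rw [Set.mem_singleton_iff] at hx
      rw [hx]; exact hh.isIntegral
    · exact (hS k).isIntegral
  have hhB : h ∈ B := IntermediateField.subset_adjoin _ _ (Or.inl rfl)
  have hSB : ∀ k, S k ∈ B := fun k => IntermediateField.subset_adjoin _ _ (Or.inr ⟨k, rfl⟩)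
  have hDB : ∀ x : B, algebraMap B L (x′) = D (algebraMap B L x) :=
    fun x => (deriv_algebraMap (B := L) x).symm
  have hDF : ∀ x : F, algebraMap F L (x′) = D (algebraMap F L x) := fun x => rfl
  let sF : F := ⟨s, IntermediateField.mem_adjoin_simple_self ℂ s⟩
  have hsF : algebraMap F L sF = s := rfl
  have e1 : ∀ x : F, algebraMap B L (algebraMap F B x) = algebraMap F L x := fun x => rfl
  have e2 : ∀ c : ℂ, algebraMap F L (algebraMap ℂ F c) = algebraMap ℂ L c := fun c => rfl
  have hc : ∀ k : Fin r, (- algebraMap ℂ F (θ (Fin.succ k)))′ = 0 := by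
    intro k
    apply (algebraMap F L).injective
    rw [hDF, map_neg, e2]
    simp
  have hmain : algebraMap F B (algebraMap ℂ F (θ 0) / sF) =
      ∑ k : Fin r, algebraMap F B (- algebraMap ℂ F (θ (Fin.succ k))) *
        Differential.logDeriv (⟨S k, hSB k⟩ : B) + (⟨h, hhB⟩ : B)′ := by
    apply (algebraMap B L).injective
    have e3 : algebraMap B L ⟨h, hhB⟩ = h := rfl
    have e4 : ∀ k, algebraMap B L ⟨S k, hSB k⟩ = S k := fun k => rfl
    simp only [map_add, map_sum, map_mul, e1, map_neg, map_div₀, e2, hsF, Differential.logDeriv, hDB,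
      e3, e4]
    rw [heq, hs]
    simp only [Algebra.smul_def, neg_mul]
    rw [Finset.sum_neg_distrib]
    ring
  obtain ⟨n, hn, u₀, hu₀, v₀, hv₀⟩ := s1_fin F B (algebraMap ℂ F (θ 0) / sF)
    (fun k => - algebraMap ℂ F (θ (Fin.succ k))) hc (fun k => ⟨S k, hSB k⟩)
    (fun k hk => hS0 k (congrArg Subtype.val hk)) ⟨h, hhB⟩ hmain
  have h1 := congrArg (algebraMap F L) hv₀
  simp only [map_add, map_sum, map_mul, map_neg, map_div₀, e2, hsF, Differential.logDeriv, hDF,
    map_natCast] at h1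
  obtain ⟨u, hu⟩ : ∃ u : Fin r → L, ∀ k, algebraMap F L (u₀ k) = u k :=
    ⟨fun k => algebraMap F L (u₀ k), fun k => rfl⟩
  obtain ⟨H, hH⟩ : ∃ H : L, algebraMap F L v₀ = H := ⟨_, rfl⟩
  have hu1 : ∀ k, u k ≠ 0 := fun k hk => hu₀ k ((algebraMap F L).injective (by rw [hu, hk, map_zero]))
  have hu2 : ∀ k, u k ∈ IntermediateField.adjoin ℂ ({s} : Set L) := fun k => by
    rw [← hu k]; exact (u₀ k).2
  have hH2 : H ∈ IntermediateField.adjoin ℂ ({s} : Set L) := by
    rw [← hH]; exact v₀.2
  simp only [hu, hH] at h1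
  choose m g v hv hg hug using fun k => s1_dec htr (hu2 k) (hu1 k)
  have hlog : ∀ k, D (u k) / (u k) = (m k : L) / s + D (g k) * (g k)⁻¹ := by
    intro k
    have hg0 := s1_reg_ne htr (hv k) (hg k)
    rw [hug k, Derivation.leibniz, Derivation.leibniz_zpow, hs]
    simp only [smul_eq_mul, zsmul_eq_mul]
    rw [zpow_sub_one₀ hs0]
    have hz : s ^ (m k) ≠ 0 := zpow_ne_zero _ hs0
    field_simp
    ring
  choose w hw using fun k => s1_reg_deriv D hs (hg k)
  have hfinal := s1_resid htr D hs hH2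
    (γ := (n : ℂ) * θ 0 + ∑ k : Fin r, (m k : ℂ) * θ (Fin.succ k))
    (s1_reg_sum Finset.univ (fun k => algebraMap ℂ L (θ (Fin.succ k)) * (D (g k) * (g k)⁻¹)) _
      (fun k _ => s1_reg_mul (s1_reg_C _) (s1_reg_mul (hw k) (s1_reg_inv htr (hv k) (hg k))))) (by
      have h2 : D H = (n : L) * (algebraMap ℂ L (θ 0) / s) +
          ∑ k : Fin r, (algebraMap ℂ L (θ (Fin.succ k))) * (D (u k) / (u k)) := by
        rw [h1]
        simp only [neg_mul]
        rw [Finset.sum_neg_distrib]
        ring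
      rw [h2]
      simp only [hlog]
      simp only [mul_add, Finset.sum_add_distrib, map_add, map_sum, map_mul, map_natCast,
        map_intCast, add_div, Finset.sum_div]
      rw [← add_assoc]
      congr 2
      · ring
      · refine Finset.sum_congr rfl (fun k _ => ?_)
        ring)
  have hlin := Fintype.linearIndependent_iff.mp hθ (Fin.cons (n : ℚ) (fun k => (m k : ℚ))) (by
    rw [Fin.sum_univ_succ]
    simp only [Fin.cons_zero, Fin.cons_succ]
    rw [← hfinal]
    simp [Rat.smul_def]) 0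
  simp only [Fin.cons_zero] at hlin
  have : n = 0 := by exact_mod_cast hlin
  omega

/-- Row Z6-S1b. The main algebraic lemma. PROOF. `s` is transcendental over `ℂ` (`D` vanishes on algebraic elements); replace `D` by `(D s)⁻¹ • D`, so `D s = 1`. Let `E = ℂ(s) = IntermediateField.adjoin ℂ {s}` (isomorphic to `RatFunc ℂ`, `D` corresponds to the usual derivation: quotient rule) and let `L1` be the finite extension of `E`
generated by `h` and the `S k`; `D` maps `L1` into itself. Take the norm and the trace from `L1` to `E` (or go to a Galois closure `L2` of `L1 / E`, to which `D` extends uniquely and commutes with the automorphisms; see `Mathlib/FieldTheory/Differential/Liouville.lean`, `Differential.logDeriv`, where exactly this is done):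
`D (Tr h) = θ_0 • (D (N s) / N s) + ∑ θ_k • (D (N (S k)) / N (S k))` with `N s = s ^ e`, `e = [L1 : E] ≥ 1`. All terms are in `E`: contradiction with S1a. (`D` is a derivation over `ℂ`, so it vanishes on constants.) -/
theorem no_log {L : Type} [Field L] [Algebra ℂ L] (D : Derivation ℂ L L) {s : L} (hs : D s ≠ 0) {r : ℕ}
    (S : Fin r → L) (hS0 : ∀ k, S k ≠ 0)
    (hS : ∀ k, IsAlgebraic (IntermediateField.adjoin ℂ ({s} : Set L)) (S k)) {h : L}
    (hh : IsAlgebraic (IntermediateField.adjoin ℂ ({s} : Set L)) h) (θ : Fin (r + 1) → ℂ)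
    (hθ : LinearIndependent ℚ θ) (heq : D h = θ 0 • (D s / s) + ∑ k, θ k.succ • (D (S k) / S k)) : False := by
  refine s1_main ((D s)⁻¹ • D) (s := s) (by simp [hs]) S hS0 hS hh θ hθ ?_
  simp only [Derivation.smul_apply, smul_eq_mul]
  rw [heq, mul_add, Finset.mul_sum]
  congr 1
  · simp only [Algebra.smul_def]
    ring
  · refine Finset.sum_congr rfl (fun k _ => ?_)
    simp only [Algebra.smul_def]
    ring

end Pool.Agent.Z6

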